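import Mathlib

/-!
Project HV (MP_b8729f_co): the exact Havet-Yu bound for all `p ≥ C Δ^(3/4) (log Δ)^(1/4)`.
Definitions. Paper proof: /team-store/H2_b8729f_HV.md.
-/

set_option autoImplicit false
set_option linter.unusedVariables false

namespace Pool.Agent.H2.HV

open Finset

/-- Indicator of a proposition, as a real number. -/
noncomputable def ind (p : Prop) : ℝ := @ite ℝ p (Classical.propDecidable p) 1 0

theorem ind_pos {p : Prop} (h : p) : ind p = 1 := by simp [ind, h]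
theorem ind_neg {p : Prop} (h : ¬ p) : ind p = 0 := by simp [ind, h]
theorem ind_nonneg (p : Prop) : 0 ≤ ind p := by
  by_cases h : p
  · rw [ind_pos h]; norm_num
  · rw [ind_neg h]
theorem ind_le_one (p : Prop) : ind p ≤ 1 := by
  by_cases h : p
  · rw [ind_pos h]
  · rw [ind_neg h]; norm_num
theorem ind_and (p q : Prop) : ind (p ∧ q) = ind p * ind q := by
  by_cases h : p <;> by_cases h' : q <;> simp [ind, h, h']
theorem ind_mono {p q : Prop} (h : p → q) : ind p ≤ ind q := by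
  by_cases hp : p
  · rw [ind_pos hp, ind_pos (h hp)]
  · rw [ind_neg hp]; exact ind_nonneg q
theorem ind_congr {p q : Prop} (h : p ↔ q) : ind p = ind q := by
  rw [propext h]

/-- A family of probability vectors. -/
structure IsW {I κ : Type} [Fintype κ] (μ : I → κ → ℝ) : Prop where
  nonneg : ∀ i k, 0 ≤ μ i k
  sum : ∀ i, ∑ k, μ i k = 1

/-- Expectation with respect to the product weights. -/
noncomputable def Ex {I κ : Type} [Fintype I] [Fintype κ] (μ : I → κ → ℝ)
    (F : (I → κ) → ℝ) : ℝ := by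
  classical exact ∑ f : I → κ, (∏ i, μ i (f i)) * F f

/-- Probability with respect to the product weights. -/
noncomputable def Pr {I κ : Type} [Fintype I] [Fintype κ] (μ : I → κ → ℝ)
    (A : (I → κ) → Prop) : ℝ := Ex μ (fun f => ind (A f))

/-- The uniform weights on `Bool`. -/
noncomputable def half (J : Type) : J → Bool → ℝ := fun _ _ => 1 / 2

/-! ### The kernel -/

/-- Unnormalised kernel: block `j` counts if `ξ j = true` (the sides differ), the star counts half. -/
noncomputable def num {J : Type} (π : Option J → ℝ) (ξ : J → Bool) : Option J → ℝ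
  | none => π none / 2
  | some j => ind (ξ j = true) * π (some j)

noncomputable def Xk {J : Type} [Fintype J] (π : Option J → ℝ) (ξ : J → Bool) : ℝ :=
  ∑ t, num π ξ t

noncomputable def xk {J : Type} [Fintype J] (π : Option J → ℝ) (ξ : J → Bool) (t : Option J) : ℝ :=
  num π ξ t / Xk π ξ

noncomputable def xh {J : Type} [Fintype J] (π : Option J → ℝ) (ξ : J → Bool) (t : Option J) : ℝ :=
  num π ξ t / max (Xk π ξ) (1 / 4)

/-! ### Mean-field schedules -/

/-- The type of a vertex: its class and its side in every block. -/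
abbrev Ty (A B J : Type) := (A ⊕ B) × (J → Bool)

/-- A mean-field schedule: tight classes `A`, slack classes `B`, blocks `J`. -/
structure MS (A B J : Type) where
  /-- masses -/
  M : A ⊕ B → ℝ
  /-- the mass of a slack class -/
  be : ℝ
  /-- block `j` is fully available for the class -/
  el : A ⊕ B → J → Prop
  /-- the star block is available for the class -/
  st : A ⊕ B → Prop
  /-- mean distribution of the edges between two classes (`none` = star block) -/
  pi : A ⊕ B → A ⊕ B → Option J → ℝ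
  /-- the unit of a tight class -/
  un : A → B
  /-- the middle blocks of a tight class -/
  mid : A → J → Prop

variable {A B J V : Type}

/-- availability of a block or of the star -/
def MS.elT (D : MS A B J) (c : A ⊕ B) : Option J → Prop
  | none => D.st c
  | some j => D.el c j

/-- a tight class and its unit -/
def MS.zp (D : MS A B J) (c c' : A ⊕ B) : Prop :=
  ∃ a, (c = Sum.inl a ∧ c' = Sum.inr (D.un a)) ∨ (c' = Sum.inl a ∧ c = Sum.inr (D.un a))

/-- the fraction of the edges between two classes that is not used in the boundary zone -/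
noncomputable def MS.tau (D : MS A B J) (z : ℕ) (c c' : A ⊕ B) : ℝ :=
  1 - ind (D.zp c c') * ((z + 1) / D.be)

/-- capacity of a block / of the star -/
def cap (W S : ℕ) : Option J → ℝ
  | none => (S : ℝ) - 1
  | some _ => W

/-- mean load of a vertex of class `c` -/
noncomputable def MS.Lam [Fintype A] [Fintype B] (D : MS A B J) (z : ℕ) (c : A ⊕ B)
    (t : Option J) : ℝ := ∑ c', D.M c' * (D.tau z c c' * D.pi c c' t)

def isA (c : A ⊕ B) : Prop := ∃ a, c = Sum.inl a
def isB (c : A ⊕ B) : Prop := ∃ b, c = Sum.inr b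

/-- The numerical conditions. `c = p / n`, `W / n ≤ c² / 10^8`. -/
structure Num (n W S z : ℕ) (c : ℝ) : Prop where
  hn : 100 ≤ n
  c0 : 0 < c
  c1 : c ≤ 1 / 10 ^ 5
  om : (W : ℝ) ≤ c ^ 2 / 10 ^ 8 * n
  W1 : 10 ^ 13 * Real.log n ≤ c ^ 2 * W
  W2 : 1000 * Real.log n * W ≤ n
  S0 : W ≤ S
  S1 : S < 2 * W
  z0 : W ≤ z
  z1 : z < 2 * W

/-- The conditions on a mean-field schedule. -/
structure MS.Ok [Fintype A] [Fintype B] [Fintype J] (D : MS A B J) (n W S z : ℕ) (c : ℝ) :
    Prop where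
  M_pos : ∀ k, 0 < D.M k
  M_sum : ∑ k, D.M k = n
  M_A : ∀ a, D.M (Sum.inl a) ≤ W * (1 - c / 5)
  M_B : ∀ b, D.M (Sum.inr b) = D.be
  be_lo : 7 * (W : ℝ) ≤ D.be
  be_hi : D.be ≤ 9 * W
  symm : ∀ k k' t, D.pi k k' t = D.pi k' k t
  nonneg : ∀ k k' t, 0 ≤ D.pi k k' t
  sum_one : ∀ k k', ∑ t, D.pi k k' t = 1
  pi_le : ∀ k k' j, D.pi k k' (some j) ≤ 3 * ((W : ℝ) / n)
  pi_star_le : ∀ k k', D.pi k k' none ≤ 6 * ((W : ℝ) / n)
  sup : ∀ k k' t, ¬ (D.elT k t ∧ D.elT k' t) → D.pi k k' t = 0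
  st_A : ∀ a, D.st (Sum.inl a)
  tight : ∀ a t, D.elT (Sum.inl a) t → D.Lam z (Sum.inl a) t = cap W S t
  slack : ∀ b t, D.elT (Sum.inr b) t → D.Lam z (Sum.inr b) t ≤ cap W S t * (1 - c / 10)
  low : ∀ a b t, D.elT (Sum.inl a) t → D.elT (Sum.inr b) t →
    ((W : ℝ) / n) / 3 ≤ D.pi (Sum.inl a) (Sum.inr b) t
  mid_el : ∀ a j, D.mid a j → D.el (Sum.inl a) j
  mid_card : ∀ a, 1 / (2 * ((W : ℝ) / n)) ≤ ∑ j, ind (D.mid a j)
  hub : ∀ a t j, D.elT (Sum.inl a) t → D.mid a j →
    n * c / 10 ≤ ∑ b, ind (D.elT (Sum.inr b) t ∧ D.el (Sum.inr b) j) * D.be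
  card_le : Fintype.card A + Fintype.card B ≤ n
  cardJ : (Fintype.card J : ℝ) + 1 ≤ 2 / ((W : ℝ) / n)

/-- the kernel between two types -/
noncomputable def xx [Fintype J] (D : MS A B J) (k k' : Ty A B J) (t : Option J) : ℝ :=
  xk (D.pi k.1 k'.1) (fun j => xor (k.2 j) (k'.2 j)) t

noncomputable def xxh [Fintype J] (D : MS A B J) (k k' : Ty A B J) (t : Option J) : ℝ :=
  xh (D.pi k.1 k'.1) (fun j => xor (k.2 j) (k'.2 j)) t

noncomputable def XX [Fintype J] (D : MS A B J) (k k' : Ty A B J) : ℝ :=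
  Xk (D.pi k.1 k'.1) (fun j => xor (k.2 j) (k'.2 j))

/-- `t` can be used for an edge between vertices of types `k`, `k'` -/
def cp (D : MS A B J) (k k' : Ty A B J) (t : Option J) : Prop :=
  D.elT k.1 t ∧ D.elT k'.1 t ∧ ∀ j, t = some j → k.2 j ≠ k'.2 j

/-- same kind: both tight or both slack -/
def sm (k k' : Ty A B J) : Prop := (isA k.1 ∧ isA k'.1) ∨ (isB k.1 ∧ isB k'.1)

/-- `G` is `n`-regular -/
def Reg [Fintype V] (G : SimpleGraph V) (n : ℕ) : Prop := ∀ v, ∑ u, ind (G.Adj v u) = n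

/-- the weights of stage 1 -/
noncomputable def mu1 [Fintype J] (D : MS A B J) (n : ℕ) : V → Ty A B J → ℝ :=
  fun _ k => D.M k.1 / n / 2 ^ (Fintype.card J)

/-- `n^(-10)` -/
noncomputable def tiny (n : ℕ) : ℝ := Real.exp (-(10 * Real.log n))

/-- The outcome of stage 1. -/
structure Good1 [Fintype A] [Fintype B] [Fintype J] [Fintype V] (G : SimpleGraph V)
    (D : MS A B J) (n W z : ℕ) (c : ℝ) (ty : V → Ty A B J) : Prop where
  cnt : ∀ v k, |(∑ u, ind (G.Adj v u ∧ (ty u).1 = k)) - D.M k| ≤ c * W / 10 ^ 5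
  pair : ∀ v a, (ty v).1 = Sum.inl a → ∀ t, D.elT (Sum.inl a) t → ∀ j, D.mid a j →
    n * c / 50 ≤ ∑ u, ind (G.Adj v u ∧ isB (ty u).1 ∧ cp D (ty v) (ty u) t ∧
      cp D (ty v) (ty u) (some j))
  Xge : ∀ u v, G.Adj u v → 1 / 4 ≤ XX D (ty u) (ty v)
  load : ∀ v t, D.elT (ty v).1 t →
    |(∑ u, ind (G.Adj v u) * (D.tau z (ty v).1 (ty u).1 * xx D (ty v) (ty u) t))
      - D.Lam z (ty v).1 t| ≤ c ^ 2 * W / 10 ^ 5

/-- The labels of the edges after rounding: `none` = zone, `some none` = star, `some (some j)` = block. -/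
abbrev Lab (J : Type) := Option (Option J)

/-- The outcome of the rounding. -/
structure Rl [Fintype V] (G : SimpleGraph V) (D : MS A B J) (W S z : ℕ) (nL : ℝ)
    (ty : V → Ty A B J) (al : V → V → Lab J) : Prop where
  symm : ∀ u v, al u v = al v u
  inA : ∀ v a, ∑ u, ind (G.Adj v u ∧ (ty u).1 = Sum.inl a) < W
  inB : ∀ v (Q : B → Prop), ∑ u, ind (G.Adj v u ∧ ∃ b, Q b ∧ (ty u).1 = Sum.inr b) ≤
    nL * Set.ncard {b | Q b}
  blk : ∀ u v t, G.Adj u v → al u v = some t → cp D (ty u) (ty v) t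
  zn : ∀ u v, G.Adj u v → al u v = none → D.zp (ty u).1 (ty v).1
  cap : ∀ v t, ∑ u, ind (G.Adj v u ∧ al v u = some t) ≤ cap W S t
  capz : ∀ v a, (ty v).1 = Sum.inl a → ∑ u, ind (G.Adj v u ∧ al v u = none) ≤ (z : ℝ) + 1
  capz' : ∀ v a, (ty v).1 = Sum.inr (D.un a) →
    ∑ u, ind (G.Adj v u ∧ (ty u).1 = Sum.inl a ∧ al v u = none) ≤ (z : ℝ) + 1

end Pool.Agent.H2.HV
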