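import Mathlib
import Pool.Agent.H2.HV.Defs

/-!
PRB: basic facts on the product weights (no sorry).
-/

set_option autoImplicit false
set_option linter.unusedVariables false
set_option linter.unusedSectionVars false

namespace Pool.Agent.H2.HV

open Finset

variable {I κ : Type} [Fintype I] [Fintype κ] {μ : I → κ → ℝ}

theorem ex_mono (hμ : IsW μ) {F G : (I → κ) → ℝ} (h : ∀ f, F f ≤ G f) : Ex μ F ≤ Ex μ G := by
  classical
  unfold Ex
  refine Finset.sum_le_sum (fun f _ => mul_le_mul_of_nonneg_left (h f) ?_)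
  exact Finset.prod_nonneg (fun i _ => hμ.nonneg i _)

theorem ex_congr {F G : (I → κ) → ℝ} (h : ∀ f, F f = G f) : Ex μ F = Ex μ G := by
  have : F = G := funext h
  rw [this]

theorem ex_nonneg (hμ : IsW μ) {F : (I → κ) → ℝ} (h : ∀ f, 0 ≤ F f) : 0 ≤ Ex μ F := by
  classical
  unfold Ex
  exact Finset.sum_nonneg (fun f _ => mul_nonneg (Finset.prod_nonneg (fun i _ => hμ.nonneg i _)) (h f))

theorem ex_add (F G : (I → κ) → ℝ) : Ex μ (fun f => F f + G f) = Ex μ F + Ex μ G := by
  classical
  unfold Ex
  rw [← Finset.sum_add_distrib]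
  exact Finset.sum_congr rfl (fun f _ => by ring)

theorem ex_sub (F G : (I → κ) → ℝ) : Ex μ (fun f => F f - G f) = Ex μ F - Ex μ G := by
  classical
  unfold Ex
  rw [← Finset.sum_sub_distrib]
  exact Finset.sum_congr rfl (fun f _ => by ring)

theorem ex_smul (a : ℝ) (F : (I → κ) → ℝ) : Ex μ (fun f => a * F f) = a * Ex μ F := by
  classical
  unfold Ex
  rw [Finset.mul_sum]
  exact Finset.sum_congr rfl (fun f _ => by ring)

theorem ex_sum {X : Type} (s : Finset X) (F : X → (I → κ) → ℝ) :
    Ex μ (fun f => ∑ x ∈ s, F x f) = ∑ x ∈ s, Ex μ (F x) := by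
  classical
  unfold Ex
  rw [Finset.sum_comm]
  exact Finset.sum_congr rfl (fun f _ => by rw [Finset.mul_sum])

/-- expectation of a product of functions of the coordinates -/
theorem ex_prod (g : I → κ → ℝ) :
    Ex μ (fun f => ∏ i, g i (f i)) = ∏ i, ∑ k, μ i k * g i k := by
  classical
  unfold Ex
  rw [Fintype.prod_sum]
  refine Finset.sum_congr rfl (fun f _ => ?_)
  rw [Finset.prod_mul_distrib]

theorem ex_const (hμ : IsW μ) (a : ℝ) : Ex μ (fun _ => a) = a := by
  classical
  have h := ex_prod (μ := μ) (fun _ _ => (1:ℝ))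
  simp only [Finset.prod_const_one, mul_one] at h
  have h1 : Ex μ (fun _ => a) = a * Ex μ (fun _ => (1:ℝ)) := by
    rw [← ex_smul]
    simp
  rw [h1, h, Finset.prod_congr rfl (fun i _ => hμ.sum i)]
  simp

/-- expectation of a function of one coordinate -/
theorem ex_coord (hμ : IsW μ) (i : I) (g : κ → ℝ) :
    Ex μ (fun f => g (f i)) = ∑ k, μ i k * g k := by
  classical
  have h := ex_prod (μ := μ) (fun j k => if j = i then g k else 1)
  have h1 : ∀ f : I → κ, (∏ j, if j = i then g (f j) else 1) = g (f i) := by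
    intro f
    rw [Finset.prod_ite_eq' Finset.univ i (fun j => g (f j))]
    simp
  rw [ex_congr (fun f => h1 f)] at h
  rw [h]
  have h2 : ∀ j, (∑ k, μ j k * if j = i then g k else 1) =
      if j = i then ∑ k, μ i k * g k else 1 := by
    intro j
    by_cases hj : j = i
    · subst hj; simp
    · simp [hj, hμ.sum j]
  rw [Finset.prod_congr rfl (fun j _ => h2 j), Finset.prod_ite_eq']
  simp

theorem pr_nonneg (hμ : IsW μ) (A : (I → κ) → Prop) : 0 ≤ Pr μ A :=
  ex_nonneg hμ (fun f => ind_nonneg _)

theorem pr_mono (hμ : IsW μ) {A B : (I → κ) → Prop} (h : ∀ f, A f → B f) : Pr μ A ≤ Pr μ B :=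
  ex_mono hμ (fun f => ind_mono (h f))

theorem pr_le_one (hμ : IsW μ) (A : (I → κ) → Prop) : Pr μ A ≤ 1 := by
  have := ex_mono hμ (F := fun f => ind (A f)) (G := fun _ => (1:ℝ)) (fun f => ind_le_one _)
  rwa [ex_const hμ] at this

theorem pr_false (A : (I → κ) → Prop) (h : ∀ f, ¬ A f) : Pr μ A = 0 := by
  classical
  unfold Pr Ex
  exact Finset.sum_eq_zero (fun f _ => by simp only [ind_neg (h f), mul_zero])

theorem pr_or (hμ : IsW μ) (A B : (I → κ) → Prop) :
    Pr μ (fun f => A f ∨ B f) ≤ Pr μ A + Pr μ B := by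
  unfold Pr
  rw [← ex_add]
  refine ex_mono hμ (fun f => ?_)
  by_cases hA : A f
  · rw [ind_pos (Or.inl hA), ind_pos hA]
    have := ind_nonneg (B f)
    linarith
  · by_cases hB : B f
    · rw [ind_pos (Or.inr hB), ind_pos hB, ind_neg hA]; norm_num
    · rw [ind_neg (not_or.2 ⟨hA, hB⟩), ind_neg hA, ind_neg hB]; norm_num

/-- union bound -/
theorem pr_exists (hμ : IsW μ) {X : Type} [Fintype X] (A : X → (I → κ) → Prop) :
    Pr μ (fun f => ∃ x, A x f) ≤ ∑ x, Pr μ (A x) := by
  unfold Pr
  rw [← ex_sum]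
  refine ex_mono hμ (fun f => ?_)
  by_cases h : ∃ x, A x f
  · obtain ⟨x, hx⟩ := h
    rw [ind_pos ⟨x, hx⟩]
    have := Finset.single_le_sum (f := fun x => ind (A x f)) (fun x _ => ind_nonneg _)
      (Finset.mem_univ x)
    rw [ind_pos hx] at this
    exact this
  · rw [ind_neg h]
    exact Finset.sum_nonneg (fun x _ => ind_nonneg _)

/-- union bound with a common bound -/
theorem pr_exists_le (hμ : IsW μ) {X : Type} [Fintype X] (A : X → (I → κ) → Prop) (q : ℝ)
    (h : ∀ x, Pr μ (A x) ≤ q) : Pr μ (fun f => ∃ x, A x f) ≤ Fintype.card X * q := by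
  refine (pr_exists hμ A).trans ?_
  refine (Finset.sum_le_sum (fun x _ => h x)).trans (le_of_eq ?_)
  rw [Finset.sum_const, Finset.card_univ, nsmul_eq_mul]

theorem pr_coord (hμ : IsW μ) (i : I) (P : κ → Prop) :
    Pr μ (fun f => P (f i)) = ∑ k, μ i k * ind (P k) :=
  ex_coord hμ i (fun k => ind (P k))

/-- Markov -/
theorem pr_le_ex (hμ : IsW μ) (A : (I → κ) → Prop) (F : (I → κ) → ℝ)
    (h : ∀ f, ind (A f) ≤ F f) : Pr μ A ≤ Ex μ F := ex_mono hμ h

/-- Conditioning on one coordinate: if `A k f` does not depend on `f i` and has probability at most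
`q` for every `k`, then `A (f i) f` has probability at most `q`. -/
theorem pr_cond (hμ : IsW μ) (i : I) (A : κ → (I → κ) → Prop)
    (hA : ∀ k f g, (∀ x, x ≠ i → f x = g x) → A k f → A k g) (q : ℝ)
    (h : ∀ k, Pr μ (A k) ≤ q) : Pr μ (fun f => A (f i) f) ≤ q := by
  classical
  -- Pr (A (f i) f) = Σ_k Pr (f i = k ∧ A k f) = Σ_k μ i k * Pr (A k)
  have hiff : ∀ k (f : I → κ) (k' : κ), A k f ↔ A k (Function.update f i k') := by
    intro k f k'
    constructor
    · exact hA k f _ (fun x hx => by rw [Function.update_of_ne hx])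
    · exact hA k _ f (fun x hx => by rw [Function.update_of_ne hx])
  have key : ∀ k, Ex μ (fun f => ind (f i = k) * ind (A k f)) = μ i k * Pr μ (A k) := by
    intro k
    -- average over the value of the coordinate i
    have swap : ∀ (F : (I → κ) → ℝ),
        (∑ f : I → κ, (∏ j, μ j (f j)) * F f) =
          ∑ f : I → κ, (∏ j, μ j (f j)) * ∑ k', μ i k' * F (Function.update f i k') := by
      intro F
      have e1 : ∀ f : I → κ, (∏ j, μ j (f j)) * ∑ k', μ i k' * F (Function.update f i k') =
          ∑ k', (∏ j, μ j (f j)) * (μ i k' * F (Function.update f i k')) := by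
        intro f; rw [Finset.mul_sum]
      rw [Finset.sum_congr rfl (fun f _ => e1 f), ← Finset.sum_product',
        ← Finset.univ_product_univ.symm]
      have e2 : (∑ f : I → κ, (∏ j, μ j (f j)) * F f) =
          ∑ q : (I → κ) × κ, (∏ j, μ j (q.1 j)) * (μ i q.2 * F q.1) := by
        rw [Fintype.sum_prod_type]
        refine Finset.sum_congr rfl (fun f _ => ?_)
        simp only
        rw [← Finset.mul_sum, ← Finset.sum_mul, hμ.sum i, one_mul]
      rw [e2]
      refine Finset.sum_nbij' (fun q : (I → κ) × κ => (Function.update q.1 i q.2, q.1 i))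
        (fun q => (Function.update q.1 i q.2, q.1 i)) (by simp) (by simp) ?_ ?_ ?_
      · rintro ⟨f, k'⟩ _
        simp
      · rintro ⟨f, k'⟩ _
        simp
      · rintro ⟨f, k'⟩ _
        simp only [Function.update_idem, Function.update_eq_self]
        have e3 : ∀ (g : I → κ), (∏ j, μ j (g j)) = μ i (g i) * ∏ j ∈ Finset.univ.erase i, μ j (g j) := by
          intro g
          rw [Finset.mul_prod_erase Finset.univ (fun j => μ j (g j)) (Finset.mem_univ i)]
        rw [e3 f, e3 (Function.update f i k')]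
        have e4 : ∏ j ∈ Finset.univ.erase i, μ j (Function.update f i k' j) =
            ∏ j ∈ Finset.univ.erase i, μ j (f j) := by
          refine Finset.prod_congr rfl (fun j hj => ?_)
          rw [Function.update_of_ne (Finset.ne_of_mem_erase hj)]
        rw [e4, Function.update_self]
        ring
    unfold Pr Ex
    rw [swap (fun f => ind (f i = k) * ind (A k f)), Finset.mul_sum]
    refine Finset.sum_congr rfl (fun f _ => ?_)
    have e5 : ∀ k', μ i k' * (ind (Function.update f i k' i = k) * ind (A k (Function.update f i k'))) =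
        if k' = k then μ i k * ind (A k f) else 0 := by
      intro k'
      rw [Function.update_self, ← ind_congr (hiff k f k')]
      by_cases hk : k' = k
      · subst hk; rw [ind_pos rfl, if_pos rfl]; ring
      · rw [ind_neg hk, if_neg hk]; ring
    rw [Finset.sum_congr rfl (fun k' _ => e5 k'), Finset.sum_ite_eq' Finset.univ k]
    simp
    ring
  have hdec : Pr μ (fun f => A (f i) f) = ∑ k, μ i k * Pr μ (A k) := by
    rw [Finset.sum_congr rfl (fun k _ => (key k).symm), ← ex_sum]
    unfold Pr
    refine ex_congr (fun f => ?_)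
    have e6 : ∀ k, ind (f i = k) * ind (A k f) = if f i = k then ind (A (f i) f) else 0 := by
      intro k
      by_cases hk : f i = k
      · subst hk; rw [ind_pos rfl, if_pos rfl, one_mul]
      · rw [ind_neg hk, if_neg hk, zero_mul]
    rw [Finset.sum_congr rfl (fun k _ => e6 k), Finset.sum_ite_eq]
    simp
  rw [hdec]
  calc ∑ k, μ i k * Pr μ (A k) ≤ ∑ k, μ i k * q :=
        Finset.sum_le_sum (fun k _ => mul_le_mul_of_nonneg_left (h k) (hμ.nonneg i k))
    _ = q := by rw [← Finset.sum_mul, hμ.sum i, one_mul]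

/-- counting with `ind` -/
theorem sum_ind_eq_ncard {U : Type} [Fintype U] (P : U → Prop) :
    ∑ u, ind (P u) = (Set.ncard {u | P u} : ℝ) := by
  classical
  have h1 : ∀ u, ind (P u) = if P u then (1:ℝ) else 0 := by
    intro u
    by_cases h : P u
    · rw [ind_pos h, if_pos h]
    · rw [ind_neg h, if_neg h]
  rw [Finset.sum_congr rfl (fun u _ => h1 u), Finset.sum_boole, Set.ncard_eq_toFinset_card']
  congr 2
  ext u
  simp

theorem half_isW {J : Type} : IsW (half J) where
  nonneg := fun _ _ => by unfold half; norm_num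
  sum := fun _ => by unfold half; simp

/-- the expectation with respect to `half` is the average over all functions to `Bool` -/
theorem ex_half {J : Type} [Fintype J] [DecidableEq J] (F : (J → Bool) → ℝ) :
    Ex (half J) F = (∑ ξ : J → Bool, F ξ) / 2 ^ (Fintype.card J) := by
  unfold Ex half
  have h1 : ∀ f : J → Bool, (∏ i : J, (1:ℝ) / 2) * F f = F f * (1 / 2) ^ (Fintype.card J) := by
    intro f
    rw [Finset.prod_const, Finset.card_univ]
    ring
  rw [Finset.sum_congr rfl (fun f _ => h1 f), ← Finset.sum_mul, one_div, inv_pow, div_eq_mul_inv]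
  congr 1
  refine Finset.sum_congr ?_ (fun _ _ => rfl)
  ext f
  simp

end Pool.Agent.H2.HV
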