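import Mathlib
import Pool.Agent.H2.HV.PRB

/-!
CLD: definitions for the colouring and the assembly (no sorry).
-/

set_option autoImplicit false
set_option linter.unusedVariables false

namespace Pool.Agent.H2.HV

open Finset

variable {A B J V : Type}

/-- Colours of the edges inside the blocks, the star and the zones, and offsets of the vertices.
`Q` is the side of a slack class. -/
structure Col (G : SimpleGraph V) (W S z len : ℕ) (Q : B → Prop) (ty : V → Ty A B J)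
    (al : V → V → Lab J) (col : V → V → ℕ) (cv : V → ℕ) : Prop where
  symm : ∀ u v, col u v = col v u
  blk : ∀ u v j, G.Adj u v → al u v = some (some j) → col u v < W
  star : ∀ u v, G.Adj u v → al u v = some none → col u v < S
  zone : ∀ u v, G.Adj u v → al u v = none → col u v < z + 1
  prop : ∀ u v w t, G.Adj u v → G.Adj u w → v ≠ w → al u v = some t → al u w = some t →
    col u v ≠ col u w
  propz : ∀ u v w, G.Adj u v → G.Adj u w → v ≠ w → al u v = none → al u w = none →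
    (isA (ty u).1 ∨ (ty v).1 = (ty w).1) → col u v ≠ col u w
  cvA : ∀ v a, (ty v).1 = Sum.inl a → cv v < W
  cvB : ∀ v b, (ty v).1 = Sum.inr b → cv v < len
  prA : ∀ u v a, G.Adj u v → (ty u).1 = Sum.inl a → (ty v).1 = Sum.inl a → cv u ≠ cv v
  prB : ∀ u v b b', G.Adj u v → (ty u).1 = Sum.inr b → (ty v).1 = Sum.inr b' → (Q b ↔ Q b') →
    cv u ≠ cv v

/-- The geometry of the concrete schedule: tight classes `i < K`, slack classes
`(true, r)` (H) and `(false, r)` (L), blocks `j < K + P`. -/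
structure Geo (n p W S z P K R jL len : ℕ) (D : MS (Fin K) (Bool × Fin R) (Fin (K + P))) :
    Prop where
  elA : ∀ (i : Fin K) (j : Fin (K + P)), D.el (Sum.inl i) j →
    ¬ ((i : ℕ) ≤ (j : ℕ) ∧ (j : ℕ) ≤ i + P)
  elL : ∀ r (j : Fin (K + P)), D.el (Sum.inr (false, r)) j → jL ≤ (j : ℕ)
  elH : ∀ r (j : Fin (K + P)), D.el (Sum.inr (true, r)) j → (j : ℕ) + jL < K + P
  elU : ∀ (i : Fin K) (j : Fin (K + P)), D.el (Sum.inr (D.un i)) j →
    (j : ℕ) ≠ i ∧ (j : ℕ) + 1 ≠ i + P ∧ (j : ℕ) ≠ i + P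
  st : ∀ s r, D.st (Sum.inr (s, r)) → s = true
  un : ∀ i : Fin K, (D.un i).1 = true ↔ 2 * (i : ℕ) < K
  sep : ∀ i i' : Fin K, i ≠ i' → D.un i = D.un i' →
    (i : ℕ) ≠ i' + P ∧ (i : ℕ) + 1 ≠ i' + P ∧ (i : ℕ) ≠ i' + 1 ∧
    (i' : ℕ) ≠ i + P ∧ (i' : ℕ) + 1 ≠ i + P ∧ (i' : ℕ) ≠ i + 1
  hJ : S + (K + P) * W = n + 2 * p
  hz : z + 2 * p = (P + 1) * W
  S0 : W ≤ S
  W0 : 1 ≤ W
  z0 : W ≤ z
  z1 : z < 2 * W
  zp : z + 1 < 2 * p
  P3 : 3 ≤ P
  len0 : len ≤ p
  jl : p + len ≤ jL * W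
  midH : ∀ i : ℕ, 2 * i < K → i + 1 + jL ≤ K
  midL : ∀ i : ℕ, K ≤ 2 * i → jL ≤ i
  hlen : 1 ≤ len

/-- vertex labels -/
def vLab {K R : ℕ} (n p W S : ℕ) : (Fin K ⊕ (Bool × Fin R)) → ℕ → ℕ
  | Sum.inl i, c => p + S + i * W + c
  | Sum.inr (false, _), c => c
  | Sum.inr (true, _), c => n + 2 * p - 1 - c

/-- edge labels: `i`, `x` are the index and the offset of the tight end (used in the zone only) -/
def eLab {Jn : ℕ} (p W S : ℕ) (l : Lab (Fin Jn)) (col i x : ℕ) : ℕ :=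
  match l with
  | some none => col
  | some (some j) => S + j * W + col
  | none => if col ≤ x then S + i * W + col else S + i * W + col + (2 * p - 1)

/-- index of a tight class (0 for slack classes) -/
def tIdx {K R : ℕ} : (Fin K ⊕ (Bool × Fin R)) → ℕ
  | Sum.inl i => i
  | Sum.inr _ => 0

/-- The label of the edge `uv`: the tight end is `u` if `u` is tight, and `v` otherwise. -/
noncomputable def EL {K R P : ℕ} (p W S : ℕ) (ty : V → Ty (Fin K) (Bool × Fin R) (Fin (K + P)))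
    (al : V → V → Lab (Fin (K + P))) (col : V → V → ℕ) (cv : V → ℕ) (u v : V) : ℕ :=
  @ite ℕ (isA (ty u).1) (Classical.propDecidable _)
    (eLab p W S (al u v) (col u v) (tIdx (ty u).1) (cv u))
    (eLab p W S (al u v) (col u v) (tIdx (ty v).1) (cv v))

/-- A `(p,1)`-total labelling with labels `0..n+2p-1`. -/
def HYL (G : SimpleGraph V) (n p : ℕ) : Prop :=
  ∃ (fV : V → ℕ) (fE : V → V → ℕ),
    (∀ u v, fE u v = fE v u) ∧
    (∀ v : V, fV v ≤ n + 2 * p - 1) ∧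
    (∀ u v, G.Adj u v → fE u v ≤ n + 2 * p - 1) ∧
    (∀ u v : V, G.Adj u v → fV u ≠ fV v) ∧
    (∀ u v : V, G.Adj u v → fV u + p ≤ fE u v ∨ fE u v + p ≤ fV u) ∧
    (∀ u v w : V, G.Adj u v → G.Adj u w → v ≠ w → fE u v ≠ fE u w)

end Pool.Agent.H2.HV
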