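import Mathlib
import Pool.Agent.H2.HV.CLD

/-!
ASD (about 220 lines). Distances and range.

Cases on the class of u and on al u v.
u tight, class i, x = cv u < W, label f = p + S + iW + x:
 al = some (some j): j not in [i,i+P] (Geo.elA, Rl.blk): j < i: label < S + (j+1)W ≤ S + iW ≤ f - p; j > i+P: label ≥ S + (i+P+1)W = S + iW + z + 2p ≥ f + p (z ≥ W > x).
 al = some none: label < S ≤ f - p. al = none: EL u v uses (i, x) of u itself: col ≤ x: label = S+iW+col ≤ f - p; col > x: S+iW+col+2p-1 ≥ f + p.
u in L (label x < len): some (some j): jL ≤ j: label ≥ jL W ≥ p + len > x + p. some none: impossible (Geo.st). none: v is tight of class i' with un i' = class of u (Rl.zn, zp; u slack):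
 (un i').1 = false so K ≤ 2 i', jL ≤ i' (midL), label ≥ S + i' W ≥ p + len.
u in H (label n+2p-1-x, x < len): some (some j): j + jL < K+P: label ≤ S + (j+1)W - 1 ≤ S + (K+P)W - jL W - 1 ≤ n + 2p - (p+len) - 1 = n + p - len - 1. some none: label < S ≤ n + p - len
 (S + (K+P) W = n+2p, (K+P) W ≥ jL W ≥ p + len since K ≥ 1 + jL by midH with i = 0, if K ≥ 1; K = 0 has no tight vertices, but star edges may exist: (K+P)W ≥ ... if K = 0, then midL 0 gives jL ≤ 0,
 contradiction with jl, hlen). none: i' with 2i' < K: label ≤ S + (i'+P+1)W - 1 ≤ S + (K+P)W - jL W - 1 (midH).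
Range: all edge labels ≤ S + (K+P)W - 1 = n+2p-1; zone labels ≤ S+iW+z+2p-1 = S + (i+P+1)W - 1. vertex labels: tight: p+S+iW+x ≤ p + S + KW - 1 ≤ n + 2p - 1 (PW ≥ p as P W + W = z+2p-... use hz, z<2W).
vertex properness: same class: Col.prA, prB; tight classes i ≠ i': disjoint intervals; L < len ≤ p ≤ tight; tight ≤ p+S+KW-1 = n+3p-PW-1 < n + 2p - len ≤ H labels; (PW = z + 2p - W ≥ 2p ≥ p + len).
-/

set_option autoImplicit false
set_option linter.unusedVariables false

namespace Pool.Agent.H2.HV

open Finset

variable {V : Type} [Fintype V] {n p W S z P K R jL len : ℕ}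
variable {D : MS (Fin K) (Bool × Fin R) (Fin (K + P))} {G : SimpleGraph V}
variable {nL : ℝ} {ty : V → Ty (Fin K) (Bool × Fin R) (Fin (K + P))}
variable {al : V → V → Lab (Fin (K + P))} {col : V → V → ℕ} {cv : V → ℕ}

theorem ASD_notA (b : Bool × Fin R) : ¬ isA (Sum.inr b : Fin K ⊕ (Bool × Fin R)) := by
  rintro ⟨a, ha⟩
  cases ha

/-- the edge label when `u` is tight -/
theorem ASD_elA {u v : V} {i : Fin K} (h : (ty u).1 = Sum.inl i) :
    EL p W S ty al col cv u v = eLab p W S (al u v) (col u v) i (cv u) := by
  unfold EL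
  rw [if_pos ⟨i, h⟩, h]
  rfl

/-- the edge label when `u` is slack -/
theorem ASD_elB {u v : V} {b : Bool × Fin R} (h : (ty u).1 = Sum.inr b) :
    EL p W S ty al col cv u v = eLab p W S (al u v) (col u v) (tIdx (ty v).1) (cv v) := by
  unfold EL
  rw [if_neg]
  rw [h]
  exact ASD_notA b

theorem ASD_el_some {u v : V} {t : Option (Fin (K + P))} (h : al u v = some t) :
    EL p W S ty al col cv u v = eLab p W S (some t) (col u v) 0 0 := by
  unfold EL
  rw [h]
  cases t <;> split_ifs <;> rfl

theorem ASD_elZ {u v : V} {i : Fin K} (h : al u v = none) (hz : ((ty u).1 = Sum.inl i) ∨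
    ((ty v).1 = Sum.inl i ∧ ∃ b, (ty u).1 = Sum.inr b)) :
    S + i * W ≤ EL p W S ty al col cv u v ∧
      EL p W S ty al col cv u v ≤ S + i * W + col u v + (2 * p - 1) := by
  rcases hz with h1 | ⟨h1, b, h2⟩
  · rw [ASD_elA h1, h]
    show S + i * W ≤ (if col u v ≤ cv u then S + i * W + col u v else
      S + i * W + col u v + (2 * p - 1)) ∧ (if col u v ≤ cv u then S + i * W + col u v else
      S + i * W + col u v + (2 * p - 1)) ≤ S + i * W + col u v + (2 * p - 1)
    split_ifs <;> omega
  · rw [ASD_elB h2, h, h1]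
    show S + i * W ≤ (if col u v ≤ cv v then S + i * W + col u v else
      S + i * W + col u v + (2 * p - 1)) ∧ (if col u v ≤ cv v then S + i * W + col u v else
      S + i * W + col u v + (2 * p - 1)) ≤ S + i * W + col u v + (2 * p - 1)
    split_ifs <;> omega

theorem ASD_mul {a b W : ℕ} (h : a + 1 ≤ b) : a * W + W ≤ b * W := by
  have := Nat.mul_le_mul_right W h
  rwa [Nat.add_mul, Nat.one_mul] at this

theorem ASD_jl (hg : Geo n p W S z P K R jL len D) : p + len ≤ (K + P) * W := by
  have h1 : jL ≤ K + P := by
    by_cases hK : K = 0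
    · have h2 := hg.midL 0 (by omega)
      have h3 := hg.jl
      have h4 := hg.hlen
      have h5 : jL = 0 := by omega
      rw [h5] at h3
      omega
    · have h2 := hg.midH 0 (by omega)
      omega
  exact hg.jl.trans (Nat.mul_le_mul_right W h1)

theorem ASD_PW (hg : Geo n p W S z P K R jL len D) : 2 * p ≤ P * W := by
  have h1 := hg.hz
  have h2 := hg.z0
  rw [Nat.add_mul, Nat.one_mul] at h1
  omega

theorem ASD_zone (hR : Rl G D W S z nL ty al) {u v : V} (h : G.Adj u v) (hn : al u v = none) :
    ∃ i : Fin K, ((ty u).1 = Sum.inl i ∧ (ty v).1 = Sum.inr (D.un i)) ∨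
      ((ty v).1 = Sum.inl i ∧ (ty u).1 = Sum.inr (D.un i)) := by
  obtain ⟨a, ha⟩ := hR.zn u v h hn
  exact ⟨a, ha⟩

/-- upper bound for zone labels -/
theorem ASD_zup (hg : Geo n p W S z P K R jL len D)
    (hC : Col G W S z len (fun b : Bool × Fin R => b.1 = true) ty al col cv) {u v : V}
    (h : G.Adj u v) {i : Fin K} (hn : al u v = none) (hz : ((ty u).1 = Sum.inl i) ∨
    ((ty v).1 = Sum.inl i ∧ ∃ b, (ty u).1 = Sum.inr b)) :
    EL p W S ty al col cv u v + 1 ≤ S + ((i : ℕ) + P + 1) * W := by
  have h1 := (ASD_elZ (p := p) (W := W) (S := S) (col := col) (cv := cv) hn hz).2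
  have h2 := hC.zone u v h hn
  have h3 := hg.hz
  have h4 := hg.zp
  have h5 : ((i : ℕ) + P + 1) * W = i * W + (P + 1) * W := by ring
  omega

theorem el_symm (hR : Rl G D W S z nL ty al)
    (hC : Col G W S z len (fun b : Bool × Fin R => b.1 = true) ty al col cv) (u v : V)
    (h : G.Adj u v) : EL p W S ty al col cv u v = EL p W S ty al col cv v u := by
  by_cases hn : al u v = none
  · obtain ⟨i, ⟨h1, h2⟩ | ⟨h1, h2⟩⟩ := ASD_zone hR h hn
    · rw [ASD_elA h1, ASD_elB h2, hR.symm v u, hC.symm v u, h1]
      rfl
    · rw [ASD_elA h1, ASD_elB h2, hR.symm v u, hC.symm v u, h1]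
      rfl
  · obtain ⟨t, ht⟩ := Option.ne_none_iff_exists'.1 hn
    have ht' : al v u = some t := by rw [← ht, hR.symm]
    rw [ASD_el_some ht, ASD_el_some ht', hC.symm v u]

theorem dist_ok (hg : Geo n p W S z P K R jL len D) (hR : Rl G D W S z nL ty al)
    (hC : Col G W S z len (fun b : Bool × Fin R => b.1 = true) ty al col cv) (u v : V)
    (h : G.Adj u v) :
    vLab n p W S (ty u).1 (cv u) + p ≤ EL p W S ty al col cv u v ∨
      EL p W S ty al col cv u v + p ≤ vLab n p W S (ty u).1 (cv u) := by
  have g1 := hg.hJ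
  have g2 := hg.hz
  have g3 := hg.zp
  have g4 := hg.len0
  have g5 := hg.jl
  have g6 := ASD_jl hg
  have g7 := hg.z0
  rcases hu : (ty u).1 with i | ⟨s, r⟩
  · -- u tight
    have hx := hC.cvA u i hu
    show p + S + i * W + cv u + p ≤ _ ∨ _ + p ≤ p + S + i * W + cv u
    rcases hal : al u v with _ | _ | j
    · rw [ASD_elA hu, hal]
      show p + S + i * W + cv u + p ≤ (if col u v ≤ cv u then S + i * W + col u v else
        S + i * W + col u v + (2 * p - 1)) ∨ (if col u v ≤ cv u then S + i * W + col u v else
        S + i * W + col u v + (2 * p - 1)) + p ≤ p + S + i * W + cv u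
      split_ifs with hc
      · right
        omega
      · left
        omega
    · rw [ASD_el_some hal]
      show _ ∨ col u v + p ≤ p + S + i * W + cv u
      have h1 := hC.star u v h hal
      right
      omega
    · rw [ASD_el_some hal]
      show p + S + i * W + cv u + p ≤ S + j * W + col u v ∨
        S + j * W + col u v + p ≤ p + S + i * W + cv u
      have h1 := hC.blk u v j h hal
      have h2 : D.el (Sum.inl i) j := by
        have := (hR.blk u v (some j) h hal).1
        rwa [hu] at this
      have h3 := hg.elA i j h2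
      rcases Nat.lt_or_ge (j : ℕ) i with h4 | h4
      · right
        have h5 := ASD_mul (W := W) (Nat.succ_le_of_lt h4)
        omega
      · left
        have h6 : (i : ℕ) + P + 1 ≤ j := by omega
        have h7 := Nat.mul_le_mul_right W h6
        have h8 : ((i : ℕ) + P + 1) * W = i * W + (P + 1) * W := by ring
        omega
  · have hx := hC.cvB u (s, r) hu
    cases s
    · -- L
      show cv u + p ≤ _ ∨ _ + p ≤ cv u
      left
      rcases hal : al u v with _ | _ | j
      · obtain ⟨i, ⟨h1, h2⟩ | ⟨h1, h2⟩⟩ := ASD_zone hR h hal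
        · rw [hu] at h1
          cases h1
        · have h3 := (ASD_elZ (p := p) (W := W) (S := S) (col := col) (cv := cv) hal
            (Or.inr ⟨h1, _, h2⟩)).1
          rw [hu] at h2
          have h4 : D.un i = (false, r) := (Sum.inr.inj h2).symm
          have h5 : ¬ (2 * (i : ℕ) < K) := by
            rw [← hg.un i, h4]
            simp
          have h6 := hg.midL i (by omega)
          have h7 := Nat.mul_le_mul_right W h6
          omega
      · exfalso
        have h1 : D.st (Sum.inr (false, r)) := by
          have := (hR.blk u v none h hal).1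
          rwa [hu] at this
        have := hg.st false r h1
        cases this
      · rw [ASD_el_some hal]
        show cv u + p ≤ S + j * W + col u v
        have h2 : D.el (Sum.inr (false, r)) j := by
          have := (hR.blk u v (some j) h hal).1
          rwa [hu] at this
        have h3 := hg.elL r j h2
        have h4 := Nat.mul_le_mul_right W h3
        omega
    · -- H
      show n + 2 * p - 1 - cv u + p ≤ _ ∨ _ + p ≤ n + 2 * p - 1 - cv u
      right
      rcases hal : al u v with _ | _ | j
      · obtain ⟨i, ⟨h1, h2⟩ | ⟨h1, h2⟩⟩ := ASD_zone hR h hal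
        · rw [hu] at h1
          cases h1
        · have h3 := ASD_zup (p := p) (n := n) hg hC h hal (Or.inr ⟨h1, _, h2⟩)
          rw [hu] at h2
          have h4 : D.un i = (true, r) := (Sum.inr.inj h2).symm
          have h5 : 2 * (i : ℕ) < K := by
            rw [← hg.un i, h4]
          have h6 := hg.midH i h5
          have h7 : (i : ℕ) + P + 1 + jL ≤ K + P := by omega
          have h8 := Nat.mul_le_mul_right W h7
          rw [Nat.add_mul _ jL] at h8
          omega
      · rw [ASD_el_some hal]
        show col u v + p ≤ n + 2 * p - 1 - cv u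
        have h1 := hC.star u v h hal
        omega
      · rw [ASD_el_some hal]
        show S + j * W + col u v + p ≤ n + 2 * p - 1 - cv u
        have h1 := hC.blk u v j h hal
        have h2 : D.el (Sum.inr (true, r)) j := by
          have := (hR.blk u v (some j) h hal).1
          rwa [hu] at this
        have h3 := hg.elH r j h2
        have h4 : ((j : ℕ) + 1) + jL ≤ K + P := by omega
        have h5 := Nat.mul_le_mul_right W h4
        rw [Nat.add_mul _ jL, Nat.add_mul _ 1, Nat.one_mul] at h5
        omega

theorem erange (hg : Geo n p W S z P K R jL len D) (hR : Rl G D W S z nL ty al)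
    (hC : Col G W S z len (fun b : Bool × Fin R => b.1 = true) ty al col cv) (u v : V)
    (h : G.Adj u v) : EL p W S ty al col cv u v ≤ n + 2 * p - 1 := by
  have g1 := hg.hJ
  have g2 := hg.zp
  have g3 := hg.S0
  rcases hal : al u v with _ | _ | j
  · obtain ⟨i, hi⟩ := ASD_zone hR h hal
    have h3 : EL p W S ty al col cv u v + 1 ≤ S + ((i : ℕ) + P + 1) * W := by
      rcases hi with ⟨h1, h2⟩ | ⟨h1, h2⟩
      · exact ASD_zup (p := p) (n := n) hg hC h hal (Or.inl h1)
      · exact ASD_zup (p := p) (n := n) hg hC h hal (Or.inr ⟨h1, _, h2⟩)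
    have h4 : (i : ℕ) + P + 1 ≤ K + P := by
      have := i.2
      omega
    have h5 := Nat.mul_le_mul_right W h4
    omega
  · rw [ASD_el_some hal]
    show col u v ≤ n + 2 * p - 1
    have h1 := hC.star u v h hal
    omega
  · rw [ASD_el_some hal]
    show S + j * W + col u v ≤ n + 2 * p - 1
    have h1 := hC.blk u v j h hal
    have h2 := ASD_mul (W := W) (Nat.succ_le_of_lt j.2)
    omega

theorem vrange (hg : Geo n p W S z P K R jL len D)
    (hC : Col G W S z len (fun b : Bool × Fin R => b.1 = true) ty al col cv) (u : V) :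
    vLab n p W S (ty u).1 (cv u) ≤ n + 2 * p - 1 := by
  have g1 := hg.hJ
  have g2 := ASD_PW hg
  have g4 := hg.len0
  have g5 := hg.hlen
  rw [Nat.add_mul] at g1
  rcases hu : (ty u).1 with i | ⟨s, r⟩
  · have hx := hC.cvA u i hu
    show p + S + i * W + cv u ≤ n + 2 * p - 1
    have h2 := ASD_mul (W := W) (Nat.succ_le_of_lt i.2)
    omega
  · have hx := hC.cvB u (s, r) hu
    cases s
    · show cv u ≤ n + 2 * p - 1
      omega
    · show n + 2 * p - 1 - cv u ≤ n + 2 * p - 1
      omega

theorem vproper (hg : Geo n p W S z P K R jL len D) (hR : Rl G D W S z nL ty al)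
    (hC : Col G W S z len (fun b : Bool × Fin R => b.1 = true) ty al col cv) (u v : V)
    (h : G.Adj u v) : vLab n p W S (ty u).1 (cv u) ≠ vLab n p W S (ty v).1 (cv v) := by
  have g1 := hg.hJ
  have g2 := ASD_PW hg
  have g4 := hg.len0
  have g5 := hg.hlen
  have g6 := hg.S0
  have g7 := hg.W0
  rw [Nat.add_mul] at g1
  rcases hu : (ty u).1 with i | ⟨s, r⟩
  · have hx := hC.cvA u i hu
    have ku := ASD_mul (W := W) (Nat.succ_le_of_lt i.2)
    rcases hv : (ty v).1 with i' | ⟨s', r'⟩
    · have hx' := hC.cvA v i' hv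
      show p + S + i * W + cv u ≠ p + S + i' * W + cv v
      rcases lt_trichotomy (i : ℕ) i' with h1 | h1 | h1
      · have h2 := ASD_mul (W := W) (Nat.succ_le_of_lt h1)
        omega
      · have h2 : i = i' := Fin.ext h1
        rw [← h2] at hv
        have h3 := hC.prA u v i h hu hv
        rw [h1]
        omega
      · have h2 := ASD_mul (W := W) (Nat.succ_le_of_lt h1)
        omega
    · have hx' := hC.cvB v (s', r') hv
      cases s'
      · show p + S + i * W + cv u ≠ cv v
        omega
      · show p + S + i * W + cv u ≠ n + 2 * p - 1 - cv v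
        omega
  · have hx := hC.cvB u (s, r) hu
    rcases hv : (ty v).1 with i' | ⟨s', r'⟩
    · have hx' := hC.cvA v i' hv
      have kv := ASD_mul (W := W) (Nat.succ_le_of_lt i'.2)
      cases s
      · show cv u ≠ p + S + i' * W + cv v
        omega
      · show n + 2 * p - 1 - cv u ≠ p + S + i' * W + cv v
        omega
    · have hx' := hC.cvB v (s', r') hv
      cases s
      · cases s'
        · show cv u ≠ cv v
          exact hC.prB u v _ _ h hu hv Iff.rfl
        · show cv u ≠ n + 2 * p - 1 - cv v
          omega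
      · cases s'
        · show n + 2 * p - 1 - cv u ≠ cv v
          omega
        · show n + 2 * p - 1 - cv u ≠ n + 2 * p - 1 - cv v
          have h3 := hC.prB u v _ _ h hu hv Iff.rfl
          omega

end Pool.Agent.H2.HV
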