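import Mathlib
import Pool.Agent.H2.HV.ASD

/-!
ASP (about 250 lines). Properness of the edge labels and the assembly.

eproper: u adjacent to v ≠ w. If al u v = al u w = some t: Col.prop (same block or star: labels differ iff colours differ). If they are different blocks / block and star: disjoint intervals
[S+jW, S+(j+1)W), [0,S). Both none, u tight (class i, x): same (i,x), colours differ (propz); the map col ↦ label is injective (strictly increasing).
none and some t, u tight: the zone labels lie in [S+iW, S+(i+P+1)W) (z + 2p = (P+1)W), the block t is outside [i,i+P], star < S.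
u slack: al u v = none: v is tight, class i with un i = class b of u, x = cv v < W. The label is either S + iW + col with col ≤ x < W: in block i; or S+iW+col+2p-1 with col > x ≥ 0, so
 ≥ S+iW+2p > S + (i+P-1)W (2p = (P+1)W - z > (P-1)W) and < S+(i+P+1)W: in the blocks i+P-1, i+P. Against al u w = some (some j): j ∉ {i,i+P-1,i+P} by Geo.elU. Against star: ≥ S.
 both none: classes i, i' of v, w. i = i': propz gives col ≠ col'; labels equal only if col - col' = ±(2p-1), impossible as col ≤ z < 2p - 1 (z + 1 < 2p). i ≠ i': the three blocks of i and of i' are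
 disjoint by Geo.sep (if two of the labels are equal, their block numbers (label - S)/W are equal: one of i, i+P-1, i+P equals one of i', i'+P-1, i'+P: i = i', or i ≠ i' excluded by sep).
asm: fV v = vLab .. , fE u v = if G.Adj u v then EL u v else 0 (symmetric by el_symm).
-/

set_option autoImplicit false
set_option linter.unusedVariables false

namespace Pool.Agent.H2.HV

open Finset

variable {V : Type} [Fintype V] {n p W S z P K R jL len : ℕ}
variable {D : MS (Fin K) (Bool × Fin R) (Fin (K + P))} {G : SimpleGraph V}
variable {nL : ℝ} {ty : V → Ty (Fin K) (Bool × Fin R) (Fin (K + P))}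
variable {al : V → V → Lab (Fin (K + P))} {col : V → V → ℕ} {cv : V → ℕ}

theorem ASP_uniq {W S q q' L : ℕ} (h1 : S + q * W ≤ L) (h2 : L < S + (q + 1) * W)
    (h3 : S + q' * W ≤ L) (h4 : L < S + (q' + 1) * W) : q = q' := by
  rcases lt_trichotomy q q' with h | h | h
  · have := Nat.mul_le_mul_right W (Nat.succ_le_of_lt h)
    have e : q.succ * W = (q + 1) * W := rfl
    omega
  · exact h
  · have := Nat.mul_le_mul_right W (Nat.succ_le_of_lt h)
    have e : q'.succ * W = (q' + 1) * W := rfl
    omega

theorem ASP_zone {p W S z P i x c : ℕ} (hz : z + 2 * p = (P + 1) * W) (z1 : z < 2 * W)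
    (P3 : 3 ≤ P) (hx : x < W) (hc : c < z + 1) :
    ∃ q, (q = i ∨ q + 1 = i + P ∨ q = i + P) ∧
      S + q * W ≤ (if c ≤ x then S + i * W + c else S + i * W + c + (2 * p - 1)) ∧
      (if c ≤ x then S + i * W + c else S + i * W + c + (2 * p - 1)) < S + (q + 1) * W := by
  by_cases h : c ≤ x
  · rw [if_pos h]
    have e : (i + 1) * W = i * W + W := by ring
    refine ⟨i, Or.inl rfl, ?_, ?_⟩
    · omega
    · omega
  · rw [if_neg h]
    have e1 : (P + 1) * W = P * W + W := by ring
    have e2 : (i + P) * W = i * W + P * W := by ring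
    have e3 : (i + P + 1) * W = i * W + P * W + W := by ring
    have e4 : (i + P - 1) * W + W = (i + P) * W := by
      have : (i + P - 1) * W + W = (i + P - 1 + 1) * W := by ring
      rw [this]
      congr 1
      omega
    have e5 : (i + P - 1 + 1) * W = (i + P) * W := by
      congr 1
      omega
    have e6 : 3 * W ≤ P * W := Nat.mul_le_mul_right W P3
    by_cases h2 : S + i * W + c + (2 * p - 1) < S + (i + P) * W
    · refine ⟨i + P - 1, Or.inr (Or.inl (by omega)), ?_, ?_⟩
      · omega
      · rw [e5]
        exact h2
    · refine ⟨i + P, Or.inr (Or.inr rfl), ?_, ?_⟩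
      · omega
      · omega

/-- description of the edge labels. -/
theorem ASP_desc (hg : Geo n p W S z P K R jL len D) (hR : Rl G D W S z nL ty al)
    (hC : Col G W S z len (fun b : Bool × Fin R => b.1 = true) ty al col cv) (u v : V)
    (h : G.Adj u v) :
    (al u v = some none ∧ EL p W S ty al col cv u v = col u v ∧ col u v < S) ∨
    (∃ j : Fin (K + P), al u v = some (some j) ∧
      EL p W S ty al col cv u v = S + (j : ℕ) * W + col u v ∧ col u v < W) ∨
    (al u v = none ∧ col u v < z + 1 ∧ ∃ (i : Fin K) (x : ℕ), x < W ∧
      EL p W S ty al col cv u v = (if col u v ≤ x then S + (i : ℕ) * W + col u v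
        else S + (i : ℕ) * W + col u v + (2 * p - 1)) ∧
      (((ty u).1 = Sum.inl i ∧ x = cv u) ∨
        ((ty u).1 = Sum.inr (D.un i) ∧ (ty v).1 = Sum.inl i ∧ x = cv v))) := by
  cases hal : al u v with
  | none =>
    right; right
    refine ⟨rfl, hC.zone u v h hal, ?_⟩
    obtain ⟨i, ⟨h1, h2⟩ | ⟨h1, h2⟩⟩ := hR.zn u v h hal
    · refine ⟨i, cv u, hC.cvA u i h1, ?_, Or.inl ⟨h1, rfl⟩⟩
      unfold EL
      rw [if_pos ⟨i, h1⟩, hal, h1]
      rfl
    · refine ⟨i, cv v, hC.cvA v i h1, ?_, Or.inr ⟨h2, h1, rfl⟩⟩
      unfold EL
      rw [if_neg, hal, h1]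
      · rfl
      · rintro ⟨a, ha⟩
        rw [h2] at ha
        exact absurd ha (by simp)
  | some t =>
    cases t with
    | none =>
      left
      refine ⟨rfl, ?_, hC.star u v h hal⟩
      unfold EL
      rw [hal]
      simp only [eLab, ite_self]
    | some j =>
      right; left
      refine ⟨j, rfl, ?_, hC.blk u v j h hal⟩
      unfold EL
      rw [hal]
      simp only [eLab, ite_self]

theorem ASP_mixed (hg : Geo n p W S z P K R jL len D) (hR : Rl G D W S z nL ty al)
    (hC : Col G W S z len (fun b : Bool × Fin R => b.1 = true) ty al col cv) (u v w : V)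
    (h : G.Adj u v) (h' : G.Adj u w) (ha : al u v = none) (t : Option (Fin (K + P)))
    (hb : al u w = some t) :
    EL p W S ty al col cv u v ≠ EL p W S ty al col cv u w := by
  rcases ASP_desc hg hR hC u v h with ⟨h1, -⟩ | ⟨j, h1, -⟩ | ⟨-, hcz, i, x, hx, hE, hty⟩
  · rw [ha] at h1
    exact absurd h1 (by simp)
  · rw [ha] at h1
    exact absurd h1 (by simp)
  obtain ⟨q, hq, hq1, hq2⟩ := ASP_zone (i := (i : ℕ)) (S := S) hg.hz hg.z1 hg.P3 hx hcz
  rw [← hE] at hq1 hq2
  rcases ASP_desc hg hR hC u w h' with ⟨h1, h2, h3⟩ | ⟨j, h1, h2, h3⟩ | ⟨h1, -⟩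
  · intro heq
    omega
  · intro heq
    rw [heq, h2] at hq1 hq2
    have e : ((j : ℕ) + 1) * W = (j : ℕ) * W + W := by ring
    have hqj : q = (j : ℕ) := ASP_uniq hq1 hq2 (by omega) (by omega)
    have hcp := hR.blk u w (some j) h' h1
    have hel : D.el (ty u).1 j := hcp.1
    rcases hty with ⟨h4, -⟩ | ⟨h4, -, -⟩
    · rw [h4] at hel
      have := hg.elA i j hel
      have hP3 := hg.P3
      omega
    · rw [h4] at hel
      have := hg.elU i j hel
      omega
  · rw [hb] at h1
    exact absurd h1 (by simp)

theorem eproper (hg : Geo n p W S z P K R jL len D) (hR : Rl G D W S z nL ty al)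
    (hC : Col G W S z len (fun b : Bool × Fin R => b.1 = true) ty al col cv) (u v w : V)
    (h : G.Adj u v) (h' : G.Adj u w) (hne : v ≠ w) :
    EL p W S ty al col cv u v ≠ EL p W S ty al col cv u w := by
  cases hav : al u v with
  | none =>
    cases haw : al u w with
    | some t => exact ASP_mixed hg hR hC u v w h h' hav t haw
    | none =>
      rcases ASP_desc hg hR hC u v h with ⟨h1, -⟩ | ⟨j, h1, -⟩ | ⟨-, hcz, i, x, hx, hE, hty⟩
      · rw [hav] at h1
        exact absurd h1 (by simp)
      · rw [hav] at h1
        exact absurd h1 (by simp)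
      rcases ASP_desc hg hR hC u w h' with ⟨h1, -⟩ | ⟨j, h1, -⟩ | ⟨-, hcz', i', x', hx', hE', hty'⟩
      · rw [haw] at h1
        exact absurd h1 (by simp)
      · rw [haw] at h1
        exact absurd h1 (by simp)
      by_cases hii : i = i'
      · subst hii
        have hcol : col u v ≠ col u w := by
          refine hC.propz u v w h h' hne hav haw ?_
          rcases hty with ⟨h1, -⟩ | ⟨h1, h2, -⟩
          · exact Or.inl ⟨i, h1⟩
          · rcases hty' with ⟨h3, -⟩ | ⟨-, h3, -⟩
            · exact Or.inl ⟨i, h3⟩
            · exact Or.inr (h2.trans h3.symm)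
        have hzp := hg.zp
        have hz0 := hg.z0
        rw [hE, hE']
        split_ifs with k1 k2 k2
        · omega
        · omega
        · omega
        · omega
      · obtain ⟨q, hq, hq1, hq2⟩ := ASP_zone (i := (i : ℕ)) (S := S) hg.hz hg.z1 hg.P3 hx hcz
        obtain ⟨q', hq', hq1', hq2'⟩ :=
          ASP_zone (i := (i' : ℕ)) (S := S) hg.hz hg.z1 hg.P3 hx' hcz'
        rw [← hE] at hq1 hq2
        rw [← hE'] at hq1' hq2'
        intro heq
        rw [← heq] at hq1' hq2'
        have hqq := ASP_uniq hq1 hq2 hq1' hq2'
        have hiv : (i : ℕ) ≠ (i' : ℕ) := fun h => hii (Fin.ext h)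
        have hun : D.un i = D.un i' := by
          rcases hty with ⟨h1, -⟩ | ⟨h1, -, -⟩
          · rcases hty' with ⟨h2, -⟩ | ⟨h2, -, -⟩
            · rw [h1] at h2
              exact absurd (Sum.inl_injective h2) hii
            · rw [h1] at h2
              exact absurd h2 (by simp)
          · rcases hty' with ⟨h2, -⟩ | ⟨h2, -, -⟩
            · rw [h1] at h2
              exact absurd h2 (by simp)
            · rw [h1] at h2
              exact Sum.inr_injective h2
        have hsep := hg.sep i i' hii hun
        have hP3 := hg.P3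
        omega
  | some t =>
    cases haw : al u w with
    | none => exact (ASP_mixed hg hR hC u w v h' h haw t hav).symm
    | some t' =>
      by_cases htt : t = t'
      · subst htt
        have hcol := hC.prop u v w t h h' hne hav haw
        rcases ASP_desc hg hR hC u v h with ⟨h1, h2, h3⟩ | ⟨j, h1, h2, h3⟩ | ⟨h1, -⟩
        · rcases ASP_desc hg hR hC u w h' with ⟨k1, k2, k3⟩ | ⟨j', k1, k2, k3⟩ | ⟨k1, -⟩
          · omega
          · rw [haw, ← hav, h1] at k1
            exact absurd k1 (by simp)
          · rw [haw] at k1
            exact absurd k1 (by simp)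
        · rcases ASP_desc hg hR hC u w h' with ⟨k1, k2, k3⟩ | ⟨j', k1, k2, k3⟩ | ⟨k1, -⟩
          · rw [haw, ← hav, h1] at k1
            exact absurd k1 (by simp)
          · rw [haw, ← hav, h1] at k1
            have hjj : j = j' := Option.some_injective _ (Option.some_injective _ k1)
            subst hjj
            omega
          · rw [haw] at k1
            exact absurd k1 (by simp)
        · rw [hav] at h1
          exact absurd h1 (by simp)
      · rcases ASP_desc hg hR hC u v h with ⟨h1, h2, h3⟩ | ⟨j, h1, h2, h3⟩ | ⟨h1, -⟩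
        · rcases ASP_desc hg hR hC u w h' with ⟨k1, k2, k3⟩ | ⟨j', k1, k2, k3⟩ | ⟨k1, -⟩
          · rw [hav] at h1
            rw [haw] at k1
            exact absurd (Option.some_injective _ (h1.trans k1.symm)) htt
          · omega
          · rw [haw] at k1
            exact absurd k1 (by simp)
        · rcases ASP_desc hg hR hC u w h' with ⟨k1, k2, k3⟩ | ⟨j', k1, k2, k3⟩ | ⟨k1, -⟩
          · omega
          · have hjj : (j : ℕ) ≠ (j' : ℕ) := by
              intro hjj
              have := Fin.ext hjj
              subst this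
              rw [hav] at h1
              rw [haw] at k1
              exact htt (Option.some_injective _ (h1.trans k1.symm))
            intro heq
            have e : ((j : ℕ) + 1) * W = (j : ℕ) * W + W := by ring
            have e' : ((j' : ℕ) + 1) * W = (j' : ℕ) * W + W := by ring
            exact hjj (ASP_uniq (W := W) (S := S) (L := EL p W S ty al col cv u v)
              (by omega) (by omega) (by omega) (by omega))
          · rw [haw] at k1
            exact absurd k1 (by simp)
        · rw [hav] at h1
          exact absurd h1 (by simp)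

theorem asm (hg : Geo n p W S z P K R jL len D) (hR : Rl G D W S z nL ty al)
    (hC : Col G W S z len (fun b : Bool × Fin R => b.1 = true) ty al col cv) : HYL G n p := by
  classical
  refine ⟨fun v => vLab n p W S (ty v).1 (cv v),
    fun u v => if G.Adj u v then EL p W S ty al col cv u v else 0, ?_, ?_, ?_, ?_, ?_, ?_⟩
  · intro u v
    by_cases h : G.Adj u v
    · simp only [if_pos h, if_pos h.symm]
      exact el_symm hR hC u v h
    · have h' : ¬ G.Adj v u := fun h1 => h h1.symm
      simp only [if_neg h, if_neg h']
  · intro v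
    exact vrange hg hC v
  · intro u v h
    simp only [if_pos h]
    exact erange hg hR hC u v h
  · intro u v h
    exact vproper hg hR hC u v h
  · intro u v h
    simp only [if_pos h]
    exact dist_ok hg hR hC u v h
  · intro u v w h h' hne
    simp only [if_pos h, if_pos h']
    exact eproper hg hR hC u v w h h' hne

end Pool.Agent.H2.HV
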