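import Mathlib
import Pool.Agent.H2.HV.CLD
import Pool.Agent.H28.Konig
import Pool.Agent.H28.VAL
import Pool.Agent.H28.Scheme

/-!
COL (about 300 lines). Colourings from a realisation.

Counts: `sum_ind_eq_ncard`. For a block j: R u v := G.Adj u v ∧ al u v = some (some j) ∧ (ty u).2 j = true (then (ty v).2 j = false by Rl.blk, cp); rows and columns ≤ W (Rl.cap with
cap = W), `H28.konig` gives c_j; col u v := if (ty u).2 j = true then c_j u v else c_j v u. Star: the graph with adjacency G.Adj u v ∧ al u v = some none (symmetric by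
Rl.symm), degrees ≤ S - 1, `H28.vizing` with d = S - 1 (see how H70/HY/COL.lean uses ECol). Zone, for every a: R u v := G.Adj u v ∧ al u v = none ∧ (ty u).1 = inl a (then
(ty v).1 = inr (un a) by Rl.zn): rows ≤ z+1 (capz), columns ≤ z+1 (capz'), konig with z+1 colours; col u v := the colour c_a (tight end) (slack end).
Properness in the zone at a slack vertex u for v, w of the same class a: same konig colouring, same column. At a tight vertex: same row.
Vertices: `H28.greedy` on the relation (adjacent and same tight class) with W colours (inA; < W), and on the slack vertices (adjacent, both slack, Q b ↔ Q b') with len colours: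
number of neighbours ≤ nL * ncard < len. (One greedy for each of the two groups, or for all vertices of each kind; combine by cases on the class.)
-/

set_option autoImplicit false
set_option linter.unusedVariables false

namespace Pool.Agent.H2.HV

open Finset

theorem COL_le {V : Type} [Fintype V] {P : V → Prop} {N : ℕ}
    (h : ∑ u, ind (P u) ≤ (N : ℝ)) : {u | P u}.ncard ≤ N := by
  rw [sum_ind_eq_ncard] at h
  exact_mod_cast h

theorem COL_lt {V : Type} [Fintype V] {P : V → Prop} {N : ℕ}
    (h : ∑ u, ind (P u) < (N : ℝ)) : {u | P u}.ncard < N := by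
  rw [sum_ind_eq_ncard] at h
  exact_mod_cast h

theorem COL_zp {A B J : Type} {D : MS A B J} {c c' : A ⊕ B} (h : D.zp c c') {a : A}
    (ha : c = Sum.inl a) : c' = Sum.inr (D.un a) := by
  obtain ⟨a', ⟨h1, h2⟩ | ⟨h1, h2⟩⟩ := h
  · rw [ha] at h1
    rw [h2, Sum.inl.inj h1]
  · rw [ha] at h2
    cases h2

/-- the colours of the blocks -/
theorem COL_blk {A B J V : Type} [Fintype V] (G : SimpleGraph V) (D : MS A B J) (W S z : ℕ)
    (nL : ℝ) (ty : V → Ty A B J) (al : V → V → Lab J) (h : Rl G D W S z nL ty al) (j : J) :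
    ∃ c : V → V → ℕ,
      (∀ u v, G.Adj u v ∧ al u v = some (some j) ∧ (ty u).2 j = true → c u v < W) ∧
      (∀ u v w, G.Adj u v ∧ al u v = some (some j) ∧ (ty u).2 j = true →
        G.Adj u w ∧ al u w = some (some j) ∧ (ty u).2 j = true → v ≠ w → c u v ≠ c u w) ∧
      (∀ u v w, G.Adj u w ∧ al u w = some (some j) ∧ (ty u).2 j = true →
        G.Adj v w ∧ al v w = some (some j) ∧ (ty v).2 j = true → u ≠ v → c u w ≠ c v w) := by
  classical
  refine H28.konig (fun u v => G.Adj u v ∧ al u v = some (some j) ∧ (ty u).2 j = true) W ?_ ?_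
  · intro a
    refine le_trans (Set.ncard_le_ncard ?_ (Set.toFinite _)) (COL_le (h.cap a (some j)))
    rintro b ⟨g1, g2, _⟩
    exact ⟨g1, g2⟩
  · intro b
    refine le_trans (Set.ncard_le_ncard ?_ (Set.toFinite _)) (COL_le (h.cap b (some j)))
    rintro a ⟨g1, g2, _⟩
    exact ⟨g1.symm, by rw [h.symm b a]; exact g2⟩

/-- the colours of the zones -/
theorem COL_zone {A B J V : Type} [Fintype V] (G : SimpleGraph V) (D : MS A B J) (W S z : ℕ)
    (nL : ℝ) (ty : V → Ty A B J) (al : V → V → Lab J) (h : Rl G D W S z nL ty al) (a : A) :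
    ∃ c : V → V → ℕ,
      (∀ u v, G.Adj u v ∧ al u v = none ∧ (ty u).1 = Sum.inl a → c u v < z + 1) ∧
      (∀ u v w, G.Adj u v ∧ al u v = none ∧ (ty u).1 = Sum.inl a →
        G.Adj u w ∧ al u w = none ∧ (ty u).1 = Sum.inl a → v ≠ w → c u v ≠ c u w) ∧
      (∀ u v w, G.Adj u w ∧ al u w = none ∧ (ty u).1 = Sum.inl a →
        G.Adj v w ∧ al v w = none ∧ (ty v).1 = Sum.inl a → u ≠ v → c u w ≠ c v w) := by
  classical
  refine H28.konig (fun u v => G.Adj u v ∧ al u v = none ∧ (ty u).1 = Sum.inl a) (z + 1) ?_ ?_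
  · intro u
    by_cases hu : (ty u).1 = Sum.inl a
    · have h1 := h.capz u a hu
      refine le_trans (Set.ncard_le_ncard ?_ (Set.toFinite _)) (COL_le (N := z + 1)
        (P := fun v => G.Adj u v ∧ al u v = none) (by push_cast; exact h1))
      rintro b ⟨g1, g2, _⟩
      exact ⟨g1, g2⟩
    · have : {v | G.Adj u v ∧ al u v = none ∧ (ty u).1 = Sum.inl a} = ∅ := by
        rw [Set.eq_empty_iff_forall_notMem]
        rintro v ⟨_, _, g⟩
        exact hu g
      rw [this, Set.ncard_empty]
      omega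
  · intro v
    by_cases hv : (ty v).1 = Sum.inr (D.un a)
    · have h1 := h.capz' v a hv
      refine le_trans (Set.ncard_le_ncard ?_ (Set.toFinite _)) (COL_le (N := z + 1)
        (P := fun u => G.Adj v u ∧ (ty u).1 = Sum.inl a ∧ al v u = none)
        (by push_cast; exact h1))
      rintro u ⟨g1, g2, g3⟩
      exact ⟨g1.symm, g3, by rw [h.symm v u]; exact g2⟩
    · have : {u | G.Adj u v ∧ al u v = none ∧ (ty u).1 = Sum.inl a} = ∅ := by
        rw [Set.eq_empty_iff_forall_notMem]
        rintro u ⟨g1, g2, g⟩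
        exact hv (COL_zp (h.zn u v g1 g2) g)
      rw [this, Set.ncard_empty]
      omega

/-- the colours of the star -/
theorem COL_star {A B J V : Type} [Fintype V] (G : SimpleGraph V) (D : MS A B J) (W S z : ℕ)
    (hS : 1 ≤ S) (nL : ℝ) (ty : V → Ty A B J) (al : V → V → Lab J)
    (h : Rl G D W S z nL ty al) : ∃ c : Sym2 V → ℕ,
      (∀ u v, G.Adj u v ∧ al u v = some none → c s(u, v) < S) ∧
      (∀ u v w, G.Adj u v ∧ al u v = some none → G.Adj u w ∧ al u w = some none → v ≠ w →
        c s(u, v) ≠ c s(u, w)) := by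
  let Gs : SimpleGraph V :=
    { Adj := fun u v => G.Adj u v ∧ al u v = some none
      symm := ⟨fun u v g => ⟨g.1.symm, by rw [h.symm v u]; exact g.2⟩⟩
      loopless := ⟨fun u g => G.loopless.irrefl u g.1⟩ }
  have hd : ∀ v, (Gs.neighborSet v).ncard ≤ S - 1 := by
    intro v
    have h1 := h.cap v none
    have h2 : ∑ u, ind (G.Adj v u ∧ al v u = some none) ≤ ((S - 1 : ℕ) : ℝ) := by
      refine h1.trans (le_of_eq ?_)
      unfold cap
      push_cast [Nat.cast_sub hS]
      rfl
    exact COL_le h2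
  obtain ⟨cs, hcs1, hcs2⟩ := H28.vizing hd
  refine ⟨cs, ?_, hcs2⟩
  intro u v huv
  have := hcs1 u v huv
  omega

/-- the offsets of the vertices -/
theorem COL_vert {A B J V : Type} [Fintype B] [Fintype V]
    (G : SimpleGraph V) (D : MS A B J) (W S z len : ℕ) (hW : 1 ≤ W)
    (nL : ℝ) (ty : V → Ty A B J) (al : V → V → Lab J) (h : Rl G D W S z nL ty al) (Q : B → Prop)
    (h1 : nL * Set.ncard {b | Q b} < len) (h2 : nL * Set.ncard {b | ¬ Q b} < len) :
    ∃ cv : V → ℕ, (∀ v a, (ty v).1 = Sum.inl a → cv v < W) ∧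
      (∀ v b, (ty v).1 = Sum.inr b → cv v < len) ∧
      (∀ u v a, G.Adj u v → (ty u).1 = Sum.inl a → (ty v).1 = Sum.inl a → cv u ≠ cv v) ∧
      (∀ u v b b', G.Adj u v → (ty u).1 = Sum.inr b → (ty v).1 = Sum.inr b' → (Q b ↔ Q b') →
        cv u ≠ cv v) := by
  classical
  obtain ⟨cA, hA1, hA2⟩ := H28.greedy
    (fun u v : V => G.Adj u v ∧ ∃ a, (ty u).1 = Sum.inl a ∧ (ty v).1 = Sum.inl a)
    (by
      rintro u v ⟨g, a, g1, g2⟩
      exact ⟨g.symm, a, g2, g1⟩) W (by
      intro v
      rcases hv : (ty v).1 with a | b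
      · refine lt_of_le_of_lt (Set.ncard_le_ncard ?_ (Set.toFinite _)) (COL_lt (h.inA v a))
        rintro u ⟨g, a', g1, g2⟩
        refine ⟨g, ?_⟩
        rw [g2, ← g1]
      · have : {u | G.Adj v u ∧ ∃ a, (Sum.inr b : A ⊕ B) = Sum.inl a ∧ (ty u).1 = Sum.inl a} =
            ∅ := by
          rw [Set.eq_empty_iff_forall_notMem]
          rintro u ⟨_, a, g, _⟩
          cases g
        rw [this, Set.ncard_empty]
        omega)
  obtain ⟨cB, hB1, hB2⟩ := H28.greedy
    (fun u v : V => G.Adj u v ∧ ∃ b b', (ty u).1 = Sum.inr b ∧ (ty v).1 = Sum.inr b' ∧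
      (Q b ↔ Q b'))
    (by
      rintro u v ⟨g, b, b', g1, g2, g3⟩
      exact ⟨g.symm, b', b, g2, g1, g3.symm⟩) len (by
      intro v
      rcases hv : (ty v).1 with a | b
      · have h0 : 0 < len := by
          have h3 := lt_of_le_of_lt (h.inB v Q) h1
          have h4 : (0 : ℝ) ≤ ∑ u, ind (G.Adj v u ∧ ∃ b, Q b ∧ (ty u).1 = Sum.inr b) :=
            Finset.sum_nonneg fun u _ => ind_nonneg _
          exact_mod_cast lt_of_le_of_lt h4 h3
        have : {u | G.Adj v u ∧ ∃ b b', (Sum.inl a : A ⊕ B) = Sum.inr b ∧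
            (ty u).1 = Sum.inr b' ∧ (Q b ↔ Q b')} = ∅ := by
          rw [Set.eq_empty_iff_forall_notMem]
          rintro u ⟨_, b, b', g, _⟩
          cases g
        rw [this, Set.ncard_empty]
        exact h0
      · by_cases hQ : Q b
        · refine lt_of_le_of_lt (Set.ncard_le_ncard ?_ (Set.toFinite _))
            (COL_lt (lt_of_le_of_lt (h.inB v Q) h1))
          rintro u ⟨g, b1, b', g1, g2, g3⟩
          refine ⟨g, b', ?_, g2⟩
          rw [← g3, ← Sum.inr.inj g1]
          exact hQ
        · refine lt_of_le_of_lt (Set.ncard_le_ncard ?_ (Set.toFinite _))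
            (COL_lt (lt_of_le_of_lt (h.inB v (fun b => ¬ Q b)) h2))
          rintro u ⟨g, b1, b', g1, g2, g3⟩
          refine ⟨g, b', ?_, g2⟩
          show ¬ Q b'
          rw [← g3, ← Sum.inr.inj g1]
          exact hQ)
  refine ⟨fun v => Sum.elim (fun _ => cA v) (fun _ => cB v) (ty v).1, ?_, ?_, ?_, ?_⟩
  · intro v a hv
    show Sum.elim (fun _ => cA v) (fun _ => cB v) (ty v).1 < W
    rw [hv]
    exact hA1 v
  · intro v b hv
    show Sum.elim (fun _ => cA v) (fun _ => cB v) (ty v).1 < len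
    rw [hv]
    exact hB1 v
  · intro u v a huv hu hv
    show Sum.elim (fun _ => cA u) (fun _ => cB u) (ty u).1 ≠
      Sum.elim (fun _ => cA v) (fun _ => cB v) (ty v).1
    rw [hu, hv]
    exact hA2 u v huv.ne ⟨huv, a, hu, hv⟩
  · intro u v b b' huv hu hv hQ
    show Sum.elim (fun _ => cA u) (fun _ => cB u) (ty u).1 ≠
      Sum.elim (fun _ => cA v) (fun _ => cB v) (ty v).1
    rw [hu, hv]
    exact hB2 u v huv.ne ⟨huv, b, b', hu, hv, hQ⟩

theorem col_exists {A B J V : Type} [Fintype A] [Fintype B] [Fintype J] [Fintype V]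
    [DecidableEq V] (G : SimpleGraph V) (D : MS A B J) (W S z len : ℕ) (hW : 1 ≤ W) (hS : 1 ≤ S)
    (nL : ℝ) (ty : V → Ty A B J) (al : V → V → Lab J) (h : Rl G D W S z nL ty al) (Q : B → Prop)
    (h1 : nL * Set.ncard {b | Q b} < len) (h2 : nL * Set.ncard {b | ¬ Q b} < len) :
    ∃ (col : V → V → ℕ) (cv : V → ℕ), Col G W S z len Q ty al col cv := by
  classical
  choose cb hb1 hb2 hb3 using COL_blk G D W S z nL ty al h
  choose cz hz1 hz2 hz3 using COL_zone G D W S z nL ty al h
  obtain ⟨cs, hs1, hs2⟩ := COL_star G D W S z hS nL ty al h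
  obtain ⟨cv, hv1, hv2, hv3, hv4⟩ := COL_vert G D W S z len hW nL ty al h Q h1 h2
  let zc : V → V → ℕ := fun u v => Sum.elim (fun a => cz a u v)
    (fun _ => Sum.elim (fun a => cz a v u) (fun _ => 0) (ty v).1) (ty u).1
  let f : V → V → Lab J → ℕ := fun u v t =>
    match t with
    | some (some j) => if (ty u).2 j = true then cb j u v else cb j v u
    | some none => cs s(u, v)
    | none => zc u v
  let col : V → V → ℕ := fun u v => if G.Adj u v then f u v (al u v) else 0
  have hcol : ∀ u v, G.Adj u v → col u v = f u v (al u v) := fun u v huv => if_pos huv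
  have hblk : ∀ u v j, G.Adj u v → al u v = some (some j) →
      ((ty u).2 j = true ∧ ¬ (ty v).2 j = true) ∨ (¬ (ty u).2 j = true ∧ (ty v).2 j = true) := by
    intro u v j huv hal
    have h3 := (h.blk u v (some j) huv hal).2.2 j rfl
    cases hu : (ty u).2 j with
    | true =>
      left
      refine ⟨rfl, fun hv => h3 ?_⟩
      rw [hu, hv]
    | false =>
      right
      refine ⟨by simp, ?_⟩
      cases hv : (ty v).2 j with
      | true => rfl
      | false =>
        exfalso
        apply h3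
        rw [hu, hv]
  have hzone : ∀ u v, G.Adj u v → al u v = none →
      (∃ a, (ty u).1 = Sum.inl a ∧ (ty v).1 = Sum.inr (D.un a) ∧ zc u v = cz a u v ∧
        zc v u = cz a u v) ∨
      (∃ a, (ty v).1 = Sum.inl a ∧ (ty u).1 = Sum.inr (D.un a) ∧ zc u v = cz a v u ∧
        zc v u = cz a v u) := by
    intro u v huv hal
    obtain ⟨a, ⟨g1, g2⟩ | ⟨g1, g2⟩⟩ := h.zn u v huv hal
    · left
      refine ⟨a, g1, g2, ?_, ?_⟩
      · simp only [zc]
        rw [g1]
        rfl
      · simp only [zc]
        rw [g1, g2]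
        rfl
    · right
      refine ⟨a, g1, g2, ?_, ?_⟩
      · simp only [zc]
        rw [g1, g2]
        rfl
      · simp only [zc]
        rw [g1]
        rfl
  refine ⟨col, cv, ?_, ?_, ?_, ?_, ?_, ?_, hv1, hv2, hv3, hv4⟩
  · intro u v
    by_cases huv : G.Adj u v
    · rw [hcol u v huv, hcol v u huv.symm, h.symm v u]
      rcases hal : al u v with _ | _ | j
      · show zc u v = zc v u
        rcases hzone u v huv hal with ⟨a, _, _, g3, g4⟩ | ⟨a, _, _, g3, g4⟩
        · rw [g3, g4]
        · rw [g3, g4]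
      · show cs s(u, v) = cs s(v, u)
        rw [Sym2.eq_swap]
      · show (if (ty u).2 j = true then cb j u v else cb j v u) =
          (if (ty v).2 j = true then cb j v u else cb j u v)
        rcases hblk u v j huv hal with ⟨g1, g2⟩ | ⟨g1, g2⟩
        · rw [if_pos g1, if_neg g2]
        · rw [if_neg g1, if_pos g2]
    · have hvu : ¬ G.Adj v u := fun g => huv g.symm
      show (if G.Adj u v then f u v (al u v) else 0) = (if G.Adj v u then f v u (al v u) else 0)
      rw [if_neg huv, if_neg hvu]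
  · intro u v j huv hal
    rw [hcol u v huv, hal]
    show (if (ty u).2 j = true then cb j u v else cb j v u) < W
    rcases hblk u v j huv hal with ⟨g1, g2⟩ | ⟨g1, g2⟩
    · rw [if_pos g1]
      exact hb1 j u v ⟨huv, hal, g1⟩
    · rw [if_neg g1]
      exact hb1 j v u ⟨huv.symm, by rw [h.symm v u]; exact hal, g2⟩
  · intro u v huv hal
    rw [hcol u v huv, hal]
    exact hs1 u v ⟨huv, hal⟩
  · intro u v huv hal
    rw [hcol u v huv, hal]
    show zc u v < z + 1
    rcases hzone u v huv hal with ⟨a, g1, _, g3, _⟩ | ⟨a, g1, _, g3, _⟩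
    · rw [g3]
      exact hz1 a u v ⟨huv, hal, g1⟩
    · rw [g3]
      exact hz1 a v u ⟨huv.symm, by rw [h.symm v u]; exact hal, g1⟩
  · intro u v w t huv huw hne hal hal'
    rw [hcol u v huv, hcol u w huw, hal, hal']
    rcases t with _ | j
    · exact hs2 u v w ⟨huv, hal⟩ ⟨huw, hal'⟩ hne
    · show (if (ty u).2 j = true then cb j u v else cb j v u) ≠
        (if (ty u).2 j = true then cb j u w else cb j w u)
      rcases hblk u v j huv hal with ⟨g1, g2⟩ | ⟨g1, g2⟩
      · rw [if_pos g1, if_pos g1]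
        exact hb2 j u v w ⟨huv, hal, g1⟩ ⟨huw, hal', g1⟩ hne
      · rcases hblk u w j huw hal' with ⟨g1', _⟩ | ⟨_, g2'⟩
        · exact absurd g1' g1
        · rw [if_neg g1, if_neg g1]
          exact hb3 j v w u ⟨huv.symm, by rw [h.symm v u]; exact hal, g2⟩
            ⟨huw.symm, by rw [h.symm w u]; exact hal', g2'⟩ hne
  · intro u v w huv huw hne hal hal' hor
    rw [hcol u v huv, hcol u w huw, hal, hal']
    show zc u v ≠ zc u w
    rcases hzone u v huv hal with ⟨a, g1, g2, g3, _⟩ | ⟨a, g1, g2, g3, _⟩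
    · rcases hzone u w huw hal' with ⟨a', g1', g2', g3', _⟩ | ⟨a', g1', g2', g3', _⟩
      · have ha : a' = a := Sum.inl.inj (g1'.symm.trans g1)
        subst ha
        rw [g3, g3']
        exact hz2 a' u v w ⟨huv, hal, g1⟩ ⟨huw, hal', g1⟩ hne
      · rw [g1] at g2'
        cases g2'
    · rcases hzone u w huw hal' with ⟨a', g1', g2', g3', _⟩ | ⟨a', g1', g2', g3', _⟩
      · rw [g1'] at g2
        cases g2
      · rcases hor with ⟨a0, h0⟩ | h0
        · rw [h0] at g2
          cases g2
        · have ha : a' = a := by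
            rw [g1, g1'] at h0
            exact (Sum.inl.inj h0).symm
          subst ha
          rw [g3, g3']
          exact hz3 a' v w u ⟨huv.symm, by rw [h.symm v u]; exact hal, g1⟩
            ⟨huw.symm, by rw [h.symm w u]; exact hal', g1'⟩ hne

end Pool.Agent.H2.HV
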