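import Mathlib
import Pool.Agent.H2.HV.CLD

/-!
MFD: definitions for the mean-field schedule (part B). No sorry.
All indices are natural numbers: tight classes i < K, slack classes (s, r) with s : Bool (true = H), r < R, blocks j < K + P.
-/

set_option autoImplicit false
set_option linter.unusedVariables false

namespace Pool.Agent.H2.HV

open Finset

structure PQ where
  (n p W S z P K R jL len : ℕ)

namespace PQ

variable (q : PQ)

noncomputable def c : ℝ := (q.p : ℝ) / q.n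
noncomputable def om : ℝ := (q.W : ℝ) / q.n
/-- relative mass of each slack side -/
noncomputable def h : ℝ := q.c / 8
noncomputable def ht : ℝ := (q.p : ℝ) / 8
noncomputable def be : ℝ := q.ht / q.R
noncomputable def m : ℝ := (q.n - 2 * q.ht) / q.K
noncomputable def mu : ℝ := (1 - 2 * q.h) / q.K
noncomputable def th : ℝ := 1 - q.c
/-- number of blocks -/
def Jn : ℕ := q.K + q.P
noncomputable def kk : ℝ := (q.K : ℝ) - q.P - 1
noncomputable def Db : ℝ := q.mu * q.kk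
noncomputable def sg : ℝ := q.h * q.th / q.Db
/-- δ -/
noncomputable def dl : ℝ := q.P / q.kk

/-- the zone of the class `i` -/
def zn (i j : ℕ) : Prop := i ≤ j ∧ j ≤ i + q.P

noncomputable def cnt (j : ℕ) : ℝ := ∑ i ∈ range q.K, ind (q.zn i j)
noncomputable def Dj (j : ℕ) : ℝ := q.mu * (q.K - q.cnt j)
/-- 2 in the middle, 1 at the ends -/
noncomputable def sj (j : ℕ) : ℝ := 1 + ind (q.jL ≤ j ∧ j + q.jL < q.Jn)
noncomputable def Nj (j : ℕ) : ℝ := q.sj j * q.h * q.th / q.Dj j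
noncomputable def wj (j : ℕ) : ℝ := (1 - q.Nj j) / q.Dj j
noncomputable def ws : ℝ :=
  (((q.S : ℝ) - 1) / q.W) * (1 - q.h * q.th / (1 - 2 * q.h)) / (1 - 2 * q.h)
noncomputable def Zs (i : ℕ) : ℝ := ∑ j ∈ range q.Jn, ind (q.zn i j) * q.wj j
noncomputable def Os (i i' : ℕ) : ℝ := ∑ j ∈ range q.Jn, ind (q.zn i j ∧ q.zn i' j) * q.wj j
noncomputable def Om (i i' : ℕ) : ℝ :=
  q.om * ((∑ j ∈ range q.Jn, q.wj j) + q.ws - q.Zs i - q.Zs i' + q.Os i i')

/-- what the slack classes have to supply to a vertex of class `i` in block `j` -/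
noncomputable def need (i j : ℕ) : ℝ :=
  q.W - q.W * q.wj j * q.mu * ∑ i' ∈ range q.K, ind (¬ q.zn i' j) / q.Om i i'
noncomputable def needs (i : ℕ) : ℝ :=
  (q.S - 1) - q.W * q.ws * q.mu * ∑ i' ∈ range q.K, 1 / q.Om i i'

/-- block `j` is on the allowed side for the side `s` -/
def sd (s : Bool) (j : ℕ) : Prop := (s = true → j + q.jL < q.Jn) ∧ (s = false → q.jL ≤ j)

/-- availability of block `j` for the slack class `(s, r)` -/
def av (s : Bool) (r j : ℕ) : Prop :=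
  q.sd s j ∧ ∀ i, i < q.K → ((s = true) ↔ 2 * i < q.K) → i % q.R = r →
    j ≠ i ∧ j + 1 ≠ i + q.P ∧ j ≠ i + q.P

/-- number of available slack classes -/
noncomputable def nB (j : ℕ) : ℝ := ∑ s : Bool, ∑ r ∈ range q.R, ind (q.av s r j)

/-- `(s, r)` is the unit of `i` -/
def isU (i : ℕ) (s : Bool) (r : ℕ) : Prop := ((s = true) ↔ 2 * i < q.K) ∧ i % q.R = r

noncomputable def q0 (i : ℕ) (s : Bool) (r j : ℕ) : ℝ :=
  ind (¬ q.zn i j ∧ q.av s r j) * (q.need i j / (q.be * q.nB j))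
noncomputable def q0s (i : ℕ) (s : Bool) (r : ℕ) : ℝ :=
  ind (s = true) * (q.needs i / (q.be * q.R))
noncomputable def rho (i : ℕ) (s : Bool) (r : ℕ) : ℝ :=
  (∑ j ∈ range q.Jn, q.q0 i s r j) + q.q0s i s r
noncomputable def tauB (i : ℕ) (s : Bool) (r : ℕ) : ℝ := 1 - ind (q.isU i s r) * ((q.z + 1) / q.be)
noncomputable def ee (i : ℕ) (s : Bool) (r : ℕ) : ℝ := q.tauB i s r - q.rho i s r

def MM (i : ℕ) (s : Bool) (r : ℕ) (s' : Bool) (r' : ℕ) (j : ℕ) : Prop :=
  (q.jL ≤ j ∧ j + q.jL < q.Jn) ∧ ¬ q.zn i j ∧ q.av s r j ∧ q.av s' r' j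
noncomputable def mc (i : ℕ) (s : Bool) (r : ℕ) (s' : Bool) (r' : ℕ) : ℝ :=
  ∑ j ∈ range q.Jn, ind (q.MM i s r s' r' j)
/-- the correction making the row sums right -/
noncomputable def cor (i : ℕ) (s : Bool) (r j : ℕ) : ℝ :=
  ∑ s' : Bool, ∑ r' ∈ range q.R, (q.ee i s r - q.ee i s' r') / (2 * q.R) *
    (ind (q.MM i s r s' r' j) / q.mc i s r s' r')
noncomputable def qb (i : ℕ) (s : Bool) (r j : ℕ) : ℝ := q.q0 i s r j + q.cor i s r j

noncomputable def nAv (s : Bool) (r : ℕ) (s' : Bool) (r' : ℕ) : ℝ :=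
  ∑ j ∈ range q.Jn, ind (q.av s r j ∧ q.av s' r' j)

/-- tight-tight -/
noncomputable def piA (i i' : ℕ) : Option ℕ → ℝ
  | none => q.om * q.ws / q.Om i i'
  | some j => ind (¬ q.zn i j ∧ ¬ q.zn i' j) * (q.om * q.wj j / q.Om i i')
/-- tight-slack -/
noncomputable def piM (i : ℕ) (s : Bool) (r : ℕ) : Option ℕ → ℝ
  | none => q.q0s i s r / q.tauB i s r
  | some j => q.qb i s r j / q.tauB i s r
/-- slack-slack -/
noncomputable def piB (s : Bool) (r : ℕ) (s' : Bool) (r' : ℕ) : Option ℕ → ℝ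
  | none => 0
  | some j => ind (q.av s r j ∧ q.av s' r' j) / q.nAv s r s' r'

/-- The parameter conditions. -/
structure Par : Prop where
  num : Num q.n q.W q.S q.z q.c
  hJ : q.S + (q.K + q.P) * q.W = q.n + 2 * q.p
  hz : q.z + 2 * q.p = (q.P + 1) * q.W
  R1 : 128 * q.R + 2 ≤ q.P
  R2 : q.P < 128 * q.R + 130
  len1 : (51 / 50 : ℝ) * (q.p / 8) < q.len
  len2 : (q.len : ℝ) ≤ 103 / 100 * (q.p / 8)
  jl1 : q.p + q.len ≤ q.jL * q.W
  jl2 : q.jL * q.W ≤ q.p + q.len + q.W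

/-- the index of a block as a natural number -/
def oj {N : ℕ} : Option (Fin N) → Option ℕ
  | none => none
  | some j => some j

/-- The concrete mean-field schedule. -/
noncomputable def D (hR : 0 < q.R) : MS (Fin q.K) (Bool × Fin q.R) (Fin (q.K + q.P)) where
  M := fun k => match k with
    | Sum.inl _ => q.m
    | Sum.inr _ => q.be
  be := q.be
  el := fun k j => match k with
    | Sum.inl i => ¬ q.zn i j
    | Sum.inr b => q.av b.1 b.2 j
  st := fun k => match k with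
    | Sum.inl _ => True
    | Sum.inr b => b.1 = true
  pi := fun k k' t => match k, k' with
    | Sum.inl i, Sum.inl i' => q.piA i i' (oj t)
    | Sum.inl i, Sum.inr b => q.piM i b.1 b.2 (oj t)
    | Sum.inr b, Sum.inl i => q.piM i b.1 b.2 (oj t)
    | Sum.inr b, Sum.inr b' => q.piB b.1 b.2 b'.1 b'.2 (oj t)
  un := fun i => (decide (2 * (i : ℕ) < q.K), ⟨(i : ℕ) % q.R, Nat.mod_lt _ hR⟩)
  mid := fun i j => (q.jL ≤ (j : ℕ) ∧ (j : ℕ) + q.jL < q.Jn) ∧ ¬ q.zn i j

end PQ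

end Pool.Agent.H2.HV
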