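import Mathlib
import Pool.Agent.H2.HV.PRB

/-!
NUM (about 120 lines). Numerical consequences of `Num` and the size of balls.

num_c: n ≥ 100 so log n ≥ 4 (exp 4 < 55 < 100, e.g. Real.exp_one_lt_d9). W > 0 by W1. c^4 n = c^2 (c^2 n) ≥ c^2 10^8 W ≥ 10^21 log n.
W ≥ 10^13 log n / c^2 ≥ 4·10^13·10^10. n/W ≥ 1000 log n.
tiny_poly: tiny n = n^(-10) (Real.exp_log etc.), 40 n^3 ((n+1)^3+1) ≤ n^10 for n ≥ 100.
ball1, ball2: the set is contained in the union over x in the closed neighbourhood of i (at most n+1 points, by `Reg` and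
`sum_ind_eq_ncard`) of the closed neighbourhoods of x; for ball2 once more. Use Set.ncard / Finset.card_biUnion_le.
-/

set_option autoImplicit false
set_option linter.unusedVariables false

namespace Pool.Agent.H2.HV

open Finset

theorem num_c {n W S z : ℕ} {c : ℝ} (h : Num n W S z c) :
    (0:ℝ) < n ∧ (0:ℝ) < W ∧ 4 ≤ Real.log n ∧ 10 ^ 21 * Real.log n ≤ c ^ 4 * n ∧
      (W : ℝ) / n ≤ c ^ 2 / 10 ^ 8 ∧ 1000 * Real.log n ≤ n / W ∧ (10:ℝ) ^ 20 ≤ W ∧
      0 < (W : ℝ) / n := by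
  have hn : (100 : ℝ) ≤ n := by exact_mod_cast h.hn
  have hn0 : (0 : ℝ) < n := by linarith
  have hlog : 4 ≤ Real.log n := by
    rw [Real.le_log_iff_exp_le hn0]
    have e1 : Real.exp 4 = Real.exp 1 ^ 4 := by
      rw [← Real.exp_nat_mul]
      norm_num
    rw [e1]
    have e2 := Real.exp_one_lt_d9
    have e3 : Real.exp 1 ^ 4 ≤ 3 ^ 4 :=
      pow_le_pow_left₀ (Real.exp_pos 1).le (by linarith) 4
    calc Real.exp 1 ^ 4 ≤ 3 ^ 4 := e3
      _ ≤ 100 := by norm_num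
      _ ≤ n := hn
  have hc2 : 0 < c ^ 2 := pow_pos h.c0 2
  have hW : (0 : ℝ) < W := by
    by_contra hle
    have hW0 : (W : ℝ) = 0 := le_antisymm (not_lt.1 hle) (Nat.cast_nonneg W)
    have h1 := h.W1
    rw [hW0, mul_zero] at h1
    nlinarith
  have hc4 : 10 ^ 21 * Real.log n ≤ c ^ 4 * n := by
    have h1 := h.W1
    have h2 : c ^ 2 * W ≤ c ^ 2 * (c ^ 2 / 10 ^ 8 * n) := mul_le_mul_of_nonneg_left h.om hc2.le
    have h3 : c ^ 2 * (c ^ 2 / 10 ^ 8 * n) = c ^ 4 * n / 10 ^ 8 := by ring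
    rw [h3] at h2
    have h4 : 10 ^ 13 * Real.log n ≤ c ^ 4 * n / 10 ^ 8 := h1.trans h2
    rw [le_div_iff₀ (by positivity)] at h4
    calc 10 ^ 21 * Real.log n = 10 ^ 13 * Real.log n * 10 ^ 8 := by ring
      _ ≤ c ^ 4 * n := h4
  refine ⟨hn0, hW, hlog, hc4, ?_, ?_, ?_, div_pos hW hn0⟩
  · rw [div_le_iff₀ hn0]
    exact h.om
  · rw [le_div_iff₀ hW]
    exact h.W2
  · have h1 := h.W1
    have h2 : c ^ 2 ≤ (1 / 10 ^ 5) ^ 2 := pow_le_pow_left₀ h.c0.le h.c1 2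
    have h3 : c ^ 2 * W ≤ (1 / 10 ^ 5) ^ 2 * W := mul_le_mul_of_nonneg_right h2 hW.le
    have h4 : (10 : ℝ) ^ 13 * 4 ≤ (1 / 10 ^ 5) ^ 2 * W := by
      calc (10 : ℝ) ^ 13 * 4 ≤ 10 ^ 13 * Real.log n :=
            mul_le_mul_of_nonneg_left hlog (by positivity)
        _ ≤ _ := h1.trans h3
    have h5 : (10 : ℝ) ^ 20 = 100000000000000000000 := by norm_num
    rw [h5]
    norm_num at h4
    linarith

theorem tiny_pos (n : ℕ) : 0 < tiny n := Real.exp_pos _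

theorem tiny_poly (n : ℕ) (hn : 100 ≤ n) :
    4 * (10 * (n:ℝ) ^ 3 * tiny n) * ((((n + 1) ^ 3 : ℕ) : ℝ) + 1) ≤ 1 := by
  have hn' : (100 : ℝ) ≤ n := by exact_mod_cast hn
  have hn0 : (0 : ℝ) < n := by linarith
  have ht : tiny n = ((n : ℝ) ^ 10)⁻¹ := by
    unfold tiny
    rw [Real.exp_neg]
    congr 1
    have h1 : Real.exp (10 * Real.log n) = Real.exp (Real.log n) ^ 10 := by
      rw [← Real.exp_nat_mul]
      norm_num
    rw [h1, Real.exp_log hn0]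
  rw [ht]
  push_cast
  have h1 : ((n : ℝ) + 1) ^ 3 + 1 ≤ 8 * (n : ℝ) ^ 3 := by
    have h2 : ((n : ℝ) + 1) ≤ 3 / 2 * n := by linarith
    have h3 : ((n : ℝ) + 1) ^ 3 ≤ (3 / 2 * (n : ℝ)) ^ 3 := pow_le_pow_left₀ (by linarith) h2 3
    have h4 : (1 : ℝ) ≤ (n : ℝ) ^ 3 := one_le_pow₀ (by linarith)
    have h5 : (3 / 2 * (n : ℝ)) ^ 3 = 27 / 8 * (n : ℝ) ^ 3 := by ring
    linarith
  have h6 : (320 : ℝ) ≤ (n : ℝ) ^ 4 := by
    have : (100 : ℝ) ^ 4 ≤ (n : ℝ) ^ 4 := pow_le_pow_left₀ (by norm_num) hn' 4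
    norm_num at this
    linarith
  have h7 : 4 * (10 * (n : ℝ) ^ 3 * ((n : ℝ) ^ 10)⁻¹) * (((n : ℝ) + 1) ^ 3 + 1) =
      40 * (n : ℝ) ^ 3 * (((n : ℝ) + 1) ^ 3 + 1) / (n : ℝ) ^ 10 := by
    rw [div_eq_mul_inv]
    ring
  rw [h7, div_le_one (by positivity)]
  calc 40 * (n : ℝ) ^ 3 * (((n : ℝ) + 1) ^ 3 + 1) ≤ 40 * (n : ℝ) ^ 3 * (8 * (n : ℝ) ^ 3) :=
        mul_le_mul_of_nonneg_left h1 (by positivity)
    _ = 320 * (n : ℝ) ^ 6 := by ring
    _ ≤ (n : ℝ) ^ 4 * (n : ℝ) ^ 6 := mul_le_mul_of_nonneg_right h6 (by positivity)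
    _ = (n : ℝ) ^ 10 := by ring

open Classical in
private theorem NUM_card {V : Type} [Fintype V] (G : SimpleGraph V) (n : ℕ) (hG : Reg G n)
    (i : V) : (univ.filter fun x => x = i ∨ G.Adj i x).card ≤ n + 1 := by
  have h1 := hG i
  rw [sum_ind_eq_ncard] at h1
  have h2 : {u | G.Adj i u}.ncard = n := by exact_mod_cast h1
  have h3 : (univ.filter fun x => G.Adj i x).card = n := by
    rw [← h2, ← Set.ncard_coe_finset]
    congr 1
    ext x
    simp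
  have h4 : (univ.filter fun x => x = i ∨ G.Adj i x) ⊆
      insert i (univ.filter fun x => G.Adj i x) := by
    intro x hx
    rcases (Finset.mem_filter.1 hx).2 with h | h
    · rw [h]; exact Finset.mem_insert_self _ _
    · exact Finset.mem_insert_of_mem (Finset.mem_filter.2 ⟨Finset.mem_univ _, h⟩)
  refine (Finset.card_le_card h4).trans ((Finset.card_insert_le _ _).trans ?_)
  rw [h3]

theorem ball1 {V : Type} [Fintype V] (G : SimpleGraph V) (n : ℕ) (hG : Reg G n) (i : V) :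
    {j | ∃ x, (x = i ∨ G.Adj i x) ∧ (x = j ∨ G.Adj j x)}.ncard ≤ (n + 1) ^ 2 := by
  classical
  have h1 : {j | ∃ x, (x = i ∨ G.Adj i x) ∧ (x = j ∨ G.Adj j x)} ⊆
      (((univ.filter fun x => x = i ∨ G.Adj i x).biUnion
        fun x => univ.filter fun y => y = x ∨ G.Adj x y : Finset V) : Set V) := by
    rintro j ⟨x, hx, hj⟩
    rw [Finset.mem_coe, Finset.mem_biUnion]
    refine ⟨x, Finset.mem_filter.2 ⟨Finset.mem_univ _, hx⟩,
      Finset.mem_filter.2 ⟨Finset.mem_univ _, ?_⟩⟩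
    rcases hj with h | h
    · exact Or.inl h.symm
    · exact Or.inr h.symm
  refine (Set.ncard_le_ncard h1 (Finset.finite_toSet _)).trans ?_
  rw [Set.ncard_coe_finset]
  refine (Finset.card_biUnion_le_card_mul _ _ (n + 1) fun x _ => ?_).trans ?_
  · exact NUM_card G n hG x
  · rw [sq]
    refine Nat.mul_le_mul_right _ ?_
    exact NUM_card G n hG i

theorem ball2 {V : Type} [Fintype V] (G : SimpleGraph V) (n : ℕ) (hG : Reg G n) (i : V) :
    {j | ∃ x y, (x = i ∨ G.Adj i x) ∧ (x = y ∨ G.Adj x y) ∧ (y = j ∨ G.Adj j y)}.ncard ≤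
      (n + 1) ^ 3 := by
  classical
  have h1 : {j | ∃ x y, (x = i ∨ G.Adj i x) ∧ (x = y ∨ G.Adj x y) ∧ (y = j ∨ G.Adj j y)} ⊆
      (((univ.filter fun x => x = i ∨ G.Adj i x).biUnion
        fun x => (univ.filter fun y => y = x ∨ G.Adj x y).biUnion
          fun y => univ.filter fun w => w = y ∨ G.Adj y w : Finset V) : Set V) := by
    rintro j ⟨x, y, hx, hy, hj⟩
    rw [Finset.mem_coe, Finset.mem_biUnion]
    refine ⟨x, Finset.mem_filter.2 ⟨Finset.mem_univ _, hx⟩, Finset.mem_biUnion.2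
      ⟨y, Finset.mem_filter.2 ⟨Finset.mem_univ _, ?_⟩, Finset.mem_filter.2 ⟨Finset.mem_univ _, ?_⟩⟩⟩
    · rcases hy with h | h
      · exact Or.inl h.symm
      · exact Or.inr h
    · rcases hj with h | h
      · exact Or.inl h.symm
      · exact Or.inr h.symm
  refine (Set.ncard_le_ncard h1 (Finset.finite_toSet _)).trans ?_
  rw [Set.ncard_coe_finset]
  have h2 : (n + 1) ^ 3 = (n + 1) * ((n + 1) * (n + 1)) := by ring
  rw [h2]
  refine (Finset.card_biUnion_le_card_mul _ _ ((n + 1) * (n + 1)) fun x _ => ?_).trans ?_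
  · refine (Finset.card_biUnion_le_card_mul _ _ (n + 1) fun y _ => ?_).trans ?_
    · exact NUM_card G n hG y
    · refine Nat.mul_le_mul_right _ ?_
      exact NUM_card G n hG x
  · refine Nat.mul_le_mul_right _ ?_
    exact NUM_card G n hG i

end Pool.Agent.H2.HV
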