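import Mathlib
import Pool.Agent.H2.HV.MFD
import Pool.Agent.H2.HV.NUM

/-!
PFA (about 250 lines). Numerical consequences of `Par`. Write om = W/n, c = p/n (c ≤ 10^-5, om ≤ c²/10^8, from Num/num_c; W ≥ 10^20).
P: (P+1) W = z + 2p, W ≤ z < 2W: P W = 2p + (z - W) in [2p, 2p+W). K: K W = n + 2p - S - P W, W ≤ S < 2W, so K W + S ≤ n and K W ≥ n - 3W.
R: 128 R ≤ P - 2, P < 128 R + 130: R om ≤ (2c+om)/128; 128 R om > 2c - 130 om so R om ≥ c/66 ·(om tiny).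
be = p/(8R): be ≥ 8W since 64 R W ≤ p (128 R W ≤ (P-2) W ≤ 2p - W); be ≤ 9 W since 72 R W ≥ p.
jL: jL W in [p+len, p+len+W], len in [1.02 p/8, 1.03 p/8]: jL om in [1.1275 c, 1.1288 c + om].
kk = K - P - 1: kk om ≥ 1 - 3om - (2c+om) - om. dl = P/kk ≤ (2c+om)/(1-2c-5om) ≤ 2.001 c. Db = (1-2h) kk/K.
sg kk = h th K/(1-2h) (field_simp). sg = h th/Db: Db ≤ 1 gives sg ≥ h(1-c); for sg ≤ h(1+2c) use the finer kk om ≥ 1-2c-5om, K om ≤ 1: Db ≥ (1-c/4)(1-2c-5om) and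
(1-c) ≤ (1+2c)(1-c/4)(1-2c-5om).
-/

set_option autoImplicit false
set_option linter.unusedVariables false

namespace Pool.Agent.H2.HV

open Finset

namespace PQ

variable {q : PQ}

theorem f_c (hq : q.Par) : 0 < q.c ∧ q.c ≤ 1 / 10 ^ 5 ∧ 0 < q.om ∧ q.om ≤ q.c ^ 2 / 10 ^ 8 := by
  obtain ⟨h1, h2, h3, h4, h5, h6, h7, h8⟩ := num_c hq.num
  exact ⟨hq.num.c0, hq.num.c1, h8, h5⟩

/-- the basic real facts -/
private theorem PFA_base (hq : q.Par) :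
    (0:ℝ) < q.n ∧ (10:ℝ) ^ 20 ≤ q.W ∧ (q.W : ℝ) = q.om * q.n ∧ (q.p : ℝ) = q.c * q.n ∧
      (q.P : ℝ) * q.om = 2 * q.c + (q.z : ℝ) / q.n - q.om ∧
      (q.K : ℝ) * q.om = 1 - (q.S : ℝ) / q.n - (q.z : ℝ) / q.n + q.om := by
  obtain ⟨h1, h2, h3, h4, h5, h6, h7, h8⟩ := num_c hq.num
  have hW : (q.W : ℝ) = q.om * q.n := by
    unfold om
    rw [div_mul_cancel₀ _ h1.ne']
  have hp : (q.p : ℝ) = q.c * q.n := by
    unfold c
    rw [div_mul_cancel₀ _ h1.ne']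
  have hz : (q.z : ℝ) + 2 * q.p = ((q.P : ℝ) + 1) * q.W := by exact_mod_cast hq.hz
  have hJ : (q.S : ℝ) + ((q.K : ℝ) + q.P) * q.W = q.n + 2 * q.p := by exact_mod_cast hq.hJ
  refine ⟨h1, h7, hW, hp, ?_, ?_⟩
  · have e : (q.P : ℝ) * q.W = 2 * q.p + q.z - q.W := by linarith
    unfold om c
    rw [mul_div_assoc', e]
    ring
  · have e : (q.K : ℝ) * q.W = q.n - q.S - q.z + q.W := by linarith
    unfold om
    rw [mul_div_assoc', e, add_div, sub_div, sub_div, div_self h1.ne']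

private theorem PFA_sz (hq : q.Par) : q.om ≤ (q.S : ℝ) / q.n ∧ (q.S : ℝ) / q.n ≤ 2 * q.om ∧
    q.om ≤ (q.z : ℝ) / q.n ∧ ((q.z : ℝ) + 1) / q.n ≤ 2 * q.om ∧ (q.z : ℝ) / q.n ≤ 2 * q.om ∧
    0 < (q.z : ℝ) / q.n ∧ (q.z : ℝ) + 1 ≤ 2 * q.W := by
  obtain ⟨hn, hW20, hW, hp, hP, hK⟩ := PFA_base hq
  have hS0 : (q.W : ℝ) ≤ q.S := by exact_mod_cast hq.num.S0
  have hS1 : (q.S : ℝ) ≤ 2 * q.W := by exact_mod_cast hq.num.S1.le
  have hz0 : (q.W : ℝ) ≤ q.z := by exact_mod_cast hq.num.z0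
  have hz1 : (q.z : ℝ) + 1 ≤ 2 * q.W := by exact_mod_cast hq.num.z1
  have hW0 : (0:ℝ) < q.W := by linarith [show (0:ℝ) < 10 ^ 20 by norm_num]
  have e1 : q.om = (q.W : ℝ) / q.n := rfl
  refine ⟨?_, ?_, ?_, ?_, ?_, div_pos (by linarith) hn, hz1⟩
  · rw [e1]; exact div_le_div_of_nonneg_right hS0 hn.le
  · rw [e1, ← mul_div_assoc]; exact div_le_div_of_nonneg_right hS1 hn.le
  · rw [e1]; exact div_le_div_of_nonneg_right hz0 hn.le
  · rw [e1, ← mul_div_assoc]; exact div_le_div_of_nonneg_right hz1 hn.le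
  · rw [e1, ← mul_div_assoc]; exact div_le_div_of_nonneg_right (by linarith) hn.le

/-- `om ≤ c / 10^13`, and `c^2 ≤ c / 10^5` -/
private theorem PFA_small (hq : q.Par) : q.om * 10 ^ 13 ≤ q.c ∧ q.c ^ 2 * 10 ^ 5 ≤ q.c ∧
    q.c * q.om * 10 ^ 18 ≤ q.c := by
  obtain ⟨h1, h2, h3, h4⟩ := f_c hq
  have a1 : q.c ^ 2 * 10 ^ 5 ≤ q.c := by
    have : q.c * (q.c * 10 ^ 5) ≤ q.c * 1 := by
      refine mul_le_mul_of_nonneg_left ?_ h1.le
      rw [le_div_iff₀ (by positivity)] at h2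
      exact h2
    nlinarith
  have a2 : q.om * 10 ^ 13 ≤ q.c := by
    rw [le_div_iff₀ (by positivity)] at h4
    nlinarith
  refine ⟨a2, a1, ?_⟩
  have a3 : q.om * 10 ^ 18 ≤ 1 := by
    have : q.c ≤ 1 / 10 ^ 5 := h2
    norm_num at this ⊢
    linarith
  nlinarith

theorem f_nat (hq : q.Par) : 0 < q.n ∧ 0 < q.p ∧ 0 < q.W ∧ 0 < q.K ∧ 10 ^ 6 < q.R ∧ 10 ^ 6 < q.P ∧
    0 < q.jL ∧ q.jL + 10 < q.P ∧ 10 * q.P < q.K ∧ 0 < q.len ∧ q.len ≤ q.p := by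
  obtain ⟨hc0, hc1, hom0, hom1⟩ := f_c hq
  obtain ⟨hn, hW20, hW, hp, hP, hK⟩ := PFA_base hq
  obtain ⟨s1, s2, s3, s4, s5, s6, s7⟩ := PFA_sz hq
  obtain ⟨t1, t2, t3⟩ := PFA_small hq
  have hW0 : (0:ℝ) < q.W := by linarith [show (0:ℝ) < 10 ^ 20 by norm_num]
  have hp0 : (0:ℝ) < q.p := by rw [hp]; positivity
  have hR2 : (q.P : ℝ) ≤ 128 * q.R + 129 := by
    have := hq.R2
    have h2 : q.P ≤ 128 * q.R + 129 := by omega
    exact_mod_cast h2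
  have hR1 : 128 * (q.R : ℝ) + 2 ≤ q.P := by exact_mod_cast hq.R1
  -- R
  have hR : (1000000 : ℝ) < q.R := by
    by_contra hcon
    have hcon' := not_lt.1 hcon
    have h1 : (q.P : ℝ) * q.om ≤ (128 * 1000000 + 129) * q.om :=
      mul_le_mul_of_nonneg_right (by linarith) hom0.le
    norm_num at h1 t1
    linarith
  have hPP : (1000000 : ℝ) < q.P := by linarith
  have hRn : 1000000 < q.R := by exact_mod_cast hR
  have hPn : 1000000 < q.P := by exact_mod_cast hPP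
  have hlen : (0:ℝ) < q.len := by
    have := hq.len1
    nlinarith
  have hlenp : (q.len : ℝ) ≤ q.p := by
    have := hq.len2
    nlinarith
  have hWp : (q.W : ℝ) * 10 ^ 13 ≤ q.p := by
    rw [hW, hp]
    nlinarith
  have hPW : 2 * (q.p : ℝ) ≤ q.P * q.W := by
    have h1 : 2 * q.c ≤ q.P * q.om := by linarith
    rw [hp, hW]
    nlinarith
  refine ⟨by exact_mod_cast hn, by exact_mod_cast hp0, by exact_mod_cast hW0, ?_,
    by omega, by omega, ?_, ?_, ?_, by exact_mod_cast hlen,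
    by exact_mod_cast hlenp⟩
  · have h1 : (0:ℝ) < q.K := by
      by_contra hcon
      have hK0 : (q.K : ℝ) = 0 := le_antisymm (not_lt.1 hcon) (Nat.cast_nonneg _)
      rw [hK0, zero_mul] at hK
      norm_num at t1 hc1
      linarith
    exact_mod_cast h1
  · have h1 : (0:ℝ) < q.jL := by
      by_contra hcon
      have hK0 : (q.jL : ℝ) = 0 := le_antisymm (not_lt.1 hcon) (Nat.cast_nonneg _)
      have h2 : (q.p : ℝ) + q.len ≤ q.jL * q.W := by exact_mod_cast hq.jl1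
      rw [hK0, zero_mul] at h2
      linarith
    exact_mod_cast h1
  · have h2 : (q.jL : ℝ) * q.W ≤ q.p + q.len + q.W := by exact_mod_cast hq.jl2
    have h3 := hq.len2
    have h4 : ((q.jL : ℝ) + 10) * q.W < q.P * q.W := by
      norm_num at hWp
      linarith
    have h5 : (q.jL : ℝ) + 10 < q.P := lt_of_mul_lt_mul_right h4 hW0.le
    exact_mod_cast h5
  · have h4 : (10 * (q.P : ℝ)) * q.om < q.K * q.om := by
      norm_num at t1 hc1
      linarith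
    have h5 : 10 * (q.P : ℝ) < q.K := lt_of_mul_lt_mul_right h4 hom0.le
    exact_mod_cast h5

theorem f_P (hq : q.Par) : 2 * q.c ≤ q.P * q.om ∧ q.P * q.om ≤ 2 * q.c + q.om := by
  obtain ⟨hn, hW20, hW, hp, hP, hK⟩ := PFA_base hq
  obtain ⟨s1, s2, s3, s4, s5, s6, s7⟩ := PFA_sz hq
  constructor <;> linarith

theorem f_K (hq : q.Par) : q.K * q.om + q.S / q.n ≤ 1 ∧ 1 - 3 * q.om ≤ q.K * q.om ∧
    2 * q.c * q.K ≤ q.P ∧ (q.Jn : ℝ) * q.om = 1 + 2 * q.c - q.S / q.n := by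
  obtain ⟨hn, hW20, hW, hp, hP, hK⟩ := PFA_base hq
  obtain ⟨s1, s2, s3, s4, s5, s6, s7⟩ := PFA_sz hq
  obtain ⟨hc0, hc1, hom0, hom1⟩ := f_c hq
  refine ⟨by linarith, by linarith, ?_, ?_⟩
  · have h1 : 2 * q.c * q.K * q.om ≤ q.P * q.om := by
      have h2 : (q.K : ℝ) * q.om ≤ 1 := by linarith
      have h3 := mul_le_mul_of_nonneg_left h2 (by positivity : 0 ≤ 2 * q.c)
      linarith
    exact le_of_mul_le_mul_right h1 hom0
  · unfold Jn
    push_cast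
    rw [add_mul]
    linarith

theorem f_S (hq : q.Par) : (1:ℝ) ≤ q.S / q.W ∧ (q.S : ℝ) / q.W ≤ 2 ∧ (0:ℝ) < q.S - 1 ∧
    (q.W : ℝ) - 1 ≤ q.S - 1 ∧ q.om ≤ q.z / q.n ∧ (q.z + 1 : ℝ) / q.n ≤ 2 * q.om := by
  obtain ⟨hn, hW20, hW, hp, hP, hK⟩ := PFA_base hq
  obtain ⟨s1, s2, s3, s4, s5, s6, s7⟩ := PFA_sz hq
  have hS0 : (q.W : ℝ) ≤ q.S := by exact_mod_cast hq.num.S0
  have hS1 : (q.S : ℝ) ≤ 2 * q.W := by exact_mod_cast hq.num.S1.le
  have hW0 : (1:ℝ) < q.W := by linarith [show (1:ℝ) < 10 ^ 20 by norm_num]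
  refine ⟨?_, ?_, by linarith, by linarith, s3, s4⟩
  · rw [le_div_iff₀ (by linarith)]; linarith
  · rw [div_le_iff₀ (by linarith)]; linarith

private theorem PFA_R (hq : q.Par) : 64 * (q.R * q.om) ≤ q.c ∧ q.c ≤ 66 * (q.R * q.om) ∧
    (0:ℝ) < q.R := by
  obtain ⟨hc0, hc1, hom0, hom1⟩ := f_c hq
  obtain ⟨hP1, hP2⟩ := f_P hq
  obtain ⟨-, -, -, -, hR, -⟩ := f_nat hq
  have hRn : 1000000 < q.R := by omega
  have hR0 : (1000000:ℝ) < q.R := by exact_mod_cast hRn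
  have hR2 : (q.P : ℝ) ≤ 128 * q.R + 129 := by
    have := hq.R2
    have h2 : q.P ≤ 128 * q.R + 129 := by omega
    exact_mod_cast h2
  have hR1 : 128 * (q.R : ℝ) + 2 ≤ q.P := by exact_mod_cast hq.R1
  have a1 := mul_le_mul_of_nonneg_right hR1 hom0.le
  have a2 := mul_le_mul_of_nonneg_right hR2 hom0.le
  have a3 := mul_le_mul_of_nonneg_right hR0.le hom0.le
  refine ⟨?_, ?_, by linarith⟩
  · linarith
  · linarith

theorem f_R (hq : q.Par) : 64 * (q.R * q.om) ≤ q.c ∧ q.c ≤ 66 * (q.R * q.om) ∧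
    (4:ℝ) / q.R ≤ 264 * q.om / q.c ∧ 3 * ((q.K : ℝ) / q.R + 1) ≤ 200 / q.c := by
  obtain ⟨hc0, hc1, hom0, hom1⟩ := f_c hq
  obtain ⟨r1, r2, hR0⟩ := PFA_R hq
  obtain ⟨k1, k2, k3, k4⟩ := f_K hq
  have hSn : (0:ℝ) ≤ (q.S : ℝ) / q.n := by positivity
  refine ⟨r1, r2, ?_, ?_⟩
  · rw [div_le_div_iff₀ hR0 hc0]
    linarith
  · have h1 : (q.K : ℝ) / q.R ≤ 66 / q.c := by
      rw [div_le_div_iff₀ hR0 hc0]
      have h2 : (q.K : ℝ) * q.c ≤ q.K * (66 * (q.R * q.om)) :=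
        mul_le_mul_of_nonneg_left r2 (Nat.cast_nonneg _)
      have h3 : (q.K : ℝ) * q.om * (66 * q.R) ≤ 1 * (66 * q.R) :=
        mul_le_mul_of_nonneg_right (by linarith) (by positivity)
      linarith
    have h2 : 3 ≤ 2 / q.c := by
      rw [le_div_iff₀ hc0]
      norm_num at hc1
      linarith
    have h3 : 200 / q.c = 3 * (66 / q.c) + 2 / q.c := by ring
    linarith

theorem f_be (hq : q.Par) : 0 < q.be ∧ 8 * (q.W : ℝ) ≤ q.be ∧ q.be ≤ 9 * q.W ∧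
    q.be * q.R = q.ht ∧ (q.z + 1 : ℝ) / q.be ≤ 1 / 4 ∧ 0 < (q.z + 1 : ℝ) / q.be := by
  obtain ⟨hn, hW20, hW, hp, hP, hK⟩ := PFA_base hq
  obtain ⟨s1, s2, s3, s4, s5, s6, s7⟩ := PFA_sz hq
  obtain ⟨r1, r2, hR0⟩ := PFA_R hq
  obtain ⟨hc0, hc1, hom0, hom1⟩ := f_c hq
  have hW0 : (0:ℝ) < q.W := by linarith [show (0:ℝ) < 10 ^ 20 by norm_num]
  have hbe : q.be = (q.p : ℝ) / 8 / q.R := rfl
  have hp0 : (0:ℝ) < q.p := by rw [hp]; positivity
  have hbe0 : 0 < q.be := by rw [hbe]; positivity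
  have e1 : 64 * (q.R * q.W) ≤ (q.p : ℝ) := by
    rw [hW, hp]
    nlinarith
  have e2 : (q.p : ℝ) ≤ 66 * (q.R * q.W) := by
    rw [hW, hp]
    nlinarith
  have b1 : 8 * (q.W : ℝ) ≤ q.be := by
    rw [hbe, le_div_iff₀ hR0]
    linarith
  refine ⟨hbe0, b1, ?_, ?_, ?_, ?_⟩
  · rw [hbe, div_le_iff₀ hR0]
    have : (0:ℝ) < q.R * q.W := by positivity
    linarith
  · unfold be
    rw [div_mul_cancel₀ _ hR0.ne']
  · rw [div_le_iff₀ hbe0]
    linarith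
  · have : (0:ℝ) ≤ q.z := Nat.cast_nonneg _
    positivity

theorem f_m (hq : q.Par) : 0 < q.m ∧ q.m = q.mu * q.n ∧ q.m * q.K = q.n - 2 * q.ht ∧
    q.m ≤ q.W * (1 - q.c / 5) ∧ q.ht = q.h * q.n ∧ 0 < q.mu := by
  obtain ⟨hn, hW20, hW, hp, hP, hK⟩ := PFA_base hq
  obtain ⟨t1, t2, t3⟩ := PFA_small hq
  obtain ⟨hc0, hc1, hom0, hom1⟩ := f_c hq
  obtain ⟨k1, k2, k3, k4⟩ := f_K hq
  obtain ⟨-, -, -, hK0', -⟩ := f_nat hq
  have hK0 : (0:ℝ) < q.K := by exact_mod_cast hK0'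
  have hht : q.ht = q.h * q.n := by
    unfold ht h
    rw [hp]
    ring
  have hh : q.h = q.c / 8 := rfl
  have hmu : 0 < q.mu := by
    unfold mu
    apply div_pos _ hK0
    rw [hh]
    norm_num at hc1
    linarith
  have hm : q.m = q.mu * q.n := by
    unfold m mu
    rw [hht]
    ring
  refine ⟨?_, hm, ?_, ?_, hht, hmu⟩
  · rw [hm]; positivity
  · unfold m
    rw [div_mul_cancel₀ _ hK0.ne']
  · have e : q.m = (q.n - 2 * q.ht) / q.K := rfl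
    rw [e, div_le_iff₀ hK0, hht, hW, hh]
    have h1 : (1 - q.c / 4) ≤ (1 - 3 * q.om) * (1 - q.c / 5) := by
      have : 0 < q.om * q.c := by positivity
      norm_num at t1
      nlinarith
    have h2 : (1 - 3 * q.om) * (1 - q.c / 5) ≤ (q.K * q.om) * (1 - q.c / 5) := by
      refine mul_le_mul_of_nonneg_right k2 ?_
      norm_num at hc1
      linarith
    have h3 := mul_le_mul_of_nonneg_right (h1.trans h2) hn.le
    linarith

theorem f_jL (hq : q.Par) : 11275 / 10000 * q.c ≤ q.jL * q.om ∧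
    q.jL * q.om ≤ 1129 / 1000 * q.c := by
  obtain ⟨hn, hW20, hW, hp, hP, hK⟩ := PFA_base hq
  obtain ⟨t1, t2, t3⟩ := PFA_small hq
  obtain ⟨hc0, hc1, hom0, hom1⟩ := f_c hq
  have h1 : (q.p : ℝ) + q.len ≤ q.jL * q.W := by exact_mod_cast hq.jl1
  have h2 : (q.jL : ℝ) * q.W ≤ q.p + q.len + q.W := by exact_mod_cast hq.jl2
  have l1 := hq.len1
  have l2 := hq.len2
  have e : (q.jL : ℝ) * q.W = q.jL * q.om * q.n := by rw [hW]; ring
  constructor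
  · have h3 : 11275 / 10000 * q.c * q.n ≤ q.jL * q.om * q.n := by
      rw [← e]
      rw [hp] at h1 l1
      linarith
    exact le_of_mul_le_mul_right h3 hn
  · have h3 : q.jL * q.om * q.n ≤ (1129 / 1000 * q.c) * q.n := by
      rw [← e]
      rw [hp, hW] at h2
      rw [hp] at l2
      have h4 : q.om * q.n * 10 ^ 13 ≤ q.c * q.n := by
        have := mul_le_mul_of_nonneg_right t1 hn.le
        linarith
      norm_num at h4
      linarith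
    exact le_of_mul_le_mul_right h3 hn

theorem f_kk (hq : q.Par) : 0 < q.kk ∧ (1 - 3 * q.c) / q.om ≤ q.kk ∧ q.dl ≤ 2001 / 1000 * q.c ∧
    0 < q.dl ∧ q.kk ≤ q.K := by
  obtain ⟨t1, t2, t3⟩ := PFA_small hq
  obtain ⟨hc0, hc1, hom0, hom1⟩ := f_c hq
  obtain ⟨k1, k2, k3, k4⟩ := f_K hq
  obtain ⟨p1, p2⟩ := f_P hq
  obtain ⟨-, -, -, -, -, hP', -⟩ := f_nat hq
  have hP0 : (0:ℝ) < q.P := by
    have : 0 < q.P := by omega
    exact_mod_cast this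
  have hkk : q.kk = (q.K : ℝ) - q.P - 1 := rfl
  have a1 : 1 - 2 * q.c - 5 * q.om ≤ q.kk * q.om := by
    rw [hkk]
    linarith
  have a2 : (1 - 3 * q.c) / q.om ≤ q.kk := by
    rw [div_le_iff₀ hom0]
    norm_num at t1
    linarith
  have a3 : 0 < q.kk := by
    refine lt_of_lt_of_le ?_ a2
    apply div_pos _ hom0
    norm_num at hc1
    linarith
  refine ⟨a3, a2, ?_, ?_, ?_⟩
  · unfold dl
    rw [div_le_iff₀ a3]
    have h1 : (q.P : ℝ) * q.om ≤ 2001 / 1000 * q.c * q.kk * q.om := by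
      have h2 : 2001 / 1000 * q.c * (1 - 2 * q.c - 5 * q.om) ≤ 2001 / 1000 * q.c * (q.kk * q.om) :=
        mul_le_mul_of_nonneg_left a1 (by positivity)
      norm_num at t1 t2 t3
      linarith
    exact le_of_mul_le_mul_right h1 hom0
  · unfold dl; positivity
  · rw [hkk]; linarith

private theorem PFA_Db (hq : q.Par) : (1 - q.c / 4) * (1 - 2 * q.c - 5 * q.om) ≤ q.Db := by
  obtain ⟨t1, t2, t3⟩ := PFA_small hq
  obtain ⟨hc0, hc1, hom0, hom1⟩ := f_c hq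
  obtain ⟨k1, k2, k3, k4⟩ := f_K hq
  obtain ⟨p1, p2⟩ := f_P hq
  obtain ⟨b1, b2, b3, b4, b5⟩ := f_kk hq
  obtain ⟨-, -, -, hK0', -⟩ := f_nat hq
  have hK0 : (0:ℝ) < q.K := by exact_mod_cast hK0'
  have hSn : (0:ℝ) ≤ (q.S : ℝ) / q.n := by positivity
  have hkk : q.kk = (q.K : ℝ) - q.P - 1 := rfl
  have a1 : 1 - 2 * q.c - 5 * q.om ≤ q.kk * q.om := by
    rw [hkk]
    linarith
  have a2 : (1 - 2 * q.c - 5 * q.om) ≤ q.kk / q.K := by
    rw [le_div_iff₀ hK0]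
    have h1 : (1 - 2 * q.c - 5 * q.om) * q.K * q.om ≤ q.kk * q.om := by
      have h0 : 0 ≤ 1 - 2 * q.c - 5 * q.om := by
        norm_num at t1 hc1
        linarith
      have h2 : (q.K : ℝ) * q.om ≤ 1 := by linarith
      have h3 := mul_le_mul_of_nonneg_left h2 h0
      linarith
    exact le_of_mul_le_mul_right h1 hom0
  have e : q.Db = (1 - q.c / 4) * (q.kk / q.K) := by
    unfold Db mu h
    ring
  rw [e]
  refine mul_le_mul_of_nonneg_left a2 ?_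
  norm_num at hc1
  linarith

theorem f_Db (hq : q.Par) : 1 - 3 * q.c ≤ q.Db ∧ q.Db ≤ 1 - 2 * q.h ∧
    q.Db * q.K = (1 - 2 * q.h) * q.kk := by
  obtain ⟨t1, t2, t3⟩ := PFA_small hq
  obtain ⟨hc0, hc1, hom0, hom1⟩ := f_c hq
  obtain ⟨b1, b2, b3, b4, b5⟩ := f_kk hq
  obtain ⟨-, -, -, hK0', -⟩ := f_nat hq
  have hK0 : (0:ℝ) < q.K := by exact_mod_cast hK0'
  have hD := PFA_Db hq
  have hh : q.h = q.c / 8 := rfl
  have e : q.Db * q.K = (1 - 2 * q.h) * q.kk := by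
    unfold Db mu
    rw [div_mul_eq_mul_div, div_mul_cancel₀ _ hK0.ne']
  refine ⟨?_, ?_, e⟩
  · refine le_trans ?_ hD
    norm_num at t1 t2 t3
    nlinarith
  · have h1 : q.Db * q.K ≤ (1 - 2 * q.h) * q.K := by
      rw [e]
      refine mul_le_mul_of_nonneg_left b5 ?_
      rw [hh]
      norm_num at hc1
      linarith
    exact le_of_mul_le_mul_right h1 hK0

theorem f_sg (hq : q.Par) : q.sg * q.kk = q.h * q.th * q.K / (1 - 2 * q.h) ∧
    q.h * (1 - q.c) ≤ q.sg ∧ q.sg ≤ q.h * (1 + 2 * q.c) ∧ 0 < q.sg := by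
  obtain ⟨t1, t2, t3⟩ := PFA_small hq
  obtain ⟨hc0, hc1, hom0, hom1⟩ := f_c hq
  obtain ⟨b1, b2, b3, b4, b5⟩ := f_kk hq
  obtain ⟨d1, d2, d3⟩ := f_Db hq
  have hD := PFA_Db hq
  have hh : q.h = q.c / 8 := rfl
  have hth : q.th = 1 - q.c := rfl
  have hh0 : 0 < q.h := by rw [hh]; positivity
  have hc1' : q.c ≤ 1 / 100000 := by norm_num at hc1; linarith
  have hth0 : 0 < q.th := by rw [hth]; linarith
  have hDb0 : 0 < q.Db := by linarith
  have h2h : 0 < 1 - 2 * q.h := by rw [hh]; linarith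
  have hDb1 : q.Db ≤ 1 := by linarith
  refine ⟨?_, ?_, ?_, ?_⟩
  · unfold sg
    rw [div_mul_eq_mul_div, div_eq_div_iff hDb0.ne' h2h.ne']
    linear_combination (-(q.h * q.th)) * d3
  · unfold sg
    rw [le_div_iff₀ hDb0, ← hth]
    have : 0 ≤ q.h * q.th := by positivity
    nlinarith
  · unfold sg
    rw [div_le_iff₀ hDb0, hth]
    have h1 : (1 + 2 * q.c) * ((1 - q.c / 4) * (1 - 2 * q.c - 5 * q.om)) ≤
        (1 + 2 * q.c) * q.Db := mul_le_mul_of_nonneg_left hD (by positivity)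
    have h2 : 1 - q.c ≤ (1 + 2 * q.c) * ((1 - q.c / 4) * (1 - 2 * q.c - 5 * q.om)) := by
      have e : (1 + 2 * q.c) * ((1 - q.c / 4) * (1 - 2 * q.c - 5 * q.om)) =
          1 - q.c / 4 - 4 * q.c ^ 2 + q.c ^ 3 - 5 * q.om * ((1 + 2 * q.c) * (1 - q.c / 4)) := by
        ring
      rw [e]
      have h3 : (1 + 2 * q.c) * (1 - q.c / 4) ≤ 2 := by nlinarith
      have h4 : 5 * q.om * ((1 + 2 * q.c) * (1 - q.c / 4)) ≤ 5 * q.om * 2 :=
        mul_le_mul_of_nonneg_left h3 (by positivity)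
      have h5 : 0 < q.c ^ 3 := by positivity
      norm_num at t1 t2
      linarith
    have h3 := mul_le_mul_of_nonneg_left (h2.trans h1) hh0.le
    linarith
  · unfold sg; positivity

end PQ

end Pool.Agent.H2.HV
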