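import Mathlib
import Pool.Agent.H2.HV.PFA
import Pool.Agent.H2.HV.CLD

/-!
GEO (about 150 lines). The geometry of the concrete schedule.

elA: definition of zn. elL, elH: first part of av (sd). elU: second part of av for i itself ((D.un i) = (decide (2i<K), i % R); decide_eq_true_iff). st: definition. un: decide.
sep: un i = un i' gives i % R = i' % R, so i - i' or i' - i is a positive multiple k R (R > 10^6, f_nat), while P = 128 R + 2 + e, 0 ≤ e < 128 (R1, R2), so P % R = 2 + e ≠ 0 and (P-1) % R = 1 + e ≠ 0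
 and 1 is not a multiple of R. hJ, hz from Par. S0.. from Num. zp: z + 1 ≤ 2W ≤ P W - .. : 2p = (P+1)W - z > (P-1) W ≥ 2W + 1 (P > 10^6). jl: jl1. len0: f_nat.
midH: 2i < K: i + 1 + jL ≤ K since jL < P < K/10. midL similarly. hlen: f_nat.
nL_lt: (be + c W/10^5) R = ht + c W R/10^5 < (51/50) ht < len: R W ≤ p/64 (f_R) .
-/

set_option autoImplicit false
set_option linter.unusedVariables false

namespace Pool.Agent.H2.HV

open Finset

namespace PQ

variable {q : PQ}

theorem GEO_ndvd {R t y x : ℤ} (h : R ∣ x) (hx : x = t * R + y) (h0 : 0 < y) (h1 : y < R) :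
    False := by
  have h2 : R ∣ y := by
    have h3 : R ∣ x - t * R := dvd_sub h (Dvd.intro_left t rfl)
    rw [hx] at h3
    simpa using h3
  exact absurd (Int.le_of_dvd h0 h2) (not_le.2 h1)

theorem GEO_card (R : ℕ) (s : Bool) : Set.ncard {b : Bool × Fin R | b.1 = s} = R := by
  have h : {b : Bool × Fin R | b.1 = s} = ({s} : Set Bool) ×ˢ (Set.univ : Set (Fin R)) := by
    ext b
    simp
  rw [h, Set.ncard_prod, Set.ncard_singleton, Set.ncard_univ, Nat.card_eq_fintype_card,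
    Fintype.card_fin, one_mul]

theorem geo (hq : q.Par) (hR : 0 < q.R) :
    Geo q.n q.p q.W q.S q.z q.P q.K q.R q.jL q.len (q.D hR) := by
  obtain ⟨hn0, hp0, hW0, hK0, hR6, hP6, hjL, hjP, hPK, hlen, hlenp⟩ := f_nat hq
  have hS0 := hq.num.S0
  have hz0 := hq.num.z0
  have hz1 := hq.num.z1
  have hhz := hq.hz
  have hR1 := hq.R1
  have hR2 := hq.R2
  have h5 : 5 * q.W ≤ (q.P + 1) * q.W := Nat.mul_le_mul_right _ (by omega)
  refine
    { elA := fun i j h => h
      elL := fun r j h => h.1.2 rfl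
      elH := fun r j h => h.1.1 rfl
      elU := fun i j h => h.2 i i.2 decide_eq_true_iff rfl
      st := fun s r h => h
      un := fun i => decide_eq_true_iff
      sep := ?_
      hJ := hq.hJ
      hz := hq.hz
      S0 := hS0
      W0 := hW0
      z0 := hz0
      z1 := hz1
      zp := by omega
      P3 := by omega
      len0 := hlenp
      jl := hq.jl1
      midH := fun i hi => by omega
      midL := fun i hi => by omega
      hlen := hlen }
  intro i i' hne hun
  have hmod : (i : ℕ) % q.R = (i' : ℕ) % q.R := by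
    have h1 := congrArg (fun b : Bool × Fin q.R => (b.2 : ℕ)) hun
    exact h1
  have hm1 : (q.R : ℤ) ∣ ((i' : ℕ) : ℤ) - ((i : ℕ) : ℤ) := Nat.modEq_iff_dvd.1 hmod
  have hm2 : (q.R : ℤ) ∣ ((i : ℕ) : ℤ) - ((i' : ℕ) : ℤ) := Nat.modEq_iff_dvd.1 hmod.symm
  refine ⟨?_, ?_, ?_, ?_, ?_, ?_⟩
  · intro h
    exact GEO_ndvd (t := 128) (y := (q.P : ℤ) - 128 * q.R) hm2 (by omega) (by omega) (by omega)
  · intro h
    exact GEO_ndvd (t := 128) (y := (q.P : ℤ) - 1 - 128 * q.R) hm2 (by omega) (by omega)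
      (by omega)
  · intro h
    exact GEO_ndvd (t := 0) (y := 1) hm2 (by omega) (by omega) (by omega)
  · intro h
    exact GEO_ndvd (t := 128) (y := (q.P : ℤ) - 128 * q.R) hm1 (by omega) (by omega) (by omega)
  · intro h
    exact GEO_ndvd (t := 128) (y := (q.P : ℤ) - 1 - 128 * q.R) hm1 (by omega) (by omega)
      (by omega)
  · intro h
    exact GEO_ndvd (t := 0) (y := 1) hm1 (by omega) (by omega) (by omega)

theorem nL_lt (hq : q.Par) (hR : 0 < q.R) (s : Bool) :
    ((q.D hR).be + q.c * q.W / 10 ^ 5) * (Set.ncard {b : Bool × Fin q.R | b.1 = s} : ℝ) < q.len := by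
  obtain ⟨hn0, hp0, hW0, hK0, hR6, hP6, hjL, hjP, hPK, hlen, hlenp⟩ := f_nat hq
  obtain ⟨hc0, hc1, -, -⟩ := f_c hq
  obtain ⟨hR, -⟩ := f_R hq
  obtain ⟨hbe0, -, -, hbeR, -⟩ := f_be hq
  have hn : (0:ℝ) < q.n := by exact_mod_cast hn0
  have hp : (0:ℝ) < q.p := by exact_mod_cast hp0
  rw [GEO_card]
  have h1 : (q.D ‹0 < q.R›).be = q.be := rfl
  rw [h1, add_mul, hbeR]
  have h2 : 64 * ((q.R : ℝ) * q.W) ≤ q.p := by
    have h3 : 64 * ((q.R : ℝ) * ((q.W : ℝ) / q.n)) ≤ (q.p : ℝ) / q.n := hR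
    have h4 : 64 * ((q.R : ℝ) * ((q.W : ℝ) / q.n)) = (64 * ((q.R : ℝ) * q.W)) / q.n := by ring
    rw [h4, div_le_div_iff_of_pos_right hn] at h3
    exact h3
  have h5 : q.c * q.W / 10 ^ 5 * q.R ≤ q.p / 10 ^ 5 := by
    have h6 : q.c * ((q.R : ℝ) * q.W) ≤ 1 * q.p := by
      refine mul_le_mul (by linarith) (by nlinarith [h2]) (by positivity) (by norm_num)
    have h7 : q.c * q.W / 10 ^ 5 * q.R = q.c * ((q.R : ℝ) * q.W) / 10 ^ 5 := by ring
    rw [h7]
    exact div_le_div_of_nonneg_right (by linarith) (by positivity)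
  have h8 := hq.len1
  unfold ht
  linarith

end PQ

end Pool.Agent.H2.HV
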