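import Mathlib
import Pool.Agent.H2.HV.PFA

/-!
CNT (about 150 lines). Zone counts: zn i j means i ≤ j ≤ i + P, for i < K. Sums of `ind` are cardinalities of intervals: for fixed j the set of i is [j-P, min(j,K-1)].
(Convert `ind` to card of a filter, e.g. Finset.sum_boole / Nat.card_Icc; 10 P < K from f_nat.)
-/

set_option autoImplicit false
set_option linter.unusedVariables false

namespace Pool.Agent.H2.HV

open Finset

namespace PQ

variable {q : PQ}

theorem CNT_sum (s : Finset ℕ) (P : ℕ → Prop) [DecidablePred P] :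
    ∑ i ∈ s, ind (P i) = ((s.filter P).card : ℝ) := by
  have h1 : ∀ i, ind (P i) = if P i then (1:ℝ) else 0 := by
    intro i
    by_cases h : P i
    · rw [ind_pos h, if_pos h]
    · rw [ind_neg h, if_neg h]
  rw [Finset.sum_congr rfl (fun i _ => h1 i), Finset.sum_boole]

theorem CNT_eq (j : ℕ) : q.cnt j = ((min (j + 1) q.K - (j - q.P) : ℕ) : ℝ) := by
  classical
  unfold cnt
  rw [CNT_sum, ← Nat.card_Ico]
  have h : (range q.K).filter (fun i => q.zn i j) =
      Finset.Ico (j - q.P) (min (j + 1) q.K) := by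
    ext i
    rw [Finset.mem_filter, Finset.mem_range, Finset.mem_Ico]
    unfold zn
    omega
  rw [h]

theorem cnt_nonneg (j : ℕ) : 0 ≤ q.cnt j := by
  unfold cnt
  exact Finset.sum_nonneg fun i _ => ind_nonneg _

theorem cnt_le (j : ℕ) : q.cnt j ≤ q.P + 1 := by
  rw [CNT_eq]
  have h : min (j + 1) q.K - (j - q.P) ≤ q.P + 1 := by omega
  exact_mod_cast h

theorem cnt_lo (hq : q.Par) (j : ℕ) (hj : j < q.P) : q.cnt j = j + 1 := by
  obtain ⟨-, -, -, -, -, -, -, -, h1, -, -⟩ := f_nat hq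
  rw [CNT_eq]
  have h : min (j + 1) q.K - (j - q.P) = j + 1 := by omega
  rw [h]
  push_cast
  rfl

theorem cnt_mid (hq : q.Par) (j : ℕ) (hj : q.P ≤ j) (hj' : j < q.K) : q.cnt j = q.P + 1 := by
  rw [CNT_eq]
  have h : min (j + 1) q.K - (j - q.P) = q.P + 1 := by omega
  rw [h]
  push_cast
  rfl

theorem cnt_hi (hq : q.Par) (j : ℕ) (hj : q.K ≤ j) (hj' : j < q.Jn) : q.cnt j = (q.Jn : ℝ) - j := by
  rw [CNT_eq]
  unfold Jn at hj' ⊢
  obtain ⟨-, -, -, -, -, -, -, -, h1, -, -⟩ := f_nat hq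
  have h : min (j + 1) q.K - (j - q.P) = (q.K + q.P) - j := by omega
  rw [h, Nat.cast_sub hj'.le]

/-- the size of a zone -/
theorem zone_card (i : ℕ) (hi : i < q.K) : ∑ j ∈ range q.Jn, ind (q.zn i j) = q.P + 1 := by
  classical
  rw [CNT_sum]
  have h : (range q.Jn).filter (fun j => q.zn i j) = Finset.Icc i (i + q.P) := by
    ext j
    rw [Finset.mem_filter, Finset.mem_range, Finset.mem_Icc]
    unfold zn Jn
    omega
  rw [h, Nat.card_Icc]
  have h2 : i + q.P + 1 - i = q.P + 1 := by omega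
  rw [h2]
  push_cast
  rfl

theorem sum_cnt : ∑ j ∈ range q.Jn, q.cnt j = q.K * (q.P + 1) := by
  unfold cnt
  rw [Finset.sum_comm]
  rw [Finset.sum_congr rfl (fun i hi => zone_card i (mem_range.1 hi)), Finset.sum_const,
    card_range, nsmul_eq_mul]

/-- number of active classes -/
theorem act_card (j : ℕ) : ∑ i ∈ range q.K, ind (¬ q.zn i j) = q.K - q.cnt j := by
  unfold cnt
  have h1 : ∀ i, ind (¬ q.zn i j) = 1 - ind (q.zn i j) := by
    intro i
    by_cases h : q.zn i j
    · rw [ind_pos h, ind_neg (not_not.2 h)]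
      ring
    · rw [ind_neg h, ind_pos h]
      ring
  rw [Finset.sum_congr rfl (fun i _ => h1 i), Finset.sum_sub_distrib, Finset.sum_const,
    card_range, nsmul_eq_mul, mul_one]

theorem cnt_sq (j : ℕ) :
    ∑ i ∈ range q.K, ∑ i' ∈ range q.K, ind (q.zn i j ∧ q.zn i' j) = q.cnt j ^ 2 := by
  unfold cnt
  rw [pow_two, Finset.sum_mul_sum]
  exact Finset.sum_congr rfl fun i _ => Finset.sum_congr rfl fun i' _ => ind_and _ _

end PQ

end Pool.Agent.H2.HV
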