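import Mathlib
import Pool.Agent.H2.HV.CNT

/-!
AVB (about 250 lines). Availability.

For a block j and a side s with sd s j: the r with ¬ av s r j are among i % R for i ∈ {j, j+1-P, j-P} (those with j = i, j + 1 = i + P, j = i + P): at most 3 values. So
R - 3 ≤ Σ_{r<R} ind (av s r j) ≤ R. Two blocks: ≥ R - 6.
lost: for (s,r): the blocks j with sd s j and ¬ av s r j are i, i+P-1, i+P with i < K, i % R = r: at most K/R + 1 values of i (Nat.count_modEq_card or: the i are r, r+R, ...), 3 blocks each.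
av_two: for two classes with common allowed blocks j ∈ [jL, Jn - jL) or the same side: nAv ≥ (number of common sd blocks) - 2 · lost. Same side: Jn - jL blocks; different sides: Jn - 2 jL.
 Jn om ≥ 1 + 2c - 2om, jL om ≤ 1.129 c, lost ≤ 200/c, om·200/c ≤ 2·10^-6 c: both are ≥ (1 - c)/om.
mc_lo: blocks of [jL, Jn-jL) outside the zone of i (P+1 blocks): Jn - 2 jL - (P+1) - 2·lost ≥ (1 - 3c)/om.
ends: every j < Jn has sd true j or sd false j (2 jL ≤ Jn); both iff jL ≤ j and j + jL < Jn (sj = 2). nB bounds: sj (R-3) ≤ nB ≤ sj R.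
-/

set_option autoImplicit false
set_option linter.unusedVariables false

namespace Pool.Agent.H2.HV

open Finset

namespace PQ

variable {q : PQ}

theorem AVB_card (s : Finset ℕ) (p : ℕ → Prop) [DecidablePred p] :
    ∑ x ∈ s, ind (p x) = ((s.filter p).card : ℝ) := by
  rw [Finset.card_filter, Nat.cast_sum]
  refine Finset.sum_congr rfl fun x _ => ?_
  by_cases h : p x
  · rw [ind_pos h, if_pos h, Nat.cast_one]
  · rw [ind_neg h, if_neg h, Nat.cast_zero]

theorem AVB_one (N : ℕ) (p : ℕ → Prop) (hp : ∀ x y, p x → p y → x = y) :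
    ∑ x ∈ range N, ind (p x) ≤ 1 := by
  classical
  rw [AVB_card]
  have h : ((range N).filter p).card ≤ 1 := by
    rw [Finset.card_le_one]
    intro x hx y hy
    exact hp x y (Finset.mem_filter.1 hx).2 (Finset.mem_filter.1 hy).2
  exact_mod_cast h

theorem AVB_R (hq : q.Par) : 0 < q.R := by
  have h := (f_nat hq).2.2.2.2.1
  omega

theorem AVB_ind1 (hs : Prop) (r j R K P : ℕ) (A : Prop) (hA : A ∨ ∃ i, i % R = r ∧ (j = i ∨ j + 1 = i + P ∨ j = i + P)) :
    1 - ind (r = j % R) - ind (r = (j + 1 - P) % R) - ind (r = (j - P) % R) ≤ ind A := by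
  rcases hA with h | ⟨i, h1, h2⟩
  · rw [ind_pos h]
    have e1 := ind_nonneg (r = j % R)
    have e2 := ind_nonneg (r = (j + 1 - P) % R)
    have e3 := ind_nonneg (r = (j - P) % R)
    linarith
  · have e0 := ind_nonneg A
    have e1 := ind_nonneg (r = j % R)
    have e2 := ind_nonneg (r = (j + 1 - P) % R)
    have e3 := ind_nonneg (r = (j - P) % R)
    rcases h2 with h | h | h
    · have e : ind (r = j % R) = 1 := ind_pos (by rw [h, h1])
      linarith
    · have e : ind (r = (j + 1 - P) % R) = 1 := ind_pos (by rw [h, Nat.add_sub_cancel, h1])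
      linarith
    · have e : ind (r = (j - P) % R) = 1 := ind_pos (by rw [h, Nat.add_sub_cancel, h1])
      linarith

theorem AVB_not {s : Bool} {r j : ℕ} (hs : q.sd s j) (h : ¬ q.av s r j) :
    ∃ i, i < q.K ∧ i % q.R = r ∧ (j = i ∨ j + 1 = i + q.P ∨ j = i + q.P) := by
  unfold av at h
  push Not at h
  obtain ⟨i, hi, -, hr, h2⟩ := h hs
  refine ⟨i, hi, hr, ?_⟩
  by_cases h3 : j = i
  · exact Or.inl h3
  · by_cases h4 : j + 1 = i + q.P
    · exact Or.inr (Or.inl h4)
    · exact Or.inr (Or.inr (h2 h3 h4))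

theorem av_side (hq : q.Par) (s : Bool) (j : ℕ) (hj : j < q.Jn) (hs : q.sd s j) :
    (q.R : ℝ) - 3 ≤ ∑ r ∈ range q.R, ind (q.av s r j) := by
  have h1 : ∀ r ∈ range q.R, 1 - ind (r = j % q.R) - ind (r = (j + 1 - q.P) % q.R) -
      ind (r = (j - q.P) % q.R) ≤ ind (q.av s r j) := by
    intro r _
    apply AVB_ind1 True r j q.R q.K q.P
    by_cases h : q.av s r j
    · exact Or.inl h
    · obtain ⟨i, -, h2⟩ := AVB_not hs h
      exact Or.inr ⟨i, h2⟩
  have h2 := Finset.sum_le_sum h1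
  rw [Finset.sum_sub_distrib, Finset.sum_sub_distrib, Finset.sum_sub_distrib, Finset.sum_const,
    card_range, nsmul_eq_mul, mul_one] at h2
  have e1 := AVB_one q.R (fun r => r = j % q.R) (fun x y hx hy => hx.trans hy.symm)
  have e2 := AVB_one q.R (fun r => r = (j + 1 - q.P) % q.R) (fun x y hx hy => hx.trans hy.symm)
  have e3 := AVB_one q.R (fun r => r = (j - q.P) % q.R) (fun x y hx hy => hx.trans hy.symm)
  linarith

theorem AVB_side_le (s : Bool) (j : ℕ) : ∑ r ∈ range q.R, ind (q.av s r j) ≤ q.R := by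
  have h2 := Finset.sum_le_sum (s := range q.R) (fun r _ => ind_le_one (q.av s r j))
  rwa [Finset.sum_const, card_range, nsmul_eq_mul, mul_one] at h2

theorem AVB_and (A B : Prop) : ind A + ind B - 1 ≤ ind (A ∧ B) := by
  by_cases hA : A
  · by_cases hB : B
    · rw [ind_pos hA, ind_pos hB, ind_pos ⟨hA, hB⟩]; norm_num
    · rw [ind_pos hA, ind_neg hB, ind_neg (fun h => hB h.2)]; norm_num
  · have h1 := ind_le_one B
    rw [ind_neg hA, ind_neg (p := A ∧ B) (fun h => hA h.1)]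
    linarith

theorem av_side2 (hq : q.Par) (s : Bool) (j j' : ℕ) (hj : j < q.Jn) (hj' : j' < q.Jn)
    (hs : q.sd s j) (hs' : q.sd s j') :
    (q.R : ℝ) - 6 ≤ ∑ r ∈ range q.R, ind (q.av s r j ∧ q.av s r j') := by
  have h1 := Finset.sum_le_sum (s := range q.R) (fun r _ => AVB_and (q.av s r j) (q.av s r j'))
  rw [Finset.sum_sub_distrib, Finset.sum_add_distrib, Finset.sum_const, card_range, nsmul_eq_mul,
    mul_one] at h1
  have e1 := av_side hq s j hj hs
  have e2 := av_side hq s j' hj' hs'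
  linarith

theorem AVB_count {R : ℕ} (hR : 0 < R) (K r : ℕ) :
    ∑ i ∈ range K, ind (i % R = r) ≤ (K : ℝ) / R + 1 := by
  classical
  rw [AVB_card]
  have hR' : (0 : ℝ) < R := by exact_mod_cast hR
  by_cases hr : r < R
  · have h1 : ((range K).filter (fun i => i % R = r)).card = K.count (· ≡ r [MOD R]) := by
      rw [Nat.count_eq_card_filter_range]
      congr 1
      refine Finset.filter_congr fun i _ => ?_
      unfold Nat.ModEq
      rw [Nat.mod_eq_of_lt hr]
    have h2 : K.count (· ≡ r [MOD R]) ≤ K / R + 1 := by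
      rw [Nat.count_modEq_card K hR r]
      split_ifs <;> omega
    rw [h1]
    have h3 : ((K / R : ℕ) : ℝ) ≤ (K : ℝ) / R := Nat.cast_div_le
    have h4 : ((K.count (· ≡ r [MOD R]) : ℕ) : ℝ) ≤ ((K / R + 1 : ℕ) : ℝ) := by exact_mod_cast h2
    rw [Nat.cast_add, Nat.cast_one] at h4
    linarith
  · have h1 : (range K).filter (fun i => i % R = r) = ∅ := by
      refine Finset.filter_eq_empty_iff.2 fun i _ h => hr ?_
      rw [← h]
      exact Nat.mod_lt _ hR
    rw [h1, Finset.card_empty, Nat.cast_zero]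
    positivity

theorem AVB_lost0 {s : Bool} (r j : ℕ) : ind (q.sd s j ∧ ¬ q.av s r j) ≤
    ∑ i ∈ range q.K, ind (i % q.R = r) * (ind (j = i) + ind (j + 1 = i + q.P) + ind (j = i + q.P)) := by
  have hnn : ∀ i ∈ range q.K, 0 ≤ ind (i % q.R = r) *
      (ind (j = i) + ind (j + 1 = i + q.P) + ind (j = i + q.P)) := by
    intro i _
    have e0 := ind_nonneg (i % q.R = r)
    have e1 := ind_nonneg (j = i)
    have e2 := ind_nonneg (j + 1 = i + q.P)
    have e3 := ind_nonneg (j = i + q.P)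
    positivity
  by_cases h : q.sd s j ∧ ¬ q.av s r j
  · rw [ind_pos h]
    obtain ⟨i, hi, h1, h2⟩ := AVB_not h.1 h.2
    refine le_trans ?_ (Finset.single_le_sum hnn (Finset.mem_range.2 hi))
    rw [ind_pos h1, one_mul]
    have e1 := ind_nonneg (j = i)
    have e2 := ind_nonneg (j + 1 = i + q.P)
    have e3 := ind_nonneg (j = i + q.P)
    rcases h2 with h2 | h2 | h2
    · have e := ind_pos h2
      linarith
    · have e := ind_pos h2
      linarith
    · have e := ind_pos h2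
      linarith
  · rw [ind_neg h]
    exact Finset.sum_nonneg hnn

/-- few blocks are lost -/
theorem lost (hq : q.Par) (s : Bool) (r : ℕ) (hr : r < q.R) :
    ∑ j ∈ range q.Jn, ind (q.sd s j ∧ ¬ q.av s r j) ≤ 200 / q.c := by
  have h1 : ∑ j ∈ range q.Jn, ind (q.sd s j ∧ ¬ q.av s r j) ≤
      ∑ i ∈ range q.K, ind (i % q.R = r) * 3 := by
    refine (Finset.sum_le_sum fun j _ => AVB_lost0 r j).trans ?_
    rw [Finset.sum_comm]
    refine Finset.sum_le_sum fun i _ => ?_
    rw [← Finset.mul_sum, Finset.sum_add_distrib, Finset.sum_add_distrib]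
    refine mul_le_mul_of_nonneg_left ?_ (ind_nonneg _)
    have e1 := AVB_one q.Jn (fun j => j = i) (fun x y hx hy => hx.trans hy.symm)
    have e2 := AVB_one q.Jn (fun j => j + 1 = i + q.P) (fun x y hx hy => by omega)
    have e3 := AVB_one q.Jn (fun j => j = i + q.P) (fun x y hx hy => hx.trans hy.symm)
    linarith
  refine h1.trans ?_
  rw [← Finset.sum_mul]
  have h2 := AVB_count (AVB_R hq) q.K r
  have h3 := (f_R hq).2.2.2
  linarith

theorem AVB_nat (hq : q.Par) : 2 * q.jL + q.P + 1 ≤ q.Jn := by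
  obtain ⟨-, -, -, -, -, h6, h7, h8, h9, -⟩ := f_nat hq
  unfold Jn
  omega

theorem sd_or (hq : q.Par) (j : ℕ) (hj : j < q.Jn) : q.sd true j ∨ q.sd false j := by
  have h := AVB_nat hq
  by_cases h1 : q.jL ≤ j
  · exact Or.inr ⟨fun h => absurd h (by decide), fun _ => h1⟩
  · exact Or.inl ⟨fun _ => by omega, fun h => absurd h (by decide)⟩

theorem AVB_zero {s : Bool} {j : ℕ} (h : ¬ q.sd s j) : ∑ r ∈ range q.R, ind (q.av s r j) = 0 := by
  refine Finset.sum_eq_zero fun r _ => ind_neg fun h' => h h'.1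

theorem AVB_true (j : ℕ) : q.sd true j ↔ j + q.jL < q.Jn :=
  ⟨fun h => h.1 rfl, fun h => ⟨fun _ => h, fun h => absurd h (by decide)⟩⟩

theorem AVB_false (j : ℕ) : q.sd false j ↔ q.jL ≤ j :=
  ⟨fun h => h.2 rfl, fun h => ⟨fun h => absurd h (by decide), fun _ => h⟩⟩

theorem nB_bounds (hq : q.Par) (j : ℕ) (hj : j < q.Jn) :
    q.sj j * (q.R - 3) ≤ q.nB j ∧ q.nB j ≤ q.sj j * q.R := by
  have e : q.nB j = ∑ r ∈ range q.R, ind (q.av true r j) + ∑ r ∈ range q.R, ind (q.av false r j) := by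
    unfold nB
    rw [Fintype.sum_bool]
  rw [e]
  unfold sj
  by_cases h1 : q.sd true j
  · by_cases h2 : q.sd false j
    · rw [ind_pos ⟨(AVB_false j).1 h2, (AVB_true j).1 h1⟩]
      have a1 := av_side hq true j hj h1
      have a2 := av_side hq false j hj h2
      have a3 := AVB_side_le (q := q) true j
      have a4 := AVB_side_le (q := q) false j
      constructor <;> linarith
    · rw [ind_neg (fun h => h2 ((AVB_false j).2 h.1)), AVB_zero h2]
      have a1 := av_side hq true j hj h1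
      have a3 := AVB_side_le (q := q) true j
      constructor <;> linarith
  · rcases sd_or hq j hj with h2 | h2
    · exact absurd h2 h1
    · rw [ind_neg (fun h => h1 ((AVB_true j).2 h.2)), AVB_zero h1]
      have a1 := av_side hq false j hj h2
      have a3 := AVB_side_le (q := q) false j
      constructor <;> linarith

theorem AVB_mid (hq : q.Par) :
    ∑ j ∈ range q.Jn, ind (q.jL ≤ j ∧ j + q.jL < q.Jn) = (q.Jn : ℝ) - 2 * q.jL := by
  classical
  rw [AVB_card]
  have h := AVB_nat hq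
  have h1 : (range q.Jn).filter (fun j => q.jL ≤ j ∧ j + q.jL < q.Jn) = Finset.Ico q.jL (q.Jn - q.jL) := by
    ext j
    rw [Finset.mem_filter, Finset.mem_range, Finset.mem_Ico]
    omega
  rw [h1, Nat.card_Ico, Nat.cast_sub (by omega), Nat.cast_sub (by omega)]
  ring

theorem AVB_num (hq : q.Par) : (1 - q.c) / q.om ≤ (q.Jn : ℝ) - 2 * q.jL - 400 / q.c ∧
    (1 - 3 * q.c) / q.om ≤ (q.Jn : ℝ) - 2 * q.jL - (q.P + 1) - 400 / q.c := by
  obtain ⟨c0, c1, o0, o1⟩ := f_c hq
  obtain ⟨-, P2⟩ := f_P hq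
  obtain ⟨-, -, -, K4⟩ := f_K hq
  obtain ⟨-, S2, -⟩ := f_S hq
  obtain ⟨-, j2⟩ := f_jL hq
  obtain ⟨n0, -, W0, -⟩ := f_nat hq
  have hn : (0 : ℝ) < q.n := by exact_mod_cast n0
  have hW : (0 : ℝ) < q.W := by exact_mod_cast W0
  have hS : (q.S : ℝ) / q.n ≤ 2 * q.om := by
    have e : (q.S : ℝ) / q.n = (q.S / q.W) * q.om := by
      unfold om
      field_simp
    rw [e]
    exact mul_le_mul_of_nonneg_right S2 o0.le
  have hl : 400 / q.c * q.om ≤ q.c / 10 ^ 5 := by
    have e1 : 400 / q.c * q.om ≤ 400 / q.c * (q.c ^ 2 / 10 ^ 8) :=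
      mul_le_mul_of_nonneg_left o1 (by positivity)
    have e2 : 400 / q.c * (q.c ^ 2 / 10 ^ 8) = 400 * q.c / 10 ^ 8 := by
      field_simp
    rw [e2] at e1
    linarith
  have ho : q.om ≤ q.c / 10 ^ 13 := by
    have e1 : q.c ^ 2 / 10 ^ 8 ≤ q.c / 10 ^ 13 := by
      rw [div_le_div_iff₀ (by positivity) (by positivity)]
      nlinarith
    exact o1.trans e1
  constructor
  · rw [div_le_iff₀ o0, sub_mul, sub_mul, mul_assoc, K4]
    linarith
  · rw [div_le_iff₀ o0, sub_mul, sub_mul, sub_mul, mul_assoc, K4, add_mul]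
    linarith

theorem AVB_two {s s' : Bool} {r r' j : ℕ} (M : Prop) (hM : M → q.sd s j ∧ q.sd s' j) :
    ind M - ind (q.sd s j ∧ ¬ q.av s r j) - ind (q.sd s' j ∧ ¬ q.av s' r' j) ≤
      ind (M ∧ q.av s r j ∧ q.av s' r' j) := by
  have e1 := ind_nonneg (q.sd s j ∧ ¬ q.av s r j)
  have e2 := ind_nonneg (q.sd s' j ∧ ¬ q.av s' r' j)
  have e3 := ind_nonneg (M ∧ q.av s r j ∧ q.av s' r' j)
  by_cases h : M
  · by_cases h1 : q.av s r j
    · by_cases h2 : q.av s' r' j
      · have a1 := ind_le_one M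
        rw [ind_pos (p := M ∧ q.av s r j ∧ q.av s' r' j) ⟨h, h1, h2⟩]
        linarith
      · rw [ind_pos h, ind_pos (p := q.sd s' j ∧ ¬ q.av s' r' j) ⟨(hM h).2, h2⟩]
        linarith
    · rw [ind_pos h, ind_pos (p := q.sd s j ∧ ¬ q.av s r j) ⟨(hM h).1, h1⟩]
      linarith
  · rw [ind_neg h]
    linarith

theorem AVB_sd {j : ℕ} (h : q.jL ≤ j ∧ j + q.jL < q.Jn) (s : Bool) : q.sd s j :=
  ⟨fun _ => h.2, fun _ => h.1⟩

theorem nAv_lo (hq : q.Par) (s : Bool) (r : ℕ) (s' : Bool) (r' : ℕ) (hr : r < q.R)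
    (hr' : r' < q.R) : (1 - q.c) / q.om ≤ q.nAv s r s' r' := by
  refine (AVB_num hq).1.trans ?_
  have h1 := Finset.sum_le_sum (s := range q.Jn) (fun j _ =>
    AVB_two (q := q) (s := s) (s' := s') (r := r) (r' := r') (j := j)
      (q.jL ≤ j ∧ j + q.jL < q.Jn) (fun h => ⟨AVB_sd h s, AVB_sd h s'⟩))
  rw [Finset.sum_sub_distrib, Finset.sum_sub_distrib, AVB_mid hq] at h1
  have h2 := lost hq s r hr
  have h3 := lost hq s' r' hr'
  have h4 : ∑ j ∈ range q.Jn, ind ((q.jL ≤ j ∧ j + q.jL < q.Jn) ∧ q.av s r j ∧ q.av s' r' j) ≤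
      q.nAv s r s' r' := by
    unfold nAv
    exact Finset.sum_le_sum fun j _ => ind_mono fun h => h.2
  have h5 : 400 / q.c = 200 / q.c + 200 / q.c := by ring
  linarith

theorem mc_lo (hq : q.Par) (i : ℕ) (hi : i < q.K) (s : Bool) (r : ℕ) (s' : Bool) (r' : ℕ)
    (hr : r < q.R) (hr' : r' < q.R) : (1 - 3 * q.c) / q.om ≤ q.mc i s r s' r' := by
  refine (AVB_num hq).2.trans ?_
  have h1 := Finset.sum_le_sum (s := range q.Jn) (fun j _ =>
    AVB_two (q := q) (s := s) (s' := s') (r := r) (r' := r') (j := j)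
      ((q.jL ≤ j ∧ j + q.jL < q.Jn) ∧ ¬ q.zn i j) (fun h => ⟨AVB_sd h.1 s, AVB_sd h.1 s'⟩))
  have h6 := Finset.sum_le_sum (s := range q.Jn) (fun j _ =>
    AVB_and (q.jL ≤ j ∧ j + q.jL < q.Jn) (¬ q.zn i j))
  have h7 : ∀ j, ind (¬ q.zn i j) = 1 - ind (q.zn i j) := by
    intro j
    by_cases h : q.zn i j
    · rw [ind_pos h, ind_neg (fun h' => h' h)]; ring
    · rw [ind_neg h, ind_pos h]; ring
  simp only [h7] at h6
  rw [Finset.sum_sub_distrib, Finset.sum_add_distrib, Finset.sum_sub_distrib, AVB_mid hq,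
    zone_card i hi] at h6
  rw [Finset.sum_sub_distrib, Finset.sum_sub_distrib] at h1
  have h2 := lost hq s r hr
  have h3 := lost hq s' r' hr'
  have h4 : ∑ j ∈ range q.Jn, ind (((q.jL ≤ j ∧ j + q.jL < q.Jn) ∧ ¬ q.zn i j) ∧
      q.av s r j ∧ q.av s' r' j) = q.mc i s r s' r' := by
    unfold mc MM
    exact Finset.sum_congr rfl fun j _ => ind_congr (by tauto)
  rw [h4] at h1
  have h5 : 400 / q.c = 200 / q.c + 200 / q.c := by ring
  linarith

end PQ

end Pool.Agent.H2.HV
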