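import Mathlib
import Pool.Agent.H2.HV.CNT

/-!
WBD (about 180 lines). The weights w_j. For j < Jn put d = dj j := (P + 1 - cnt j)/kk ∈ [0, dl].
Dj j = mu (K - cnt j) = mu kk (1 + d) = Db (1 + d). Nj j = sj h th/(Db (1+d)) = sj sg/(1+d). wj Db = (1 - sj sg/(1+d))/(1+d) = 1/(1+d) - sj sg/(1+d)².
up: 1/(1+d) ≤ 1 - d + d², 1/(1+d)² ≥ 1 - 2d, sj ≤ 2. lo: 1/(1+d) ≥ 1 - d, 1/(1+d)² ≤ 1, sj ≤ 2. one: 1/(1+d) ≤ 1. bulk: d = 0, sj = 2 (jL ≤ P, j + jL < K + P).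
w_pos: 1 - d - 2 sg > 0. Nj bounds: th/Dj ≤ th/Db ≤ 1 + 2c ((1-c) ≤ (1+2c)(1-3c)... use f_sg: sg = h th/Db ≤ h(1+2c)), th/Dj ≥ 1 - c as Dj ≤ 1 (mu K = 1 - 2h).
ws: ws Db ≤ S/W (Db ≤ 1 - 2h); ws > 0.
-/

set_option autoImplicit false
set_option linter.unusedVariables false

namespace Pool.Agent.H2.HV

open Finset

namespace PQ

variable {q : PQ}

/-- relative excess of the active mass in block `j` -/
noncomputable def dj (q : PQ) (j : ℕ) : ℝ := (q.P + 1 - q.cnt j) / q.kk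

theorem dj_bounds (hq : q.Par) (j : ℕ) (hj : j < q.Jn) : 0 ≤ q.dj j ∧ q.dj j ≤ q.dl := by
  obtain ⟨hkk, -, -, -, -⟩ := f_kk hq
  have h1 : 1 ≤ q.cnt j := by
    by_cases h2 : j < q.P
    · rw [cnt_lo hq j h2]
      have : (0 : ℝ) ≤ j := Nat.cast_nonneg j
      linarith
    · by_cases h3 : j < q.K
      · rw [cnt_mid hq j (by omega) h3]
        have : (0 : ℝ) ≤ q.P := Nat.cast_nonneg _
        linarith
      · rw [cnt_hi hq j (by omega) hj]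
        have : ((j + 1 : ℕ) : ℝ) ≤ (q.Jn : ℝ) := by exact_mod_cast hj
        push_cast at this
        linarith
  have h2 : q.cnt j ≤ q.P + 1 := cnt_le j
  unfold dj dl
  constructor
  · exact div_nonneg (by linarith) hkk.le
  · exact div_le_div_of_nonneg_right (by linarith) hkk.le

theorem Dj_eq (hq : q.Par) (j : ℕ) : q.Dj j = q.Db * (1 + q.dj j) := by
  obtain ⟨hkk, -, -, -, -⟩ := f_kk hq
  have h1 : q.kk = (q.K : ℝ) - q.P - 1 := rfl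
  unfold Dj Db dj
  have h2 : q.mu * q.kk * (1 + ((q.P : ℝ) + 1 - q.cnt j) / q.kk) =
      q.mu * (q.kk + ((q.P : ℝ) + 1 - q.cnt j)) := by
    field_simp
  rw [h2, h1]
  ring

theorem WBD_Db (hq : q.Par) : 0 < q.Db := by
  obtain ⟨h1, -, -⟩ := f_Db hq
  obtain ⟨h2, h3, -, -⟩ := f_c hq
  linarith

theorem Dj_bounds (hq : q.Par) (j : ℕ) (hj : j < q.Jn) :
    q.Db ≤ q.Dj j ∧ q.Dj j ≤ 1 - 2 * q.h ∧ 0 < q.Dj j := by
  obtain ⟨hd0, -⟩ := dj_bounds hq j hj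
  have hDb := WBD_Db hq
  have h1 : q.Db ≤ q.Dj j := by
    rw [Dj_eq hq j]
    nlinarith [mul_nonneg hDb.le hd0]
  refine ⟨h1, ?_, lt_of_lt_of_le hDb h1⟩
  obtain ⟨-, -, -, -, -, hmu⟩ := f_m hq
  obtain ⟨-, -, -, hK, -⟩ := f_nat hq
  have hK' : (0 : ℝ) < q.K := by exact_mod_cast hK
  have h2 : q.mu * q.K = 1 - 2 * q.h := by
    unfold mu
    exact div_mul_cancel₀ _ hK'.ne'
  rw [← h2]
  unfold Dj
  have h3 := cnt_nonneg (q := q) j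
  exact mul_le_mul_of_nonneg_left (by linarith) hmu.le

theorem sj_bounds (j : ℕ) : 1 ≤ q.sj j ∧ q.sj j ≤ 2 := by
  unfold sj
  have h1 := ind_nonneg (q.jL ≤ j ∧ j + q.jL < q.Jn)
  have h2 := ind_le_one (q.jL ≤ j ∧ j + q.jL < q.Jn)
  constructor <;> linarith

theorem WBD_h (hq : q.Par) : 0 < q.h ∧ q.h ≤ 1 / 10 ^ 5 ∧ 0 < q.th ∧ q.h = q.c / 8 := by
  obtain ⟨h2, h3, -, -⟩ := f_c hq
  have h4 : q.h = q.c / 8 := rfl
  have h5 : q.th = 1 - q.c := rfl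
  rw [h4, h5]
  refine ⟨by linarith, by linarith, by linarith, rfl⟩

theorem Nj_bounds (hq : q.Par) (j : ℕ) (hj : j < q.Jn) :
    q.sj j * q.h * (1 - q.c) ≤ q.Nj j ∧ q.Nj j ≤ q.sj j * q.h * (1 + 2 * q.c) := by
  obtain ⟨hD1, hD2, hD3⟩ := Dj_bounds hq j hj
  obtain ⟨hs1, hs2⟩ := sj_bounds (q := q) j
  obtain ⟨hh, -, hth, -⟩ := WBD_h hq
  obtain ⟨-, -, hsg, -⟩ := f_sg hq
  have hDb := WBD_Db hq
  have h0 : 0 ≤ q.sj j * q.h * q.th := by positivity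
  have hth' : q.th = 1 - q.c := rfl
  constructor
  · rw [← hth']
    unfold Nj
    rw [le_div_iff₀ hD3]
    calc q.sj j * q.h * q.th * q.Dj j ≤ q.sj j * q.h * q.th * 1 :=
          mul_le_mul_of_nonneg_left (by linarith) h0
      _ = q.sj j * q.h * q.th := mul_one _
  · have h1 : q.Nj j ≤ q.sj j * q.sg := by
      unfold Nj sg
      rw [← mul_div_assoc, ← mul_assoc]
      exact div_le_div_of_nonneg_left h0 hDb hD1
    have h2 : q.sj j * q.sg ≤ q.sj j * (q.h * (1 + 2 * q.c)) :=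
      mul_le_mul_of_nonneg_left hsg (by linarith)
    calc q.Nj j ≤ q.sj j * q.sg := h1
      _ ≤ q.sj j * (q.h * (1 + 2 * q.c)) := h2
      _ = q.sj j * q.h * (1 + 2 * q.c) := by ring

theorem WBD_key (hq : q.Par) (j : ℕ) (hj : j < q.Jn) : ∃ u : ℝ, 0 < u ∧ u ≤ 1 ∧
    u * (1 + q.dj j) = 1 ∧ q.wj j * q.Db = u - q.sj j * q.sg * u ^ 2 := by
  obtain ⟨hd0, -⟩ := dj_bounds hq j hj
  have hDb := WBD_Db hq
  have h1 : 0 < 1 + q.dj j := by linarith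
  refine ⟨1 / (1 + q.dj j), by positivity, ?_, ?_, ?_⟩
  · rw [div_le_one h1]
    linarith
  · exact one_div_mul_cancel h1.ne'
  · unfold wj Nj sg
    rw [Dj_eq hq j]
    field_simp

theorem wj_up (hq : q.Par) (j : ℕ) (hj : j < q.Jn) :
    q.wj j * q.Db ≤ 1 - q.dj j - q.sj j * q.sg + q.dj j ^ 2 + 4 * q.sg * q.dj j := by
  obtain ⟨u, hu0, hu1, hud, hw⟩ := WBD_key hq j hj
  obtain ⟨hd0, -⟩ := dj_bounds hq j hj
  obtain ⟨hs1, hs2⟩ := sj_bounds (q := q) j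
  obtain ⟨-, -, -, hsg⟩ := f_sg hq
  rw [hw]
  obtain ⟨d, hd⟩ : ∃ d, d = q.dj j := ⟨_, rfl⟩
  rw [← hd] at hd0 hud ⊢
  have hu : u = 1 - u * d := by linarith
  have h1 : u ≤ 1 - d + d ^ 2 := by
    have h2 : 1 - d + d ^ 2 - u = u * d ^ 3 := by
      linear_combination (-(d ^ 2 - d + 1)) * hud
    have h3 : 0 ≤ u * d ^ 3 := by positivity
    linarith
  have h2 : 1 - 2 * d ≤ u ^ 2 := by
    have h3 : u ^ 2 - (1 - 2 * d) = u ^ 2 * (3 * d ^ 2 + 2 * d ^ 3) := by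
      linear_combination (1 - 2 * d) * (u * (1 + d) + 1) * hud
    have h4 : 0 ≤ u ^ 2 * (3 * d ^ 2 + 2 * d ^ 3) := by positivity
    linarith
  have h3 : q.sj j * q.sg * (1 - 2 * d) ≤ q.sj j * q.sg * u ^ 2 :=
    mul_le_mul_of_nonneg_left h2 (mul_nonneg (by linarith) hsg.le)
  have h4 : q.sj j * (q.sg * (2 * d)) ≤ 2 * (q.sg * (2 * d)) :=
    mul_le_mul_of_nonneg_right hs2 (by positivity)
  nlinarith [h1, h3, h4]

theorem wj_lo (hq : q.Par) (j : ℕ) (hj : j < q.Jn) :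
    1 - q.dj j - 2 * q.sg ≤ q.wj j * q.Db := by
  obtain ⟨u, hu0, hu1, hud, hw⟩ := WBD_key hq j hj
  obtain ⟨hd0, -⟩ := dj_bounds hq j hj
  obtain ⟨hs1, hs2⟩ := sj_bounds (q := q) j
  obtain ⟨-, -, -, hsg⟩ := f_sg hq
  rw [hw]
  have h1 : 1 - q.dj j ≤ u := by
    have h2 : u - (1 - q.dj j) = u * q.dj j ^ 2 := by
      linear_combination (1 - q.dj j) * hud
    have h3 : 0 ≤ u * q.dj j ^ 2 := by positivity
    linarith
  have h2 : u ^ 2 ≤ 1 := by nlinarith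
  have h3 : q.sj j * q.sg * u ^ 2 ≤ q.sj j * q.sg * 1 :=
    mul_le_mul_of_nonneg_left h2 (mul_nonneg (by linarith) hsg.le)
  have h4 : q.sj j * q.sg ≤ 2 * q.sg := mul_le_mul_of_nonneg_right hs2 hsg.le
  linarith

theorem wj_one (hq : q.Par) (j : ℕ) (hj : j < q.Jn) : q.wj j * q.Db ≤ 1 := by
  obtain ⟨u, hu0, hu1, hud, hw⟩ := WBD_key hq j hj
  obtain ⟨hs1, hs2⟩ := sj_bounds (q := q) j
  obtain ⟨-, -, -, hsg⟩ := f_sg hq
  rw [hw]
  have h3 : 0 ≤ q.sj j * q.sg * u ^ 2 :=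
    mul_nonneg (mul_nonneg (by linarith) hsg.le) (by positivity)
  linarith

theorem wj_bulk (hq : q.Par) (j : ℕ) (hj : q.P ≤ j) (hj' : j < q.K) :
    q.wj j * q.Db = 1 - 2 * q.sg := by
  have hJ : j < q.Jn := by
    unfold Jn
    omega
  obtain ⟨-, -, -, -, -, -, -, hjL, -, -, -⟩ := f_nat hq
  obtain ⟨u, hu0, hu1, hud, hw⟩ := WBD_key hq j hJ
  have hd : q.dj j = 0 := by
    unfold dj
    rw [cnt_mid hq j hj hj', sub_self, zero_div]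
  have hs : q.sj j = 2 := by
    unfold sj
    rw [ind_pos]
    · norm_num
    · unfold Jn
      constructor <;> omega
  rw [hd, add_zero, mul_one] at hud
  rw [hw, hs, hud]
  ring

theorem wj_pos (hq : q.Par) (j : ℕ) (hj : j < q.Jn) : 0 < q.wj j := by
  have h1 := wj_lo hq j hj
  have hDb := WBD_Db hq
  obtain ⟨-, hd⟩ := dj_bounds hq j hj
  obtain ⟨-, -, hdl, -, -⟩ := f_kk hq
  obtain ⟨-, -, hsg, -⟩ := f_sg hq
  obtain ⟨hc0, hc1, -, -⟩ := f_c hq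
  obtain ⟨hh0, hh1, -, -⟩ := WBD_h hq
  have h2 : q.h * (1 + 2 * q.c) ≤ 1 / 10 ^ 5 * 2 :=
    mul_le_mul hh1 (by linarith) (by linarith) (by norm_num)
  have h3 : 0 < q.wj j * q.Db := by
    have h4 : (0 : ℝ) < 1 - q.dj j - 2 * q.sg := by linarith
    linarith
  exact (mul_pos_iff_of_pos_right hDb).1 h3

theorem ws_bounds (hq : q.Par) : 0 < q.ws ∧ q.ws * q.Db ≤ q.S / q.W ∧
    q.ws = (((q.S : ℝ) - 1) / q.W) * (1 - q.h * q.th / (1 - 2 * q.h)) / (1 - 2 * q.h) := by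
  have hDb := WBD_Db hq
  obtain ⟨-, hD2, -⟩ := f_Db hq
  obtain ⟨hc0, hc1, -, -⟩ := f_c hq
  obtain ⟨hh0, hh1, hth, -⟩ := WBD_h hq
  obtain ⟨-, -, hS, -, -, -⟩ := f_S hq
  obtain ⟨-, -, hW, -⟩ := f_nat hq
  have hW' : (0 : ℝ) < q.W := by exact_mod_cast hW
  have hth' : q.th = 1 - q.c := rfl
  have h1 : (0 : ℝ) < 1 - 2 * q.h := by linarith
  have h2 : 0 ≤ q.h * q.th / (1 - 2 * q.h) := by positivity
  have h3 : q.h * q.th / (1 - 2 * q.h) < 1 := by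
    rw [div_lt_one h1]
    have h4 : q.h * q.th ≤ q.h * 1 := mul_le_mul_of_nonneg_left (by rw [hth']; linarith) hh0.le
    linarith
  have h5 : 0 < ((q.S : ℝ) - 1) / q.W := div_pos hS hW'
  refine ⟨?_, ?_, rfl⟩
  · unfold ws
    exact div_pos (mul_pos h5 (by linarith)) h1
  · have h6 : q.ws * q.Db = (((q.S : ℝ) - 1) / q.W) * ((1 - q.h * q.th / (1 - 2 * q.h)) *
        (q.Db / (1 - 2 * q.h))) := by
      unfold ws
      ring
    rw [h6]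
    have h7 : q.Db / (1 - 2 * q.h) ≤ 1 := by
      rw [div_le_one h1]
      exact hD2
    have h8 : (1 - q.h * q.th / (1 - 2 * q.h)) * (q.Db / (1 - 2 * q.h)) ≤ 1 :=
      mul_le_one₀ (by linarith) (by positivity) h7
    calc (((q.S : ℝ) - 1) / q.W) * ((1 - q.h * q.th / (1 - 2 * q.h)) * (q.Db / (1 - 2 * q.h)))
        ≤ (((q.S : ℝ) - 1) / q.W) * 1 := mul_le_mul_of_nonneg_left h8 h5.le
      _ = ((q.S : ℝ) - 1) / q.W := mul_one _
      _ ≤ q.S / q.W := div_le_div_of_nonneg_right (by linarith) hW'.le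

/-- relation used in `need`: `w_j D_j = 1 - N_j` -/
theorem wj_Dj (hq : q.Par) (j : ℕ) (hj : j < q.Jn) : q.wj j * q.Dj j = 1 - q.Nj j := by
  obtain ⟨-, -, hD3⟩ := Dj_bounds hq j hj
  unfold wj
  exact div_mul_cancel₀ _ hD3.ne'

end PQ

end Pool.Agent.H2.HV
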