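import Mathlib
import Pool.Agent.H2.HV.WBD

/-!
SWS (about 180 lines). The sum of the weights.

Σ_{j<Jn} dj j = P(P+1)/kk: split range Jn = [0,P) ∪ [P,K) ∪ [K,Jn): dj j = (P-j)/kk for j < P (cnt_lo), 0 in the middle, (j - K + 1)/kk for K ≤ j < K+P (cnt_hi); each end sums
to P(P+1)/(2 kk). (Or: Σ_j (P + 1 - cnt j) = Jn (P+1) - K (P+1) = P(P+1) by sum_cnt! This is the short way.) Σ_j sj j = 2 Jn - 2 jL (the blocks with sj = 1 are j < jL and j + jL ≥ Jn;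
2 jL ≤ Jn). Σ_j (dj² + 4 sg dj) ≤ 2P (dl² + 4 sg dl): at most 2P blocks have dj ≠ 0 (those with j < P or j ≥ K), dj ≤ dl.
sw_up from wj_up, sw_lo from wj_lo.
-/

set_option autoImplicit false
set_option linter.unusedVariables false

namespace Pool.Agent.H2.HV

open Finset

namespace PQ

variable {q : PQ}

theorem SWS_Jn : (q.Jn : ℝ) = q.K + q.P := by
  unfold PQ.Jn
  push_cast
  ring

theorem sum_dj (hq : q.Par) : ∑ j ∈ range q.Jn, q.dj j = q.P * (q.P + 1) / q.kk := by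
  unfold PQ.dj
  rw [← Finset.sum_div, Finset.sum_sub_distrib, Finset.sum_const, Finset.card_range, sum_cnt,
    nsmul_eq_mul, SWS_Jn]
  congr 1
  ring

theorem sum_sj (hq : q.Par) : ∑ j ∈ range q.Jn, q.sj j = 2 * q.Jn - 2 * q.jL := by
  obtain ⟨-, -, -, -, -, -, -, h1, h2, -⟩ := f_nat hq
  have hJ : 2 * q.jL ≤ q.Jn := by
    unfold PQ.Jn
    omega
  have h3 : ∑ j ∈ range q.Jn, ind (q.jL ≤ j ∧ j + q.jL < q.Jn) = (q.Jn : ℝ) - 2 * q.jL := by
    have h4 : ∀ j ∈ range q.Jn, ind (q.jL ≤ j ∧ j + q.jL < q.Jn) =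
        if q.jL ≤ j ∧ j + q.jL < q.Jn then (1 : ℝ) else 0 := by
      intro j _
      by_cases h : q.jL ≤ j ∧ j + q.jL < q.Jn
      · rw [ind_pos h, if_pos h]
      · rw [ind_neg h, if_neg h]
    rw [Finset.sum_congr rfl h4, Finset.sum_boole]
    have h5 : (range q.Jn).filter (fun j => q.jL ≤ j ∧ j + q.jL < q.Jn) =
        Finset.Ico q.jL (q.Jn - q.jL) := by
      ext j
      rw [Finset.mem_filter, Finset.mem_range, Finset.mem_Ico]
      omega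
    rw [h5, Nat.card_Ico, Nat.cast_sub (by omega), Nat.cast_sub (by omega)]
    ring
  unfold PQ.sj
  rw [Finset.sum_add_distrib, h3, Finset.sum_const, Finset.card_range, nsmul_eq_mul]
  ring

theorem SWS_err (hq : q.Par) : ∑ j ∈ range q.Jn, (q.dj j ^ 2 + 4 * q.sg * q.dj j) ≤
    2 * q.P * (q.dl ^ 2 + 4 * q.sg * q.dl) := by
  obtain ⟨-, -, -, -, -, -, -, h1, h2, -⟩ := f_nat hq
  obtain ⟨-, -, -, hsg⟩ := f_sg hq
  have hB : ∀ j, j < q.Jn → q.dj j ^ 2 + 4 * q.sg * q.dj j ≤ q.dl ^ 2 + 4 * q.sg * q.dl := by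
    intro j hj
    obtain ⟨h3, h4⟩ := dj_bounds hq j hj
    have h5 : q.dj j ^ 2 ≤ q.dl ^ 2 := pow_le_pow_left₀ h3 h4 2
    have h6 : 4 * q.sg * q.dj j ≤ 4 * q.sg * q.dl := mul_le_mul_of_nonneg_left h4 (by positivity)
    linarith
  have hK : q.Jn = q.K + q.P := rfl
  rw [Finset.range_eq_Ico, ← Finset.sum_Ico_consecutive _ (Nat.zero_le q.P)
    (show q.P ≤ q.Jn by omega), ← Finset.sum_Ico_consecutive _ (show q.P ≤ q.K by omega)
    (show q.K ≤ q.Jn by omega)]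
  have e1 : ∑ j ∈ Finset.Ico 0 q.P, (q.dj j ^ 2 + 4 * q.sg * q.dj j) ≤
      q.P * (q.dl ^ 2 + 4 * q.sg * q.dl) := by
    refine (Finset.sum_le_card_nsmul _ _ (q.dl ^ 2 + 4 * q.sg * q.dl) fun j hj => hB j ?_).trans
      (le_of_eq ?_)
    · have := (Finset.mem_Ico.1 hj).2
      omega
    · rw [Nat.card_Ico, nsmul_eq_mul, Nat.sub_zero]
  have e2 : ∑ j ∈ Finset.Ico q.P q.K, (q.dj j ^ 2 + 4 * q.sg * q.dj j) = 0 := by
    refine Finset.sum_eq_zero fun j hj => ?_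
    obtain ⟨h3, h4⟩ := Finset.mem_Ico.1 hj
    have h5 : q.dj j = 0 := by
      unfold PQ.dj
      rw [cnt_mid hq j h3 h4, sub_self, zero_div]
    rw [h5]
    ring
  have e3 : ∑ j ∈ Finset.Ico q.K q.Jn, (q.dj j ^ 2 + 4 * q.sg * q.dj j) ≤
      q.P * (q.dl ^ 2 + 4 * q.sg * q.dl) := by
    refine (Finset.sum_le_card_nsmul _ _ (q.dl ^ 2 + 4 * q.sg * q.dl) fun j hj => hB j ?_).trans
      (le_of_eq ?_)
    · exact (Finset.mem_Ico.1 hj).2
    · rw [Nat.card_Ico, nsmul_eq_mul, hK, Nat.add_sub_cancel_left]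
  rw [e2]
  linarith

theorem sw_up (hq : q.Par) : (∑ j ∈ range q.Jn, q.wj j) * q.Db ≤
    q.Jn * (1 - 2 * q.sg) - q.P * (q.P + 1) / q.kk + 2 * q.jL * q.sg +
      2 * q.P * (q.dl ^ 2 + 4 * q.sg * q.dl) := by
  have h1 : (∑ j ∈ range q.Jn, q.wj j) * q.Db ≤ ∑ j ∈ range q.Jn,
      (1 - q.dj j - q.sj j * q.sg + (q.dj j ^ 2 + 4 * q.sg * q.dj j)) := by
    rw [Finset.sum_mul]
    refine Finset.sum_le_sum fun j hj => ?_
    have := wj_up hq j (Finset.mem_range.1 hj)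
    linarith
  rw [Finset.sum_add_distrib, Finset.sum_sub_distrib, Finset.sum_sub_distrib, ← Finset.sum_mul,
    sum_dj hq, sum_sj hq, Finset.sum_const, Finset.card_range, nsmul_eq_mul, mul_one] at h1
  have h2 := SWS_err hq
  linarith

theorem sw_lo (hq : q.Par) : q.Jn * (1 - 2 * q.sg) - q.P * (q.P + 1) / q.kk ≤
    (∑ j ∈ range q.Jn, q.wj j) * q.Db := by
  have h1 : ∑ j ∈ range q.Jn, (1 - q.dj j - 2 * q.sg) ≤ (∑ j ∈ range q.Jn, q.wj j) * q.Db := by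
    rw [Finset.sum_mul]
    exact Finset.sum_le_sum fun j hj => wj_lo hq j (Finset.mem_range.1 hj)
  rw [Finset.sum_sub_distrib, Finset.sum_sub_distrib, sum_dj hq, Finset.sum_const,
    Finset.sum_const, Finset.card_range, nsmul_eq_mul, nsmul_eq_mul, mul_one] at h1
  linarith

end PQ

end Pool.Agent.H2.HV
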