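import Mathlib
import Pool.Agent.H2.HV.WBD

/-!
ZNS (about 200 lines). Zone sums.

Zs_up: wj Db ≤ 1 and zone_card. Zs_lo: wj Db ≥ 1 - dl - 2 sg. Zs_bulk: for P ≤ i, i + P < K the zone lies in [P, K). Zs_Q: at most 2P indices i < K have i < P or i + P ≥ K; for those use Zs_lo,
for the others Zs_bulk: Σ_{i∈Q} Zs i Db ≥ |Q| (P+1)(1-2sg) - 2P (P+1) dl.
Os_all: Σ_{i,i'∈Q} Os Db ≤ Σ_{i,i'<K} Σ_j ind(..) (terms ≥ 0, wj Db ≤ 1) = Σ_j cnt j² ≤ (P+1) Σ_j cnt j = K (P+1)² (cnt_sq, cnt_le, sum_cnt).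
Os_one: Σ_{i'<K} Os i i' Db ≤ Σ_j ind (zn i j) cnt j ≤ (P+1)².  Os_le: Os i i' ≥ 0.
-/

set_option autoImplicit false
set_option linter.unusedVariables false

namespace Pool.Agent.H2.HV

open Finset

namespace PQ

variable {q : PQ}

theorem ZNS_Db (hq : q.Par) : 0 < q.Db := by
  have h1 := f_Db hq
  have h2 := f_c hq
  linarith [h1.1, h2.2.1]

theorem ZNS_Zs (i : ℕ) : q.Zs i * q.Db = ∑ j ∈ range q.Jn, ind (q.zn i j) * (q.wj j * q.Db) := by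
  unfold Zs
  rw [Finset.sum_mul]
  exact Finset.sum_congr rfl fun j _ => by ring

theorem Zs_up (hq : q.Par) (i : ℕ) (hi : i < q.K) : q.Zs i * q.Db ≤ q.P + 1 := by
  rw [ZNS_Zs, ← zone_card i hi]
  refine Finset.sum_le_sum fun j hj => ?_
  have h1 := wj_one hq j (Finset.mem_range.1 hj)
  have h2 := mul_le_mul_of_nonneg_left h1 (ind_nonneg (q.zn i j))
  linarith

theorem Zs_lo (hq : q.Par) (i : ℕ) (hi : i < q.K) :
    (q.P + 1) * (1 - 2 * q.sg - q.dl) ≤ q.Zs i * q.Db := by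
  rw [ZNS_Zs, ← zone_card i hi, Finset.sum_mul]
  refine Finset.sum_le_sum fun j hj => ?_
  refine mul_le_mul_of_nonneg_left ?_ (ind_nonneg _)
  have h1 := wj_lo hq j (Finset.mem_range.1 hj)
  have h2 := (dj_bounds hq j (Finset.mem_range.1 hj)).2
  linarith

theorem ZNS_bulk (hq : q.Par) (i : ℕ) (hi : q.P ≤ i) (hi' : i + q.P < q.K) :
    q.Zs i * q.Db = (q.P + 1) * (1 - 2 * q.sg) := by
  rw [ZNS_Zs, ← zone_card i (by omega), Finset.sum_mul]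
  refine Finset.sum_congr rfl fun j hj => ?_
  by_cases h : q.zn i j
  · have h1 : i ≤ j ∧ j ≤ i + q.P := h
    rw [wj_bulk hq j (by omega) (by omega)]
  · rw [ind_neg h]; ring

theorem ZNS_bad (Q : Finset ℕ) (hQ : Q ⊆ range q.K) :
    (∑ i ∈ Q, ind (¬ (q.P ≤ i ∧ i + q.P < q.K))) ≤ 2 * (q.P : ℝ) := by
  classical
  have h1 : ∀ i ∈ Q, ind (¬ (q.P ≤ i ∧ i + q.P < q.K)) =
      if ¬ (q.P ≤ i ∧ i + q.P < q.K) then (1:ℝ) else 0 := by
    intro i _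
    by_cases h : ¬ (q.P ≤ i ∧ i + q.P < q.K)
    · rw [ind_pos h, if_pos h]
    · rw [ind_neg h, if_neg h]
  rw [Finset.sum_congr rfl h1, Finset.sum_boole]
  have h2 : (Q.filter fun i => ¬ (q.P ≤ i ∧ i + q.P < q.K)) ⊆
      range q.P ∪ Finset.Ico (q.K - q.P) q.K := by
    intro i hi
    rw [Finset.mem_filter] at hi
    have h3 := Finset.mem_range.1 (hQ hi.1)
    rw [Finset.mem_union, Finset.mem_range, Finset.mem_Ico]
    have h4 := hi.2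
    omega
  have h3 := Finset.card_le_card h2
  have h4 := Finset.card_union_le (range q.P) (Finset.Ico (q.K - q.P) q.K)
  rw [Finset.card_range, Nat.card_Ico] at h4
  have h5 : (Q.filter fun i => ¬ (q.P ≤ i ∧ i + q.P < q.K)).card ≤ 2 * q.P := by omega
  exact_mod_cast h5

theorem Zs_Q (hq : q.Par) (Q : Finset ℕ) (hQ : Q ⊆ range q.K) :
    Q.card * ((q.P + 1) * (1 - 2 * q.sg)) - 2 * q.P * ((q.P + 1) * q.dl) ≤
      ∑ i ∈ Q, q.Zs i * q.Db := by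
  have hdl : 0 ≤ q.dl := (f_kk hq).2.2.2.1.le
  have hP : (0:ℝ) ≤ (q.P : ℝ) + 1 := by positivity
  have h1 : ∀ i ∈ Q, (q.P + 1) * (1 - 2 * q.sg) -
      ind (¬ (q.P ≤ i ∧ i + q.P < q.K)) * ((q.P + 1) * q.dl) ≤ q.Zs i * q.Db := by
    intro i hi
    have hi' := Finset.mem_range.1 (hQ hi)
    by_cases h : q.P ≤ i ∧ i + q.P < q.K
    · rw [ind_neg (not_not.2 h), ZNS_bulk hq i h.1 h.2]
      linarith
    · rw [ind_pos h]
      have h2 := Zs_lo hq i hi'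
      have h3 : (q.P + 1 : ℝ) * (1 - 2 * q.sg - q.dl) =
        (q.P + 1) * (1 - 2 * q.sg) - 1 * ((q.P + 1) * q.dl) := by ring
      linarith
  refine le_trans ?_ (Finset.sum_le_sum h1)
  rw [Finset.sum_sub_distrib, Finset.sum_const, nsmul_eq_mul, ← Finset.sum_mul]
  have h2 := mul_le_mul_of_nonneg_right (ZNS_bad (q := q) Q hQ) (mul_nonneg hP hdl)
  linarith

theorem Os_nonneg (hq : q.Par) (i i' : ℕ) : 0 ≤ q.Os i i' := by
  unfold Os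
  exact Finset.sum_nonneg fun j hj =>
    mul_nonneg (ind_nonneg _) (wj_pos hq j (Finset.mem_range.1 hj)).le

theorem ZNS_Os (hq : q.Par) (i i' : ℕ) :
    q.Os i i' * q.Db ≤ ∑ j ∈ range q.Jn, ind (q.zn i j ∧ q.zn i' j) := by
  unfold Os
  rw [Finset.sum_mul]
  refine Finset.sum_le_sum fun j hj => ?_
  have h1 := wj_one hq j (Finset.mem_range.1 hj)
  have h2 := mul_le_mul_of_nonneg_left h1 (ind_nonneg (q.zn i j ∧ q.zn i' j))
  linarith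

theorem ZNS_OD (hq : q.Par) (i i' : ℕ) : 0 ≤ q.Os i i' * q.Db :=
  mul_nonneg (Os_nonneg hq i i') (ZNS_Db hq).le

theorem Os_all (hq : q.Par) (Q : Finset ℕ) (hQ : Q ⊆ range q.K) :
    ∑ i ∈ Q, ∑ i' ∈ Q, q.Os i i' * q.Db ≤ q.K * (q.P + 1) ^ 2 := by
  have h1 : ∑ i ∈ Q, ∑ i' ∈ Q, q.Os i i' * q.Db ≤
      ∑ i ∈ range q.K, ∑ i' ∈ range q.K, q.Os i i' * q.Db := by
    refine le_trans (Finset.sum_le_sum fun i _ =>
      Finset.sum_le_sum_of_subset_of_nonneg hQ fun i' _ _ => ZNS_OD hq i i') ?_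
    exact Finset.sum_le_sum_of_subset_of_nonneg hQ fun i _ _ =>
      Finset.sum_nonneg fun i' _ => ZNS_OD hq i i'
  have h2 : ∑ i ∈ range q.K, ∑ i' ∈ range q.K, q.Os i i' * q.Db ≤
      ∑ i ∈ range q.K, ∑ i' ∈ range q.K, ∑ j ∈ range q.Jn, ind (q.zn i j ∧ q.zn i' j) :=
    Finset.sum_le_sum fun i _ => Finset.sum_le_sum fun i' _ => ZNS_Os hq i i'
  have h3 : ∑ i ∈ range q.K, ∑ i' ∈ range q.K, ∑ j ∈ range q.Jn, ind (q.zn i j ∧ q.zn i' j) =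
      ∑ j ∈ range q.Jn, q.cnt j ^ 2 := by
    rw [Finset.sum_congr rfl fun i _ => Finset.sum_comm, Finset.sum_comm]
    exact Finset.sum_congr rfl fun j _ => cnt_sq j
  have h4 : ∑ j ∈ range q.Jn, q.cnt j ^ 2 ≤ ∑ j ∈ range q.Jn, (q.P + 1) * q.cnt j := by
    refine Finset.sum_le_sum fun j _ => ?_
    rw [pow_two]
    exact mul_le_mul_of_nonneg_right (cnt_le j) (cnt_nonneg j)
  rw [← Finset.mul_sum, sum_cnt] at h4
  have h5 : (q.P + 1 : ℝ) * (q.K * (q.P + 1)) = q.K * (q.P + 1) ^ 2 := by ring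
  linarith

theorem Os_one (hq : q.Par) (Q : Finset ℕ) (hQ : Q ⊆ range q.K) (i : ℕ) (hi : i < q.K) :
    ∑ i' ∈ Q, q.Os i i' * q.Db ≤ (q.P + 1) ^ 2 := by
  have h1 : ∑ i' ∈ Q, q.Os i i' * q.Db ≤ ∑ i' ∈ range q.K, q.Os i i' * q.Db :=
    Finset.sum_le_sum_of_subset_of_nonneg hQ fun i' _ _ => ZNS_OD hq i i'
  have h2 : ∑ i' ∈ range q.K, q.Os i i' * q.Db ≤
      ∑ i' ∈ range q.K, ∑ j ∈ range q.Jn, ind (q.zn i j ∧ q.zn i' j) :=
    Finset.sum_le_sum fun i' _ => ZNS_Os hq i i'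
  have h3 : ∑ i' ∈ range q.K, ∑ j ∈ range q.Jn, ind (q.zn i j ∧ q.zn i' j) =
      ∑ j ∈ range q.Jn, ind (q.zn i j) * q.cnt j := by
    rw [Finset.sum_comm]
    refine Finset.sum_congr rfl fun j _ => ?_
    unfold cnt
    rw [Finset.mul_sum]
    exact Finset.sum_congr rfl fun i' _ => ind_and _ _
  have h4 : ∑ j ∈ range q.Jn, ind (q.zn i j) * q.cnt j ≤
      ∑ j ∈ range q.Jn, ind (q.zn i j) * (q.P + 1) :=
    Finset.sum_le_sum fun j _ => mul_le_mul_of_nonneg_left (cnt_le j) (ind_nonneg _)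
  rw [← Finset.sum_mul, zone_card i hi] at h4
  have h5 : (q.P + 1 : ℝ) * (q.P + 1) = (q.P + 1) ^ 2 := by ring
  linarith

end PQ

end Pool.Agent.H2.HV
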