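import Mathlib
import Pool.Agent.H2.HV.SWS
import Pool.Agent.H2.HV.ZNS

/-!
OM1 (about 250 lines). The main inequality (D1) of the mean-field schedule.

Let x = |Q|, kk ≤ x ≤ K, Db > 0. Multiply by Db/om: the claim is
 F := x² (Db Σw + Db ws) - 2 x Σ_{i∈Q} Zs i Db + ΣΣ Os Db ≤ x² Db/om.
By sw_up, Zs_Q, Os_all and x ≥ kk (divide by x²):
 F/x² ≤ Jn (1-2sg) - P(P+1)/kk + 2 jL sg + 2P(dl²+4 sg dl) + Db ws - 2 (P+1)(1-2sg) + 4 P (P+1) dl/kk + K (P+1)²/kk².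
Jn = kk + 2P + 1, so Jn (1-2sg) - 2(P+1)(1-2sg) = (kk-1)(1-2sg) ≤ kk (1-2sg).
K = kk+P+1: K(P+1)²/kk² = (P+1)²/kk + (P+1)³/kk², and (P+1)²/kk - P(P+1)/kk = (P+1)/kk ≤ 1.
With dl = P/kk, P+1 ≤ 1.001 P: (P+1)³/kk² ≤ 1.01 P dl², 4P(P+1)dl/kk ≤ 4.01 P dl², 8 P sg dl ≤ P dl² (8 sg ≤ c(1+2c) ≤ dl: dl = P/kk ≥ P/K ≥ 2c): total error ≤ 9 P dl² + 1 = 9 kk dl³ + 1 ≤ 9·8.1 kk c³ + 1 ≤ 73 kk c³ + 1.
Right side: Db/om = (1-2h) kk/(K om) ≥ (1-2h) kk (1 + S/n) (K om ≤ 1 - S/n by f_K and 1/(1-s) ≥ 1+s), and (1-2h) kk S/n ≥ (S/W)(1-4c) (kk om ≥ 1-3c, S/n = (S/W) om); Db ws ≤ S/W ≤ 2.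
So it suffices: 2 h kk + 2 jL sg + 73 kk c³ + 1 + 8c ≤ 2 sg kk, where sg kk = h th K/(1-2h) ≥ h (1-c)(1+2h) K, h = c/8.
K ≥ kk + P and P ≥ 2cK ≥ 2 c kk: sg kk ≥ h (1-c)(1+c/4)(1+2c) kk ≥ h (1 + 1.249c - 3c²) kk. 2 jL sg: sg ≤ h(1+2c), jL ≤ 1.129 c/om, 1/om ≤ kk/(1-3c): jL sg ≤ h · 1.129 c (1+6c) kk.
Left/2 ≤ h kk (1 + 1.129c + 7c²) + 37 kk c³ + 1 = h kk (1 + 1.129 c + 7c² + 296 c²) + 1, and 1 ≤ h kk · c/1000 (kk ≥ (1-3c)/om ≥ 0.9·10^8/c²). Needed: 1.249c - 3c² ≥ 1.129c + 304 c² + c/1000: true for c ≤ 10^-5.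
d1_aux: the purely numerical part, d1: the statement.
-/

set_option autoImplicit false
set_option linter.unusedVariables false

namespace Pool.Agent.H2.HV

open Finset

namespace PQ

variable {q : PQ}

theorem OM1_id (K P kk jL s0 sg dl : ℝ) (hkk : kk ≠ 0) (hK : K = kk + P + 1) (hP : P = dl * kk) :
    (K + P) * (1 - 2 * sg) - P * (P + 1) / kk + 2 * jL * sg +
      2 * P * (dl ^ 2 + 4 * sg * dl) + s0 - 2 * ((P + 1) * (1 - 2 * sg)) +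
      4 * P * ((P + 1) * dl) / kk + K * (P + 1) ^ 2 / kk ^ 2 =
    (kk - 1) * (1 - 2 * sg) + (P + 1) / kk + 2 * jL * sg + 2 * kk * dl ^ 3 +
      8 * sg * (kk * dl ^ 2) + s0 + 4 * kk * dl ^ 2 * ((P + 1) / kk) +
      kk * ((P + 1) / kk) ^ 3 := by
  subst hK
  subst hP
  field_simp
  ring

theorem OM1_err (c P kk sg dl : ℝ) (hc0 : 0 < c) (hc1 : c ≤ 1 / 10 ^ 5) (hkk : 0 < kk)
    (hP : P = dl * kk) (hP1 : 10 ^ 6 ≤ P) (hdl0 : 0 < dl) (hdl : dl ≤ 2001 / 1000 * c)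
    (hsg0 : 0 < sg) (hsg : sg ≤ c / 8 * (1 + 2 * c)) :
    (P + 1) / kk + 2 * kk * dl ^ 3 + 8 * sg * (kk * dl ^ 2) +
      4 * kk * dl ^ 2 * ((P + 1) / kk) + kk * ((P + 1) / kk) ^ 3 ≤ 1 + 61 * (kk * c ^ 3) := by
  obtain ⟨r, hr⟩ : ∃ r, r = (P + 1) / kk := ⟨_, rfl⟩
  rw [← hr]
  have hr0 : 0 < r := by
    rw [hr]
    positivity
  have hr1 : r ≤ 1001 / 1000 * dl := by
    rw [hr, div_le_iff₀ hkk]
    linarith
  have hr2 : r ≤ 2004 / 1000 * c := by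
    linarith
  have hr3 : r ≤ 1 := by
    have : 2004 / 1000 * c ≤ 2004 / 1000 * (1 / 10 ^ 5) := mul_le_mul_of_nonneg_left hc1 (by norm_num)
    have h2 : (2004 / 1000 * (1 / 10 ^ 5) : ℝ) ≤ 1 := by norm_num
    linarith
  have e1 : dl ^ 3 ≤ (2001 / 1000 * c) ^ 3 := pow_le_pow_left₀ hdl0.le hdl 3
  have e2 : dl ^ 2 ≤ (2001 / 1000 * c) ^ 2 := pow_le_pow_left₀ hdl0.le hdl 2
  have e3 : r ^ 3 ≤ (2004 / 1000 * c) ^ 3 := pow_le_pow_left₀ hr0.le hr2 3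
  have e4 : dl ^ 2 * r ≤ (2001 / 1000 * c) ^ 2 * (2004 / 1000 * c) :=
    mul_le_mul e2 hr2 hr0.le (by positivity)
  have e5 : 8 * sg ≤ 1001 / 1000 * c := by
    have : 2 * c ≤ 1 / 1000 := by linarith [show (1 / 10 ^ 5 : ℝ) * 2 ≤ 1 / 1000 by norm_num]
    nlinarith
  have e6 : 8 * sg * dl ^ 2 ≤ (1001 / 1000 * c) * (2001 / 1000 * c) ^ 2 :=
    mul_le_mul e5 e2 (by positivity) (by positivity)
  have f1 := mul_le_mul_of_nonneg_left e1 hkk.le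
  have f3 := mul_le_mul_of_nonneg_left e3 hkk.le
  have f4 := mul_le_mul_of_nonneg_left e4 hkk.le
  have f6 := mul_le_mul_of_nonneg_left e6 hkk.le
  have g : 0 < kk * c ^ 3 := by positivity
  have t1 : kk * (2001 / 1000 * c) ^ 3 = (2001 / 1000) ^ 3 * (kk * c ^ 3) := by ring
  have t3 : kk * (2004 / 1000 * c) ^ 3 = (2004 / 1000) ^ 3 * (kk * c ^ 3) := by ring
  have t4 : kk * ((2001 / 1000 * c) ^ 2 * (2004 / 1000 * c)) =
      ((2001 / 1000) ^ 2 * (2004 / 1000)) * (kk * c ^ 3) := by ring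
  have t6 : kk * ((1001 / 1000 * c) * (2001 / 1000 * c) ^ 2) =
      ((1001 / 1000) * (2001 / 1000) ^ 2) * (kk * c ^ 3) := by ring
  rw [t1] at f1
  rw [t3] at f3
  rw [t4] at f4
  rw [t6] at f6
  have u1 : 2 * kk * dl ^ 3 = 2 * (kk * dl ^ 3) := by ring
  have u6 : 8 * sg * (kk * dl ^ 2) = kk * (8 * sg * dl ^ 2) := by ring
  have u4 : 4 * kk * dl ^ 2 * r = 4 * (kk * (dl ^ 2 * r)) := by ring
  rw [u1, u6, u4]
  have v : 2 * ((2001 / 1000) ^ 3 * (kk * c ^ 3)) +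
      ((1001 / 1000) * (2001 / 1000) ^ 2) * (kk * c ^ 3) +
      4 * (((2001 / 1000) ^ 2 * (2004 / 1000)) * (kk * c ^ 3)) +
      (2004 / 1000) ^ 3 * (kk * c ^ 3) ≤ 61 * (kk * c ^ 3) := by
    nlinarith
  linarith

theorem OM1_fin (c om K P kk jL s0 Db sg : ℝ) (hc0 : 0 < c) (hc1 : c ≤ 1 / 10 ^ 5)
    (hom0 : 0 < om) (hom1 : om ≤ c ^ 2 / 10 ^ 8) (hkk : 0 < kk) (hK : K = kk + P + 1)
    (hkkom : 1 - 3 * c ≤ kk * om) (hs1 : 1 ≤ s0) (hs2 : s0 ≤ 2) (hKom : K * om + s0 * om ≤ 1)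
    (hcK : 2 * c * K ≤ P) (hP0 : 0 < P) (hjL0 : 0 ≤ jL) (hjL : jL * om ≤ 1129 / 1000 * c)
    (hDb : Db * K = (1 - c / 4) * kk) (hDb0 : 0 < Db)
    (hsg1 : sg * kk * (1 - c / 4) = c / 8 * (1 - c) * K)
    (hsg0 : 0 < sg) (hsg : sg ≤ c / 8 * (1 + 2 * c)) :
    (kk - 1) * (1 - 2 * sg) + 2 * jL * sg + s0 + (1 + 61 * (kk * c ^ 3)) ≤ Db / om := by
  have hK0 : 0 < K := by linarith
  have hc2 : c ^ 2 ≤ 1 / 10 ^ 5 * c := by nlinarith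
  -- the right side
  have a1 : (1 - c / 4) * kk * (1 + s0 * om) ≤ Db / om := by
    have h1 : K * om * (1 + s0 * om) ≤ 1 := by
      have h2 : K * om ≤ 1 - s0 * om := by linarith
      have h3 : 0 ≤ s0 * om := by positivity
      have h4 : K * om * (1 + s0 * om) ≤ (1 - s0 * om) * (1 + s0 * om) :=
        mul_le_mul_of_nonneg_right h2 (by linarith)
      nlinarith
    have h5 : (1 - c / 4) * kk * (1 + s0 * om) = Db / om * (K * om * (1 + s0 * om)) := by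
      rw [← hDb]
      field_simp
    rw [h5]
    exact mul_le_of_le_one_right (by positivity) h1
  have a2 : (1 - 3 * c) * s0 ≤ kk * (s0 * om) := by
    have := mul_le_mul_of_nonneg_right hkkom (by linarith : (0 : ℝ) ≤ s0)
    linarith
  have a3 : (1 - c / 4) * kk + s0 - 8 * c ≤ Db / om := by
    have h1 : (1 - c / 4) * ((1 - 3 * c) * s0) ≤ (1 - c / 4) * (kk * (s0 * om)) :=
      mul_le_mul_of_nonneg_left a2 (by linarith [show (1 / 10 ^ 5 : ℝ) / 4 ≤ 1 by norm_num])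
    have h2 : s0 - 8 * c ≤ (1 - c / 4) * ((1 - 3 * c) * s0) := by
      have h3 : (1 - c / 4) * ((1 - 3 * c) * s0) = s0 - 13 / 4 * c * s0 + 3 / 4 * c ^ 2 * s0 := by
        ring
      rw [h3]
      have h4 : c * s0 ≤ c * 2 := mul_le_mul_of_nonneg_left hs2 hc0.le
      have h5 : 0 ≤ c ^ 2 * s0 := by positivity
      linarith
    have h6 : (1 - c / 4) * kk * (1 + s0 * om) = (1 - c / 4) * kk + (1 - c / 4) * (kk * (s0 * om)) := by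
      ring
    linarith
  -- lower bound for sg * kk
  have b1 : c / 8 * (1 + 1249 / 1000 * c) * kk ≤ sg * kk := by
    have h1 : (1 + 2 * c) * kk ≤ K := by
      have : 2 * c * kk ≤ 2 * c * K := mul_le_mul_of_nonneg_left (by linarith) (by positivity)
      linarith
    have h2 : c / 8 * (1 - c) * ((1 + 2 * c) * kk) ≤ c / 8 * (1 - c) * K :=
      mul_le_mul_of_nonneg_left h1 (mul_nonneg (by positivity)
        (by linarith [show (1 / 10 ^ 5 : ℝ) ≤ 1 by norm_num]))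
    rw [← hsg1] at h2
    have h3 : (1 + 1249 / 1000 * c) * (1 - c / 4) ≤ (1 - c) * (1 + 2 * c) := by
      nlinarith
    have h4 : c / 8 * (1 + 1249 / 1000 * c) * kk * (1 - c / 4) ≤ sg * kk * (1 - c / 4) := by
      refine le_trans ?_ h2
      have h5 : c / 8 * (1 + 1249 / 1000 * c) * kk * (1 - c / 4) =
          (c / 8 * kk) * ((1 + 1249 / 1000 * c) * (1 - c / 4)) := by ring
      have h6 : c / 8 * (1 - c) * ((1 + 2 * c) * kk) = (c / 8 * kk) * ((1 - c) * (1 + 2 * c)) := by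
        ring
      rw [h5, h6]
      exact mul_le_mul_of_nonneg_left h3 (by positivity)
    exact le_of_mul_le_mul_right h4 (by linarith [show (1 / 10 ^ 5 : ℝ) / 4 < 1 by norm_num])
  -- upper bound for jL * sg
  have d1 : jL ≤ 11292 / 10000 * c * kk := by
    have h1 : jL * (1 - 3 * c) ≤ 1129 / 1000 * c * kk := by
      have h2 : jL * (1 - 3 * c) ≤ jL * (kk * om) := mul_le_mul_of_nonneg_left hkkom hjL0
      have h3 : jL * om * kk ≤ 1129 / 1000 * c * kk := mul_le_mul_of_nonneg_right hjL hkk.le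
      linarith
    have h4 : 1129 / 1000 * c * kk ≤ 11292 / 10000 * c * kk * (1 - 3 * c) := by
      have h5 : 0 < c * kk := by positivity
      have h6 : c * (c * kk) ≤ 1 / 10 ^ 5 * (c * kk) := mul_le_mul_of_nonneg_right hc1 h5.le
      nlinarith
    exact le_of_mul_le_mul_right (h1.trans h4)
      (by linarith [show 3 * (1 / 10 ^ 5 : ℝ) < 1 by norm_num])
  have d2 : sg ≤ 10001 / 10000 * (c / 8) := by nlinarith
  have d3 : jL * sg ≤ 113 / 100 * (c / 8) * (c * kk) := by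
    have h1 : jL * sg ≤ (11292 / 10000 * c * kk) * (10001 / 10000 * (c / 8)) :=
      mul_le_mul d1 d2 hsg0.le (by positivity)
    have h2 : 0 < c / 8 * (c * kk) := by positivity
    nlinarith
  -- size of kk
  have k1 : 9 / 10 * 10 ^ 8 ≤ c ^ 2 * kk := by
    have h1 : kk * om ≤ kk * (c ^ 2 / 10 ^ 8) := mul_le_mul_of_nonneg_left hom1 hkk.le
    have h2 : 9 / 10 ≤ kk * (c ^ 2 / 10 ^ 8) := by
      linarith [show 3 * (1 / 10 ^ 5 : ℝ) ≤ 1 / 10 by norm_num]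
    have h3 : kk * (c ^ 2 / 10 ^ 8) = c ^ 2 * kk / 10 ^ 8 := by ring
    rw [h3, le_div_iff₀ (by norm_num)] at h2
    exact h2
  have k2 : kk * c ^ 3 ≤ 1 / 10 ^ 5 * (c ^ 2 * kk) := by
    have h1 : c * (c ^ 2 * kk) ≤ 1 / 10 ^ 5 * (c ^ 2 * kk) :=
      mul_le_mul_of_nonneg_right hc1 (by positivity)
    have h2 : kk * c ^ 3 = c * (c ^ 2 * kk) := by ring
    rw [h2]
    exact h1
  have m1 : (kk - 1) * (1 - 2 * sg) = kk - 2 * (sg * kk) - 1 + 2 * sg := by ring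
  have m2 : (1 - c / 4) * kk = kk - 2 * (c / 8 * kk) := by ring
  have m3 : c / 8 * (1 + 1249 / 1000 * c) * kk = c / 8 * kk + 1249 / 8000 * (c ^ 2 * kk) := by ring
  have m4 : 113 / 100 * (c / 8) * (c * kk) = 113 / 800 * (c ^ 2 * kk) := by ring
  have m5 : 2 * jL * sg = 2 * (jL * sg) := by ring
  rw [m3] at b1
  rw [m4] at d3
  rw [m2] at a3
  rw [m1, m5]
  have n1 : sg ≤ 1 := by linarith [show 10001 / 10000 * ((1 / 10 ^ 5 : ℝ) / 8) ≤ 1 by norm_num]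
  have n2 : 8 * c ≤ 1 := by linarith [show 8 * (1 / 10 ^ 5 : ℝ) ≤ 1 by norm_num]
  linarith

/-- the numerical part -/
theorem d1_aux (hq : q.Par) :
    q.Jn * (1 - 2 * q.sg) - q.P * (q.P + 1) / q.kk + 2 * q.jL * q.sg +
      2 * q.P * (q.dl ^ 2 + 4 * q.sg * q.dl) + q.S / q.W - 2 * ((q.P + 1) * (1 - 2 * q.sg)) +
      4 * q.P * ((q.P + 1) * q.dl) / q.kk + q.K * (q.P + 1) ^ 2 / q.kk ^ 2 ≤ q.Db / q.om := by
  obtain ⟨hc0, hc1, hom0, hom1⟩ := f_c hq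
  obtain ⟨hn, hp, hW, hK0, hR, hP, hjL0, hjLP, hPK, hlen0, hlen⟩ := f_nat hq
  obtain ⟨hkk0, hkk1, hdl1, hdl0, hkkK⟩ := f_kk hq
  obtain ⟨hKS, hK3, hcK, hJn⟩ := f_K hq
  obtain ⟨hS1, hS2, -, -, -, -⟩ := f_S hq
  obtain ⟨-, hjL⟩ := f_jL hq
  obtain ⟨hDb1, hDb2, hDbK⟩ := f_Db hq
  obtain ⟨hsg1, hsg2, hsg3, hsg0⟩ := f_sg hq
  have hn' : (0 : ℝ) < q.n := by exact_mod_cast hn
  have hW' : (0 : ℝ) < q.W := by exact_mod_cast hW
  have hP' : (10 : ℝ) ^ 6 ≤ q.P := by exact_mod_cast hP.le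
  have hJ : (q.Jn : ℝ) = (q.K : ℝ) + q.P := by
    unfold Jn
    push_cast
    ring
  have hKeq : (q.K : ℝ) = q.kk + q.P + 1 := by
    unfold kk
    ring
  have hPeq : (q.P : ℝ) = q.dl * q.kk := by
    unfold dl
    field_simp
  have hh : q.h = q.c / 8 := rfl
  have hth : q.th = 1 - q.c := rfl
  have h2h : 1 - 2 * q.h = 1 - q.c / 4 := by
    rw [hh]
    ring
  rw [hJ, OM1_id q.K q.P q.kk q.jL (q.S / q.W) q.sg q.dl hkk0.ne' hKeq hPeq]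
  rw [hh] at hsg3
  have e1 := OM1_err q.c q.P q.kk q.sg q.dl hc0 hc1 hkk0 hPeq hP' hdl0 hdl1 hsg0 hsg3
  have hSn : (q.S : ℝ) / q.W * q.om = q.S / q.n := by
    unfold om
    field_simp
  have hc4 : 0 < 1 - q.c / 4 := by linarith [show (1 / 10 ^ 5 : ℝ) / 4 < 1 by norm_num]
  have e2 := OM1_fin q.c q.om q.K q.P q.kk q.jL (q.S / q.W) q.Db q.sg hc0 hc1 hom0 hom1 hkk0 hKeq
    (by rw [div_le_iff₀ hom0] at hkk1; exact hkk1) hS1 hS2 (by rw [hSn]; exact hKS) hcK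
    (by linarith [show (0 : ℝ) < 10 ^ 6 by norm_num]) (Nat.cast_nonneg _) hjL
    (by rw [hDbK, h2h]) (by linarith [show 3 * (1 / 10 ^ 5 : ℝ) < 1 by norm_num])
    (by rw [hsg1, h2h, hh, hth]; exact div_mul_cancel₀ _ hc4.ne') hsg0 hsg3
  linarith

theorem d1 (hq : q.Par) (Q : Finset ℕ) (hQ : Q ⊆ range q.K) (hk : q.kk ≤ Q.card) :
    ∑ i ∈ Q, ∑ i' ∈ Q, q.Om i i' ≤ (Q.card : ℝ) ^ 2 := by
  obtain ⟨hc0, hc1, hom0, hom1⟩ := f_c hq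
  obtain ⟨hkk0, hkk1, hdl1, hdl0, hkkK⟩ := f_kk hq
  obtain ⟨hDb1, hDb2, hDbK⟩ := f_Db hq
  have hDb0 : 0 < q.Db := by linarith [show 3 * (1 / 10 ^ 5 : ℝ) < 1 by norm_num]
  obtain ⟨x, hx⟩ : ∃ x : ℝ, x = Q.card := ⟨_, rfl⟩
  obtain ⟨Sw, hSw⟩ : ∃ Sw : ℝ, Sw = ∑ j ∈ range q.Jn, q.wj j := ⟨_, rfl⟩
  obtain ⟨Zt, hZt⟩ : ∃ Zt : ℝ, Zt = ∑ i ∈ Q, q.Zs i := ⟨_, rfl⟩
  obtain ⟨Ot, hOt⟩ : ∃ Ot : ℝ, Ot = ∑ i ∈ Q, ∑ i' ∈ Q, q.Os i i' := ⟨_, rfl⟩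
  rw [← hx] at hk ⊢
  have hx0 : 0 < x := lt_of_lt_of_le hkk0 hk
  have h1 : ∑ i ∈ Q, ∑ i' ∈ Q, q.Om i i' = q.om * (x ^ 2 * (Sw + q.ws) - 2 * x * Zt + Ot) := by
    have h2 : ∀ i ∈ Q, ∑ i' ∈ Q, q.Om i i' =
        q.om * (x * (Sw + q.ws) - x * q.Zs i - Zt + ∑ i' ∈ Q, q.Os i i') := by
      intro i _
      unfold Om
      rw [← Finset.mul_sum, Finset.sum_add_distrib, Finset.sum_sub_distrib, Finset.sum_const,
        nsmul_eq_mul, ← hSw, ← hZt, ← hx]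
      ring
    have h3 : ∑ i ∈ Q, x * q.Zs i = x * Zt := by rw [hZt, Finset.mul_sum]
    rw [Finset.sum_congr rfl h2, ← Finset.mul_sum, Finset.sum_add_distrib, Finset.sum_sub_distrib,
      Finset.sum_sub_distrib, h3, Finset.sum_const, Finset.sum_const, nsmul_eq_mul,
      nsmul_eq_mul, ← hOt, ← hx]
    ring
  have a1 := sw_up hq
  rw [← hSw] at a1
  have a2 := (ws_bounds hq).2.1
  have a3 := Zs_Q hq Q hQ
  rw [← Finset.sum_mul, ← hZt, ← hx] at a3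
  have a4 := Os_all hq Q hQ
  have a5 : ∑ i ∈ Q, ∑ i' ∈ Q, q.Os i i' * q.Db = Ot * q.Db := by
    rw [hOt, Finset.sum_mul]
    exact Finset.sum_congr rfl fun i _ => by rw [Finset.sum_mul]
  rw [a5] at a4
  have a6 := d1_aux hq
  obtain ⟨A1, hA1⟩ : ∃ A1 : ℝ, A1 = q.Jn * (1 - 2 * q.sg) - q.P * (q.P + 1) / q.kk +
    2 * q.jL * q.sg + 2 * q.P * (q.dl ^ 2 + 4 * q.sg * q.dl) := ⟨_, rfl⟩
  rw [← hA1] at a1 a6
  -- the two error terms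
  have b1 : x * (4 * q.P * ((q.P + 1) * q.dl)) ≤ x ^ 2 * (4 * q.P * ((q.P + 1) * q.dl) / q.kk) := by
    have h2 : x ^ 2 * (4 * q.P * ((q.P + 1) * q.dl) / q.kk) =
        x * (4 * q.P * ((q.P + 1) * q.dl)) * (x / q.kk) := by ring
    rw [h2]
    exact le_mul_of_one_le_right (by positivity) ((one_le_div hkk0).2 hk)
  have b2 : (q.K : ℝ) * (q.P + 1) ^ 2 ≤ x ^ 2 * (q.K * (q.P + 1) ^ 2 / q.kk ^ 2) := by
    have h2 : x ^ 2 * (q.K * (q.P + 1) ^ 2 / q.kk ^ 2) =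
        (q.K : ℝ) * (q.P + 1) ^ 2 * (x / q.kk) ^ 2 := by
      rw [div_pow]
      ring
    rw [h2]
    exact le_mul_of_one_le_right (by positivity) (one_le_pow₀ ((one_le_div hkk0).2 hk))
  have c1 : (x ^ 2 * (Sw + q.ws) - 2 * x * Zt + Ot) * q.Db ≤ x ^ 2 * (q.Db / q.om) := by
    have h2 : (x ^ 2 * (Sw + q.ws) - 2 * x * Zt + Ot) * q.Db =
        x ^ 2 * (Sw * q.Db + q.ws * q.Db) - 2 * x * (Zt * q.Db) + Ot * q.Db := by ring
    rw [h2]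
    have h3 : x ^ 2 * (Sw * q.Db + q.ws * q.Db) ≤ x ^ 2 * (A1 + q.S / q.W) :=
      mul_le_mul_of_nonneg_left (by linarith) (by positivity)
    have h4 : 2 * x * (x * ((q.P + 1) * (1 - 2 * q.sg)) - 2 * q.P * ((q.P + 1) * q.dl)) ≤
        2 * x * (Zt * q.Db) := mul_le_mul_of_nonneg_left a3 (by positivity)
    have h5 := mul_le_mul_of_nonneg_left a6 (by positivity : (0 : ℝ) ≤ x ^ 2)
    have h6 : x ^ 2 * (A1 + q.S / q.W - 2 * ((q.P + 1) * (1 - 2 * q.sg)) +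
      4 * q.P * ((q.P + 1) * q.dl) / q.kk + q.K * (q.P + 1) ^ 2 / q.kk ^ 2) =
      x ^ 2 * (A1 + q.S / q.W) - x ^ 2 * (2 * ((q.P + 1) * (1 - 2 * q.sg))) +
      x ^ 2 * (4 * q.P * ((q.P + 1) * q.dl) / q.kk) +
      x ^ 2 * (q.K * (q.P + 1) ^ 2 / q.kk ^ 2) := by ring
    have h7 : 2 * x * (x * ((q.P + 1) * (1 - 2 * q.sg)) - 2 * q.P * ((q.P + 1) * q.dl)) =
      x ^ 2 * (2 * ((q.P + 1) * (1 - 2 * q.sg))) - x * (4 * q.P * ((q.P + 1) * q.dl)) := by ring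
    linarith
  rw [h1]
  have c2 : q.om * (x ^ 2 * (Sw + q.ws) - 2 * x * Zt + Ot) * q.Db ≤ x ^ 2 * q.Db := by
    have h2 := mul_le_mul_of_nonneg_left c1 hom0.le
    have h3 : q.om * (x ^ 2 * (q.Db / q.om)) = x ^ 2 * q.Db := by
      field_simp
    rw [h3] at h2
    linarith
  exact le_of_mul_le_mul_right c2 hDb0

end PQ

end Pool.Agent.H2.HV
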