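import Mathlib
import Pool.Agent.H2.HV.SWS
import Pool.Agent.H2.HV.ZNS
import Pool.Agent.H2.HV.OM1

/-!
OM2 (about 200 lines). (D2) and (D3).

d2: x = |Q| ≥ kk. Σ_{i'∈Q} Om i i' · Db/om = x (Db Σw + Db ws - Zs i Db) - Σ_Q Zs i' Db + Σ_Q Os i i' Db ≤ x [ sw_up bound + S/W - (P+1)(1-2sg) + (P+1) dl ]
 - x (P+1)(1-2sg) + 2P(P+1) dl + (P+1)²; divide by x ≥ kk: ≤ (left side of d1_aux) + (P+1) dl  (because (P+1)²/kk ≤ K (P+1)²/kk² and 2P(P+1)dl/kk ≤ 4P(P+1)dl/kk)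
 ≤ Db/om + (P+1) dl, so the average of Om is ≤ 1 + om (P+1) dl/Db ≤ 1 + (2c+2om)(2.001c)/(1-3c) ≤ 1 + 5c².
d3: Om i i' Db/om ≥ Db Σw - 2(P+1) (Zs_up; ws, Os ≥ 0) ≥ Jn(1-2sg) - P(P+1)/kk - 2(P+1) = kk - 1 - 2 sg Jn - P(P+1)/kk, and Db/om = (1-2h) kk/(K om) ≤ (1-2h) kk/(1-3om).
 Dividing by kk: 1 - 1/kk - 2 sg (1 + 3 dl) - 1.01 dl² ≥ 1 - 2h - 7c² (sg ≤ h(1+2c), dl ≤ 2.001c, h = c/8, Jn = kk+2P+1 ≤ kk(1+3dl)); and (1-2h-7c²)(1-3om) ≥ (1-2h)(1-10c²).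
-/

set_option autoImplicit false
set_option linter.unusedVariables false

namespace Pool.Agent.H2.HV

open Finset

namespace PQ

variable {q : PQ}

theorem d2 (hq : q.Par) (Q : Finset ℕ) (hQ : Q ⊆ range q.K) (hk : q.kk ≤ Q.card) (i : ℕ)
    (hi : i < q.K) : ∑ i' ∈ Q, q.Om i i' ≤ (Q.card : ℝ) * (1 + 5 * q.c ^ 2) := by
  obtain ⟨hc0, hc1, hom0, hom1⟩ := f_c hq
  obtain ⟨-, hP2⟩ := f_P hq
  obtain ⟨hkk0, -, hdl1, hdl0, hkkK⟩ := f_kk hq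
  obtain ⟨hDb1, -, -⟩ := f_Db hq
  have hDb0 : 0 < q.Db := by linarith
  have hP0 : (0 : ℝ) ≤ q.P := Nat.cast_nonneg _
  have hU := sw_up hq
  have hA := d1_aux hq
  obtain ⟨-, hws, -⟩ := ws_bounds hq
  have hZi := Zs_lo hq i hi
  have hZQ := Zs_Q hq Q hQ
  have hOs := Os_one hq Q hQ i hi
  rw [← Finset.sum_mul] at hZQ hOs
  have e1 : ∑ i' ∈ Q, q.Om i i' = q.om * ((Q.card : ℝ) *
      ((∑ j ∈ range q.Jn, q.wj j) + q.ws - q.Zs i) - (∑ i' ∈ Q, q.Zs i') + ∑ i' ∈ Q, q.Os i i') := by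
    unfold Om
    rw [← Finset.mul_sum, Finset.sum_add_distrib, Finset.sum_sub_distrib, Finset.sum_const,
      nsmul_eq_mul]
  rw [e1]
  generalize (∑ j ∈ range q.Jn, q.wj j) = A at hU ⊢
  generalize (∑ i' ∈ Q, q.Zs i') = Z at hZQ ⊢
  generalize (∑ i' ∈ Q, q.Os i i') = O at hOs ⊢
  generalize hx : (Q.card : ℝ) = x at hk hZQ ⊢
  have hx0 : 0 < x := lt_of_lt_of_le hkk0 hk
  obtain ⟨U, hUd⟩ : ∃ U, U = q.Jn * (1 - 2 * q.sg) - q.P * (q.P + 1) / q.kk + 2 * q.jL * q.sg +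
      2 * q.P * (q.dl ^ 2 + 4 * q.sg * q.dl) := ⟨_, rfl⟩
  rw [← hUd] at hU hA
  have g1 : 2 * q.P * ((q.P + 1) * q.dl) ≤ x * (4 * q.P * ((q.P + 1) * q.dl) / q.kk) := by
    rw [← mul_div_assoc, le_div_iff₀ hkk0]
    have h1 : 0 ≤ q.P * ((q.P + 1) * q.dl) := by positivity
    have h2 := mul_le_mul_of_nonneg_right hk h1
    have h3 : 0 ≤ x * (q.P * ((q.P + 1) * q.dl)) := mul_nonneg hx0.le h1
    calc 2 * q.P * ((q.P + 1) * q.dl) * q.kk = 2 * (q.kk * (q.P * ((q.P + 1) * q.dl))) := by ring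
      _ ≤ 2 * (x * (q.P * ((q.P + 1) * q.dl))) := by linarith
      _ ≤ 4 * (x * (q.P * ((q.P + 1) * q.dl))) := by linarith
      _ = x * (4 * q.P * ((q.P + 1) * q.dl)) := by ring
  have g2 : ((q.P : ℝ) + 1) ^ 2 ≤ x * (q.K * (q.P + 1) ^ 2 / q.kk ^ 2) := by
    rw [← mul_div_assoc, le_div_iff₀ (by positivity)]
    have h1 : q.kk * q.kk ≤ x * q.K := mul_le_mul hk hkkK hkk0.le hx0.le
    have h2 := mul_le_mul_of_nonneg_right h1 (by positivity : (0 : ℝ) ≤ ((q.P : ℝ) + 1) ^ 2)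
    calc ((q.P : ℝ) + 1) ^ 2 * q.kk ^ 2 = q.kk * q.kk * ((q.P : ℝ) + 1) ^ 2 := by ring
      _ ≤ x * q.K * ((q.P : ℝ) + 1) ^ 2 := h2
      _ = _ := by ring
  have hT : x * (A * q.Db + q.ws * q.Db - q.Zs i * q.Db) - Z * q.Db + O * q.Db ≤
      x * (q.Db / q.om + (q.P + 1) * q.dl) := by
    have h1 : x * (A * q.Db + q.ws * q.Db - q.Zs i * q.Db) ≤
        x * (U + q.S / q.W - (q.P + 1) * (1 - 2 * q.sg - q.dl)) :=
      mul_le_mul_of_nonneg_left (by linarith) hx0.le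
    have h2 := mul_le_mul_of_nonneg_left hA hx0.le
    have h3 : x * (U + q.S / q.W - 2 * ((q.P + 1) * (1 - 2 * q.sg)) +
        4 * q.P * ((q.P + 1) * q.dl) / q.kk + q.K * (q.P + 1) ^ 2 / q.kk ^ 2) =
        x * (U + q.S / q.W) - x * (2 * ((q.P + 1) * (1 - 2 * q.sg))) +
        x * (4 * q.P * ((q.P + 1) * q.dl) / q.kk) + x * (q.K * (q.P + 1) ^ 2 / q.kk ^ 2) := by ring
    rw [h3] at h2
    have h4 : x * (U + q.S / q.W - (q.P + 1) * (1 - 2 * q.sg - q.dl)) =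
        x * (U + q.S / q.W) - x * ((q.P + 1) * (1 - 2 * q.sg)) + x * ((q.P + 1) * q.dl) := by ring
    rw [h4] at h1
    have h5 : x * (2 * ((q.P + 1) * (1 - 2 * q.sg))) =
        x * ((q.P + 1) * (1 - 2 * q.sg)) + x * ((q.P + 1) * (1 - 2 * q.sg)) := by ring
    rw [h5] at h2
    have h6 : x * (q.Db / q.om + (q.P + 1) * q.dl) = x * (q.Db / q.om) + x * ((q.P + 1) * q.dl) := by
      ring
    rw [h6]
    linarith
  have hfin : q.om * ((q.P + 1) * q.dl) ≤ 5 * q.c ^ 2 * q.Db := by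
    have h1 : q.om * (q.P + 1) ≤ 2 * q.c + 2 * q.om := by linarith
    have h2 : 2 * q.c + 2 * q.om ≤ 2001 / 1000 * q.c := by nlinarith
    have h3 : q.om * (q.P + 1) * q.dl ≤ (2001 / 1000 * q.c) * (2001 / 1000 * q.c) :=
      mul_le_mul (h1.trans h2) hdl1 hdl0.le (by positivity)
    have h4 : 5 * q.c ^ 2 * (9 / 10) ≤ 5 * q.c ^ 2 * q.Db :=
      mul_le_mul_of_nonneg_left (by linarith) (by positivity)
    calc q.om * ((q.P + 1) * q.dl) = q.om * (q.P + 1) * q.dl := by ring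
      _ ≤ (2001 / 1000 * q.c) * (2001 / 1000 * q.c) := h3
      _ ≤ 5 * q.c ^ 2 * (9 / 10) := by
        have := sq_nonneg q.c
        linarith
      _ ≤ _ := h4
  have hT2 := mul_le_mul_of_nonneg_left hT hom0.le
  have h7 : q.om * (x * (q.Db / q.om + (q.P + 1) * q.dl)) =
      x * q.Db + x * (q.om * ((q.P + 1) * q.dl)) := by
    field_simp
  rw [h7] at hT2
  have h8 := mul_le_mul_of_nonneg_left hfin hx0.le
  refine le_of_mul_le_mul_right ?_ hDb0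
  calc q.om * (x * (A + q.ws - q.Zs i) - Z + O) * q.Db =
      q.om * (x * (A * q.Db + q.ws * q.Db - q.Zs i * q.Db) - Z * q.Db + O * q.Db) := by ring
    _ ≤ x * q.Db + x * (q.om * ((q.P + 1) * q.dl)) := hT2
    _ ≤ x * q.Db + x * (5 * q.c ^ 2 * q.Db) := by linarith
    _ = x * (1 + 5 * q.c ^ 2) * q.Db := by ring

theorem d3 (hq : q.Par) (i i' : ℕ) (hi : i < q.K) (hi' : i' < q.K) :
    1 - 10 * q.c ^ 2 ≤ q.Om i i' := by
  obtain ⟨hc0, hc1, hom0, hom1⟩ := f_c hq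
  obtain ⟨-, hK2, -, -⟩ := f_K hq
  obtain ⟨hkk0, hkk1, hdl1, hdl0, hkkK⟩ := f_kk hq
  obtain ⟨hDb1, -, hDbK⟩ := f_Db hq
  obtain ⟨-, -, hsg1, hsg0⟩ := f_sg hq
  have hDb0 : 0 < q.Db := by linarith
  have hP0 : (0 : ℝ) ≤ q.P := Nat.cast_nonneg _
  have hK0 : (0 : ℝ) < q.K := lt_of_lt_of_le hkk0 hkkK
  have hA := sw_lo hq
  obtain ⟨hws0, -, -⟩ := ws_bounds hq
  have hZi := Zs_up hq i hi
  have hZi' := Zs_up hq i' hi'
  have hO := Os_nonneg hq i i'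
  have hh : q.h = q.c / 8 := rfl
  have hdlk : q.dl * q.kk = q.P := by
    unfold dl
    exact div_mul_cancel₀ _ hkk0.ne'
  have hJn : (q.Jn : ℝ) = q.kk + 2 * q.P + 1 := by
    unfold Jn kk
    push_cast
    ring
  have hPP : q.P * (q.P + 1) / q.kk = q.dl ^ 2 * q.kk + q.dl := by
    rw [div_eq_iff hkk0.ne']
    have h1 : (q.dl ^ 2 * q.kk + q.dl) * q.kk = (q.dl * q.kk) * (q.dl * q.kk + 1) := by ring
    rw [h1, hdlk]
  have hkc : 2 ≤ q.kk * q.c ^ 2 := by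
    rw [div_le_iff₀ hom0] at hkk1
    have h1 : q.kk * q.om ≤ q.kk * (q.c ^ 2 / 10 ^ 8) := mul_le_mul_of_nonneg_left hom1 hkk0.le
    have h2 : q.kk * (q.c ^ 2 / 10 ^ 8) = q.kk * q.c ^ 2 / 10 ^ 8 := by ring
    rw [h2] at h1
    have h3 : 1 - 3 * q.c ≤ q.kk * q.c ^ 2 / 10 ^ 8 := hkk1.trans h1
    rw [le_div_iff₀ (by positivity)] at h3
    norm_num at h3 hc1 ⊢
    linarith
  have hc2 : q.c ^ 2 ≤ 1 / 10 ^ 5 * q.c := by
    rw [sq]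
    exact mul_le_mul_of_nonneg_right hc1 hc0.le
  have hc2' : 0 < q.c ^ 2 := by positivity
  have hsg2 : 2 * q.sg * (1 + 2 * q.dl) + q.dl ^ 2 ≤ 2 * q.h + 6 * q.c ^ 2 := by
    have h1 : 2 * q.sg * (1 + 2 * q.dl) ≤
        2 * (q.c / 8 * (1 + 2 * q.c)) * (1 + 2 * (2001 / 1000 * q.c)) := by
      rw [hh] at hsg1
      refine mul_le_mul (by linarith) (by linarith) (by positivity) (by positivity)
    have h2 : q.dl ^ 2 ≤ (2001 / 1000 * q.c) ^ 2 := pow_le_pow_left₀ hdl0.le hdl1 2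
    have h3 : 2 * (q.c / 8 * (1 + 2 * q.c)) * (1 + 2 * (2001 / 1000 * q.c)) =
        q.c / 4 + (1501 / 1000 + 1 / 2000) * q.c ^ 2 - 1 / 1000 * q.c ^ 2 +
          2001 / 1000 * q.c * q.c ^ 2 := by ring
    have h4 : q.c * q.c ^ 2 ≤ 1 / 10 ^ 5 * q.c ^ 2 := mul_le_mul_of_nonneg_right hc1 hc2'.le
    rw [hh]
    norm_num at h4
    nlinarith
  have hR : q.kk * (1 - 2 * q.h - 7 * q.c ^ 2) ≤
      q.Jn * (1 - 2 * q.sg) - q.P * (q.P + 1) / q.kk - 2 * (q.P + 1) := by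
    rw [hPP, hJn]
    have h1 := mul_le_mul_of_nonneg_left hsg2 hkk0.le
    have h2 : q.kk * (2 * q.sg * (1 + 2 * q.dl) + q.dl ^ 2) =
        2 * q.sg * q.kk + 4 * q.sg * (q.dl * q.kk) + q.dl ^ 2 * q.kk := by ring
    rw [h2, hdlk] at h1
    have h3 : 2 * q.sg + q.dl ≤ 1 := by
      rw [hh] at hsg1
      have h4 : q.c / 8 * (1 + 2 * q.c) ≤ q.c / 8 * 2 :=
        mul_le_mul_of_nonneg_left (by linarith) (by linarith)
      linarith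
    have h5 : q.kk * (1 - 2 * q.h - 7 * q.c ^ 2) =
        q.kk - q.kk * (2 * q.h + 6 * q.c ^ 2) - q.kk * q.c ^ 2 := by ring
    rw [h5]
    have h6 : (q.kk + 2 * q.P + 1) * (1 - 2 * q.sg) - (q.dl ^ 2 * q.kk + q.dl) - 2 * (q.P + 1) =
        q.kk - 1 - (2 * q.sg * q.kk + 4 * q.sg * q.P + q.dl ^ 2 * q.kk) - 2 * q.sg - q.dl := by ring
    rw [h6]
    linarith
  have hOm : q.Om i i' * q.Db = q.om * ((∑ j ∈ range q.Jn, q.wj j) * q.Db + q.ws * q.Db -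
      q.Zs i * q.Db - q.Zs i' * q.Db + q.Os i i' * q.Db) := by
    unfold Om
    ring
  have h1 : q.kk * (1 - 2 * q.h - 7 * q.c ^ 2) ≤ (∑ j ∈ range q.Jn, q.wj j) * q.Db + q.ws * q.Db -
      q.Zs i * q.Db - q.Zs i' * q.Db + q.Os i i' * q.Db := by
    have h2 : 0 ≤ q.ws * q.Db := (mul_pos hws0 hDb0).le
    have h3 : 0 ≤ q.Os i i' * q.Db := mul_nonneg hO hDb0.le
    linarith
  have h2 := mul_le_mul_of_nonneg_left h1 hom0.le
  rw [← hOm] at h2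
  have hpos : 0 ≤ q.kk * (1 - 2 * q.h - 7 * q.c ^ 2) := by
    refine mul_nonneg hkk0.le ?_
    rw [hh]
    norm_num at hc2
    nlinarith
  have hKD : 0 < q.Db * q.K := mul_pos hDb0 hK0
  refine le_of_mul_le_mul_right ?_ hKD
  have h3 : (1 - 3 * q.om) * (q.kk * (1 - 2 * q.h - 7 * q.c ^ 2)) ≤
      q.K * q.om * (q.kk * (1 - 2 * q.h - 7 * q.c ^ 2)) := mul_le_mul_of_nonneg_right hK2 hpos
  have h4 : (1 - 10 * q.c ^ 2) * (1 - 2 * q.h) ≤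
      (1 - 3 * q.om) * (1 - 2 * q.h - 7 * q.c ^ 2) := by
    have h5 : 3 * q.om * (1 - 2 * q.h - 7 * q.c ^ 2) ≤ 3 * (q.c ^ 2 / 10 ^ 8) * 1 := by
      refine mul_le_mul (by linarith) ?_ ?_ (by positivity)
      · rw [hh]
        nlinarith
      · rw [hh]
        norm_num at hc2
        nlinarith
    have h6 : q.c ^ 2 * (2 * q.h) ≤ q.c ^ 2 * (1 / 10) :=
      mul_le_mul_of_nonneg_left (by rw [hh]; norm_num at hc1; linarith) hc2'.le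
    norm_num at h5
    nlinarith
  calc (1 - 10 * q.c ^ 2) * (q.Db * q.K) = (1 - 10 * q.c ^ 2) * (1 - 2 * q.h) * q.kk := by
        rw [hDbK]; ring
    _ ≤ (1 - 3 * q.om) * (1 - 2 * q.h - 7 * q.c ^ 2) * q.kk :=
        mul_le_mul_of_nonneg_right h4 hkk0.le
    _ = (1 - 3 * q.om) * (q.kk * (1 - 2 * q.h - 7 * q.c ^ 2)) := by ring
    _ ≤ q.K * q.om * (q.kk * (1 - 2 * q.h - 7 * q.c ^ 2)) := h3
    _ = q.om * (q.kk * (1 - 2 * q.h - 7 * q.c ^ 2)) * q.K := by ring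
    _ ≤ q.Om i i' * q.Db * q.K := mul_le_mul_of_nonneg_right h2 hK0.le
    _ = q.Om i i' * (q.Db * q.K) := by ring

end PQ

end Pool.Agent.H2.HV
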