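import Mathlib
import Pool.Agent.H2.HV.OM2

/-!
NED (about 250 lines). The needs. For j < Jn let Act j = {i ∈ range K | ¬ zn i j} (as a Finset filter, classical), x = |Act j| = K - cnt j ≥ kk (act_card, cnt_le), Dj j = mu x.
S1 i j := Σ_{i'<K} ind (¬ zn i' j)/Om i i' = Σ_{Act j} 1/Om. All Om ≥ 1 - 10c² > 0 (d3).
need_up: Σ 1/Om ≥ x²/Σ Om (Cauchy / inner_mul_le_norm_mul_norm or Finset.sum_div_... : div_add_div_same; `Finset.sum_sq_le_sum_mul_sum_of_sq_eq_mul`) ≥ x/(1+5c²) (d2), so need/W = 1 - wj mu S1 ≤ 1 - wj Dj/(1+5c²) = 1 - (1-Nj)/(1+5c²) ≤ Nj + 5c².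
need_lo: S1 ≤ x/(1-10c²), need/W ≥ 1 - (1-Nj)/(1-10c²) ≥ Nj - 11 c².
need_avg: mu Σ_{i∈Act} need = W (mu x - wj mu² Σ Σ 1/Om) and ΣΣ 1/Om ≥ x⁴/ΣΣ Om ≥ x² (d1), so ≤ W (Dj - wj Dj²) = W Dj Nj = W sj h th (wj_Dj, definition of Nj).
needs_*: the same with all classes (x = K), D* = mu K = 1 - 2h, ws = ((S-1)/W)(1-N*)/(1-2h), N* = h th/(1-2h).
need_sum: Σ_j ind(¬zn i j) need + needs = (Jn - P - 1) W + (S-1) - Σ_{i'} (W mu/Om i i') [Σ_j ind(¬zn i j) ind(¬ zn i' j) wj + ws] and the bracket is Om i i'/om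
 (ind(¬a)ind(¬b) = 1 - ind a - ind b + ind (a ∧ b)), so the last sum is K W mu/om = K mu n = n - 2ht. zone_card, hJ, hz: (Jn-P-1)W + S - 1 = n - (z+1).
-/

set_option autoImplicit false
set_option linter.unusedVariables false

namespace Pool.Agent.H2.HV

open Finset

namespace PQ

variable {q : PQ}

/-- Cauchy-Schwarz -/
theorem NED_cs {X : Type} (Q : Finset X) (a : X → ℝ) (ha : ∀ i ∈ Q, 0 < a i) :
    (Q.card : ℝ) ^ 2 ≤ (∑ i ∈ Q, a i) * ∑ i ∈ Q, 1 / a i := by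
  have h := Finset.sum_sq_le_sum_mul_sum_of_sq_le_mul Q (r := fun _ => (1 : ℝ)) (f := a)
    (g := fun i => 1 / a i) (fun i hi => (ha i hi).le) (fun i hi => (one_div_pos.2 (ha i hi)).le)
    (fun i hi => by rw [one_pow, mul_one_div, div_self (ha i hi).ne'])
  rw [Finset.sum_const, nsmul_eq_mul, mul_one] at h
  exact h

theorem NED_c (hq : q.Par) : 0 < q.c ^ 2 ∧ q.c ^ 2 ≤ 1 / 10 ^ 10 := by
  obtain ⟨h1, h2, -, -⟩ := f_c hq
  refine ⟨by positivity, ?_⟩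
  have h3 := pow_le_pow_left₀ h1.le h2 2
  norm_num at h3 ⊢
  linarith

theorem NED_Om (hq : q.Par) (i i' : ℕ) (hi : i < q.K) (hi' : i' < q.K) : 0 < q.Om i i' := by
  have h1 := d3 hq i i' hi hi'
  have h2 := (NED_c hq).2
  norm_num at h2
  linarith

/-- the three estimates for a set of classes -/
theorem NED_lo (hq : q.Par) (Q : Finset ℕ) (hQ : Q ⊆ range q.K) (hk : q.kk ≤ Q.card) (i : ℕ)
    (hi : i < q.K) : (Q.card : ℝ) / (1 + 5 * q.c ^ 2) ≤ ∑ i' ∈ Q, 1 / q.Om i i' := by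
  have hc := NED_c hq
  have hpos : ∀ i' ∈ Q, 0 < q.Om i i' := fun i' h => NED_Om hq i i' hi (Finset.mem_range.1 (hQ h))
  have h1 := NED_cs Q (q.Om i) hpos
  have h2 := d2 hq Q hQ hk i hi
  have hx : 0 < (Q.card : ℝ) := (f_kk hq).1.trans_le hk
  have hS : 0 ≤ ∑ i' ∈ Q, 1 / q.Om i i' :=
    Finset.sum_nonneg fun i' h => (one_div_pos.2 (hpos i' h)).le
  have h3 : (Q.card : ℝ) ^ 2 ≤ ((Q.card : ℝ) * (1 + 5 * q.c ^ 2)) * ∑ i' ∈ Q, 1 / q.Om i i' :=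
    h1.trans (mul_le_mul_of_nonneg_right h2 hS)
  rw [div_le_iff₀ (by positivity)]
  have h4 : (Q.card : ℝ) * Q.card ≤ Q.card * ((∑ i' ∈ Q, 1 / q.Om i i') * (1 + 5 * q.c ^ 2)) := by
    nlinarith
  exact le_of_mul_le_mul_left h4 hx

theorem NED_hi (hq : q.Par) (Q : Finset ℕ) (hQ : Q ⊆ range q.K) (i : ℕ)
    (hi : i < q.K) : ∑ i' ∈ Q, 1 / q.Om i i' ≤ (Q.card : ℝ) / (1 - 10 * q.c ^ 2) := by
  have hc := (NED_c hq).2
  norm_num at hc
  have h0 : 0 < 1 - 10 * q.c ^ 2 := by linarith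
  have h1 : ∀ i' ∈ Q, 1 / q.Om i i' ≤ 1 / (1 - 10 * q.c ^ 2) := fun i' h =>
    one_div_le_one_div_of_le h0 (d3 hq i i' hi (Finset.mem_range.1 (hQ h)))
  refine (Finset.sum_le_card_nsmul _ _ _ h1).trans (le_of_eq ?_)
  rw [nsmul_eq_mul, mul_one_div]

theorem NED_dbl (hq : q.Par) (Q : Finset ℕ) (hQ : Q ⊆ range q.K) (hk : q.kk ≤ Q.card) :
    (Q.card : ℝ) ^ 2 ≤ ∑ i ∈ Q, ∑ i' ∈ Q, 1 / q.Om i i' := by
  have hpos : ∀ p ∈ Q ×ˢ Q, 0 < q.Om p.1 p.2 := fun p h =>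
    NED_Om hq p.1 p.2 (Finset.mem_range.1 (hQ (Finset.mem_product.1 h).1))
      (Finset.mem_range.1 (hQ (Finset.mem_product.1 h).2))
  have h1 := NED_cs (Q ×ˢ Q) (fun p => q.Om p.1 p.2) hpos
  rw [Finset.sum_product, Finset.sum_product, Finset.card_product] at h1
  push_cast at h1
  have h2 := d1 hq Q hQ hk
  have hx : 0 < (Q.card : ℝ) := (f_kk hq).1.trans_le hk
  have hS : 0 ≤ ∑ i ∈ Q, ∑ i' ∈ Q, 1 / q.Om i i' :=
    Finset.sum_nonneg fun i hi => Finset.sum_nonneg fun i' hi' =>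
      (one_div_pos.2 (hpos (i, i') (Finset.mem_product.2 ⟨hi, hi'⟩))).le
  have h3 := mul_le_mul_of_nonneg_right h2 hS
  have h4 : (Q.card : ℝ) ^ 2 * (Q.card : ℝ) ^ 2 ≤
      (Q.card : ℝ) ^ 2 * ∑ i ∈ Q, ∑ i' ∈ Q, 1 / q.Om i i' := by
    calc (Q.card : ℝ) ^ 2 * (Q.card : ℝ) ^ 2 = ((Q.card : ℝ) * Q.card) ^ 2 := by ring
      _ ≤ _ := h1.trans h3
  exact le_of_mul_le_mul_left h4 (by positivity)

open Classical in
/-- the active classes of a block -/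
noncomputable def NED_Act (q : PQ) (j : ℕ) : Finset ℕ := (range q.K).filter fun i => ¬ q.zn i j

theorem NED_sum (j : ℕ) (f : ℕ → ℝ) :
    ∑ i ∈ range q.K, ind (¬ q.zn i j) * f i = ∑ i ∈ NED_Act q j, f i := by
  classical
  unfold NED_Act
  rw [Finset.sum_filter]
  refine Finset.sum_congr rfl fun i _ => ?_
  by_cases h : q.zn i j
  · rw [ind_neg (not_not.2 h), if_neg (not_not.2 h), zero_mul]
  · rw [ind_pos h, if_pos h, one_mul]

theorem NED_sum' (i j : ℕ) :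
    ∑ i' ∈ range q.K, ind (¬ q.zn i' j) / q.Om i i' = ∑ i' ∈ NED_Act q j, 1 / q.Om i i' := by
  rw [← NED_sum]
  exact Finset.sum_congr rfl fun i' _ => by rw [mul_one_div]

theorem NED_sub (j : ℕ) : NED_Act q j ⊆ range q.K := by
  classical
  unfold NED_Act
  exact Finset.filter_subset _ _

theorem NED_card (j : ℕ) : ((NED_Act q j).card : ℝ) = q.K - q.cnt j := by
  have h1 := NED_sum (q := q) j (fun _ => 1)
  rw [Finset.sum_const, nsmul_eq_mul, mul_one] at h1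
  rw [← h1, ← act_card]
  exact Finset.sum_congr rfl fun i _ => mul_one _

theorem NED_kk (j : ℕ) : q.kk ≤ (NED_Act q j).card := by
  rw [NED_card]
  have := cnt_le (q := q) j
  unfold PQ.kk
  linarith

theorem NED_D (j : ℕ) : q.Dj j = q.mu * (NED_Act q j).card := by
  rw [NED_card]
  rfl

theorem NED_N (hq : q.Par) (j : ℕ) (hj : j < q.Jn) : 0 ≤ q.Nj j := by
  obtain ⟨h1, h2, -, -⟩ := f_c hq
  refine le_trans ?_ (Nj_bounds hq j hj).1
  have h3 := (sj_bounds (q := q) j).1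
  have h4 : 0 < q.h := by unfold PQ.h; positivity
  have h5 : 0 < 1 - q.c := by
    norm_num at h2
    linarith
  have h6 : 0 < q.sj j := by linarith
  positivity

theorem NED_need (i j : ℕ) :
    q.need i j = q.W * (1 - q.wj j * (q.mu * ∑ i' ∈ NED_Act q j, 1 / q.Om i i')) := by
  unfold PQ.need
  rw [NED_sum']
  ring

theorem NED_ar1 {N e : ℝ} (hN : 0 ≤ N) (he : 0 ≤ e) : 1 - (1 - N) / (1 + 5 * e) ≤ N + 5 * e := by
  have h1 : (1 - N) - 5 * e ≤ (1 - N) / (1 + 5 * e) := by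
    rw [le_div_iff₀ (by positivity)]
    nlinarith [mul_nonneg hN he]
  linarith

theorem NED_ar2 {N e : ℝ} (hN : 0 ≤ N) (he : 0 ≤ e) (he1 : e ≤ 1 / 10 ^ 10) :
    N - 11 * e ≤ 1 - (1 - N) / (1 - 10 * e) := by
  norm_num at he1
  have h0 : 0 < 1 - 10 * e := by linarith
  have h1 : (1 - N) / (1 - 10 * e) ≤ (1 - N) + 11 * e := by
    rw [div_le_iff₀ h0]
    nlinarith [mul_nonneg hN he, mul_nonneg he he]
  linarith

theorem NED_ar3 {A H : ℝ} (hH : H ≠ 0) : (1 - A / H) / H * H ^ 2 = H - A := by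
  field_simp

theorem need_up (hq : q.Par) (i j : ℕ) (hi : i < q.K) (hj : j < q.Jn) :
    q.need i j ≤ (q.Nj j + 5 * q.c ^ 2) * q.W := by
  obtain ⟨-, -, hW, -⟩ := f_nat hq
  have hW' : (0 : ℝ) < q.W := by exact_mod_cast hW
  have hc := NED_c hq
  have hmu := (f_m hq).2.2.2.2.2
  have hw := wj_pos hq j hj
  have h1 := NED_lo hq _ (NED_sub (q := q) j) (NED_kk j) i hi
  have h2 := mul_le_mul_of_nonneg_left (mul_le_mul_of_nonneg_left h1 hmu.le) hw.le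
  have h3 : q.wj j * (q.mu * (((NED_Act q j).card : ℝ) / (1 + 5 * q.c ^ 2))) =
      (1 - q.Nj j) / (1 + 5 * q.c ^ 2) := by
    rw [← wj_Dj hq j hj, NED_D]
    ring
  rw [h3] at h2
  have h4 := NED_ar1 (NED_N hq j hj) hc.1.le
  rw [NED_need, mul_comm]
  refine mul_le_mul_of_nonneg_right ?_ hW'.le
  linarith

theorem need_lo (hq : q.Par) (i j : ℕ) (hi : i < q.K) (hj : j < q.Jn) :
    (q.Nj j - 11 * q.c ^ 2) * q.W ≤ q.need i j := by
  obtain ⟨-, -, hW, -⟩ := f_nat hq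
  have hW' : (0 : ℝ) < q.W := by exact_mod_cast hW
  have hc := NED_c hq
  have hmu := (f_m hq).2.2.2.2.2
  have hw := wj_pos hq j hj
  have h1 := NED_hi hq _ (NED_sub (q := q) j) i hi
  have h2 := mul_le_mul_of_nonneg_left (mul_le_mul_of_nonneg_left h1 hmu.le) hw.le
  have h3 : q.wj j * (q.mu * (((NED_Act q j).card : ℝ) / (1 - 10 * q.c ^ 2))) =
      (1 - q.Nj j) / (1 - 10 * q.c ^ 2) := by
    rw [← wj_Dj hq j hj, NED_D]
    ring
  rw [h3] at h2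
  have h4 := NED_ar2 (NED_N hq j hj) hc.1.le hc.2
  rw [NED_need, mul_comm (q.W : ℝ)]
  refine mul_le_mul_of_nonneg_right ?_ hW'.le
  linarith

theorem need_avg (hq : q.Par) (j : ℕ) (hj : j < q.Jn) :
    q.mu * ∑ i ∈ range q.K, ind (¬ q.zn i j) * q.need i j ≤ q.W * (q.sj j * q.h * q.th) := by
  obtain ⟨-, -, hW, -⟩ := f_nat hq
  have hW' : (0 : ℝ) < q.W := by exact_mod_cast hW
  have hmu := (f_m hq).2.2.2.2.2
  have hw := wj_pos hq j hj
  have hD := (Dj_bounds hq j hj).2.2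
  have h1 := NED_dbl hq _ (NED_sub (q := q) j) (NED_kk j)
  have e1 : q.mu * ∑ i ∈ range q.K, ind (¬ q.zn i j) * q.need i j =
      q.W * (q.Dj j - q.wj j * q.mu ^ 2 *
        ∑ i ∈ NED_Act q j, ∑ i' ∈ NED_Act q j, 1 / q.Om i i') := by
    rw [NED_sum]
    simp only [NED_need]
    rw [← Finset.mul_sum, Finset.sum_sub_distrib, Finset.sum_const, nsmul_eq_mul, mul_one,
      ← Finset.mul_sum, ← Finset.mul_sum, NED_D]
    ring
  have e2 : q.W * (q.sj j * q.h * q.th) =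
      q.W * (q.Dj j - q.wj j * q.mu ^ 2 * ((NED_Act q j).card : ℝ) ^ 2) := by
    have h3 : q.Nj j * q.Dj j = q.sj j * q.h * q.th := by
      unfold PQ.Nj
      exact div_mul_cancel₀ _ hD.ne'
    have h4 := wj_Dj hq j hj
    have h5 : q.wj j * q.mu ^ 2 * ((NED_Act q j).card : ℝ) ^ 2 = (q.wj j * q.Dj j) * q.Dj j := by
      rw [NED_D]
      ring
    rw [h5, h4, ← h3]
    ring
  rw [e1, e2]
  refine mul_le_mul_of_nonneg_left ?_ hW'.le
  have h6 := mul_le_mul_of_nonneg_left h1 (mul_pos hw (pow_pos hmu 2)).le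
  linarith

theorem NED_h (hq : q.Par) : 0 < q.h ∧ 0 < 1 - 2 * q.h ∧ 0 < q.th ∧
    0 ≤ q.h * q.th / (1 - 2 * q.h) := by
  obtain ⟨h1, h2, -, -⟩ := f_c hq
  norm_num at h2
  have h4 : 0 < q.h := by unfold PQ.h; positivity
  have h5 : 0 < 1 - 2 * q.h := by
    unfold PQ.h
    linarith
  have h6 : 0 < q.th := by
    unfold PQ.th
    linarith
  exact ⟨h4, h5, h6, by positivity⟩

theorem NED_muK (hq : q.Par) : q.mu * q.K = 1 - 2 * q.h := by
  obtain ⟨-, -, -, hK, -⟩ := f_nat hq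
  have hK' : (0 : ℝ) < q.K := by exact_mod_cast hK
  unfold PQ.mu
  exact div_mul_cancel₀ _ hK'.ne'

theorem NED_needs (hq : q.Par) (i : ℕ) :
    q.needs i = (q.S - 1) * (1 - (1 - q.h * q.th / (1 - 2 * q.h)) / (1 - 2 * q.h) *
      (q.mu * ∑ i' ∈ range q.K, 1 / q.Om i i')) := by
  obtain ⟨-, -, hW, -⟩ := f_nat hq
  have hW' : (0 : ℝ) < q.W := by exact_mod_cast hW
  have h1 : q.W * q.ws = (q.S - 1) *
      ((1 - q.h * q.th / (1 - 2 * q.h)) / (1 - 2 * q.h)) := by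
    rw [(ws_bounds hq).2.2]
    field_simp
  unfold PQ.needs
  rw [h1]
  ring

theorem NED_ws (hq : q.Par) : 0 ≤ (1 - q.h * q.th / (1 - 2 * q.h)) / (1 - 2 * q.h) := by
  obtain ⟨-, -, hW, -⟩ := f_nat hq
  have hW' : (0 : ℝ) < q.W := by exact_mod_cast hW
  have h1 := (ws_bounds hq).1
  rw [(ws_bounds hq).2.2, mul_div_assoc] at h1
  have h2 : 0 < ((q.S : ℝ) - 1) / q.W := div_pos (f_S hq).2.2.1 hW'
  exact ((mul_pos_iff_of_pos_left h2).1 h1).le

theorem needs_up (hq : q.Par) (i : ℕ) (hi : i < q.K) :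
    q.needs i ≤ (q.h * q.th / (1 - 2 * q.h) + 5 * q.c ^ 2) * (q.S - 1) := by
  have hS := (f_S hq).2.2.1
  have hc := NED_c hq
  have hmu := (f_m hq).2.2.2.2.2
  obtain ⟨-, hh, -, hN⟩ := NED_h hq
  have h1 := NED_lo hq _ (Finset.Subset.refl _) (by
    rw [Finset.card_range]; exact (f_kk hq).2.2.2.2) i hi
  rw [Finset.card_range] at h1
  have h2 := mul_le_mul_of_nonneg_left (mul_le_mul_of_nonneg_left h1 hmu.le) (NED_ws hq)
  have h3 : (1 - q.h * q.th / (1 - 2 * q.h)) / (1 - 2 * q.h) *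
      (q.mu * ((q.K : ℝ) / (1 + 5 * q.c ^ 2))) =
      (1 - q.h * q.th / (1 - 2 * q.h)) / (1 + 5 * q.c ^ 2) := by
    rw [← mul_div_assoc, NED_muK hq, div_mul_div_comm, mul_comm (1 - 2 * q.h) (1 + 5 * q.c ^ 2),
      mul_div_mul_right _ _ hh.ne']
  rw [h3] at h2
  have h4 := NED_ar1 hN hc.1.le
  rw [NED_needs hq, mul_comm]
  refine mul_le_mul_of_nonneg_right ?_ hS.le
  linarith

theorem needs_lo (hq : q.Par) (i : ℕ) (hi : i < q.K) :
    (q.h * q.th / (1 - 2 * q.h) - 11 * q.c ^ 2) * (q.S - 1) ≤ q.needs i := by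
  have hS := (f_S hq).2.2.1
  have hc := NED_c hq
  have hmu := (f_m hq).2.2.2.2.2
  obtain ⟨-, hh, -, hN⟩ := NED_h hq
  have h1 := NED_hi hq _ (Finset.Subset.refl _) i hi
  rw [Finset.card_range] at h1
  have h2 := mul_le_mul_of_nonneg_left (mul_le_mul_of_nonneg_left h1 hmu.le) (NED_ws hq)
  have h3 : (1 - q.h * q.th / (1 - 2 * q.h)) / (1 - 2 * q.h) *
      (q.mu * ((q.K : ℝ) / (1 - 10 * q.c ^ 2))) =
      (1 - q.h * q.th / (1 - 2 * q.h)) / (1 - 10 * q.c ^ 2) := by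
    rw [← mul_div_assoc, NED_muK hq, div_mul_div_comm, mul_comm (1 - 2 * q.h) (1 - 10 * q.c ^ 2),
      mul_div_mul_right _ _ hh.ne']
  rw [h3] at h2
  have h4 := NED_ar2 hN hc.1.le hc.2
  rw [NED_needs hq, mul_comm ((q.S : ℝ) - 1)]
  refine mul_le_mul_of_nonneg_right ?_ hS.le
  linarith

theorem needs_avg (hq : q.Par) :
    q.mu * ∑ i ∈ range q.K, q.needs i ≤ (q.S - 1) * (q.h * q.th) := by
  have hS := (f_S hq).2.2.1
  have hmu := (f_m hq).2.2.2.2.2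
  obtain ⟨-, hh, -, hN⟩ := NED_h hq
  have h1 := NED_dbl hq _ (Finset.Subset.refl _) (by
    rw [Finset.card_range]; exact (f_kk hq).2.2.2.2)
  rw [Finset.card_range] at h1
  have e1 : q.mu * ∑ i ∈ range q.K, q.needs i = (q.S - 1) * (q.mu * q.K -
      (1 - q.h * q.th / (1 - 2 * q.h)) / (1 - 2 * q.h) * q.mu ^ 2 *
        ∑ i ∈ range q.K, ∑ i' ∈ range q.K, 1 / q.Om i i') := by
    simp only [NED_needs hq]
    rw [← Finset.mul_sum, Finset.sum_sub_distrib, Finset.sum_const, Finset.card_range,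
      nsmul_eq_mul, mul_one, ← Finset.mul_sum, ← Finset.mul_sum]
    ring
  have e2 : (q.S - 1) * (q.h * q.th) = (q.S - 1) * (q.mu * q.K -
      (1 - q.h * q.th / (1 - 2 * q.h)) / (1 - 2 * q.h) * q.mu ^ 2 * (q.K : ℝ) ^ 2) := by
    have h5 : (1 - q.h * q.th / (1 - 2 * q.h)) / (1 - 2 * q.h) * q.mu ^ 2 * (q.K : ℝ) ^ 2 =
        (1 - q.h * q.th / (1 - 2 * q.h)) / (1 - 2 * q.h) * (q.mu * q.K) ^ 2 := by ring
    rw [h5, NED_muK hq]
    have h6 : (1 - q.h * q.th / (1 - 2 * q.h)) / (1 - 2 * q.h) * (1 - 2 * q.h) ^ 2 =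
        (1 - 2 * q.h) - q.h * q.th := NED_ar3 hh.ne'
    rw [h6]
    ring
  rw [e1, e2]
  refine mul_le_mul_of_nonneg_left ?_ hS.le
  have h6 := mul_le_mul_of_nonneg_left h1 (mul_nonneg (NED_ws hq) (pow_pos hmu 2).le)
  linarith

theorem NED_brk (hq : q.Par) (i i' : ℕ) (hi : i < q.K) (hi' : i' < q.K) :
    (1 / q.Om i i') * ((∑ j ∈ range q.Jn, ind (¬ q.zn i j) * (ind (¬ q.zn i' j) * q.wj j)) +
      q.ws) = 1 / q.om := by
  have hO := NED_Om hq i i' hi hi'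
  have hom := (f_c hq).2.2.1
  have h1 : ∀ p : Prop, ind (¬ p) = 1 - ind p := by
    intro p
    by_cases h : p
    · rw [ind_pos h, ind_neg (not_not.2 h), sub_self]
    · rw [ind_pos h, ind_neg h, sub_zero]
  have h2 : ∑ j ∈ range q.Jn, ind (¬ q.zn i j) * (ind (¬ q.zn i' j) * q.wj j) =
      (∑ j ∈ range q.Jn, q.wj j) - q.Zs i - q.Zs i' + q.Os i i' := by
    unfold PQ.Zs PQ.Os
    rw [← Finset.sum_sub_distrib, ← Finset.sum_sub_distrib, ← Finset.sum_add_distrib]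
    refine Finset.sum_congr rfl fun j _ => ?_
    rw [h1, h1, ind_and]
    ring
  have h3 : q.Om i i' = q.om * ((∑ j ∈ range q.Jn, ind (¬ q.zn i j) *
      (ind (¬ q.zn i' j) * q.wj j)) + q.ws) := by
    rw [h2]
    unfold PQ.Om
    ring
  have h4 : (∑ j ∈ range q.Jn, ind (¬ q.zn i j) * (ind (¬ q.zn i' j) * q.wj j)) + q.ws ≠ 0 := by
    intro h0
    rw [h0, mul_zero] at h3
    exact hO.ne' h3
  rw [h3, one_div, mul_inv, mul_assoc, inv_mul_cancel₀ h4, mul_one, one_div]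

theorem need_sum (hq : q.Par) (i : ℕ) (hi : i < q.K) :
    (∑ j ∈ range q.Jn, ind (¬ q.zn i j) * q.need i j) + q.needs i = 2 * q.ht - (q.z + 1) := by
  obtain ⟨hn, -, hW, -⟩ := f_nat hq
  have hW' : (0 : ℝ) < q.W := by exact_mod_cast hW
  have hn' : (0 : ℝ) < q.n := by exact_mod_cast hn
  have hom := (f_c hq).2.2.1
  have h1 : ∀ p : Prop, ind (¬ p) = 1 - ind p := by
    intro p
    by_cases h : p
    · rw [ind_pos h, ind_neg (not_not.2 h), sub_self]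
    · rw [ind_pos h, ind_neg h, sub_zero]
  have hz : ∑ j ∈ range q.Jn, ind (¬ q.zn i j) = (q.Jn : ℝ) - (q.P + 1) := by
    rw [← zone_card i hi, Finset.sum_congr rfl fun j _ => h1 (q.zn i j), Finset.sum_sub_distrib,
      Finset.sum_const, Finset.card_range, nsmul_eq_mul, mul_one]
  have e1 : ∑ j ∈ range q.Jn, ind (¬ q.zn i j) * q.need i j =
      q.W * (∑ j ∈ range q.Jn, ind (¬ q.zn i j)) - q.W * q.mu * ∑ i' ∈ range q.K,
        (1 / q.Om i i') * ∑ j ∈ range q.Jn, ind (¬ q.zn i j) * (ind (¬ q.zn i' j) * q.wj j) := by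
    have e2 : ∑ i' ∈ range q.K, (1 / q.Om i i') * ∑ j ∈ range q.Jn,
        ind (¬ q.zn i j) * (ind (¬ q.zn i' j) * q.wj j) =
        ∑ j ∈ range q.Jn, ind (¬ q.zn i j) * (q.wj j *
          ∑ i' ∈ range q.K, ind (¬ q.zn i' j) / q.Om i i') := by
      simp only [Finset.mul_sum]
      rw [Finset.sum_comm]
      refine Finset.sum_congr rfl fun j _ => Finset.sum_congr rfl fun i' _ => ?_
      ring
    rw [e2, Finset.mul_sum, Finset.mul_sum, ← Finset.sum_sub_distrib]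
    refine Finset.sum_congr rfl fun j _ => ?_
    unfold PQ.need
    ring
  have e3 : (∑ i' ∈ range q.K, (1 / q.Om i i') * ∑ j ∈ range q.Jn,
      ind (¬ q.zn i j) * (ind (¬ q.zn i' j) * q.wj j)) + q.ws * ∑ i' ∈ range q.K, 1 / q.Om i i' =
      q.K * (1 / q.om) := by
    rw [Finset.mul_sum, ← Finset.sum_add_distrib]
    have e4 : ∀ i' ∈ range q.K, (1 / q.Om i i') * (∑ j ∈ range q.Jn,
        ind (¬ q.zn i j) * (ind (¬ q.zn i' j) * q.wj j)) + q.ws * (1 / q.Om i i') = 1 / q.om := by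
      intro i' hi'
      rw [← NED_brk hq i i' hi (Finset.mem_range.1 hi')]
      ring
    rw [Finset.sum_congr rfl e4, Finset.sum_const, Finset.card_range, nsmul_eq_mul]
  have e5 : q.W * q.mu * (q.K * (1 / q.om)) = q.n - 2 * q.ht := by
    have h6 : (q.W : ℝ) * (1 / q.om) = q.n := by
      unfold PQ.om
      field_simp
    have h7 : q.W * q.mu * (q.K * (1 / q.om)) = (q.mu * q.K) * (q.W * (1 / q.om)) := by ring
    rw [h7, h6, NED_muK hq]
    have h8 := (f_m hq).2.2.2.2.1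
    rw [h8]
    ring
  have hJ : (q.S : ℝ) + (q.K + q.P) * q.W = q.n + 2 * q.p := by exact_mod_cast hq.hJ
  have hzz : (q.z : ℝ) + 2 * q.p = (q.P + 1) * q.W := by exact_mod_cast hq.hz
  have e6 : q.needs i = (q.S - 1) - q.W * q.mu * (q.ws * ∑ i' ∈ range q.K, 1 / q.Om i i') := by
    unfold PQ.needs
    ring
  rw [e1, hz, e6, SWS_Jn]
  have e7 : q.W * q.mu * (∑ i' ∈ range q.K, (1 / q.Om i i') * ∑ j ∈ range q.Jn,
      ind (¬ q.zn i j) * (ind (¬ q.zn i' j) * q.wj j)) +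
      q.W * q.mu * (q.ws * ∑ i' ∈ range q.K, 1 / q.Om i i') = q.n - 2 * q.ht := by
    rw [← mul_add, e3, e5]
  linarith

end PQ

end Pool.Agent.H2.HV
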