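import Mathlib
import Pool.Agent.H2.HV.NED
import Pool.Agent.H2.HV.AVB

/-!
RHO (about 300 lines). The row sums of the equal shares.

Fix i < K. T(j) := ind (¬ zn i j) need i j ≥ 0 (need_lo, Nj_bounds: Nj ≥ h(1-c), 11c² ≤ 88 c h). Bot := Σ_{j<jL} T j + needs i, Top := Σ_{j + jL ≥ Jn} T j, Mid := the rest. Bot+Mid+Top = 2ht-(z+1).
be nB j ∈ [sj ht (1 - 3/R), sj ht] (be R = ht). Ideal row sum: I_true := (Bot + Mid/2)/ht, I_false := (Top + Mid/2)/ht.
rho i s r = I_s + error: (a) replacing be nB by sj ht: relative error ≤ 4/R on a total ≤ 2.1: ≤ 8.4/R ≤ 600 om/c ≤ 6·10^-6 c; (b) the lost blocks (sd s j, ¬ av): ≤ 200/c blocks (lost), each share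
 T j/(be nB j) ≤ (Nj + 5c²) W/(sj ht (1-3/R)) ≤ 1.1 om: ≤ 220 om/c ≤ 3·10^-6 c. So |rho - I_s| ≤ c/4000. For s = false the star has no share: correct, since needs is only in Bot.
rho_same: |rho i s r - rho i s r'| ≤ c/1000.
rho_diff: |I_true - I_false| = |Bot - Top|/ht ≤ max(Bot,Top)/ht; Bot ≤ jL (h(1+2c) + 5c²) W + 2W(...) : T j ≤ (Nj + 5c²)W, Nj ≤ h (1+2c) at the ends (sj = 1), needs ≤ (h(1+2c)+5c²) 2W; h(1+2c)+5c² = h(1+42c);
 divide by ht = h n: ≤ (jL+2) om (1+42c) ≤ (1.129c + 2om)(1+42c) ≤ 1.131 c. Same for Top. So |rho i s r - rho i s' r'| ≤ 1.132 c.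
sum_ee: Σ_{s,r} be rho = Σ_j T j + needs = 2ht - (z+1) (nB j > 0; Σ_r ind(s=true) over s gives R) and Σ be tauB = 2 ht - (z+1) (exactly one (s,r) with r < R is the unit of i).
-/

set_option autoImplicit false
set_option linter.unusedVariables false

namespace Pool.Agent.H2.HV

open Finset

namespace PQ

variable {q : PQ}

theorem RHO_h (q : PQ) : q.h = q.c / 8 := rfl

theorem RHO_need (hq : q.Par) (i j : ℕ) (hi : i < q.K) (hj : j < q.Jn) :
    0 ≤ q.need i j ∧ q.need i j ≤ q.sj j * (q.h * (1 + 42 * q.c) * q.W) := by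
  obtain ⟨c0, c1, om0, om1⟩ := f_c hq
  have hW : (0:ℝ) < q.W := by exact_mod_cast (f_nat hq).2.2.1
  have h1 := need_up hq i j hi hj
  have h2 := need_lo hq i j hi hj
  have h3 := Nj_bounds hq j hj
  have h4 := sj_bounds (q := q) j
  have hh : q.h = q.c / 8 := rfl
  rw [hh] at h3 ⊢
  constructor
  · refine le_trans ?_ h2
    refine mul_nonneg ?_ hW.le
    have h5 : 1 * (q.c / 8) * (1 - q.c) ≤ q.sj j * (q.c / 8) * (1 - q.c) := by
      have : 0 ≤ (q.c / 8) * (1 - q.c) := by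
        refine mul_nonneg (by positivity) (by linarith)
      nlinarith [h4.1]
    have h6 : 11 * q.c ^ 2 ≤ 1 * (q.c / 8) * (1 - q.c) := by
      nlinarith [mul_le_mul_of_nonneg_left c1 c0.le]
    linarith [h3.1]
  · refine le_trans h1 ?_
    have h5 : q.Nj j + 5 * q.c ^ 2 ≤ q.sj j * (q.c / 8 * (1 + 42 * q.c)) := by
      have h6 : 5 * q.c ^ 2 ≤ q.sj j * (5 * q.c ^ 2) := by
        have : 0 ≤ 5 * q.c ^ 2 := by positivity
        nlinarith [h4.1]
      have h7 : q.sj j * (q.c / 8 * (1 + 42 * q.c)) =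
        q.sj j * (q.c / 8) * (1 + 2 * q.c) + q.sj j * (5 * q.c ^ 2) := by ring
      linarith [h3.2]
    have h8 := mul_le_mul_of_nonneg_right h5 hW.le
    linarith

theorem RHO_needs (hq : q.Par) (i : ℕ) (hi : i < q.K) :
    0 ≤ q.needs i ∧ q.needs i ≤ 2 * (q.h * (1 + 42 * q.c) * q.W) := by
  obtain ⟨c0, c1, om0, om1⟩ := f_c hq
  have hW : (0:ℝ) < q.W := by exact_mod_cast (f_nat hq).2.2.1
  have h1 := needs_up hq i hi
  have h2 := needs_lo hq i hi
  obtain ⟨s1, s2, s3, s4, -⟩ := f_S hq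
  have hS2 : (q.S : ℝ) - 1 ≤ 2 * q.W := by
    rw [div_le_iff₀ hW] at s2
    linarith
  have hh : q.h = q.c / 8 := rfl
  have hth : q.th = 1 - q.c := rfl
  have h12 : 0 < 1 - 2 * q.h := by rw [hh]; linarith
  have h3 : q.h * q.th / (1 - 2 * q.h) ≤ q.h := by
    rw [div_le_iff₀ h12, hth, hh]
    nlinarith
  have h4 : q.h * (1 - q.c) ≤ q.h * q.th / (1 - 2 * q.h) := by
    rw [le_div_iff₀ h12, hth]
    have : 0 ≤ q.h * (1 - q.c) := mul_nonneg (by rw [hh]; positivity) (by linarith)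
    have h5 : 0 ≤ 2 * q.h := by rw [hh]; positivity
    nlinarith
  constructor
  · refine le_trans ?_ h2
    refine mul_nonneg ?_ s3.le
    have h6 : 11 * q.c ^ 2 ≤ q.h * (1 - q.c) := by
      rw [hh]
      nlinarith [mul_le_mul_of_nonneg_left c1 c0.le]
    linarith
  · refine le_trans h1 ?_
    have h5 : q.h * q.th / (1 - 2 * q.h) + 5 * q.c ^ 2 ≤ q.h * (1 + 42 * q.c) := by
      have : q.h * (1 + 42 * q.c) = q.h + 5 * q.c ^ 2 + 2 * q.h * q.c := by rw [hh]; ring
      have h6 : 0 ≤ 2 * q.h * q.c := by rw [hh]; positivity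
      linarith
    have h7 : 0 ≤ q.h * (1 + 42 * q.c) := by rw [hh]; positivity
    calc _ ≤ q.h * (1 + 42 * q.c) * (q.S - 1) := mul_le_mul_of_nonneg_right h5 s3.le
      _ ≤ q.h * (1 + 42 * q.c) * (2 * q.W) := mul_le_mul_of_nonneg_left hS2 h7
      _ = _ := by ring

/-- the ideal row sum -/
noncomputable def RHOI (q : PQ) (i : ℕ) (s : Bool) : ℝ :=
  ((∑ j ∈ range q.Jn, ind (q.sd s j) * (ind (¬ q.zn i j) * q.need i j / q.sj j)) +
    ind (s = true) * q.needs i) / q.ht

theorem RHO_pos (hq : q.Par) : 0 < q.be ∧ (0:ℝ) < q.R ∧ 0 < q.ht ∧ q.ht = q.h * q.n ∧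
    (0:ℝ) < q.n ∧ 0 < q.h ∧ (12:ℝ) ≤ q.R := by
  obtain ⟨b1, b2, b3, b4, b5, b6⟩ := f_be hq
  have hR : (10:ℝ) ^ 6 < q.R := by exact_mod_cast (f_nat hq).2.2.2.2.1
  have hn : (0:ℝ) < q.n := by exact_mod_cast (f_nat hq).1
  have hR0 : (0:ℝ) < q.R := lt_trans (by norm_num) hR
  refine ⟨b1, hR0, ?_, (f_m hq).2.2.2.2.1, hn, ?_, ?_⟩
  · rw [← b4]; exact mul_pos b1 hR0
  · have := (f_c hq).1
    unfold h
    positivity
  · refine le_trans ?_ hR.le
    norm_num

theorem RHO_av_sd (q : PQ) (s : Bool) (r j : ℕ) (h : q.av s r j) : q.sd s j := h.1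

theorem RHO_near (hq : q.Par) (i : ℕ) (hi : i < q.K) (s : Bool) (r : ℕ) (hr : r < q.R) :
    |q.rho i s r - q.RHOI i s| ≤ q.c / 10000 := by
  obtain ⟨c0, c1, om0, om1⟩ := f_c hq
  obtain ⟨be0, R0, ht0, hth, n0, h0, R12⟩ := RHO_pos hq
  have hbR : q.be * q.R = q.ht := (f_be hq).2.2.2.1
  have hW : (0:ℝ) < q.W := by exact_mod_cast (f_nat hq).2.2.1
  set T : ℕ → ℝ := fun j => ind (¬ q.zn i j) * q.need i j with hT
  have hT0 : ∀ j ∈ range q.Jn, 0 ≤ T j := fun j hj =>
    mul_nonneg (ind_nonneg _) (RHO_need hq i j hi (Finset.mem_range.1 hj)).1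
  have hTle : ∀ j ∈ range q.Jn, T j ≤ q.sj j * (q.h * (1 + 42 * q.c) * q.W) := fun j hj => by
    have h1 := RHO_need hq i j hi (Finset.mem_range.1 hj)
    have h2 := mul_le_mul_of_nonneg_right (ind_le_one (¬ q.zn i j)) h1.1
    simp only [hT]
    linarith [h1.2]
  have hsj : ∀ j, 0 < q.sj j := fun j => lt_of_lt_of_le one_pos (sj_bounds j).1
  set A : ℕ → ℝ := fun j => ind (¬ q.zn i j ∧ q.av s r j) * (q.need i j / (q.be * q.nB j)) with hA
  set B : ℕ → ℝ := fun j => ind (q.sd s j) * (T j / q.sj j) / q.ht with hB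
  have hAe : ∀ j, A j = ind (q.av s r j) * (T j / (q.be * q.nB j)) := by
    intro j
    simp only [hA, hT, ind_and]
    ring
  have hdiff : q.rho i s r - q.RHOI i s = (∑ j ∈ range q.Jn, A j) - ∑ j ∈ range q.Jn, B j := by
    unfold rho RHOI q0s
    have h1 : ∑ j ∈ range q.Jn, B j =
        (∑ j ∈ range q.Jn, ind (q.sd s j) * (ind (¬ q.zn i j) * q.need i j / q.sj j)) / q.ht := by
      rw [Finset.sum_div]
    have h2 : ∑ j ∈ range q.Jn, q.q0 i s r j = ∑ j ∈ range q.Jn, A j := rfl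
    rw [h1, h2, hbR]
    ring
  have hTs : ∑ j ∈ range q.Jn, T j ≤ 2 * q.ht := by
    have h1 := need_sum hq i hi
    have h2 := (RHO_needs hq i hi).1
    have h3 : (0:ℝ) ≤ (q.z : ℝ) := Nat.cast_nonneg _
    have h4 : ∑ j ∈ range q.Jn, T j = ∑ j ∈ range q.Jn, ind (¬ q.zn i j) * q.need i j := rfl
    rw [h4]
    linarith
  have hnB : ∀ j ∈ range q.Jn, 0 < q.be * q.nB j ∧ q.be * q.nB j ≤ q.sj j * q.ht ∧
      q.sj j * q.ht ≤ q.be * q.nB j * (1 + 4 / q.R) := by
    intro j hj
    obtain ⟨n1, n2⟩ := nB_bounds hq j (Finset.mem_range.1 hj)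
    have h3 : 0 < (q.R : ℝ) - 3 := by linarith
    have h4 : 0 < q.nB j := lt_of_lt_of_le (mul_pos (hsj j) h3) n1
    refine ⟨mul_pos be0 h4, ?_, ?_⟩
    · have := mul_le_mul_of_nonneg_left n2 be0.le
      rw [← hbR]
      linarith
    · have h5 : q.be * (q.sj j * (q.R - 3)) ≤ q.be * q.nB j := mul_le_mul_of_nonneg_left n1 be0.le
      have h6 : (0:ℝ) ≤ 1 + 4 / q.R := by positivity
      refine le_trans ?_ (mul_le_mul_of_nonneg_right h5 h6)
      rw [← hbR]
      have h7 : (q.R : ℝ) ≤ (q.R - 3) * (1 + 4 / q.R) := by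
        have h8 : ((q.R : ℝ) - 3) * (1 + 4 / q.R) = q.R + (1 - 12 / q.R) := by
          field_simp
          ring
        rw [h8]
        have h9 : 12 / (q.R : ℝ) ≤ 1 := by
          rw [div_le_one R0]; exact R12
        linarith
      have h8 := mul_le_mul_of_nonneg_left h7 (mul_pos be0 (hsj j)).le
      calc q.sj j * (q.be * q.R) = q.be * q.sj j * q.R := by ring
        _ ≤ q.be * q.sj j * ((q.R - 3) * (1 + 4 / q.R)) := h8
        _ = _ := by ring
  have hup : ∀ j ∈ range q.Jn, A j ≤ B j + 4 / q.R * (T j / q.ht) := by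
    intro j hj
    obtain ⟨x0, x1, x2⟩ := hnB j hj
    have t0 := hT0 j hj
    have s0 := hsj j
    have e0 : 0 ≤ 4 / q.R * (T j / q.ht) := by positivity
    rw [hAe]
    by_cases hav : q.av s r j
    · have hsd := hav.1
      simp only [hB]
      rw [ind_pos hav, ind_pos hsd, one_mul, one_mul]
      have h1 : T j / (q.be * q.nB j) ≤ T j / q.sj j / q.ht * (1 + 4 / q.R) := by
        rw [div_div, div_mul_eq_mul_div, div_le_div_iff₀ x0 (by positivity)]
        have := mul_le_mul_of_nonneg_left x2 t0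
        linarith
      have h2 : T j / q.sj j / q.ht ≤ T j / q.ht := by
        gcongr
        exact div_le_self t0 (sj_bounds j).1
      have h3 : T j / q.sj j / q.ht * (4 / q.R) ≤ T j / q.ht * (4 / q.R) :=
        mul_le_mul_of_nonneg_right h2 (by positivity)
      linarith
    · have h1 : 0 ≤ B j := by
        simp only [hB]
        exact div_nonneg (mul_nonneg (ind_nonneg _) (div_nonneg t0 s0.le)) ht0.le
      rw [ind_neg hav, zero_mul]
      linarith
  have hlo : ∀ j ∈ range q.Jn, B j ≤ A j + ind (q.sd s j ∧ ¬ q.av s r j) * (11 / 10 * q.om) := by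
    intro j hj
    obtain ⟨x0, x1, x2⟩ := hnB j hj
    have t0 := hT0 j hj
    have s0 := hsj j
    rw [hAe]
    simp only [hB]
    by_cases hav : q.av s r j
    · have hsd := hav.1
      rw [ind_pos hav, ind_pos hsd, one_mul, one_mul, ind_neg (fun h => h.2 hav), zero_mul, add_zero,
        div_div]
      exact div_le_div_of_nonneg_left t0 x0 x1
    · rw [ind_neg hav, zero_mul, zero_add]
      by_cases hsd : q.sd s j
      · rw [ind_pos hsd, ind_pos ⟨hsd, hav⟩, one_mul, one_mul, div_div, div_le_iff₀ (by positivity)]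
        refine le_trans (hTle j hj) ?_
        have h1 : q.h * (1 + 42 * q.c) * q.W ≤ 11 / 10 * q.om * q.ht := by
          have h2 : 11 / 10 * q.om * q.ht = 11 / 10 * q.h * q.W := by
            rw [hth]
            unfold om
            field_simp
          rw [h2]
          have h3 : 1 + 42 * q.c ≤ 11 / 10 := by linarith
          have h4 := mul_le_mul_of_nonneg_left h3 (mul_pos h0 hW).le
          linarith
        have h5 := mul_le_mul_of_nonneg_left h1 s0.le
        linarith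
      · rw [ind_neg hsd, ind_neg (fun h => hsd h.1)]
        simp
  have e1 : ∑ j ∈ range q.Jn, A j ≤ (∑ j ∈ range q.Jn, B j) +
      4 / (q.R : ℝ) * ((∑ j ∈ range q.Jn, T j) / q.ht) := by
    rw [Finset.sum_div, Finset.mul_sum, ← Finset.sum_add_distrib]
    exact Finset.sum_le_sum hup
  have e2 : ∑ j ∈ range q.Jn, B j ≤ (∑ j ∈ range q.Jn, A j) +
      (∑ j ∈ range q.Jn, ind (q.sd s j ∧ ¬ q.av s r j)) * (11 / 10 * q.om) := by
    rw [Finset.sum_mul, ← Finset.sum_add_distrib]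
    exact Finset.sum_le_sum hlo
  have e3 := lost hq s r hr
  have e4 : 4 / (q.R : ℝ) ≤ 264 * q.om / q.c := (f_R hq).2.2.1
  have e5 : q.om / q.c ≤ q.c / 10 ^ 8 := by
    rw [div_le_div_iff₀ c0 (by positivity)]
    nlinarith
  have e6 : 4 / (q.R : ℝ) * ((∑ j ∈ range q.Jn, T j) / q.ht) ≤ 264 * q.om / q.c * 2 := by
    refine mul_le_mul e4 ?_ ?_ (by positivity)
    · rw [div_le_iff₀ ht0]; exact hTs
    · exact div_nonneg (Finset.sum_nonneg hT0) ht0.le
  have e7 : (∑ j ∈ range q.Jn, ind (q.sd s j ∧ ¬ q.av s r j)) * (11 / 10 * q.om) ≤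
      200 / q.c * (11 / 10 * q.om) := mul_le_mul_of_nonneg_right e3 (by positivity)
  have e8 : 264 * q.om / q.c * 2 = 528 * (q.om / q.c) := by ring
  have e9 : 200 / q.c * (11 / 10 * q.om) = 220 * (q.om / q.c) := by ring
  rw [hdiff, abs_le]
  constructor <;> linarith

theorem rho_same (hq : q.Par) (i : ℕ) (hi : i < q.K) (s : Bool) (r r' : ℕ) (hr : r < q.R)
    (hr' : r' < q.R) : |q.rho i s r - q.rho i s r'| ≤ q.c / 1000 := by
  have h1 := abs_le.1 (RHO_near hq i hi s r hr)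
  have h2 := abs_le.1 (RHO_near hq i hi s r' hr')
  have c0 := (f_c hq).1
  rw [abs_le]
  constructor <;> linarith [h1.1, h1.2, h2.1, h2.2]

theorem RHO_c1 (q : PQ) (N : ℕ) : ∑ j ∈ range q.Jn, ind (j < N) ≤ (N : ℝ) := by
  classical
  have h1 : ∀ j ∈ range q.Jn, ind (j < N) = if j < N then (1:ℝ) else 0 := by
    intro j _
    by_cases h : j < N
    · rw [ind_pos h, if_pos h]
    · rw [ind_neg h, if_neg h]
  rw [Finset.sum_congr rfl h1, Finset.sum_boole]
  have h2 : ((range q.Jn).filter fun j => j < N) ⊆ range N := by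
    intro j hj
    exact Finset.mem_range.2 (Finset.mem_filter.1 hj).2
  have h3 := Finset.card_le_card h2
  rw [Finset.card_range] at h3
  exact_mod_cast h3

theorem RHO_c2 (q : PQ) (N : ℕ) : ∑ j ∈ range q.Jn, ind (q.Jn ≤ j + N) ≤ (N : ℝ) := by
  classical
  have h1 : ∀ j ∈ range q.Jn, ind (q.Jn ≤ j + N) = if q.Jn ≤ j + N then (1:ℝ) else 0 := by
    intro j _
    by_cases h : q.Jn ≤ j + N
    · rw [ind_pos h, if_pos h]
    · rw [ind_neg h, if_neg h]
  rw [Finset.sum_congr rfl h1, Finset.sum_boole]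
  have h2 : ((range q.Jn).filter fun j => q.Jn ≤ j + N) ⊆ Finset.Ico (q.Jn - N) q.Jn := by
    intro j hj
    rw [Finset.mem_filter, Finset.mem_range] at hj
    rw [Finset.mem_Ico]
    omega
  have h3 := Finset.card_le_card h2
  rw [Nat.card_Ico] at h3
  have h4 : ((range q.Jn).filter fun j => q.Jn ≤ j + N).card ≤ N := by omega
  exact_mod_cast h4

theorem RHO_I (hq : q.Par) (i : ℕ) (hi : i < q.K) :
    |q.RHOI i true - q.RHOI i false| ≤ 11295 / 10000 * q.c := by
  obtain ⟨c0, c1, om0, om1⟩ := f_c hq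
  obtain ⟨be0, R0, ht0, hth, n0, h0, R12⟩ := RHO_pos hq
  have hW : (0:ℝ) < q.W := by exact_mod_cast (f_nat hq).2.2.1
  have hsj : ∀ j, 0 < q.sj j := fun j => lt_of_lt_of_le one_pos (sj_bounds j).1
  have hnat := f_nat hq
  have hJn : q.Jn = q.K + q.P := rfl
  set U : ℝ := q.h * (1 + 42 * q.c) * q.W with hU
  have hU0 : 0 ≤ U := by positivity
  set V : ℕ → ℝ := fun j => ind (¬ q.zn i j) * q.need i j / q.sj j with hV
  have hV0 : ∀ j ∈ range q.Jn, 0 ≤ V j ∧ V j ≤ U := by
    intro j hj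
    have h1 := RHO_need hq i j hi (Finset.mem_range.1 hj)
    constructor
    · exact div_nonneg (mul_nonneg (ind_nonneg _) h1.1) (hsj j).le
    · simp only [hV]
      rw [div_le_iff₀ (hsj j)]
      have h2 := mul_le_mul_of_nonneg_right (ind_le_one (¬ q.zn i j)) h1.1
      have h3 : U * q.sj j = q.sj j * (q.h * (1 + 42 * q.c) * q.W) := by rw [hU]; ring
      linarith [h1.2]
  obtain ⟨m0, m1⟩ := RHO_needs hq i hi
  have hdiff : (q.RHOI i true - q.RHOI i false) * q.ht =
      (∑ j ∈ range q.Jn, (ind (q.sd true j) - ind (q.sd false j)) * V j) + q.needs i := by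
    unfold RHOI
    rw [← sub_div, div_mul_cancel₀ _ ht0.ne', ind_pos rfl, ind_neg (by simp : ¬ (false = true))]
    have h1 : ∑ j ∈ range q.Jn, (ind (q.sd true j) - ind (q.sd false j)) * V j =
        (∑ j ∈ range q.Jn, ind (q.sd true j) * V j) - ∑ j ∈ range q.Jn, ind (q.sd false j) * V j := by
      rw [← Finset.sum_sub_distrib]
      exact Finset.sum_congr rfl fun j _ => by ring
    rw [h1]
    simp only [hV]
    ring
  have hsdt : ∀ j, q.sd true j ↔ j + q.jL < q.Jn := by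
    intro j
    unfold sd
    simp
  have hsdf : ∀ j, q.sd false j ↔ q.jL ≤ j := by
    intro j
    unfold sd
    simp
  have hup : ∀ j ∈ range q.Jn, (ind (q.sd true j) - ind (q.sd false j)) * V j ≤
      ind (j < q.jL) * U := by
    intro j hj
    obtain ⟨v0, v1⟩ := hV0 j hj
    by_cases h1 : j < q.jL
    · rw [ind_pos h1, one_mul]
      have h2 : ind (q.sd true j) - ind (q.sd false j) ≤ 1 := by
        linarith [ind_le_one (q.sd true j), ind_nonneg (q.sd false j)]
      have := mul_le_mul_of_nonneg_right h2 v0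
      linarith
    · rw [ind_neg h1, zero_mul, ind_pos ((hsdf j).2 (by omega))]
      have h2 : ind (q.sd true j) - 1 ≤ 0 := by linarith [ind_le_one (q.sd true j)]
      have := mul_le_mul_of_nonneg_right h2 v0
      linarith
  have hlo : ∀ j ∈ range q.Jn, -(ind (q.Jn ≤ j + q.jL) * U) ≤
      (ind (q.sd true j) - ind (q.sd false j)) * V j := by
    intro j hj
    obtain ⟨v0, v1⟩ := hV0 j hj
    by_cases h1 : q.Jn ≤ j + q.jL
    · rw [ind_pos h1, one_mul]
      have h2 : -1 ≤ ind (q.sd true j) - ind (q.sd false j) := by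
        linarith [ind_nonneg (q.sd true j), ind_le_one (q.sd false j)]
      have := mul_le_mul_of_nonneg_right h2 v0
      linarith
    · rw [ind_neg h1, zero_mul, ind_pos ((hsdt j).2 (by omega))]
      have h2 : 0 ≤ 1 - ind (q.sd false j) := by linarith [ind_le_one (q.sd false j)]
      have := mul_nonneg h2 v0
      linarith
  have e1 := Finset.sum_le_sum hup
  have e2 := Finset.sum_le_sum hlo
  rw [← Finset.sum_mul] at e1
  rw [Finset.sum_neg_distrib, ← Finset.sum_mul] at e2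
  have e3 := mul_le_mul_of_nonneg_right (RHO_c1 q q.jL) hU0
  have e4 := mul_le_mul_of_nonneg_right (RHO_c2 q q.jL) hU0
  have e5 : ((q.jL : ℝ) + 2) * U ≤ 11295 / 10000 * q.c * q.ht := by
    have h1 : ((q.jL : ℝ) + 2) * U = ((q.jL + 2) * q.om) * (1 + 42 * q.c) * q.ht := by
      rw [hU, hth]
      unfold om
      field_simp
    rw [h1]
    refine mul_le_mul_of_nonneg_right ?_ ht0.le
    have h2 := (f_jL hq).2
    have h3 : (q.jL + 2) * q.om ≤ 11291 / 10000 * q.c := by
      nlinarith [mul_le_mul_of_nonneg_left c1 c0.le]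
    have h4 : (0:ℝ) ≤ 1 + 42 * q.c := by positivity
    have h5 := mul_le_mul_of_nonneg_right h3 h4
    nlinarith [mul_le_mul_of_nonneg_left c1 c0.le]
  have e6 : (0:ℝ) ≤ 2 * U := by linarith
  rw [abs_le]
  constructor
  · by_contra hcon
    push Not at hcon
    have h1 := mul_lt_mul_of_pos_right hcon ht0
    rw [hdiff] at h1
    nlinarith
  · by_contra hcon
    push Not at hcon
    have h1 := mul_lt_mul_of_pos_right hcon ht0
    rw [hdiff] at h1
    nlinarith

theorem rho_diff (hq : q.Par) (i : ℕ) (hi : i < q.K) (s s' : Bool) (r r' : ℕ) (hr : r < q.R)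
    (hr' : r' < q.R) : |q.rho i s r - q.rho i s' r'| ≤ 1132 / 1000 * q.c := by
  have h1 := abs_le.1 (RHO_near hq i hi s r hr)
  have h2 := abs_le.1 (RHO_near hq i hi s' r' hr')
  have h3 := abs_le.1 (RHO_I hq i hi)
  have c0 := (f_c hq).1
  rw [abs_le]
  cases s <;> cases s' <;> constructor <;> linarith [h1.1, h1.2, h2.1, h2.2, h3.1, h3.2]

/-- exactly one slack class is the unit of `i` -/
theorem sum_isU (hq : q.Par) (i : ℕ) (hi : i < q.K) :
    ∑ s : Bool, ∑ r ∈ range q.R, ind (q.isU i s r) = 1 := by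
  classical
  have hR : 0 < q.R := by
    have := (f_nat hq).2.2.2.2.1
    omega
  have h1 : ∀ s : Bool, ∑ r ∈ range q.R, ind (q.isU i s r) = ind ((s = true) ↔ 2 * i < q.K) := by
    intro s
    rw [Finset.sum_eq_single (i % q.R)]
    · refine ind_congr ?_
      unfold isU
      simp
    · intro r _ hr
      exact ind_neg fun h => hr h.2.symm
    · intro h
      exact absurd (Finset.mem_range.2 (Nat.mod_lt _ hR)) h
  rw [Finset.sum_congr rfl fun s _ => h1 s, Fintype.sum_bool]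
  by_cases h : 2 * i < q.K
  · rw [ind_pos (by simp [h]), ind_neg (by simp [h])]; norm_num
  · rw [ind_neg (by simp [h]), ind_pos (by simp; omega)]; norm_num

theorem sum_ee (hq : q.Par) (i : ℕ) (hi : i < q.K) :
    ∑ s : Bool, ∑ r ∈ range q.R, q.ee i s r = 0 := by
  obtain ⟨be0, R0, ht0, hth, n0, h0, R12⟩ := RHO_pos hq
  have hbR : q.be * q.R = q.ht := (f_be hq).2.2.2.1
  have hsj : ∀ j, 0 < q.sj j := fun j => lt_of_lt_of_le one_pos (sj_bounds j).1
  have h1 : ∑ s : Bool, ∑ r ∈ range q.R, q.tauB i s r = 2 * q.R - (q.z + 1) / q.be := by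
    unfold tauB
    have h2 : ∀ s : Bool, ∑ r ∈ range q.R, (1 - ind (q.isU i s r) * ((q.z + 1) / q.be)) =
        q.R - (∑ r ∈ range q.R, ind (q.isU i s r)) * ((q.z + 1) / q.be) := by
      intro s
      rw [Finset.sum_sub_distrib, Finset.sum_const, Finset.card_range, ← Finset.sum_mul]
      simp
    rw [Finset.sum_congr rfl fun s _ => h2 s, Finset.sum_sub_distrib, ← Finset.sum_mul,
      sum_isU hq i hi]
    simp
  have h3 : ∑ s : Bool, ∑ r ∈ range q.R, q.rho i s r = (2 * q.ht - (q.z + 1)) / q.be := by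
    unfold rho
    have h4 : ∑ s : Bool, ∑ r ∈ range q.R, ((∑ j ∈ range q.Jn, q.q0 i s r j) + q.q0s i s r) =
        (∑ j ∈ range q.Jn, ∑ s : Bool, ∑ r ∈ range q.R, q.q0 i s r j) +
          ∑ s : Bool, ∑ r ∈ range q.R, q.q0s i s r := by
      rw [Finset.sum_comm (s := range q.Jn), ← Finset.sum_add_distrib]
      refine Finset.sum_congr rfl fun s _ => ?_
      rw [Finset.sum_comm (s := range q.Jn), ← Finset.sum_add_distrib]
    have h5 : ∀ j ∈ range q.Jn, ∑ s : Bool, ∑ r ∈ range q.R, q.q0 i s r j =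
        ind (¬ q.zn i j) * q.need i j / q.be := by
      intro j hj
      obtain ⟨n1, n2⟩ := nB_bounds hq j (Finset.mem_range.1 hj)
      have hn : 0 < q.nB j := lt_of_lt_of_le (mul_pos (hsj j) (by linarith)) n1
      have h6 : ∀ s : Bool, ∀ r ∈ range q.R, q.q0 i s r j =
          (ind (¬ q.zn i j) * (q.need i j / (q.be * q.nB j))) * ind (q.av s r j) := by
        intro s r _
        unfold q0
        rw [ind_and]
        ring
      rw [Finset.sum_congr rfl fun s _ => Finset.sum_congr rfl (h6 s)]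
      have h7 : ∑ s : Bool, ∑ r ∈ range q.R,
          (ind (¬ q.zn i j) * (q.need i j / (q.be * q.nB j))) * ind (q.av s r j) =
          (ind (¬ q.zn i j) * (q.need i j / (q.be * q.nB j))) * q.nB j := by
        generalize (ind (¬ q.zn i j) * (q.need i j / (q.be * q.nB j))) = k0
        have h7' : q.nB j = ∑ s : Bool, ∑ r ∈ range q.R, ind (q.av s r j) := rfl
        rw [h7', Finset.mul_sum]
        exact Finset.sum_congr rfl fun s _ => by rw [Finset.mul_sum]
      rw [h7]
      field_simp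
    have h8 : ∑ s : Bool, ∑ r ∈ range q.R, q.q0s i s r = q.needs i / q.be := by
      unfold q0s
      rw [Fintype.sum_bool, ind_pos rfl, ind_neg (by simp : ¬ (false = true))]
      simp only [one_mul, zero_mul, Finset.sum_const, Finset.card_range, nsmul_eq_mul]
      field_simp
      ring
    rw [h4, Finset.sum_congr rfl h5, ← Finset.sum_div, h8, ← add_div, need_sum hq i hi]
  have h9 : ∑ s : Bool, ∑ r ∈ range q.R, q.ee i s r =
      (∑ s : Bool, ∑ r ∈ range q.R, q.tauB i s r) - ∑ s : Bool, ∑ r ∈ range q.R, q.rho i s r := by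
    unfold ee
    rw [← Finset.sum_sub_distrib]
    exact Finset.sum_congr rfl fun s _ => by rw [Finset.sum_sub_distrib]
  rw [h9, h1, h3, ← hbR]
  field_simp
  ring

end PQ

end Pool.Agent.H2.HV
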