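import Mathlib
import Pool.Agent.H2.HV.RHO

/-!
QBB (about 300 lines). The exact tight-slack distribution qb = q0 + cor.

ee i s r - ee i s' r' = (tauB - tauB') - (rho - rho'), |tauB - tauB'| ≤ 1/4 (f_be) and it is 0 if neither is the unit.
cor_up (pointwise, for av s r j, j in the middle, ¬ zn; otherwise cor = 0 because of MM): cor ≤ Σ_{s',r'} (ee - ee')^+/(2R) / mc, mc ≥ (1-3c)/om:
 same side: R terms ≤ c/1000 (rho_same), other side: R terms ≤ 1.132 c, plus the unit term ≤ 1/4: [R c/1000 + 1.132 c R + 1/4]/(2R) ≤ 0.5666 c + 1/(8R) ≤ 0.567 c (1/(8R) ≤ 9 om/c): so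
 cor ≤ 0.567 c om/(1-3c) ≤ 0.568 c om.
 (note tauB - tauB' ≤ 0 for (s,r) = unit: only improves; for (s',r') = unit: + (z+1)/be ≤ 1/4.)
cor_abs: |cor| ≤ [2R·1.132c + 2R·(1/4)·(1 if (s,r) is the unit) + 1/4]/(2R)/mc ≤ (1/4 + 2c) om (crude, for all).
q0: for av, ¬ zn: need/(be nB): need ∈ [(Nj-11c²)W, (Nj+5c²)W], be nB ∈ [sj ht(1-3/R), sj ht], Nj ∈ sj h[1-c, 1+2c]: q0 ∈ [om(1 - 90 c), om (1+50c)] ⊂ [0.99 om, 1.01 om].
qb_bounds: 0.7 om ≤ qb ≤ 1.3 om. qb_off: qb = 0 unless ¬ zn i j ∧ av s r j (MM contains both).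
qb_row: Σ_j qb + q0s = rho + Σ_j cor = rho + Σ_{s',r'} (ee - ee')/(2R) · (Σ_j ind MM)/mc = rho + ee - (Σ ee')/(2R) = tauB (sum_ee; mc > 0).
qb_col: Σ_{s,r} be qb = need (¬ zn i j, j < Jn): Σ be q0 = need (nB > 0), and Σ_{s,r} cor = 0 by antisymmetry (MM and mc symmetric in the two classes).
q0s_bounds: needs/(be R) = needs/ht, needs ∈ [..](S-1), h th/(1-2h) ∈ [h(1-c), h(1+2c)], W - 1 ≤ S - 1 ≤ 2W: in [0.9 om, 2.1 om] for s = true, 0 for s = false. Σ_{s,r} be q0s = needs.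
-/

set_option autoImplicit false
set_option linter.unusedVariables false

namespace Pool.Agent.H2.HV

open Finset

namespace PQ

variable {q : PQ}

theorem QBB_g (hq : q.Par) : 0 < 1 - 3 * q.c ∧ 0 < (1 - 3 * q.c) / q.om ∧ 0 < q.om := by
  obtain ⟨c0, c1, o0, o1⟩ := f_c hq
  have h : 0 < 1 - 3 * q.c := by
    have : (1:ℝ) / 10 ^ 5 = 1 / 100000 := by norm_num
    rw [this] at c1
    linarith
  exact ⟨h, div_pos h o0, o0⟩

theorem QBB_R (hq : q.Par) : (0:ℝ) < q.R ∧ (1:ℝ) / (8 * q.R) ≤ q.c / 10 ^ 6 ∧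
    (3:ℝ) / q.R ≤ 1 / 10 ^ 6 := by
  obtain ⟨c0, c1, o0, o1⟩ := f_c hq
  obtain ⟨-, -, -, -, hR, -⟩ := f_nat hq
  have hR' : (10:ℝ) ^ 6 < q.R := by exact_mod_cast hR
  have hR0 : (0:ℝ) < q.R := lt_trans (by norm_num) hR'
  refine ⟨hR0, ?_, ?_⟩
  · obtain ⟨-, -, h1, -⟩ := f_R hq
    have e1 : (1:ℝ) / (8 * q.R) = (4 / q.R) / 32 := by field_simp; norm_num
    have e2 : q.om / q.c ≤ q.c / 10 ^ 8 := by
      rw [div_le_div_iff₀ c0 (by positivity)]
      have := mul_le_mul_of_nonneg_right o1 (by positivity : (0:ℝ) ≤ 10 ^ 8)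
      have h3 : q.c ^ 2 / 10 ^ 8 * 10 ^ 8 = q.c * q.c := by field_simp
      linarith
    have e3 : 264 * q.om / q.c = 264 * (q.om / q.c) := by ring
    rw [e1]
    rw [e3] at h1
    have e4 : (4:ℝ) / q.R ≤ 264 * (q.c / 10 ^ 8) := h1.trans (by linarith)
    have e5 : (4:ℝ) / q.R / 32 ≤ 264 * (q.c / 10 ^ 8) / 32 := by linarith
    refine e5.trans ?_
    norm_num
    linarith
  · obtain ⟨-, -, h1, -⟩ := f_R hq
    have e2 : q.om / q.c ≤ 1 / 10 ^ 13 := by
      rw [div_le_div_iff₀ c0 (by positivity)]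
      have h5 : q.c ^ 2 ≤ q.c * (1 / 10 ^ 5) := by
        rw [sq]; exact mul_le_mul_of_nonneg_left c1 c0.le
      have h6 : q.om * 10 ^ 13 ≤ q.c ^ 2 / 10 ^ 8 * 10 ^ 13 :=
        mul_le_mul_of_nonneg_right o1 (by positivity)
      have h7 : q.c ^ 2 / 10 ^ 8 * 10 ^ 13 = q.c ^ 2 * 10 ^ 5 := by
        field_simp
      have h8 : q.c ^ 2 * 10 ^ 5 ≤ q.c * (1 / 10 ^ 5) * 10 ^ 5 :=
        mul_le_mul_of_nonneg_right h5 (by positivity)
      have h9 : q.c * (1 / 10 ^ 5) * 10 ^ 5 = q.c := by field_simp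
      linarith
    have e3 : 264 * q.om / q.c = 264 * (q.om / q.c) := by ring
    rw [e3] at h1
    have e4 : (4:ℝ) / q.R ≤ 264 / 10 ^ 13 := by linarith
    have e5 : (3:ℝ) / q.R ≤ 4 / q.R := div_le_div_of_nonneg_right (by norm_num) hR0.le
    have e6 : (264:ℝ) / 10 ^ 13 ≤ 1 / 10 ^ 6 := by norm_num
    linarith

theorem QBB_tau (hq : q.Par) (i : ℕ) (s : Bool) (r : ℕ) :
    0 ≤ 1 - q.tauB i s r ∧ 1 - q.tauB i s r ≤ ind (q.isU i s r) * (1 / 4) := by
  obtain ⟨-, -, -, -, h1, h2⟩ := f_be hq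
  have e : 1 - q.tauB i s r = ind (q.isU i s r) * ((q.z + 1) / q.be) := by
    unfold tauB; ring
  rw [e]
  exact ⟨mul_nonneg (ind_nonneg _) h2.le, mul_le_mul_of_nonneg_left h1 (ind_nonneg _)⟩

theorem tauB_bounds (hq : q.Par) (i : ℕ) (s : Bool) (r : ℕ) :
    3 / 4 ≤ q.tauB i s r ∧ q.tauB i s r ≤ 1 := by
  obtain ⟨h1, h2⟩ := QBB_tau hq i s r
  have h3 := ind_le_one (q.isU i s r)
  constructor <;> linarith

theorem QBB_x (hq : q.Par) (i : ℕ) (hi : i < q.K) (s : Bool) (r : ℕ) (s' : Bool) (r' : ℕ)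
    (hr : r < q.R) (hr' : r' < q.R) (j : ℕ) :
    0 ≤ ind (q.MM i s r s' r' j) / q.mc i s r s' r' ∧
      ind (q.MM i s r s' r' j) / q.mc i s r s' r' ≤ q.om / (1 - 3 * q.c) := by
  obtain ⟨g1, g2, g3⟩ := QBB_g hq
  have h1 := mc_lo hq i hi s r s' r' hr hr'
  have h2 : 0 < q.mc i s r s' r' := lt_of_lt_of_le g2 h1
  refine ⟨div_nonneg (ind_nonneg _) h2.le, ?_⟩
  have h3 : ind (q.MM i s r s' r' j) / q.mc i s r s' r' ≤ 1 / ((1 - 3 * q.c) / q.om) :=
    div_le_div₀ zero_le_one (ind_le_one _) g2 h1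
  refine h3.trans (le_of_eq ?_)
  rw [one_div_div]

theorem cor_up (hq : q.Par) (i : ℕ) (hi : i < q.K) (s : Bool) (r : ℕ) (hr : r < q.R) (j : ℕ) :
    q.cor i s r j ≤ 568 / 1000 * q.c * q.om * ind (q.jL ≤ j ∧ j + q.jL < q.Jn) := by
  obtain ⟨c0, c1, o0, o1⟩ := f_c hq
  obtain ⟨g1, g2, g3⟩ := QBB_g hq
  obtain ⟨R0, R1, -⟩ := QBB_R hq
  by_cases hm : q.jL ≤ j ∧ j + q.jL < q.Jn
  · rw [ind_pos hm, mul_one]
    set b : Bool → ℝ := fun s' => if s' = s then q.c / 1000 else 1132 / 1000 * q.c with hb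
    have hb0 : ∀ s', 0 ≤ b s' := by
      intro s'
      rw [hb]
      simp only
      split_ifs <;> positivity
    have hbs : ∑ s' : Bool, b s' = 1133 / 1000 * q.c := by
      rw [Fintype.sum_bool, hb]
      cases s <;> simp <;> ring
    set g : ℝ := q.om / (1 - 3 * q.c) with hg
    have hg0 : 0 ≤ g := div_nonneg o0.le g1.le
    have hR2 : (0:ℝ) < 2 * q.R := by linarith
    have hterm : ∀ s' : Bool, ∀ r' ∈ range q.R,
        (q.ee i s r - q.ee i s' r') / (2 * q.R) *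
          (ind (q.MM i s r s' r' j) / q.mc i s r s' r') ≤
        (ind (q.isU i s' r') * (1 / 4) + b s') / (2 * q.R) * g := by
      intro s' r' hr'
      rw [Finset.mem_range] at hr'
      obtain ⟨x0, x1⟩ := QBB_x hq i hi s r s' r' hr hr' j
      have hE : q.ee i s r - q.ee i s' r' ≤ ind (q.isU i s' r') * (1 / 4) + b s' := by
        have e : q.ee i s r - q.ee i s' r' = (1 - q.tauB i s' r') - (1 - q.tauB i s r) +
            -(q.rho i s r - q.rho i s' r') := by unfold ee; ring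
        have t1 := QBB_tau hq i s r
        have t2 := QBB_tau hq i s' r'
        have t3 : -(q.rho i s r - q.rho i s' r') ≤ b s' := by
          rw [hb]
          simp only
          split_ifs with h
          · subst h
            exact (neg_le_abs _).trans (rho_same hq i hi s' r r' hr hr')
          · exact (neg_le_abs _).trans (rho_diff hq i hi s s' r r' hr hr')
        rw [e]
        linarith [t1.1, t2.2]
      have hE0 : 0 ≤ ind (q.isU i s' r') * (1 / 4) + b s' :=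
        add_nonneg (mul_nonneg (ind_nonneg _) (by norm_num)) (hb0 s')
      refine (mul_le_mul_of_nonneg_right (div_le_div_of_nonneg_right hE hR2.le) x0).trans ?_
      exact mul_le_mul_of_nonneg_left x1 (div_nonneg hE0 hR2.le)
    have h1 : q.cor i s r j ≤ ∑ s' : Bool, ∑ r' ∈ range q.R,
        (ind (q.isU i s' r') * (1 / 4) + b s') / (2 * q.R) * g := by
      unfold cor
      exact Finset.sum_le_sum fun s' _ => Finset.sum_le_sum fun r' hr' => hterm s' r' hr'
    refine h1.trans ?_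
    have h2 : ∑ s' : Bool, ∑ r' ∈ range q.R,
        (ind (q.isU i s' r') * (1 / 4) + b s') / (2 * q.R) * g =
        ((∑ s' : Bool, ∑ r' ∈ range q.R, ind (q.isU i s' r')) * (1 / 4) +
          q.R * ∑ s' : Bool, b s') / (2 * q.R) * g := by
      have e1 : ∀ s' : Bool, ∑ r' ∈ range q.R,
          (ind (q.isU i s' r') * (1 / 4) + b s') / (2 * q.R) * g =
          ((∑ r' ∈ range q.R, ind (q.isU i s' r')) * (1 / 4) + q.R * b s') / (2 * q.R) * g := by
        intro s'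
        rw [← Finset.sum_mul, ← Finset.sum_div, Finset.sum_add_distrib, ← Finset.sum_mul,
          Finset.sum_const, Finset.card_range, nsmul_eq_mul]
      rw [Finset.sum_congr rfl fun s' _ => e1 s']
      rw [Fintype.sum_bool, Fintype.sum_bool, Fintype.sum_bool]
      ring
    rw [h2, sum_isU hq i hi, hbs]
    have h3 : (1 * (1 / 4) + (q.R : ℝ) * (1133 / 1000 * q.c)) / (2 * q.R) =
        1 / (8 * q.R) + 5665 / 10000 * q.c := by
      field_simp
      ring
    rw [h3]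
    have h4 : (1:ℝ) / (8 * q.R) + 5665 / 10000 * q.c ≤ 5666 / 10000 * q.c := by
      have : q.c / 10 ^ 6 ≤ 1 / 10000 * q.c := by
        rw [div_eq_mul_inv, mul_comm]
        exact mul_le_mul_of_nonneg_right (by norm_num) c0.le
      linarith
    refine (mul_le_mul_of_nonneg_right h4 hg0).trans ?_
    rw [hg, mul_div_assoc', div_le_iff₀ g1]
    have h5 : 5666 / 10000 * q.c * q.om = (q.c * q.om) * (5666 / 10000) := by ring
    have h6 : 568 / 1000 * q.c * q.om * (1 - 3 * q.c) =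
        (q.c * q.om) * (568 / 1000 * (1 - 3 * q.c)) := by ring
    rw [h5, h6]
    refine mul_le_mul_of_nonneg_left ?_ (by positivity)
    norm_num at c1
    linarith
  · rw [ind_neg hm, mul_zero]
    unfold cor
    refine le_of_eq (Finset.sum_eq_zero fun s' _ => Finset.sum_eq_zero fun r' _ => ?_)
    have : ¬ q.MM i s r s' r' j := fun h => hm h.1
    rw [ind_neg this, zero_div, mul_zero]

theorem QBB_cor_abs (hq : q.Par) (i : ℕ) (hi : i < q.K) (s : Bool) (r : ℕ) (hr : r < q.R)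
    (j : ℕ) : |q.cor i s r j| ≤ 26 / 100 * q.om := by
  obtain ⟨c0, c1, o0, o1⟩ := f_c hq
  obtain ⟨g1, g2, g3⟩ := QBB_g hq
  obtain ⟨R0, R1, -⟩ := QBB_R hq
  set g : ℝ := q.om / (1 - 3 * q.c) with hg
  have hg0 : 0 ≤ g := div_nonneg o0.le g1.le
  have hR2 : (0:ℝ) < 2 * q.R := by linarith
  have hterm : ∀ s' : Bool, ∀ r' ∈ range q.R,
      |(q.ee i s r - q.ee i s' r') / (2 * q.R) *
        (ind (q.MM i s r s' r' j) / q.mc i s r s' r')| ≤
      (1 / 4 + 1132 / 1000 * q.c) / (2 * q.R) * g := by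
    intro s' r' hr'
    rw [Finset.mem_range] at hr'
    obtain ⟨x0, x1⟩ := QBB_x hq i hi s r s' r' hr hr' j
    have hE : |q.ee i s r - q.ee i s' r'| ≤ 1 / 4 + 1132 / 1000 * q.c := by
      have e : q.ee i s r - q.ee i s' r' = ((1 - q.tauB i s' r') - (1 - q.tauB i s r)) +
          (-(q.rho i s r - q.rho i s' r')) := by unfold ee; ring
      have t1 := QBB_tau hq i s r
      have t2 := QBB_tau hq i s' r'
      have i1 := ind_le_one (q.isU i s r)
      have i2 := ind_le_one (q.isU i s' r')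
      rw [e]
      refine (abs_add_le _ _).trans (add_le_add ?_ ?_)
      · rw [abs_le]
        constructor <;> linarith [t1.1, t1.2, t2.1, t2.2]
      · rw [abs_neg]
        exact rho_diff hq i hi s s' r r' hr hr'
    rw [abs_mul, abs_div, abs_of_pos hR2, abs_of_nonneg x0]
    refine mul_le_mul (div_le_div_of_nonneg_right hE hR2.le) x1 x0 ?_
    positivity
  have h1 : |q.cor i s r j| ≤ ∑ s' : Bool, ∑ r' ∈ range q.R,
      (1 / 4 + 1132 / 1000 * q.c) / (2 * q.R) * g := by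
    unfold cor
    refine (Finset.abs_sum_le_sum_abs _ _).trans (Finset.sum_le_sum fun s' _ => ?_)
    exact (Finset.abs_sum_le_sum_abs _ _).trans (Finset.sum_le_sum fun r' hr' => hterm s' r' hr')
  refine h1.trans ?_
  simp only [Finset.sum_const, Finset.card_range, Finset.card_univ, Fintype.card_bool,
    nsmul_eq_mul]
  have h2 : ((2:ℕ):ℝ) * ((q.R : ℝ) * ((1 / 4 + 1132 / 1000 * q.c) / (2 * q.R) * g)) =
      (1 / 4 + 1132 / 1000 * q.c) * g := by
    push_cast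
    field_simp
  rw [h2, hg, mul_div_assoc', div_le_iff₀ g1]
  have h5 : (1 / 4 + 1132 / 1000 * q.c) * q.om = q.om * (1 / 4 + 1132 / 1000 * q.c) := by ring
  have h6 : 26 / 100 * q.om * (1 - 3 * q.c) = q.om * (26 / 100 * (1 - 3 * q.c)) := by ring
  rw [h5, h6]
  refine mul_le_mul_of_nonneg_left ?_ o0.le
  norm_num at c1
  linarith

theorem qb_off (hq : q.Par) (i : ℕ) (s : Bool) (r j : ℕ) (h : ¬ (¬ q.zn i j ∧ q.av s r j)) :
    q.qb i s r j = 0 := by
  unfold qb q0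
  rw [ind_neg h, zero_mul, zero_add]
  unfold cor
  refine Finset.sum_eq_zero fun s' _ => Finset.sum_eq_zero fun r' _ => ?_
  have : ¬ q.MM i s r s' r' j := fun hh => h ⟨hh.2.1, hh.2.2.1⟩
  rw [ind_neg this, zero_div, mul_zero]

theorem QBB_nB (hq : q.Par) (j : ℕ) (hj : j < q.Jn) : 0 < q.nB j ∧ 0 < q.be := by
  obtain ⟨h1, h2⟩ := nB_bounds hq j hj
  obtain ⟨s1, s2⟩ := sj_bounds (q := q) j
  obtain ⟨-, -, -, -, hR, -⟩ := f_nat hq
  have hR' : 3 < q.R := lt_trans (by norm_num) hR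
  have hR4 : (3:ℝ) < q.R := by exact_mod_cast hR'
  have hR3 : (0:ℝ) < q.R - 3 := by linarith
  exact ⟨lt_of_lt_of_le (mul_pos (by linarith) hR3) h1, (f_be hq).1⟩

theorem QBB_q0 (hq : q.Par) (i : ℕ) (hi : i < q.K) (j : ℕ) (hj : j < q.Jn) :
    99 / 100 * q.om ≤ q.need i j / (q.be * q.nB j) ∧
      q.need i j / (q.be * q.nB j) ≤ 101 / 100 * q.om := by
  obtain ⟨c0, c1, o0, o1⟩ := f_c hq
  obtain ⟨R0, R1, R2⟩ := QBB_R hq
  obtain ⟨n0, -, W0, -⟩ := f_nat hq
  have hn : (0:ℝ) < q.n := by exact_mod_cast n0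
  have hW : (0:ℝ) < q.W := by exact_mod_cast W0
  obtain ⟨nB0, be0⟩ := QBB_nB hq j hj
  obtain ⟨b1, b2⟩ := nB_bounds hq j hj
  obtain ⟨s1, s2⟩ := sj_bounds (q := q) j
  obtain ⟨N1, N2⟩ := Nj_bounds hq j hj
  have u1 := need_up hq i j hi hj
  have u2 := need_lo hq i j hi hj
  obtain ⟨-, -, -, hbeR, -, -⟩ := f_be hq
  obtain ⟨-, -, -, -, hht, -⟩ := f_m hq
  have hh : q.h = q.c / 8 := rfl
  have homW : (q.W : ℝ) = q.om * q.n := by
    unfold PQ.om; field_simp
  have hden : 0 < q.be * q.nB j := mul_pos be0 nB0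
  have hsh : 0 < q.sj j * q.h := mul_pos (by linarith) (by rw [hh]; positivity)
  have hc5 : q.c ≤ 1 / 100000 := by norm_num at c1; linarith
  have hc2 : q.c ^ 2 ≤ q.sj j * q.h * (8 * q.c) := by
    rw [hh]
    have : q.sj j * (q.c / 8) * (8 * q.c) = q.sj j * q.c ^ 2 := by ring
    rw [this]
    nlinarith [sq_nonneg q.c]
  -- denominators
  have d1 : q.be * q.nB j ≤ q.sj j * q.h * q.n := by
    have : q.be * q.nB j ≤ q.be * (q.sj j * q.R) := mul_le_mul_of_nonneg_left b2 be0.le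
    have e : q.be * (q.sj j * q.R) = q.sj j * (q.be * q.R) := by ring
    rw [e, hbeR, hht] at this
    linarith
  have d2 : q.sj j * q.h * q.n * (1 - 1 / 10 ^ 6) ≤ q.be * q.nB j := by
    have : q.be * (q.sj j * (q.R - 3)) ≤ q.be * q.nB j := mul_le_mul_of_nonneg_left b1 be0.le
    have e : q.be * (q.sj j * ((q.R : ℝ) - 3)) = q.sj j * (q.be * q.R) * (1 - 3 / q.R) := by
      field_simp
    rw [e, hbeR, hht] at this
    refine le_trans ?_ this
    have e2 : q.sj j * (q.h * q.n) = q.sj j * q.h * q.n := by ring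
    rw [e2]
    exact mul_le_mul_of_nonneg_left (by linarith) (by positivity)
  constructor
  · rw [le_div_iff₀ hden]
    have h1 : 99 / 100 * q.om * (q.be * q.nB j) ≤ 99 / 100 * q.om * (q.sj j * q.h * q.n) :=
      mul_le_mul_of_nonneg_left d1 (by positivity)
    refine h1.trans (le_trans ?_ u2)
    rw [homW]
    have h2 : 99 / 100 * q.om * (q.sj j * q.h * q.n) =
        (q.om * q.n) * (99 / 100 * (q.sj j * q.h)) := by ring
    have h3 : (q.Nj j - 11 * q.c ^ 2) * (q.om * q.n) = (q.om * q.n) * (q.Nj j - 11 * q.c ^ 2) := by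
      ring
    rw [h2, h3]
    refine mul_le_mul_of_nonneg_left ?_ (by positivity)
    have h4 : q.sj j * q.h * (1 - q.c) - 11 * (q.sj j * q.h * (8 * q.c)) ≤
        q.Nj j - 11 * q.c ^ 2 := by linarith
    refine le_trans ?_ h4
    have h5 : q.sj j * q.h * (1 - q.c) - 11 * (q.sj j * q.h * (8 * q.c)) =
        q.sj j * q.h * (1 - 89 * q.c) := by ring
    rw [h5, mul_comm (99 / 100 : ℝ)]
    exact mul_le_mul_of_nonneg_left (by linarith) hsh.le
  · rw [div_le_iff₀ hden]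
    have h1 : 101 / 100 * q.om * (q.sj j * q.h * q.n * (1 - 1 / 10 ^ 6)) ≤
        101 / 100 * q.om * (q.be * q.nB j) :=
      mul_le_mul_of_nonneg_left d2 (by positivity)
    refine le_trans (u1.trans ?_) h1
    rw [homW]
    have h2 : 101 / 100 * q.om * (q.sj j * q.h * q.n * (1 - 1 / 10 ^ 6)) =
        (q.om * q.n) * (q.sj j * q.h * (101 / 100 * (1 - 1 / 10 ^ 6))) := by ring
    have h3 : (q.Nj j + 5 * q.c ^ 2) * (q.om * q.n) = (q.om * q.n) * (q.Nj j + 5 * q.c ^ 2) := by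
      ring
    rw [h2, h3]
    refine mul_le_mul_of_nonneg_left ?_ (by positivity)
    have h4 : q.Nj j + 5 * q.c ^ 2 ≤ q.sj j * q.h * (1 + 2 * q.c) +
        5 * (q.sj j * q.h * (8 * q.c)) := by linarith
    refine h4.trans ?_
    have h5 : q.sj j * q.h * (1 + 2 * q.c) + 5 * (q.sj j * q.h * (8 * q.c)) =
        q.sj j * q.h * (1 + 42 * q.c) := by ring
    rw [h5]
    refine mul_le_mul_of_nonneg_left ?_ hsh.le
    norm_num
    linarith

theorem qb_bounds (hq : q.Par) (i : ℕ) (hi : i < q.K) (s : Bool) (r : ℕ) (hr : r < q.R) (j : ℕ)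
    (hj : j < q.Jn) (hz : ¬ q.zn i j) (ha : q.av s r j) :
    7 / 10 * q.om ≤ q.qb i s r j ∧ q.qb i s r j ≤ 13 / 10 * q.om := by
  obtain ⟨c0, c1, o0, o1⟩ := f_c hq
  have h1 := QBB_cor_abs hq i hi s r hr j
  obtain ⟨h2, h3⟩ := QBB_q0 hq i hi j hj
  rw [abs_le] at h1
  have h4 : q.qb i s r j = q.need i j / (q.be * q.nB j) + q.cor i s r j := by
    unfold qb q0
    rw [ind_pos ⟨hz, ha⟩, one_mul]
  rw [h4]
  constructor <;> linarith [h1.1, h1.2]

theorem qb_row (hq : q.Par) (i : ℕ) (hi : i < q.K) (s : Bool) (r : ℕ) (hr : r < q.R) :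
    (∑ j ∈ range q.Jn, q.qb i s r j) + q.q0s i s r = q.tauB i s r := by
  obtain ⟨g1, g2, g3⟩ := QBB_g hq
  obtain ⟨R0, R1, -⟩ := QBB_R hq
  have h1 : ∑ j ∈ range q.Jn, q.cor i s r j = q.ee i s r := by
    unfold cor
    rw [Finset.sum_comm]
    have e1 : ∀ s' : Bool, ∑ j ∈ range q.Jn, ∑ r' ∈ range q.R,
        (q.ee i s r - q.ee i s' r') / (2 * q.R) *
          (ind (q.MM i s r s' r' j) / q.mc i s r s' r') =
        ∑ r' ∈ range q.R, (q.ee i s r - q.ee i s' r') / (2 * q.R) := by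
      intro s'
      rw [Finset.sum_comm]
      refine Finset.sum_congr rfl fun r' hr' => ?_
      rw [Finset.mem_range] at hr'
      have h2 : 0 < q.mc i s r s' r' := lt_of_lt_of_le g2 (mc_lo hq i hi s r s' r' hr hr')
      rw [← Finset.mul_sum, ← Finset.sum_div]
      have h3 : (∑ j ∈ range q.Jn, ind (q.MM i s r s' r' j)) / q.mc i s r s' r' = 1 := by
        unfold mc
        unfold mc at h2
        exact div_self h2.ne'
      rw [h3, mul_one]
    rw [Finset.sum_congr rfl fun s' _ => e1 s']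
    have e2 : ∀ s' : Bool, ∑ r' ∈ range q.R, (q.ee i s r - q.ee i s' r') / (2 * q.R) =
        (q.R * q.ee i s r - ∑ r' ∈ range q.R, q.ee i s' r') / (2 * q.R) := by
      intro s'
      rw [← Finset.sum_div, Finset.sum_sub_distrib, Finset.sum_const, Finset.card_range,
        nsmul_eq_mul]
    rw [Finset.sum_congr rfl fun s' _ => e2 s']
    have e3 := sum_ee hq i hi
    rw [Fintype.sum_bool] at e3 ⊢
    rw [← add_div]
    have e4 : q.R * q.ee i s r - ∑ r' ∈ range q.R, q.ee i true r' +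
        (q.R * q.ee i s r - ∑ r' ∈ range q.R, q.ee i false r') = 2 * q.R * q.ee i s r := by
      linarith
    rw [e4]
    field_simp
  unfold qb
  rw [Finset.sum_add_distrib, h1]
  unfold ee rho
  ring

theorem QBB_MM (i : ℕ) (s : Bool) (r : ℕ) (s' : Bool) (r' j : ℕ) :
    q.MM i s r s' r' j ↔ q.MM i s' r' s r j := by
  unfold MM
  tauto

theorem QBB_anti (f : Bool → ℕ → Bool → ℕ → ℝ) (N : ℕ)
    (hf : ∀ s r s' r', f s' r' s r = - f s r s' r') :
    ∑ s : Bool, ∑ r ∈ range N, ∑ s' : Bool, ∑ r' ∈ range N, f s r s' r' = 0 := by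
  have h1 : ∑ s : Bool, ∑ r ∈ range N, ∑ s' : Bool, ∑ r' ∈ range N, f s r s' r' =
      ∑ x ∈ (Finset.univ : Finset Bool) ×ˢ range N,
        ∑ y ∈ (Finset.univ : Finset Bool) ×ˢ range N, f x.1 x.2 y.1 y.2 := by
    rw [Finset.sum_product]
    refine Finset.sum_congr rfl fun s _ => Finset.sum_congr rfl fun r _ => ?_
    rw [Finset.sum_product]
  rw [h1]
  have h2 : ∑ x ∈ (Finset.univ : Finset Bool) ×ˢ range N,
        ∑ y ∈ (Finset.univ : Finset Bool) ×ˢ range N, f x.1 x.2 y.1 y.2 =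
      - ∑ x ∈ (Finset.univ : Finset Bool) ×ˢ range N,
        ∑ y ∈ (Finset.univ : Finset Bool) ×ˢ range N, f x.1 x.2 y.1 y.2 := by
    conv_lhs => rw [Finset.sum_comm]
    rw [← Finset.sum_neg_distrib]
    refine Finset.sum_congr rfl fun x _ => ?_
    rw [← Finset.sum_neg_distrib]
    exact Finset.sum_congr rfl fun y _ => hf _ _ _ _
  linarith

theorem qb_col (hq : q.Par) (i : ℕ) (hi : i < q.K) (j : ℕ) (hj : j < q.Jn) (hz : ¬ q.zn i j) :
    ∑ s : Bool, ∑ r ∈ range q.R, q.be * q.qb i s r j = q.need i j := by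
  obtain ⟨nB0, be0⟩ := QBB_nB hq j hj
  have h1 : ∑ s : Bool, ∑ r ∈ range q.R, q.cor i s r j = 0 := by
    unfold cor
    refine QBB_anti (fun s r s' r' => (q.ee i s r - q.ee i s' r') / (2 * q.R) *
      (ind (q.MM i s r s' r' j) / q.mc i s r s' r')) q.R ?_
    intro s r s' r'
    have e1 : ind (q.MM i s' r' s r j) = ind (q.MM i s r s' r' j) :=
      ind_congr (QBB_MM i s' r' s r j)
    have e2 : q.mc i s' r' s r = q.mc i s r s' r' := by
      unfold mc
      exact Finset.sum_congr rfl fun j _ => ind_congr (QBB_MM i s' r' s r j)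
    simp only [e1, e2]
    ring
  have h2 : ∑ s : Bool, ∑ r ∈ range q.R, q.be * q.qb i s r j =
      q.be * ((∑ s : Bool, ∑ r ∈ range q.R, ind (q.av s r j)) *
        (q.need i j / (q.be * q.nB j))) + q.be * ∑ s : Bool, ∑ r ∈ range q.R, q.cor i s r j := by
    have e1 : ∀ s r, q.be * q.qb i s r j =
        q.be * (ind (q.av s r j) * (q.need i j / (q.be * q.nB j))) + q.be * q.cor i s r j := by
      intro s r
      unfold qb q0
      have : ind (¬ q.zn i j ∧ q.av s r j) = ind (q.av s r j) :=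
        ind_congr ⟨fun h => h.2, fun h => ⟨hz, h⟩⟩
      rw [this, mul_add]
    simp only [e1, Finset.sum_add_distrib, ← Finset.mul_sum, ← Finset.sum_mul]
  rw [h2, h1, mul_zero, add_zero]
  have h3 : ∑ s : Bool, ∑ r ∈ range q.R, ind (q.av s r j) = q.nB j := rfl
  rw [h3]
  field_simp

theorem q0s_bounds (hq : q.Par) (i : ℕ) (hi : i < q.K) (r : ℕ) :
    9 / 10 * q.om ≤ q.q0s i true r ∧ q.q0s i true r ≤ 21 / 10 * q.om ∧ q.q0s i false r = 0 := by
  obtain ⟨c0, c1, o0, o1⟩ := f_c hq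
  obtain ⟨n0, -, W0, -⟩ := f_nat hq
  have hn : (0:ℝ) < q.n := by exact_mod_cast n0
  have hW : (0:ℝ) < q.W := by exact_mod_cast W0
  have hc5 : q.c ≤ 1 / 100000 := by norm_num at c1; linarith
  obtain ⟨be0, -, -, hbeR, -, -⟩ := f_be hq
  obtain ⟨-, -, -, -, hht, -⟩ := f_m hq
  obtain ⟨S1, S2, S3, S4, -, -⟩ := f_S hq
  have u1 := needs_up hq i hi
  have u2 := needs_lo hq i hi
  have hh : q.h = q.c / 8 := rfl
  have hth : q.th = 1 - q.c := rfl
  have hh0 : 0 < q.h := by rw [hh]; positivity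
  have homW : (q.W : ℝ) = q.om * q.n := by
    unfold PQ.om; field_simp
  have hq0s : q.q0s i true r = q.needs i / (q.h * q.n) := by
    unfold q0s
    rw [ind_pos rfl, one_mul, hbeR, hht]
  have hS2 : (q.S : ℝ) ≤ 2 * q.W := by
    rwa [div_le_iff₀ hW] at S2
  have hWbig : (10:ℝ) ^ 20 ≤ q.W := (num_c hq.num).2.2.2.2.2.2.1
  have hden : 0 < 1 - 2 * q.h := by rw [hh]; linarith
  have k1 : q.h * q.th / (1 - 2 * q.h) ≤ q.h := by
    rw [div_le_iff₀ hden]
    refine mul_le_mul_of_nonneg_left ?_ hh0.le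
    rw [hth, hh]; linarith
  have k2 : q.h * (1 - q.c) ≤ q.h * q.th / (1 - 2 * q.h) := by
    rw [le_div_iff₀ hden, hth]
    have : q.h * (1 - q.c) * (1 - 2 * q.h) ≤ q.h * (1 - q.c) * 1 :=
      mul_le_mul_of_nonneg_left (by linarith) (mul_nonneg hh0.le (by linarith))
    linarith
  have hc2 : q.c ^ 2 = q.h * (8 * q.c) := by rw [hh]; ring
  have hhn : 0 < q.h * q.n := mul_pos hh0 hn
  refine ⟨?_, ?_, ?_⟩
  · rw [hq0s, le_div_iff₀ hhn]
    refine le_trans ?_ u2
    have m1 : q.h * (1 - 89 * q.c) ≤ q.h * q.th / (1 - 2 * q.h) - 11 * q.c ^ 2 := by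
      rw [hc2]
      have : q.h * (1 - 89 * q.c) = q.h * (1 - q.c) - 11 * (q.h * (8 * q.c)) := by ring
      rw [this]
      linarith
    have m2 : 0 ≤ q.h * (1 - 89 * q.c) := mul_nonneg hh0.le (by linarith)
    have m3 : 99 / 100 * (q.W : ℝ) ≤ q.S - 1 := by
      have h20 : (10:ℝ) ^ 20 = 100000000000000000000 := by norm_num
      rw [h20] at hWbig
      linarith
    have m4 : q.h * (1 - 89 * q.c) * (99 / 100 * (q.W : ℝ)) ≤
        (q.h * q.th / (1 - 2 * q.h) - 11 * q.c ^ 2) * (q.S - 1) :=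
      mul_le_mul m1 m3 (by positivity) (m2.trans m1)
    refine le_trans ?_ m4
    rw [homW]
    have m5 : 9 / 10 * q.om * (q.h * q.n) = (q.h * (q.om * q.n)) * (9 / 10) := by ring
    have m6 : q.h * (1 - 89 * q.c) * (99 / 100 * (q.om * q.n)) =
        (q.h * (q.om * q.n)) * ((1 - 89 * q.c) * (99 / 100)) := by ring
    rw [m5, m6]
    exact mul_le_mul_of_nonneg_left (by linarith) (by positivity)
  · rw [hq0s, div_le_iff₀ hhn]
    refine u1.trans ?_
    have m1 : q.h * q.th / (1 - 2 * q.h) + 5 * q.c ^ 2 ≤ q.h * (1 + 40 * q.c) := by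
      rw [hc2]
      have : q.h * (1 + 40 * q.c) = q.h + 5 * (q.h * (8 * q.c)) := by ring
      rw [this]
      linarith
    have m3 : (q.S : ℝ) - 1 ≤ 2 * q.W := by linarith
    have m4 : (q.h * q.th / (1 - 2 * q.h) + 5 * q.c ^ 2) * (q.S - 1) ≤
        q.h * (1 + 40 * q.c) * (2 * q.W) :=
      mul_le_mul m1 m3 S3.le (by positivity)
    refine m4.trans ?_
    rw [homW]
    have m5 : 21 / 10 * q.om * (q.h * q.n) = (q.h * (q.om * q.n)) * (21 / 10) := by ring
    have m6 : q.h * (1 + 40 * q.c) * (2 * (q.om * q.n)) =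
        (q.h * (q.om * q.n)) * ((1 + 40 * q.c) * 2) := by ring
    rw [m5, m6]
    exact mul_le_mul_of_nonneg_left (by linarith) (by positivity)
  · unfold q0s
    rw [ind_neg (by simp), zero_mul]

theorem q0s_col (hq : q.Par) (i : ℕ) (hi : i < q.K) :
    ∑ s : Bool, ∑ r ∈ range q.R, q.be * q.q0s i s r = q.needs i := by
  obtain ⟨be0, -, -, hbeR, -, -⟩ := f_be hq
  obtain ⟨R0, -, -⟩ := QBB_R hq
  rw [Fintype.sum_bool]
  have h1 : ∀ r ∈ range q.R, q.be * q.q0s i false r = 0 := by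
    intro r _
    rw [(q0s_bounds hq i hi r).2.2, mul_zero]
  have h2 : ∀ r ∈ range q.R, q.be * q.q0s i true r = q.needs i / q.R := by
    intro r _
    unfold q0s
    rw [ind_pos rfl, one_mul]
    field_simp
  rw [Finset.sum_congr rfl h1, Finset.sum_congr rfl h2, Finset.sum_const_zero, Finset.sum_const,
    Finset.card_range, nsmul_eq_mul, add_zero]
  field_simp

end PQ

end Pool.Agent.H2.HV
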