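import Mathlib
import Pool.Agent.H2.HV.QBB

/-!
MKA (about 220 lines). The three kinds of distributions.

Sums over Option (Fin (K+P)): Fintype.sum_option, Fin.sum_univ_eq_sum_range / Finset.sum_range, Jn = K + P.
piA_sum: om/Om · (ws + Σ_j ind(¬zn i j ∧ ¬zn i' j) wj) = 1: the bracket is Om/om since ind(¬a ∧ ¬b) = 1 - ind a - ind b + ind(a ∧ b); Om > 0 (d3), om > 0.
piA bounds: Om ≥ 1 - 10c² ≥ 9/10; wj ≤ 1/Db ≤ 1.01 (wj_one, f_Db), wj > 0; ws ≤ (S/W)/Db ≤ 2.02 (ws_bounds, f_S), ws > 0.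
piM_sum: qb_row, tauB > 0. piM bounds: qb ∈ [0.7 om, 1.3 om] or 0 (qb_bounds, qb_off), tauB ∈ [3/4, 1], q0s_bounds.
piB: nAv ≥ (1-c)/om > 0 (nAv_lo).
-/

set_option autoImplicit false
set_option linter.unusedVariables false

namespace Pool.Agent.H2.HV

open Finset

namespace PQ

variable {q : PQ}

private theorem MKA_opt (N : ℕ) (f : Option ℕ → ℝ) :
    ∑ t : Option (Fin N), f (oj t) = f none + ∑ j ∈ range N, f (some j) := by
  rw [Fintype.sum_option, Finset.sum_range (fun j => f (some j))]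
  rfl

private theorem MKA_ind (a b : Prop) : ind (¬ a ∧ ¬ b) = 1 - ind a - ind b + ind (a ∧ b) := by
  by_cases ha : a <;> by_cases hb : b <;> simp [ind, ha, hb]

private theorem MKA_sum (i i' : ℕ) :
    ∑ j ∈ range q.Jn, ind (¬ q.zn i j ∧ ¬ q.zn i' j) * q.wj j =
      (∑ j ∈ range q.Jn, q.wj j) - q.Zs i - q.Zs i' + q.Os i i' := by
  unfold Zs Os
  rw [← Finset.sum_sub_distrib, ← Finset.sum_sub_distrib, ← Finset.sum_add_distrib]
  refine Finset.sum_congr rfl fun j _ => ?_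
  rw [MKA_ind]
  ring

private theorem MKA_Om (hq : q.Par) (i i' : ℕ) (hi : i < q.K) (hi' : i' < q.K) :
    9 / 10 ≤ q.Om i i' := by
  obtain ⟨h1, h2, -, -⟩ := f_c hq
  have h3 := d3 hq i i' hi hi'
  have h4 : q.c ^ 2 ≤ 1 / 100 := by
    have h5 : q.c ≤ 1 / 10 := by
      refine h2.trans ?_
      norm_num
    nlinarith
  linarith

private theorem MKA_le (a b om k : ℝ) (hb : 0 < b) (h : a ≤ k * b) (hom : 0 < om) :
    om * a / b ≤ k * om := by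
  rw [div_le_iff₀ hb]
  nlinarith

theorem piA_sum (hq : q.Par) (i i' : ℕ) (hi : i < q.K) (hi' : i' < q.K) :
    ∑ t : Option (Fin (q.K + q.P)), q.piA i i' (oj t) = 1 := by
  have hO : 0 < q.Om i i' := lt_of_lt_of_le (by norm_num) (MKA_Om hq i i' hi hi')
  rw [MKA_opt (q.K + q.P) (q.piA i i')]
  show q.om * q.ws / q.Om i i' + ∑ j ∈ range q.Jn,
    ind (¬ q.zn i j ∧ ¬ q.zn i' j) * (q.om * q.wj j / q.Om i i') = 1
  have h1 : ∑ j ∈ range q.Jn, ind (¬ q.zn i j ∧ ¬ q.zn i' j) * (q.om * q.wj j / q.Om i i') =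
      q.om / q.Om i i' * (∑ j ∈ range q.Jn, ind (¬ q.zn i j ∧ ¬ q.zn i' j) * q.wj j) := by
    rw [Finset.mul_sum]
    refine Finset.sum_congr rfl fun j _ => ?_
    ring
  have h2 : q.Om i i' =
      q.om * ((∑ j ∈ range q.Jn, q.wj j) + q.ws - q.Zs i - q.Zs i' + q.Os i i') := rfl
  rw [h1, MKA_sum, div_mul_eq_mul_div, ← add_div, div_eq_one_iff_eq hO.ne', h2]
  ring

theorem Om_symm (i i' : ℕ) : q.Om i i' = q.Om i' i := by
  have h : q.Os i i' = q.Os i' i := by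
    unfold Os
    refine Finset.sum_congr rfl fun j _ => ?_
    rw [ind_congr (and_comm (a := q.zn i j) (b := q.zn i' j))]
  unfold Om
  rw [h]
  ring

theorem piA_bounds (hq : q.Par) (i i' : ℕ) (hi : i < q.K) (hi' : i' < q.K) :
    (∀ j, j < q.Jn → 0 ≤ q.piA i i' (some j) ∧ q.piA i i' (some j) ≤ 3 * q.om) ∧
      0 ≤ q.piA i i' none ∧ q.piA i i' none ≤ 6 * q.om := by
  obtain ⟨hc0, hc1, hom, -⟩ := f_c hq
  have hO9 := MKA_Om hq i i' hi hi'
  have hO : 0 < q.Om i i' := lt_of_lt_of_le (by norm_num) hO9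
  obtain ⟨hD1, -, -⟩ := f_Db hq
  have hD : 9 / 10 ≤ q.Db := by
    have h5 : q.c ≤ 1 / 100 := by
      refine hc1.trans ?_
      norm_num
    linarith
  refine ⟨?_, ?_, ?_⟩
  · intro j hj
    have hw0 := wj_pos hq j hj
    have hw1 := wj_one hq j hj
    have hw : q.wj j ≤ 3 * q.Om i i' := by nlinarith
    show 0 ≤ ind (¬ q.zn i j ∧ ¬ q.zn i' j) * (q.om * q.wj j / q.Om i i') ∧
      ind (¬ q.zn i j ∧ ¬ q.zn i' j) * (q.om * q.wj j / q.Om i i') ≤ 3 * q.om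
    have h0 : 0 ≤ q.om * q.wj j / q.Om i i' := div_nonneg (mul_nonneg hom.le hw0.le) hO.le
    have h1 : q.om * q.wj j / q.Om i i' ≤ 3 * q.om := MKA_le _ _ _ _ hO hw hom
    refine ⟨mul_nonneg (ind_nonneg _) h0, ?_⟩
    refine (mul_le_of_le_one_left h0 (ind_le_one _)).trans h1
  · obtain ⟨h1, h2, -⟩ := ws_bounds hq
    exact div_nonneg (mul_nonneg hom.le h1.le) hO.le
  · obtain ⟨h1, h2, -⟩ := ws_bounds hq
    obtain ⟨-, h3, -⟩ := f_S hq
    have hw : q.ws ≤ 6 * q.Om i i' := by nlinarith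
    exact MKA_le _ _ _ _ hO hw hom

theorem piM_sum (hq : q.Par) (i : ℕ) (hi : i < q.K) (s : Bool) (r : ℕ) (hr : r < q.R) :
    ∑ t : Option (Fin (q.K + q.P)), q.piM i s r (oj t) = 1 := by
  obtain ⟨h1, -⟩ := tauB_bounds hq i s r
  have h2 : 0 < q.tauB i s r := lt_of_lt_of_le (by norm_num) h1
  rw [MKA_opt (q.K + q.P) (q.piM i s r)]
  show q.q0s i s r / q.tauB i s r + ∑ j ∈ range q.Jn, q.qb i s r j / q.tauB i s r = 1
  rw [← Finset.sum_div, ← add_div, add_comm, qb_row hq i hi s r hr, div_self h2.ne']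

private theorem MKA_qb (hq : q.Par) (i : ℕ) (hi : i < q.K) (s : Bool) (r : ℕ) (hr : r < q.R)
    (j : ℕ) (hj : j < q.Jn) : 0 ≤ q.qb i s r j ∧ q.qb i s r j ≤ 13 / 10 * q.om := by
  obtain ⟨hc0, hc1, hom, -⟩ := f_c hq
  by_cases h : ¬ q.zn i j ∧ q.av s r j
  · obtain ⟨h1, h2⟩ := qb_bounds hq i hi s r hr j hj h.1 h.2
    exact ⟨by linarith, h2⟩
  · rw [qb_off hq i s r j h]
    exact ⟨le_rfl, by linarith⟩

private theorem MKA_div (a b om k l : ℝ) (hb : 3 / 4 ≤ b) (h0 : 0 ≤ a) (h : a ≤ k * om)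
    (hk : k ≤ 3 / 4 * l) (hom : 0 < om) : 0 ≤ a / b ∧ a / b ≤ l * om := by
  have hb0 : 0 < b := lt_of_lt_of_le (by norm_num) hb
  refine ⟨div_nonneg h0 hb0.le, ?_⟩
  rw [div_le_iff₀ hb0]
  have h1 : k * om ≤ 3 / 4 * l * om := mul_le_mul_of_nonneg_right hk hom.le
  have h2 : 0 ≤ l * om := by nlinarith
  have h3 : l * om * (3 / 4) ≤ l * om * b := mul_le_mul_of_nonneg_left hb h2
  linarith

private theorem MKA_lo (a b om k : ℝ) (hb0 : 3 / 4 ≤ b) (hb : b ≤ 1) (h : k * om ≤ a)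
    (hk : 1 / 3 ≤ k) (hom : 0 < om) : om / 3 ≤ a / b := by
  have hb1 : 0 < b := lt_of_lt_of_le (by norm_num) hb0
  rw [le_div_iff₀ hb1]
  have h1 : om / 3 * b ≤ om / 3 * 1 := mul_le_mul_of_nonneg_left hb (by positivity)
  have h2 : 1 / 3 * om ≤ k * om := mul_le_mul_of_nonneg_right hk hom.le
  linarith

theorem piM_bounds (hq : q.Par) (i : ℕ) (hi : i < q.K) (s : Bool) (r : ℕ) (hr : r < q.R) :
    (∀ j, j < q.Jn → 0 ≤ q.piM i s r (some j) ∧ q.piM i s r (some j) ≤ 3 * q.om) ∧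
      0 ≤ q.piM i s r none ∧ q.piM i s r none ≤ 6 * q.om ∧
      (∀ j, j < q.Jn → ¬ q.zn i j → q.av s r j → q.om / 3 ≤ q.piM i s r (some j)) ∧
      (s = true → q.om / 3 ≤ q.piM i s r none) ∧ (s = false → q.piM i s r none = 0) ∧
      (∀ j, ¬ (¬ q.zn i j ∧ q.av s r j) → q.piM i s r (some j) = 0) := by
  obtain ⟨hc0, hc1, hom, -⟩ := f_c hq
  obtain ⟨h1, h2⟩ := tauB_bounds hq i s r
  obtain ⟨g1, g2, g3⟩ := q0s_bounds hq i hi r
  have hs : 0 ≤ q.q0s i s r ∧ q.q0s i s r ≤ 21 / 10 * q.om := by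
    cases s with
    | true => exact ⟨by linarith, g2⟩
    | false => rw [g3]; exact ⟨le_rfl, by linarith⟩
  obtain ⟨k1, k2⟩ := MKA_div _ _ q.om (21 / 10) 6 h1 hs.1 hs.2 (by norm_num) hom
  refine ⟨?_, k1, k2, ?_, ?_, ?_, ?_⟩
  · intro j hj
    obtain ⟨m1, m2⟩ := MKA_qb hq i hi s r hr j hj
    exact MKA_div _ _ q.om (13 / 10) 3 h1 m1 m2 (by norm_num) hom
  · intro j hj hz ha
    obtain ⟨m1, m2⟩ := qb_bounds hq i hi s r hr j hj hz ha
    exact MKA_lo _ _ q.om (7 / 10) h1 h2 m1 (by norm_num) hom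
  · intro hst
    subst hst
    exact MKA_lo _ _ q.om (9 / 10) h1 h2 g1 (by norm_num) hom
  · intro hst
    subst hst
    show q.q0s i false r / q.tauB i false r = 0
    rw [g3, zero_div]
  · intro j hj
    show q.qb i s r j / q.tauB i s r = 0
    rw [qb_off hq i s r j hj, zero_div]

private theorem MKA_nAv (hq : q.Par) (s : Bool) (r : ℕ) (s' : Bool) (r' : ℕ) (hr : r < q.R)
    (hr' : r' < q.R) : 0 < q.nAv s r s' r' ∧ 1 / 2 ≤ q.om * q.nAv s r s' r' := by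
  obtain ⟨hc0, hc1, hom, -⟩ := f_c hq
  have h1 := nAv_lo hq s r s' r' hr hr'
  have h5 : q.c ≤ 1 / 2 := by
    refine hc1.trans ?_
    norm_num
  have h6 : 0 < (1 - q.c) / q.om := div_pos (by linarith) hom
  refine ⟨lt_of_lt_of_le h6 h1, ?_⟩
  rw [div_le_iff₀ hom] at h1
  linarith

theorem piB_sum (hq : q.Par) (s : Bool) (r : ℕ) (s' : Bool) (r' : ℕ) (hr : r < q.R)
    (hr' : r' < q.R) : ∑ t : Option (Fin (q.K + q.P)), q.piB s r s' r' (oj t) = 1 := by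
  obtain ⟨h1, -⟩ := MKA_nAv hq s r s' r' hr hr'
  rw [MKA_opt (q.K + q.P) (q.piB s r s' r')]
  show (0 : ℝ) + ∑ j ∈ range q.Jn, ind (q.av s r j ∧ q.av s' r' j) / q.nAv s r s' r' = 1
  rw [← Finset.sum_div, zero_add]
  exact div_self h1.ne'

theorem piB_bounds (hq : q.Par) (s : Bool) (r : ℕ) (s' : Bool) (r' : ℕ) (hr : r < q.R)
    (hr' : r' < q.R) (j : ℕ) :
    0 ≤ q.piB s r s' r' (some j) ∧ q.piB s r s' r' (some j) ≤ 3 * q.om := by
  obtain ⟨h1, h2⟩ := MKA_nAv hq s r s' r' hr hr'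
  show 0 ≤ ind (q.av s r j ∧ q.av s' r' j) / q.nAv s r s' r' ∧
    ind (q.av s r j ∧ q.av s' r' j) / q.nAv s r s' r' ≤ 3 * q.om
  refine ⟨div_nonneg (ind_nonneg _) h1.le, ?_⟩
  rw [div_le_iff₀ h1]
  refine (ind_le_one _).trans ?_
  linarith

end PQ

end Pool.Agent.H2.HV
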