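import Mathlib
import Pool.Agent.H2.HV.QBB

/-!
LDS (about 180 lines). The loads of the slack classes.

tight part: Σ_i m ind(¬zn) qb = Σ_i m ind q0 + Σ_i m ind cor. m = mu n. Σ_i m ind(¬ zn) need/(be nB) ≤ n W sj h th/(be nB) (need_avg) and be nB ≥ sj ht (1 - 3/R), ht = h n: ≤ W th (1 + 4/R).
 cor part ≤ (Σ_i m) 0.568 c om ind(middle) ≤ n·0.568 c om = 0.568 c W in the middle, 0 at the ends (m K ≤ n).
slack part: Σ_{s',r'} be ind(av ∧ av')/nAv ≤ be · nB · om/(1-c) ≤ sj ht om (1+2c) = sj h W (1+2c), h = c/8.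
Total, middle (sj = 2): W[(1-c)(1+4/R) + 0.568 c + 0.25 c (1+2c)] ≤ W (1 - c/10); ends: W[(1-c)(1+4/R) + 0.125c(1+2c)] ≤ W(1-c/10). (4/R ≤ 264 om/c ≤ 3·10^-6 c.)
star: Σ_i m q0s ≤ n (S-1) h th/ht = (S-1) th ≤ (S-1)(1 - c/10) (needs_avg, be R = ht).
-/

set_option autoImplicit false
set_option linter.unusedVariables false

namespace Pool.Agent.H2.HV

open Finset

namespace PQ

variable {q : PQ}

theorem LDS_om (hq : q.Par) : (q.n : ℝ) * q.om = q.W := by
  have hn : (0:ℝ) < q.n := by exact_mod_cast (f_nat hq).1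
  unfold om
  field_simp

theorem LDS_R (hq : q.Par) : (10:ℝ) ^ 6 < q.R := by
  exact_mod_cast (f_nat hq).2.2.2.2.1

/-- `be nB` from below -/
theorem LDS_nB (hq : q.Par) (j : ℕ) (hj : j < q.Jn) :
    q.sj j * q.ht ≤ (1 + 4 / q.R) * (q.be * q.nB j) ∧ 0 < q.be * q.nB j := by
  obtain ⟨hbe, -, -, hbR, -, -⟩ := f_be hq
  have hR := LDS_R hq
  have hR0 : (0:ℝ) < q.R := by linarith
  obtain ⟨h1, -⟩ := nB_bounds hq j hj
  obtain ⟨hs1, hs2⟩ := sj_bounds (q := q) j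
  have hs0 : 0 < q.sj j := by linarith
  have h2 : q.be * (q.sj j * (q.R - 3)) ≤ q.be * q.nB j := mul_le_mul_of_nonneg_left h1 hbe.le
  have h3 : 0 < q.be * (q.sj j * (q.R - 3)) := by
    have : (0:ℝ) < q.R - 3 := by linarith
    positivity
  refine ⟨?_, by linarith⟩
  have h4 : (1 + 4 / (q.R : ℝ)) * (q.be * (q.sj j * (q.R - 3))) ≤
      (1 + 4 / (q.R : ℝ)) * (q.be * q.nB j) :=
    mul_le_mul_of_nonneg_left h2 (by positivity)
  refine le_trans ?_ h4
  have h5 : (1 + 4 / (q.R : ℝ)) * (q.be * (q.sj j * (q.R - 3))) =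
      q.sj j * (q.be * q.R) + q.sj j * q.be * ((q.R - 12) / q.R) := by
    field_simp
    ring
  rw [h5, hbR]
  have h6 : 0 ≤ q.sj j * q.be * (((q.R : ℝ) - 12) / q.R) := by
    have : (0:ℝ) ≤ q.R - 12 := by linarith
    positivity
  linarith

theorem LDS_q0 (hq : q.Par) (s : Bool) (r : ℕ) (j : ℕ) (hj : j < q.Jn)
    (ha : q.av s r j) :
    ∑ i ∈ range q.K, q.m * q.q0 i s r j ≤ q.W * (q.th * (1 + 4 / q.R)) := by
  obtain ⟨h1, h2⟩ := LDS_nB hq j hj
  obtain ⟨hm0, hmn, -, -, hht, hmu⟩ := f_m hq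
  have hn : (0:ℝ) < q.n := by exact_mod_cast (f_nat hq).1
  have hW : (0:ℝ) < q.W := by exact_mod_cast (f_nat hq).2.2.1
  obtain ⟨hc0, hc1, -, -⟩ := f_c hq
  have hth : 0 < q.th := by unfold th; linarith
  have h3 : ∑ i ∈ range q.K, q.m * q.q0 i s r j =
      q.n / (q.be * q.nB j) * (q.mu * ∑ i ∈ range q.K, ind (¬ q.zn i j) * q.need i j) := by
    rw [Finset.mul_sum, Finset.mul_sum]
    refine Finset.sum_congr rfl fun i _ => ?_
    unfold q0
    rw [ind_congr (show (¬ q.zn i j ∧ q.av s r j) ↔ ¬ q.zn i j from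
      ⟨fun h => h.1, fun h => ⟨h, ha⟩⟩), hmn]
    field_simp
  rw [h3]
  have h4 := need_avg hq j hj
  have h5 : 0 < (q.n : ℝ) / (q.be * q.nB j) := by positivity
  refine le_trans (mul_le_mul_of_nonneg_left h4 h5.le) ?_
  rw [div_mul_eq_mul_div, div_le_iff₀ h2]
  have h6 : (q.n : ℝ) * (q.W * (q.sj j * q.h * q.th)) = q.W * q.th * (q.sj j * q.ht) := by
    rw [hht]
    ring
  rw [h6]
  have h7 := mul_le_mul_of_nonneg_left h1 (mul_pos hW hth).le
  calc q.W * q.th * (q.sj j * q.ht) ≤ q.W * q.th * ((1 + 4 / q.R) * (q.be * q.nB j)) := h7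
    _ = q.W * (q.th * (1 + 4 / q.R)) * (q.be * q.nB j) := by ring

theorem LDS_mK (hq : q.Par) : q.K * q.m ≤ q.n := by
  obtain ⟨hm0, hmn, hmK, -, hht, hmu⟩ := f_m hq
  have h1 : 0 ≤ q.ht := by
    unfold ht
    positivity
  rw [mul_comm, hmK]
  linarith

theorem LDS_cor (hq : q.Par) (s : Bool) (r : ℕ) (hr : r < q.R) (j : ℕ) :
    ∑ i ∈ range q.K, q.m * q.cor i s r j ≤
      568 / 1000 * q.c * q.W * ind (q.jL ≤ j ∧ j + q.jL < q.Jn) := by
  obtain ⟨hm0, hmn, -, -, hht, hmu⟩ := f_m hq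
  obtain ⟨hc0, hc1, hom, -⟩ := f_c hq
  have h1 : ∑ i ∈ range q.K, q.m * q.cor i s r j ≤
      ∑ i ∈ range q.K, q.m * (568 / 1000 * q.c * q.om * ind (q.jL ≤ j ∧ j + q.jL < q.Jn)) := by
    refine Finset.sum_le_sum fun i hi => ?_
    exact mul_le_mul_of_nonneg_left (cor_up hq i (Finset.mem_range.1 hi) s r hr j) hm0.le
  refine le_trans h1 ?_
  rw [Finset.sum_const, Finset.card_range, nsmul_eq_mul, ← mul_assoc]
  have h2 : 0 ≤ 568 / 1000 * q.c * q.om * ind (q.jL ≤ j ∧ j + q.jL < q.Jn) :=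
    mul_nonneg (by positivity) (ind_nonneg _)
  refine le_trans (mul_le_mul_of_nonneg_right (LDS_mK hq) h2) ?_
  have h3 := LDS_om hq
  have h4 : (q.n : ℝ) * (568 / 1000 * q.c * q.om * ind (q.jL ≤ j ∧ j + q.jL < q.Jn)) =
      568 / 1000 * q.c * (q.n * q.om) * ind (q.jL ≤ j ∧ j + q.jL < q.Jn) := by ring
  rw [h4, h3]

theorem LDS_slack (hq : q.Par) (s : Bool) (r : ℕ) (hr : r < q.R) (j : ℕ) (hj : j < q.Jn) :
    (∑ s' : Bool, ∑ r' ∈ range q.R, q.be * (ind (q.av s r j ∧ q.av s' r' j) / q.nAv s r s' r'))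
      ≤ q.sj j * (q.c / 8) * q.W * (1 + 2 * q.c) := by
  obtain ⟨hbe, -, -, hbR, -, -⟩ := f_be hq
  obtain ⟨hc0, hc1, hom, -⟩ := f_c hq
  obtain ⟨hm0, hmn, -, -, hht, hmu⟩ := f_m hq
  have hW : (0:ℝ) < q.W := by exact_mod_cast (f_nat hq).2.2.1
  have hc' : 0 < 1 - q.c := by linarith
  have h1 : (∑ s' : Bool, ∑ r' ∈ range q.R, q.be * (ind (q.av s r j ∧ q.av s' r' j) /
      q.nAv s r s' r')) ≤ ∑ s' : Bool, ∑ r' ∈ range q.R, q.be * (q.om / (1 - q.c)) *
        ind (q.av s' r' j) := by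
    refine Finset.sum_le_sum fun s' _ => Finset.sum_le_sum fun r' hr' => ?_
    have h2 := nAv_lo hq s r s' r' hr (Finset.mem_range.1 hr')
    have h3 : 0 < (1 - q.c) / q.om := by positivity
    have h4 : ind (q.av s r j ∧ q.av s' r' j) / q.nAv s r s' r' ≤
        ind (q.av s' r' j) / ((1 - q.c) / q.om) := by
      refine div_le_div₀ (ind_nonneg _) (ind_mono fun h => h.2) h3 h2
    have h5 : ind (q.av s' r' j) / ((1 - q.c) / q.om) = (q.om / (1 - q.c)) * ind (q.av s' r' j) := by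
      field_simp
    rw [h5] at h4
    have h6 := mul_le_mul_of_nonneg_left h4 hbe.le
    rw [← mul_assoc] at h6
    exact h6
  refine le_trans h1 ?_
  have h7 : (∑ s' : Bool, ∑ r' ∈ range q.R, q.be * (q.om / (1 - q.c)) *
        ind (q.av s' r' j)) = q.be * (q.om / (1 - q.c)) * q.nB j := by
    unfold nB
    rw [Finset.mul_sum]
    refine Finset.sum_congr rfl fun s' _ => ?_
    rw [Finset.mul_sum]
  rw [h7]
  have h8 := (nB_bounds hq j hj).2
  have hk : 0 ≤ q.be * (q.om / (1 - q.c)) := by positivity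
  refine le_trans (mul_le_mul_of_nonneg_left h8 hk) ?_
  have h9 : q.be * (q.om / (1 - q.c)) * (q.sj j * q.R) =
      q.sj j * (q.be * q.R) * q.om / (1 - q.c) := by
    field_simp
  rw [h9, hbR, hht]
  have h10 : q.sj j * (q.h * q.n) * q.om = q.sj j * (q.c / 8) * q.W := by
    rw [← LDS_om hq]
    unfold h
    ring
  rw [h10, div_le_iff₀ hc']
  have h11 : 0 ≤ q.sj j * (q.c / 8) * q.W := by
    have := (sj_bounds (q := q) j).1
    positivity
  have h12 : 1 ≤ (1 + 2 * q.c) * (1 - q.c) := by nlinarith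
  calc q.sj j * (q.c / 8) * q.W ≤ q.sj j * (q.c / 8) * q.W * ((1 + 2 * q.c) * (1 - q.c)) :=
        le_mul_of_one_le_right h11 h12
    _ = q.sj j * (q.c / 8) * q.W * (1 + 2 * q.c) * (1 - q.c) := by ring

theorem load_block (hq : q.Par) (s : Bool) (r : ℕ) (hr : r < q.R) (j : ℕ) (hj : j < q.Jn)
    (ha : q.av s r j) :
    (∑ i ∈ range q.K, q.m * q.qb i s r j) +
      (∑ s' : Bool, ∑ r' ∈ range q.R, q.be * (ind (q.av s r j ∧ q.av s' r' j) / q.nAv s r s' r'))
      ≤ q.W * (1 - q.c / 10) := by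
  have h1 : (∑ i ∈ range q.K, q.m * q.qb i s r j) =
      (∑ i ∈ range q.K, q.m * q.q0 i s r j) + ∑ i ∈ range q.K, q.m * q.cor i s r j := by
    rw [← Finset.sum_add_distrib]
    refine Finset.sum_congr rfl fun i _ => ?_
    unfold qb
    ring
  rw [h1]
  have h2 := LDS_q0 hq s r j hj ha
  have h3 := LDS_cor hq s r hr j
  have h4 := LDS_slack hq s r hr j hj
  obtain ⟨hc0, hc1, hom, hom2⟩ := f_c hq
  have hW : (0:ℝ) < q.W := by exact_mod_cast (f_nat hq).2.2.1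
  have hR := (f_R hq).2.2.1
  have h5 : (4:ℝ) / q.R ≤ q.c / 1000 := by
    refine le_trans hR ?_
    rw [div_le_iff₀ hc0]
    nlinarith
  have hR0 : (0:ℝ) ≤ 4 / q.R := by positivity
  have h6 : q.th * (1 + 4 / q.R) ≤ 1 - q.c + q.c / 1000 := by
    unfold th
    nlinarith
  have h7 : q.W * (q.th * (1 + 4 / q.R)) ≤ q.W * (1 - q.c + q.c / 1000) :=
    mul_le_mul_of_nonneg_left h6 hW.le
  by_cases hmid : q.jL ≤ j ∧ j + q.jL < q.Jn
  · have hsj : q.sj j = 2 := by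
      unfold sj
      rw [ind_pos hmid]
      norm_num
    rw [hsj] at h4
    rw [ind_pos hmid] at h3
    have h8 : 2 * (q.c / 8) * (q.W : ℝ) * (1 + 2 * q.c) ≤ q.W * (q.c / 4 + q.c / 1000) := by
      have e : 2 * (q.c / 8) * (q.W : ℝ) * (1 + 2 * q.c) = q.W * (q.c / 4 + q.c * q.c / 2) := by
        ring
      rw [e]
      refine mul_le_mul_of_nonneg_left ?_ hW.le
      nlinarith
    have hcW : 0 < q.c * q.W := by positivity
    have e1 : (q.W : ℝ) * (1 - q.c + q.c / 1000) = q.W - 999 / 1000 * (q.c * q.W) := by ring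
    have e2 : 568 / 1000 * q.c * (q.W : ℝ) * 1 = 568 / 1000 * (q.c * q.W) := by ring
    have e3 : (q.W : ℝ) * (q.c / 4 + q.c / 1000) = 251 / 1000 * (q.c * q.W) := by ring
    have e4 : (q.W : ℝ) * (1 - q.c / 10) = q.W - 1 / 10 * (q.c * q.W) := by ring
    rw [e4]
    rw [e1] at h7
    rw [e2] at h3
    rw [e3] at h8
    linarith
  · have hsj : q.sj j = 1 := by
      unfold sj
      rw [ind_neg hmid]
      norm_num
    rw [hsj] at h4
    rw [ind_neg hmid] at h3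
    have h8 : 1 * (q.c / 8) * (q.W : ℝ) * (1 + 2 * q.c) ≤ q.W * (q.c / 8 + q.c / 1000) := by
      have e : 1 * (q.c / 8) * (q.W : ℝ) * (1 + 2 * q.c) = q.W * (q.c / 8 + q.c * q.c / 4) := by
        ring
      rw [e]
      refine mul_le_mul_of_nonneg_left ?_ hW.le
      nlinarith
    have hcW : 0 < q.c * q.W := by positivity
    have e1 : (q.W : ℝ) * (1 - q.c + q.c / 1000) = q.W - 999 / 1000 * (q.c * q.W) := by ring
    have e3 : (q.W : ℝ) * (q.c / 8 + q.c / 1000) = 126 / 1000 * (q.c * q.W) := by ring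
    have e4 : (q.W : ℝ) * (1 - q.c / 10) = q.W - 1 / 10 * (q.c * q.W) := by ring
    rw [e4]
    rw [e1] at h7
    rw [e3] at h8
    linarith

theorem load_star (hq : q.Par) (s : Bool) (r : ℕ) (hr : r < q.R) :
    ∑ i ∈ range q.K, q.m * q.q0s i s r ≤ (q.S - 1) * (1 - q.c / 10) := by
  obtain ⟨hc0, hc1, hom, hom2⟩ := f_c hq
  have hS : (0:ℝ) < q.S - 1 := (f_S hq).2.2.1
  obtain ⟨hbe, -, -, hbR, -, -⟩ := f_be hq
  obtain ⟨hm0, hmn, -, -, hht, hmu⟩ := f_m hq
  have hn : (0:ℝ) < q.n := by exact_mod_cast (f_nat hq).1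
  have hh : 0 < q.h := by unfold h; positivity
  cases s with
  | false =>
    have h1 : ∑ i ∈ range q.K, q.m * q.q0s i false r = 0 := by
      refine Finset.sum_eq_zero fun i _ => ?_
      unfold q0s
      rw [ind_neg (by simp), zero_mul, mul_zero]
    rw [h1]
    have : 0 < 1 - q.c / 10 := by linarith
    positivity
  | true =>
    have h1 : ∑ i ∈ range q.K, q.m * q.q0s i true r =
        1 / q.h * (q.mu * ∑ i ∈ range q.K, q.needs i) := by
      rw [Finset.mul_sum, Finset.mul_sum]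
      refine Finset.sum_congr rfl fun i _ => ?_
      unfold q0s
      rw [ind_pos rfl, hbR, hht, hmn]
      field_simp
    rw [h1]
    have h2 := needs_avg hq
    have h3 : 0 < 1 / q.h := by positivity
    refine le_trans (mul_le_mul_of_nonneg_left h2 h3.le) ?_
    have h4 : 1 / q.h * ((q.S - 1) * (q.h * q.th)) = (q.S - 1) * q.th := by
      field_simp
    rw [h4]
    refine mul_le_mul_of_nonneg_left ?_ hS.le
    unfold th
    linarith

end PQ

end Pool.Agent.H2.HV
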