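import Mathlib
import Pool.Agent.H2.HV.LDS

/-!
MKB (about 220 lines). The mean loads of the concrete schedule D = q.D hR.

Sums over Fin K ⊕ (Bool × Fin R): Fintype.sum_sum_type, Fintype.sum_prod_type, Fin.sum_univ_eq_sum_range (Finset.sum_range).
tau_D: D.tau z (inl i) (inr b) = tauB i b.1 b.2: zp (inl i) (inr b) iff b = un i = (decide (2i<K), i % R) iff isU i b.1 b.2 (decide_eq_true_iff; for s = false use Bool cases);
 tau (inl) (inl) = 1, tau (inr) (inr) = 1 (zp needs one of each kind), tau (inr b) (inl i) = tauB i b.1 b.2.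
Lam_tight: Σ_{i'} m piA + Σ_b be tauB piM = W wj mu Σ_{i'} ind(¬zn i' j)/Om + Σ_b be qb = W for ¬ zn i j (m om = mu W by f_m; tauB ≠ 0; qb_col; definition of need).
Lam_tight_star: same with ws, 1/Om, q0s_col, needs: S - 1.
Lam_slack: Σ_i m tauB piM + Σ_b' be piB = left side of load_block. Star: load_star (piB none = 0).
-/

set_option autoImplicit false
set_option linter.unusedVariables false

namespace Pool.Agent.H2.HV

open Finset

namespace PQ

variable {q : PQ}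

theorem MKB_zp (hR : 0 < q.R) (i : Fin q.K) (b : Bool × Fin q.R) :
    ((q.D hR).un i = b) ↔ q.isU i b.1 b.2 := by
  obtain ⟨s, r⟩ := b
  have h0 : (q.D hR).un i = (decide (2 * (i : ℕ) < q.K), ⟨(i : ℕ) % q.R, Nat.mod_lt _ hR⟩) := rfl
  rw [h0, Prod.mk.injEq, Fin.ext_iff]
  unfold isU
  constructor
  · rintro ⟨h1, h2⟩
    refine ⟨?_, h2⟩
    show (s = true) ↔ _
    rw [← h1]
    exact decide_eq_true_iff
  · rintro ⟨h1, h2⟩
    refine ⟨?_, h2⟩
    have h1' : (s = true) ↔ 2 * (i : ℕ) < q.K := h1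
    cases s with
    | true => exact decide_eq_true (h1'.1 rfl)
    | false =>
      refine decide_eq_false fun h => ?_
      exact absurd (h1'.2 h) (by simp)

theorem tau_D (hq : q.Par) (hR : 0 < q.R) (i : Fin q.K) (b : Bool × Fin q.R) :
    (q.D hR).tau q.z (Sum.inl i) (Sum.inr b) = q.tauB i b.1 b.2 ∧
      (q.D hR).tau q.z (Sum.inr b) (Sum.inl i) = q.tauB i b.1 b.2 := by
  have h1 : (q.D hR).zp (Sum.inl i) (Sum.inr b) ↔ q.isU i b.1 b.2 := by
    rw [← MKB_zp hR i b]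
    constructor
    · rintro ⟨a, ⟨g1, g2⟩ | ⟨g1, g2⟩⟩
      · rw [Sum.inl.inj g1, ← Sum.inr.inj g2]
      · cases g1
    · intro h
      exact ⟨i, Or.inl ⟨rfl, by rw [h]⟩⟩
  have h2 : (q.D hR).zp (Sum.inr b) (Sum.inl i) ↔ q.isU i b.1 b.2 := by
    rw [← MKB_zp hR i b]
    constructor
    · rintro ⟨a, ⟨g1, g2⟩ | ⟨g1, g2⟩⟩
      · cases g1
      · rw [Sum.inl.inj g1, ← Sum.inr.inj g2]
    · intro h
      exact ⟨i, Or.inr ⟨rfl, by rw [h]⟩⟩
  constructor
  · unfold MS.tau tauB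
    rw [ind_congr h1]
    rfl
  · unfold MS.tau tauB
    rw [ind_congr h2]
    rfl

theorem MKB_tau_AA (hR : 0 < q.R) (i i' : Fin q.K) :
    (q.D hR).tau q.z (Sum.inl i) (Sum.inl i') = 1 := by
  have h1 : ¬ (q.D hR).zp (Sum.inl i) (Sum.inl i') := by
    rintro ⟨a, ⟨g1, g2⟩ | ⟨g1, g2⟩⟩
    · cases g2
    · cases g2
  unfold MS.tau
  rw [ind_neg h1]
  ring

theorem MKB_tau_BB (hR : 0 < q.R) (b b' : Bool × Fin q.R) :
    (q.D hR).tau q.z (Sum.inr b) (Sum.inr b') = 1 := by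
  have h1 : ¬ (q.D hR).zp (Sum.inr b) (Sum.inr b') := by
    rintro ⟨a, ⟨g1, g2⟩ | ⟨g1, g2⟩⟩
    · cases g1
    · cases g1
  unfold MS.tau
  rw [ind_neg h1]
  ring

theorem MKB_LamA (hq : q.Par) (hR : 0 < q.R) (i : Fin q.K) (t : Option (Fin (q.K + q.P))) :
    (q.D hR).Lam q.z (Sum.inl i) t = (∑ i' ∈ range q.K, q.m * q.piA i i' (oj t)) +
      ∑ s : Bool, ∑ r ∈ range q.R, q.be * (q.tauB i s r * q.piM i s r (oj t)) := by
  unfold MS.Lam
  rw [Fintype.sum_sum_type, Fintype.sum_prod_type]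
  congr 1
  · rw [Finset.sum_range]
    refine Finset.sum_congr rfl fun i' _ => ?_
    rw [MKB_tau_AA, one_mul]
    rfl
  · refine Finset.sum_congr rfl fun s _ => ?_
    rw [Finset.sum_range]
    refine Finset.sum_congr rfl fun r _ => ?_
    rw [(tau_D hq hR i (s, r)).1]
    rfl

theorem MKB_LamB (hq : q.Par) (hR : 0 < q.R) (b : Bool × Fin q.R)
    (t : Option (Fin (q.K + q.P))) :
    (q.D hR).Lam q.z (Sum.inr b) t =
      (∑ i ∈ range q.K, q.m * (q.tauB i b.1 b.2 * q.piM i b.1 b.2 (oj t))) +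
      ∑ s : Bool, ∑ r ∈ range q.R, q.be * q.piB b.1 b.2 s r (oj t) := by
  unfold MS.Lam
  rw [Fintype.sum_sum_type, Fintype.sum_prod_type]
  congr 1
  · rw [Finset.sum_range]
    refine Finset.sum_congr rfl fun i' _ => ?_
    rw [(tau_D hq hR i' b).2]
    rfl
  · refine Finset.sum_congr rfl fun s _ => ?_
    rw [Finset.sum_range]
    refine Finset.sum_congr rfl fun r _ => ?_
    rw [MKB_tau_BB, one_mul]
    rfl

theorem MKB_tauB_ne (hq : q.Par) (i : ℕ) (s : Bool) (r : ℕ) : q.tauB i s r ≠ 0 := by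
  have := (tauB_bounds hq i s r).1
  intro h
  rw [h] at this
  norm_num at this

theorem MKB_mom (hq : q.Par) : q.m * q.om = q.W * q.mu := by
  have h1 := (f_m hq).2.1
  have h2 : (q.n : ℝ) ≠ 0 := by
    have := (f_nat hq).1
    positivity
  rw [h1]
  unfold om
  field_simp

theorem Lam_tight (hq : q.Par) (hR : 0 < q.R) (i : Fin q.K) (j : Fin (q.K + q.P))
    (hz : ¬ q.zn i j) : (q.D hR).Lam q.z (Sum.inl i) (some j) = q.W := by
  rw [MKB_LamA hq hR]
  have h1 : ∑ s : Bool, ∑ r ∈ range q.R, q.be * (q.tauB i s r * q.piM i s r (oj (some j))) =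
      q.need i j := by
    rw [← qb_col hq i i.2 j j.2 hz]
    refine Finset.sum_congr rfl fun s _ => Finset.sum_congr rfl fun r _ => ?_
    congr 1
    show q.tauB i s r * (q.qb i s r j / q.tauB i s r) = _
    exact mul_div_cancel₀ _ (MKB_tauB_ne hq _ _ _)
  have h2 : (∑ i' ∈ range q.K, q.m * q.piA i i' (oj (some j))) =
      q.W * q.wj j * q.mu * ∑ i' ∈ range q.K, ind (¬ q.zn i' j) / q.Om i i' := by
    rw [Finset.mul_sum]
    refine Finset.sum_congr rfl fun i' _ => ?_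
    show q.m * (ind (¬ q.zn i j ∧ ¬ q.zn i' j) * (q.om * q.wj j / q.Om i i')) = _
    rw [ind_and, ind_pos hz]
    have h3 := MKB_mom hq
    calc q.m * (1 * ind (¬ q.zn i' j) * (q.om * q.wj j / q.Om i i')) =
        (q.m * q.om) * (q.wj j * (ind (¬ q.zn i' j) / q.Om i i')) := by ring
      _ = _ := by rw [h3]; ring
  rw [h1, h2]
  unfold need
  ring

theorem Lam_tight_star (hq : q.Par) (hR : 0 < q.R) (i : Fin q.K) :
    (q.D hR).Lam q.z (Sum.inl i) none = q.S - 1 := by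
  rw [MKB_LamA hq hR]
  have h1 : ∑ s : Bool, ∑ r ∈ range q.R, q.be * (q.tauB i s r * q.piM i s r
      (oj (none : Option (Fin (q.K + q.P))))) = q.needs i := by
    rw [← q0s_col hq i i.2]
    refine Finset.sum_congr rfl fun s _ => Finset.sum_congr rfl fun r _ => ?_
    congr 1
    show q.tauB i s r * (q.q0s i s r / q.tauB i s r) = _
    exact mul_div_cancel₀ _ (MKB_tauB_ne hq _ _ _)
  have h2 : (∑ i' ∈ range q.K, q.m * q.piA i i' (oj (none : Option (Fin (q.K + q.P))))) =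
      q.W * q.ws * q.mu * ∑ i' ∈ range q.K, 1 / q.Om i i' := by
    rw [Finset.mul_sum]
    refine Finset.sum_congr rfl fun i' _ => ?_
    show q.m * (q.om * q.ws / q.Om i i') = _
    have h3 := MKB_mom hq
    calc q.m * (q.om * q.ws / q.Om i i') = (q.m * q.om) * (q.ws * (1 / q.Om i i')) := by ring
      _ = _ := by rw [h3]; ring
  rw [h1, h2]
  unfold needs
  ring

theorem Lam_slack (hq : q.Par) (hR : 0 < q.R) (b : Bool × Fin q.R) (j : Fin (q.K + q.P))
    (ha : q.av b.1 b.2 j) :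
    (q.D hR).Lam q.z (Sum.inr b) (some j) ≤ q.W * (1 - q.c / 10) := by
  rw [MKB_LamB hq hR]
  refine le_trans (le_of_eq ?_) (load_block hq b.1 b.2 b.2.2 j j.2 ha)
  congr 1
  refine Finset.sum_congr rfl fun i _ => ?_
  congr 1
  show q.tauB i b.1 b.2 * (q.qb i b.1 b.2 j / q.tauB i b.1 b.2) = _
  exact mul_div_cancel₀ _ (MKB_tauB_ne hq _ _ _)

theorem Lam_slack_star (hq : q.Par) (hR : 0 < q.R) (b : Bool × Fin q.R) :
    (q.D hR).Lam q.z (Sum.inr b) none ≤ (q.S - 1) * (1 - q.c / 10) := by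
  rw [MKB_LamB hq hR]
  refine le_trans (le_of_eq ?_) (load_star hq b.1 b.2 b.2.2)
  have h1 : ∑ s : Bool, ∑ r ∈ range q.R, q.be * q.piB b.1 b.2 s r
      (oj (none : Option (Fin (q.K + q.P)))) = 0 := by
    refine Finset.sum_eq_zero fun s _ => Finset.sum_eq_zero fun r _ => ?_
    show q.be * 0 = 0
    exact mul_zero _
  rw [h1, add_zero]
  refine Finset.sum_congr rfl fun i _ => ?_
  congr 1
  show q.tauB i b.1 b.2 * (q.q0s i b.1 b.2 / q.tauB i b.1 b.2) = _
  exact mul_div_cancel₀ _ (MKB_tauB_ne hq _ _ _)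

end PQ

end Pool.Agent.H2.HV
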