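import Mathlib
import Pool.Agent.H2.HV.MKA
import Pool.Agent.H2.HV.MKB

/-!
MKO (about 250 lines). The concrete schedule satisfies MS.Ok.

(W:ℝ)/n = q.om by definition (unfold om). M_sum: K m + 2 R be = n (f_m, f_be). M_A: f_m. be: f_be (8W ≤ be ≤ 9W). symm: Om_symm and symmetry of the ind, cases. nonneg, pi_le, pi_star_le: piA_bounds,
piM_bounds, piB_bounds (piB none = 0). sum_one: piA_sum, piM_sum, piB_sum. sup: t = some j: the ind is zero / piM_bounds last item; t = none: only slack classes with b.1 = false fail st: piM none = 0, piB none = 0.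
tight, slack: MKB (elT none = st; cap). low: piM_bounds. mid_card: Σ_j ind(mid) ≥ Jn - 2 jL - (P+1) ≥ (1 - 3c)/om ≥ 1/(2 om): from mc_lo (MM implies mid): mc i s r s r ≤ Σ ind (mid).
hub: t = some j0, ¬ zn i j0; j in the middle: some side s has sd s j0 (sd_or), and sd s j holds; av_side2: Σ_r ind(av s r j0 ∧ av s r j) ≥ R - 6; times be: be (R-6) = ht - 6 be ≥ n c/10
 (ht = n c/8, be ≤ 9W). t = none: st: b.1 = true: av_side for s = true: be (R-3) ≥ n c/10.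
card_le: K + 2R ≤ n: K W ≤ n, W ≥ 10^20, 128 R ≤ P, 10 P < K. cardJ: (K + P) + 1 ≤ 2/om: (K+P) om ≤ 1 + 2c.
-/

set_option autoImplicit false
set_option linter.unusedVariables false

namespace Pool.Agent.H2.HV

open Finset

namespace PQ

variable {q : PQ}

theorem MKO_base (hq : q.Par) :
    (0:ℝ) < q.n ∧ (10:ℝ) ^ 20 ≤ q.W ∧ (q.W : ℝ) = q.om * q.n ∧ (q.p : ℝ) = q.c * q.n ∧
      q.om * 10 ^ 13 ≤ q.c ∧ q.om ≤ (q.S : ℝ) / q.n := by
  obtain ⟨h1, h2, h3, h4, h5, h6, h7, h8⟩ := num_c hq.num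
  obtain ⟨hc0, hc1, hom0, hom1⟩ := f_c hq
  have hW : (q.W : ℝ) = q.om * q.n := by
    unfold om
    rw [div_mul_cancel₀ _ h1.ne']
  have hp : (q.p : ℝ) = q.c * q.n := by
    unfold c
    rw [div_mul_cancel₀ _ h1.ne']
  have hS0 : (q.W : ℝ) ≤ q.S := by exact_mod_cast hq.num.S0
  refine ⟨h1, h7, hW, hp, ?_, ?_⟩
  · rw [le_div_iff₀ (by positivity)] at hom1
    norm_num at hc1
    nlinarith
  · unfold om
    exact div_le_div_of_nonneg_right hS0 h1.le

theorem MKO_Msum (hq : q.Par) (hR : 0 < q.R) : ∑ k, (q.D hR).M k = q.n := by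
  have hf := f_m hq
  have hb := f_be hq
  rw [Fintype.sum_sum_type]
  have h1 : ∑ a : Fin q.K, (q.D hR).M (Sum.inl a) = q.K * q.m := by
    have : ∀ a : Fin q.K, (q.D hR).M (Sum.inl a) = q.m := fun a => rfl
    rw [Finset.sum_congr rfl (fun a _ => this a), Finset.sum_const, Finset.card_univ,
      Fintype.card_fin, nsmul_eq_mul]
  have h2 : ∑ b : Bool × Fin q.R, (q.D hR).M (Sum.inr b) = (2 * q.R : ℝ) * q.be := by
    have : ∀ b : Bool × Fin q.R, (q.D hR).M (Sum.inr b) = q.be := fun b => rfl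
    rw [Finset.sum_congr rfl (fun b _ => this b), Finset.sum_const, Finset.card_univ,
      Fintype.card_prod, Fintype.card_fin, Fintype.card_bool, nsmul_eq_mul]
    push_cast
    ring
  rw [h1, h2]
  have h3 := hf.2.2.1
  have h4 := hb.2.2.2.1
  linarith

theorem MKO_piA_symm (i i' : ℕ) (t : Option ℕ) : q.piA i i' t = q.piA i' i t := by
  cases t with
  | none => simp only [piA]; rw [Om_symm i i']
  | some j =>
    simp only [piA]
    rw [Om_symm i i']
    congr 1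
    exact ind_congr ⟨fun h => ⟨h.2, h.1⟩, fun h => ⟨h.2, h.1⟩⟩

theorem MKO_nAv_symm (s : Bool) (r : ℕ) (s' : Bool) (r' : ℕ) :
    q.nAv s r s' r' = q.nAv s' r' s r := by
  unfold nAv
  exact Finset.sum_congr rfl fun j _ => ind_congr ⟨fun h => ⟨h.2, h.1⟩, fun h => ⟨h.2, h.1⟩⟩

theorem MKO_piB_symm (s : Bool) (r : ℕ) (s' : Bool) (r' : ℕ) (t : Option ℕ) :
    q.piB s r s' r' t = q.piB s' r' s r t := by
  cases t with
  | none => rfl
  | some j =>
    simp only [piB]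
    rw [MKO_nAv_symm s r s' r']
    congr 1
    exact ind_congr ⟨fun h => ⟨h.2, h.1⟩, fun h => ⟨h.2, h.1⟩⟩

theorem MKO_nonneg (hq : q.Par) (hR : 0 < q.R) (k k' : Fin q.K ⊕ (Bool × Fin q.R))
    (t : Option (Fin (q.K + q.P))) : 0 ≤ (q.D hR).pi k k' t := by
  rcases k with i | b <;> rcases k' with i' | b' <;> rcases t with _ | j
  · exact (piA_bounds hq i i' i.2 i'.2).2.1
  · exact ((piA_bounds hq i i' i.2 i'.2).1 j j.2).1
  · exact (piM_bounds hq i i.2 b'.1 b'.2 b'.2.2).2.1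
  · exact ((piM_bounds hq i i.2 b'.1 b'.2 b'.2.2).1 j j.2).1
  · exact (piM_bounds hq i' i'.2 b.1 b.2 b.2.2).2.1
  · exact ((piM_bounds hq i' i'.2 b.1 b.2 b.2.2).1 j j.2).1
  · exact le_refl (0 : ℝ)
  · exact (piB_bounds hq b.1 b.2 b'.1 b'.2 b.2.2 b'.2.2 j).1

theorem MKO_sum_one (hq : q.Par) (hR : 0 < q.R) (k k' : Fin q.K ⊕ (Bool × Fin q.R)) :
    ∑ t, (q.D hR).pi k k' t = 1 := by
  rcases k with i | b <;> rcases k' with i' | b'
  · exact piA_sum hq i i' i.2 i'.2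
  · exact piM_sum hq i i.2 b'.1 b'.2 b'.2.2
  · exact piM_sum hq i' i'.2 b.1 b.2 b.2.2
  · exact piB_sum hq b.1 b.2 b'.1 b'.2 b.2.2 b'.2.2

theorem MKO_pi_le (hq : q.Par) (hR : 0 < q.R) (k k' : Fin q.K ⊕ (Bool × Fin q.R))
    (j : Fin (q.K + q.P)) : (q.D hR).pi k k' (some j) ≤ 3 * q.om := by
  rcases k with i | b <;> rcases k' with i' | b'
  · exact ((piA_bounds hq i i' i.2 i'.2).1 j j.2).2
  · exact ((piM_bounds hq i i.2 b'.1 b'.2 b'.2.2).1 j j.2).2
  · exact ((piM_bounds hq i' i'.2 b.1 b.2 b.2.2).1 j j.2).2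
  · exact (piB_bounds hq b.1 b.2 b'.1 b'.2 b.2.2 b'.2.2 j).2

theorem MKO_pi_star (hq : q.Par) (hR : 0 < q.R) (k k' : Fin q.K ⊕ (Bool × Fin q.R)) :
    (q.D hR).pi k k' none ≤ 6 * q.om := by
  rcases k with i | b <;> rcases k' with i' | b'
  · exact (piA_bounds hq i i' i.2 i'.2).2.2
  · exact (piM_bounds hq i i.2 b'.1 b'.2 b'.2.2).2.2.1
  · exact (piM_bounds hq i' i'.2 b.1 b.2 b.2.2).2.2.1
  · have h : (q.D hR).pi (Sum.inr b) (Sum.inr b') none = 0 := rfl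
    rw [h]
    have := (f_c hq).2.2.1
    linarith

theorem MKO_sup (hq : q.Par) (hR : 0 < q.R) (k k' : Fin q.K ⊕ (Bool × Fin q.R))
    (t : Option (Fin (q.K + q.P))) (h : ¬ ((q.D hR).elT k t ∧ (q.D hR).elT k' t)) :
    (q.D hR).pi k k' t = 0 := by
  rcases k with i | b <;> rcases k' with i' | b' <;> rcases t with _ | j
  · exact absurd ⟨trivial, trivial⟩ h
  · have h2 : ¬ (¬ q.zn i j ∧ ¬ q.zn i' j) := h
    show ind (¬ q.zn i j ∧ ¬ q.zn i' j) * (q.om * q.wj j / q.Om i i') = 0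
    rw [ind_neg h2, zero_mul]
  · have h2 : ¬ (b'.1 = true) := fun hb => h ⟨trivial, hb⟩
    exact (piM_bounds hq i i.2 b'.1 b'.2 b'.2.2).2.2.2.2.2.1 (by simpa using h2)
  · exact (piM_bounds hq i i.2 b'.1 b'.2 b'.2.2).2.2.2.2.2.2 j h
  · have h2 : ¬ (b.1 = true) := fun hb => h ⟨hb, trivial⟩
    exact (piM_bounds hq i' i'.2 b.1 b.2 b.2.2).2.2.2.2.2.1 (by simpa using h2)
  · exact (piM_bounds hq i' i'.2 b.1 b.2 b.2.2).2.2.2.2.2.2 j (fun hh => h ⟨hh.2, hh.1⟩)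
  · rfl
  · have h2 : ¬ (q.av b.1 b.2 j ∧ q.av b'.1 b'.2 j) := h
    show ind (q.av b.1 b.2 j ∧ q.av b'.1 b'.2 j) / q.nAv b.1 b.2 b'.1 b'.2 = 0
    rw [ind_neg h2, zero_div]

theorem MKO_mid (hq : q.Par) (hR : 0 < q.R) (i : Fin q.K) :
    1 / (2 * q.om) ≤ ∑ j, ind ((q.D hR).mid i j) := by
  obtain ⟨hc0, hc1, hom0, hom1⟩ := f_c hq
  have h1 := mc_lo hq i i.2 true 0 true 0 hR hR
  have h2 : q.mc i true 0 true 0 ≤ ∑ j, ind ((q.D hR).mid i j) := by
    have h3 : ∑ j, ind ((q.D hR).mid i j)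
        = ∑ j ∈ range (q.K + q.P), ind ((q.jL ≤ j ∧ j + q.jL < q.Jn) ∧ ¬ q.zn i j) :=
      Fin.sum_univ_eq_sum_range
        (fun j => ind ((q.jL ≤ j ∧ j + q.jL < q.Jn) ∧ ¬ q.zn i j)) (q.K + q.P)
    rw [h3]
    unfold mc
    refine Finset.sum_le_sum fun j _ => ind_mono fun hM => ⟨hM.1, hM.2.1⟩
  have h4 : 1 / (2 * q.om) ≤ (1 - 3 * q.c) / q.om := by
    rw [div_le_div_iff₀ (by positivity) hom0]
    norm_num at hc1
    nlinarith
  linarith

theorem MKO_hub_aux (hq : q.Par) (hR : 0 < q.R) (f : Bool → ℕ → Prop) (s : Bool)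
    (h : (q.R : ℝ) - 6 ≤ ∑ r ∈ range q.R, ind (f s r)) :
    q.n * q.c / 10 ≤ ∑ b : Bool × Fin q.R, ind (f b.1 b.2) * q.be := by
  obtain ⟨hc0, hc1, hom0, hom1⟩ := f_c hq
  obtain ⟨hb0, hb1, hb2, hb3, -⟩ := f_be hq
  obtain ⟨hn, hW20, hW, hp, t1, -⟩ := MKO_base hq
  have h1 : ∑ r : Fin q.R, ind (f s r) * q.be
      ≤ ∑ b : Bool × Fin q.R, ind (f b.1 b.2) * q.be := by
    rw [Fintype.sum_prod_type]
    exact Finset.single_le_sum
      (f := fun s' : Bool => ∑ r : Fin q.R, ind (f s' r) * q.be)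
      (fun s' _ => Finset.sum_nonneg fun r _ => mul_nonneg (ind_nonneg _) hb0.le)
      (Finset.mem_univ s)
  have h2 : ∑ r : Fin q.R, ind (f s r) * q.be = (∑ r ∈ range q.R, ind (f s r)) * q.be := by
    rw [Finset.sum_mul]
    exact Fin.sum_univ_eq_sum_range (fun r => ind (f s r) * q.be) q.R
  have h3 : ((q.R : ℝ) - 6) * q.be ≤ (∑ r ∈ range q.R, ind (f s r)) * q.be :=
    mul_le_mul_of_nonneg_right h hb0.le
  have h4 : q.ht = q.p / 8 := rfl
  have h5 : q.n * q.c / 10 ≤ ((q.R : ℝ) - 6) * q.be := by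
    have e1 : ((q.R : ℝ) - 6) * q.be = q.c * q.n / 8 - 6 * q.be := by
      have : ((q.R : ℝ) - 6) * q.be = q.be * q.R - 6 * q.be := by ring
      rw [this, hb3, h4, hp]
    rw [e1]
    have e2 : q.be ≤ 9 * (q.om * q.n) := by rw [← hW]; exact hb2
    have e3 : q.om * q.n ≤ q.c * q.n / 10 ^ 13 := by
      have e4 : q.om ≤ q.c / 10 ^ 13 := by
        rw [le_div_iff₀ (by positivity)]; exact t1
      have e5 := mul_le_mul_of_nonneg_right e4 hn.le
      have e6 : q.c / 10 ^ 13 * q.n = q.c * q.n / 10 ^ 13 := by ring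
      rw [e6] at e5
      exact e5
    have e7 : 0 ≤ q.c * q.n := by positivity
    have e8 : q.n * q.c = q.c * q.n := by ring
    rw [e8]
    norm_num at e3
    linarith
  linarith

theorem MKO_hub (hq : q.Par) (hR : 0 < q.R) (a : Fin q.K) (t : Option (Fin (q.K + q.P)))
    (j : Fin (q.K + q.P)) (ht : (q.D hR).elT (Sum.inl a) t) (hm : (q.D hR).mid a j) :
    q.n * q.c / 10 ≤
      ∑ b, ind ((q.D hR).elT (Sum.inr b) t ∧ (q.D hR).el (Sum.inr b) j) * (q.D hR).be := by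
  obtain ⟨⟨hm1, hm2⟩, hm3⟩ := hm
  have hsd : ∀ s : Bool, q.sd s j := fun s => ⟨fun _ => hm2, fun _ => hm1⟩
  have hj : (j : ℕ) < q.Jn := j.2
  rcases t with _ | j0
  · refine MKO_hub_aux hq hR (fun s r => s = true ∧ q.av s r j) true ?_
    have h1 := av_side hq true j hj (hsd true)
    have h2 : ∑ r ∈ range q.R, ind (true = true ∧ q.av true r j)
        = ∑ r ∈ range q.R, ind (q.av true r j) :=
      Finset.sum_congr rfl fun r _ => ind_congr ⟨fun h => h.2, fun h => ⟨rfl, h⟩⟩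
    have h3 : ∑ r ∈ range q.R, ind ((fun s r => s = true ∧ q.av s r j) true r)
        = ∑ r ∈ range q.R, ind (q.av true r j) := h2
    rw [h3]
    linarith
  · have hj0 : (j0 : ℕ) < q.Jn := j0.2
    rcases sd_or hq j0 hj0 with hs | hs
    · exact MKO_hub_aux hq hR (fun s r => q.av s r j0 ∧ q.av s r j) true
        (av_side2 hq true j0 j hj0 hj hs (hsd true))
    · exact MKO_hub_aux hq hR (fun s r => q.av s r j0 ∧ q.av s r j) false
        (av_side2 hq false j0 j hj0 hj hs (hsd false))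

theorem MKO_card (hq : q.Par) :
    Fintype.card (Fin q.K) + Fintype.card (Bool × Fin q.R) ≤ q.n := by
  rw [Fintype.card_prod, Fintype.card_fin, Fintype.card_fin, Fintype.card_bool]
  obtain ⟨hn, hp, hW, hK0, hR, hP, hjL0, hjLP, hPK, hlen0, hlen⟩ := f_nat hq
  have hb := MKO_base hq
  obtain ⟨hc0, hc1, hom0, hom1⟩ := f_c hq
  have hn' := hb.1
  have hpn : q.p ≤ q.n := by
    have h1 : (q.p : ℝ) ≤ q.n := by
      rw [hb.2.2.2.1]
      norm_num at hc1
      nlinarith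
    exact_mod_cast h1
  have hW3 : 3 ≤ q.W := by
    have h1 : (3 : ℝ) ≤ q.W := le_trans (by norm_num) hb.2.1
    exact_mod_cast h1
  have h1 := hq.hJ
  have h2 := hq.R1
  have h3 : (q.K + q.P) * 3 ≤ (q.K + q.P) * q.W := Nat.mul_le_mul_left _ hW3
  omega

theorem MKO_cardJ (hq : q.Par) :
    (Fintype.card (Fin (q.K + q.P)) : ℝ) + 1 ≤ 2 / q.om := by
  obtain ⟨hc0, hc1, hom0, hom1⟩ := f_c hq
  rw [Fintype.card_fin, le_div_iff₀ hom0]
  have h1 := (f_K hq).2.2.2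
  have h2 := (MKO_base hq).2.2.2.2.2
  have h3 : (q.Jn : ℝ) = ((q.K + q.P : ℕ) : ℝ) := rfl
  rw [h3] at h1
  norm_num at hc1
  linarith

theorem mk_ok (hq : q.Par) (hR : 0 < q.R) : (q.D hR).Ok q.n q.W q.S q.z q.c where
  M_pos := by
    rintro (i | b)
    · exact (f_m hq).1
    · exact (f_be hq).1
  M_sum := MKO_Msum hq hR
  M_A := fun a => (f_m hq).2.2.2.1
  M_B := fun b => rfl
  be_lo := by
    have h := (f_be hq).2.1
    have h2 : (0 : ℝ) ≤ q.W := Nat.cast_nonneg _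
    show 7 * (q.W : ℝ) ≤ q.be
    linarith
  be_hi := (f_be hq).2.2.1
  symm := by
    intro k k' t
    rcases k with i | b <;> rcases k' with i' | b'
    · exact MKO_piA_symm _ _ _
    · rfl
    · rfl
    · exact MKO_piB_symm _ _ _ _ _
  nonneg := MKO_nonneg hq hR
  sum_one := MKO_sum_one hq hR
  pi_le := MKO_pi_le hq hR
  pi_star_le := MKO_pi_star hq hR
  sup := MKO_sup hq hR
  st_A := fun a => trivial
  tight := by
    intro a t ht
    rcases t with _ | j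
    · exact Lam_tight_star hq hR a
    · exact Lam_tight hq hR a j ht
  slack := by
    intro b t ht
    rcases t with _ | j
    · exact Lam_slack_star hq hR b
    · exact Lam_slack hq hR b j ht
  low := by
    intro a b t h1 h2
    rcases t with _ | j
    · exact (piM_bounds hq a a.2 b.1 b.2 b.2.2).2.2.2.2.1 h2
    · exact (piM_bounds hq a a.2 b.1 b.2 b.2.2).2.2.2.1 j j.2 h1 h2
  mid_el := fun a j h => h.2
  mid_card := MKO_mid hq hR
  hub := fun a t j h1 h2 => MKO_hub hq hR a t j h1 h2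
  card_le := MKO_card hq
  cardJ := MKO_cardJ hq

end PQ

end Pool.Agent.H2.HV
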