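import Mathlib
import Pool.Agent.H2.HV.MFD

/-!
PRM (about 250 lines). Choice of the parameters.

L = log n ≥ 1 large (n ≥ n0 to be chosen: n0 := 10^100 works; then L ≥ 200). c = p/n, c ≤ 10^-5, c^4 n ≥ C0 L with C0 = 10^24 (from the hypothesis raised to the 4th power).
W := ⌈10^13 L/c²⌉₊ (so 10^13 L ≤ c² W, W ≤ 2·10^13 L/c²). om = W/n ≤ 2·10^13 L/(c² n) = 2·10^13 L c²/(c^4 n) ≤ 2·10^-11 c² ≤ c²/10^8.
W2: 1000 L W ≤ 2·10^16 L²/c² ≤ n: c² ≥ 10^12 sqrt(L/n), so it suffices 2·10^4 L² ≤ sqrt(L n), i.e. 4·10^8 L³ ≤ n: true for n ≥ 10^100 (log n ≤ 100 n^(1/100) or n = exp L ≥ L^4/24, ..).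
P := (2p + W - 1)/W (ceil), z := (P+1) W - 2p ∈ [W, 2W). S := W + (n+2p) % W, then W ∣ n+2p-S; J := (n+2p-S)/W, K := J - P (J ≥ P: 2p, W small against n). R := (P-2)/128 (P ≥ 2p/W large).
len := ⌊(51/50)(p/8)⌋₊ + 1 ≤ (103/100)(p/8) as p is large (p ≥ c n large). jL := (p + len + W - 1)/W (ceil).
n0 := 10^100. The structure PQ is filled with these numbers; Num q.n q.W q.S q.z (p/n).
-/

set_option autoImplicit false
set_option linter.unusedVariables false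

namespace Pool.Agent.H2.HV

open Finset

namespace PQ

theorem PRM_log {x : ℝ} (hx : (10 : ℝ) ^ 100 ≤ x) :
    200 ≤ Real.log x ∧ 4 * 10 ^ 8 * Real.log x ^ 3 ≤ x := by
  have hx0 : 0 < x := lt_of_lt_of_le (by positivity) hx
  have h1 : 200 ≤ Real.log x := by
    rw [Real.le_log_iff_exp_le hx0]
    refine le_trans ?_ hx
    have h2 : Real.exp 200 = ((Real.exp 1) ^ 2) ^ 100 := by
      rw [← pow_mul, ← Real.exp_nat_mul]
      norm_num
    rw [h2]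
    refine pow_le_pow_left₀ (by positivity) ?_ 100
    have h3 := Real.exp_one_lt_d9
    have h4 := Real.exp_pos 1
    nlinarith
  refine ⟨h1, ?_⟩
  obtain ⟨L, hL⟩ : ∃ L, L = Real.log x := ⟨_, rfl⟩
  rw [← hL] at h1 ⊢
  have h2 := Real.pow_div_factorial_le_exp L (by linarith) 10
  rw [hL, Real.exp_log hx0, ← hL] at h2
  refine le_trans ?_ h2
  have h3 : ((Nat.factorial 10 : ℕ) : ℝ) = 3628800 := by
    norm_num [Nat.factorial]
  rw [h3, le_div_iff₀ (by norm_num)]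
  have h4 : (200 : ℝ) ^ 7 ≤ L ^ 7 := pow_le_pow_left₀ (by norm_num) h1 7
  have h5 : 0 ≤ L ^ 3 := by positivity
  have h6 := mul_le_mul_of_nonneg_left h4 h5
  have h7 : L ^ 10 = L ^ 3 * L ^ 7 := by ring
  rw [h7]
  refine le_trans ?_ h6
  have h8 : (4 * 10 ^ 8 * 3628800 : ℝ) ≤ 200 ^ 7 := by norm_num
  have h9 := mul_le_mul_of_nonneg_left h8 h5
  linarith

/-- the numerical part -/
theorem PRM_num (n p : ℕ) (hn : 10 ^ 100 ≤ n)
    (h1 : (10:ℝ) ^ 24 * Real.log n * (n : ℝ) ^ 3 ≤ (p : ℝ) ^ 4)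
    (h2 : (p : ℝ) ≤ n / 10 ^ 5) : ∃ W : ℕ, 0 < W ∧ 10 ^ 13 ≤ W ∧ W ≤ p ∧ 2 * W ≤ n ∧
      0 < (p : ℝ) / n ∧ (p : ℝ) / n ≤ 1 / 10 ^ 5 ∧
      (W : ℝ) ≤ ((p : ℝ) / n) ^ 2 / 10 ^ 8 * n ∧
      10 ^ 13 * Real.log n ≤ ((p : ℝ) / n) ^ 2 * W ∧ 1000 * Real.log n * W ≤ n := by
  have hnR : (10 : ℝ) ^ 100 ≤ n := by exact_mod_cast hn
  have hn0 : (0 : ℝ) < n := lt_of_lt_of_le (by positivity) hnR
  obtain ⟨hL1, hL2⟩ := PRM_log hnR
  obtain ⟨L, hL⟩ : ∃ L, L = Real.log n := ⟨_, rfl⟩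
  rw [← hL] at h1 hL1 hL2 ⊢
  have hL0 : 0 < L := by linarith
  have hp0 : (0 : ℝ) < p := by
    rcases (Nat.cast_nonneg p : (0 : ℝ) ≤ p).eq_or_lt with h | h
    · rw [← h] at h1
      have h3 : 0 < (10:ℝ) ^ 24 * L * (n : ℝ) ^ 3 := by positivity
      norm_num at h1
      linarith
    · exact h
  obtain ⟨c, hc⟩ : ∃ c : ℝ, c = (p : ℝ) / n := ⟨_, rfl⟩
  rw [← hc]
  have hc0 : 0 < c := by
    rw [hc]
    positivity
  have hc1 : c ≤ 1 / 10 ^ 5 := by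
    rw [hc, div_le_iff₀ hn0]
    linarith
  have hpc : (p : ℝ) = c * n := by
    rw [hc]
    field_simp
  have hc4 : 10 ^ 24 * L ≤ c ^ 4 * n := by
    have h3 : (p : ℝ) ^ 4 = (c ^ 4 * n) * (n : ℝ) ^ 3 := by
      rw [hpc]
      ring
    rw [h3] at h1
    exact le_of_mul_le_mul_right h1 (by positivity)
  have hc2n : 2 * 10 ^ 16 * L ^ 2 ≤ c ^ 2 * n := by
    have h3 : (2 * 10 ^ 16 * L ^ 2) ^ 2 ≤ (c ^ 2 * n) ^ 2 := by
      have h4 : (c ^ 2 * n) ^ 2 = c ^ 4 * n * n := by ring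
      have h5 : (2 * 10 ^ 16 * L ^ 2) ^ 2 = 10 ^ 24 * L * (4 * 10 ^ 8 * L ^ 3) := by ring
      rw [h4, h5]
      exact mul_le_mul hc4 hL2 (by positivity) (by positivity)
    exact le_of_sq_le_sq h3 (by positivity)
  obtain ⟨W, hW⟩ : ∃ W : ℕ, W = ⌈10 ^ 13 * L / c ^ 2⌉₊ := ⟨_, rfl⟩
  have hW1 : 10 ^ 13 * L / c ^ 2 ≤ W := by
    rw [hW]
    exact Nat.le_ceil _
  have hc2 : c ^ 2 ≤ 1 := pow_le_one₀ hc0.le (hc1.trans (by norm_num))
  have hone : (10 : ℝ) ^ 13 ≤ 10 ^ 13 * L / c ^ 2 := by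
    rw [le_div_iff₀ (by positivity)]
    have h3 : (10 : ℝ) ^ 13 * c ^ 2 ≤ 10 ^ 13 * 1 := mul_le_mul_of_nonneg_left hc2 (by positivity)
    have h4 : (10 : ℝ) ^ 13 * 1 ≤ 10 ^ 13 * L := mul_le_mul_of_nonneg_left (by linarith) (by positivity)
    exact h3.trans h4
  have hW2 : (W : ℝ) ≤ 2 * (10 ^ 13 * L / c ^ 2) := by
    have h3 : (W : ℝ) < 10 ^ 13 * L / c ^ 2 + 1 := by
      rw [hW]
      exact Nat.ceil_lt_add_one (by positivity)
    have h4 : (1 : ℝ) ≤ 10 ^ 13 := by norm_num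
    linarith
  have hW3 : c ^ 2 * W ≤ 2 * (10 ^ 13 * L) := by
    have h3 := mul_le_mul_of_nonneg_left hW2 (by positivity : 0 ≤ c ^ 2)
    have h4 : c ^ 2 * (2 * (10 ^ 13 * L / c ^ 2)) = 2 * (10 ^ 13 * L) := by
      field_simp
    rw [h4] at h3
    exact h3
  have hW13 : (10 : ℝ) ^ 13 ≤ W := hone.trans hW1
  have hWom : (W : ℝ) ≤ c ^ 2 / 10 ^ 8 * n := by
    have h3 : c ^ 2 * W ≤ c ^ 2 * (c ^ 2 / 10 ^ 8 * n) := by
      have h4 : c ^ 2 * (c ^ 2 / 10 ^ 8 * n) = c ^ 4 * n / 10 ^ 8 := by ring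
      rw [h4, le_div_iff₀ (by positivity)]
      have h5 := mul_le_mul_of_nonneg_right hW3 (by positivity : (0 : ℝ) ≤ 10 ^ 8)
      have h6 : 2 * (10 ^ 13 * L) * 10 ^ 8 ≤ 10 ^ 24 * L := by
        have h7 : (2 * (10 ^ 13 * L) * 10 ^ 8 : ℝ) = 2 * 10 ^ 21 * L := by ring
        rw [h7]
        exact mul_le_mul_of_nonneg_right (by norm_num) hL0.le
      linarith
    exact le_of_mul_le_mul_left h3 (by positivity)
  have hWp : (W : ℝ) ≤ p := by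
    rw [hpc]
    refine hWom.trans ?_
    have h3 : c ^ 2 / 10 ^ 8 ≤ c := by
      rw [div_le_iff₀ (by positivity)]
      have h4 : c * c ≤ c * 1 := mul_le_mul_of_nonneg_left (hc1.trans (by norm_num)) hc0.le
      have h5 : c * 1 ≤ c * 10 ^ 8 := mul_le_mul_of_nonneg_left (by norm_num) hc0.le
      calc c ^ 2 = c * c := by ring
        _ ≤ c * 10 ^ 8 := h4.trans h5
    exact mul_le_mul_of_nonneg_right h3 hn0.le
  refine ⟨W, ?_, by exact_mod_cast hW13, by exact_mod_cast hWp, ?_, hc0, hc1, hWom, ?_, ?_⟩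
  · have h3 : (0 : ℝ) < W := lt_of_lt_of_le (by positivity) hW13
    exact_mod_cast h3
  · have h3 : 2 * (W : ℝ) ≤ n := by
      have h4 : (n : ℝ) / 10 ^ 5 ≤ n / 2 := by
        apply div_le_div_of_nonneg_left hn0.le (by norm_num) (by norm_num)
      linarith
    exact_mod_cast h3
  · have h3 := mul_le_mul_of_nonneg_left hW1 (by positivity : 0 ≤ c ^ 2)
    have h4 : c ^ 2 * (10 ^ 13 * L / c ^ 2) = 10 ^ 13 * L := by
      field_simp
    rw [h4] at h3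
    exact h3
  · have h3 : c ^ 2 * (1000 * L * W) ≤ c ^ 2 * n := by
      have h4 := mul_le_mul_of_nonneg_left hW3 (by positivity : 0 ≤ 1000 * L)
      have h5 : c ^ 2 * (1000 * L * W) = 1000 * L * (c ^ 2 * W) := by ring
      have h6 : 1000 * L * (2 * (10 ^ 13 * L)) = 2 * 10 ^ 16 * L ^ 2 := by ring
      rw [h5]
      rw [h6] at h4
      exact h4.trans hc2n
    exact le_of_mul_le_mul_left h3 (by positivity)

/-- rounding up -/
theorem PRM_ceil (a W : ℕ) (hW : 0 < W) :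
    a ≤ (a + W - 1) / W * W ∧ (a + W - 1) / W * W ≤ a + W - 1 := by
  refine ⟨?_, Nat.div_mul_le_self _ _⟩
  have h1 := Nat.div_add_mod (a + W - 1) W
  have h2 := Nat.mod_lt (a + W - 1) hW
  have h3 : W * ((a + W - 1) / W) = (a + W - 1) / W * W := Nat.mul_comm _ _
  omega

theorem params (n p : ℕ) (hn : 10 ^ 100 ≤ n)
    (h1 : (10:ℝ) ^ 24 * Real.log n * (n : ℝ) ^ 3 ≤ (p : ℝ) ^ 4)
    (h2 : (p : ℝ) ≤ n / 10 ^ 5) : ∃ q : PQ, q.Par ∧ q.n = n ∧ q.p = p := by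
  obtain ⟨W, hW0, hW13, hWp, hWn, hc0, hc1, hom, hW1, hW2⟩ := PRM_num n p hn h1 h2
  obtain ⟨P, hPdef⟩ : ∃ P, P = (2 * p + W - 1) / W := ⟨_, rfl⟩
  obtain ⟨hP1, hP2⟩ := PRM_ceil (2 * p) W hW0
  rw [← hPdef] at hP1 hP2
  obtain ⟨T, hTdef⟩ : ∃ T, T = (n + 2 * p) / W := ⟨_, rfl⟩
  have hT1 : W * T + (n + 2 * p) % W = n + 2 * p := by
    rw [hTdef]
    exact Nat.div_add_mod _ _
  have hmod : (n + 2 * p) % W < W := Nat.mod_lt _ hW0
  obtain ⟨r, hr⟩ : ∃ r, r = (n + 2 * p) % W := ⟨_, rfl⟩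
  rw [← hr] at hT1 hmod
  have hPT : P + 1 ≤ T := by
    rw [hTdef, Nat.le_div_iff_mul_le hW0]
    have h3 : (P + 1) * W = P * W + W := by ring
    omega
  have hP2' : 2 ≤ P := by
    by_contra hcon
    have h3 : P ≤ 1 := by omega
    have h4 : P * W ≤ 1 * W := Nat.mul_le_mul_right W h3
    omega
  obtain ⟨len, hlen⟩ : ∃ len : ℕ, len = ⌊(51 / 50 : ℝ) * (p / 8)⌋₊ + 1 := ⟨_, rfl⟩
  have hlen1 : (51 / 50 : ℝ) * (p / 8) < len := by
    rw [hlen]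
    push_cast
    exact Nat.lt_floor_add_one _
  have hlen2 : (len : ℝ) ≤ 103 / 100 * (p / 8) := by
    rw [hlen]
    push_cast
    have h3 : ((⌊(51 / 50 : ℝ) * (p / 8)⌋₊ : ℕ) : ℝ) ≤ 51 / 50 * (p / 8) :=
      Nat.floor_le (by positivity)
    have h4 : (800 : ℝ) ≤ p := by
      have : 800 ≤ p := by
        refine le_trans ?_ (hW13.trans hWp)
        norm_num
      exact_mod_cast this
    linarith
  obtain ⟨jL, hjL⟩ : ∃ jL, jL = (p + len + W - 1) / W := ⟨_, rfl⟩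
  obtain ⟨hj1, hj2⟩ := PRM_ceil (p + len) W hW0
  rw [← hjL] at hj1 hj2
  have e1 : (P + 1) * W = P * W + W := by ring
  have e2 : W * T = (T - 1) * W + W := by
    have : T = (T - 1) + 1 := by omega
    rw [this]
    simp only [Nat.add_sub_cancel]
    ring
  have e3 : T - 1 - P + P = T - 1 := by omega
  refine ⟨⟨n, p, W, W + r, (P + 1) * W - 2 * p, P, T - 1 - P, (P - 2) / 128, jL, len⟩, ?_, rfl,
    rfl⟩
  refine ⟨⟨?_, hc0, hc1, hom, hW1, hW2, ?_, ?_, ?_, ?_⟩, ?_, ?_, ?_, ?_, hlen1, hlen2, hj1, ?_⟩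
  · refine le_trans ?_ hn
    norm_num
  · show W ≤ W + r
    omega
  · show W + r < 2 * W
    omega
  · show W ≤ (P + 1) * W - 2 * p
    omega
  · show (P + 1) * W - 2 * p < 2 * W
    omega
  · show W + r + (T - 1 - P + P) * W = n + 2 * p
    rw [e3]
    omega
  · show (P + 1) * W - 2 * p + 2 * p = (P + 1) * W
    omega
  · show 128 * ((P - 2) / 128) + 2 ≤ P
    omega
  · show P < 128 * ((P - 2) / 128) + 130
    omega
  · show jL * W ≤ p + len + W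
    omega

end PQ

end Pool.Agent.H2.HV
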