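import Mathlib
import Pool.Agent.H2.HV.PRB

/-!
KER (about 220 lines). The kernel: elementary facts and its expectation.

Xk π ξ = Σ_t num π ξ t = π none/2 + Σ_j ind (ξ j) π (some j) (Fintype.sum_option). Let X = Xk π ξ, and half = fair bits.
`kex`: pointwise 1/max(X,1/4) ≥ 4 - 4X and ≤ 2 - 4 (X - 1/2) + 16 (X - 1/2)² for X ≥ 0 (two cases X ≥ 1/4, X < 1/4).
Write ind (ξ j) = 1/2 + η_j, η_j = ±1/2; X - 1/2 = Σ_j π_j η_j (because Σ_t π t = 1). Expectations under half: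
E η_j = 0, E η_a η_b = [a=b]/4, E η_a η_b η_c = 0 (third moments vanish in all cases).
t = none: E[(π_*/2)/max] between (π_*/2)(4 - 4·1/2) = π_* and (π_*/2)(2 + 16 Σ π_j²/4) ≤ π_*(1 + 2b) (Σ π_j² ≤ b Σ π_j ≤ b).
t = some j: E[ind(ξ j)(4-4X)] = 2 - 4 E[(1/2+η_j)(1/2+Σ π_a η_a)] = 2 - 4(1/4 + π_j/4) = 1 - π_j ≥ 1 - 2b;
E[ind(ξ j)(2 - 4(X-1/2) + 16 (X-1/2)²)] = 1 - π_j + 16·(1/2)·Σ π_a²/4 ≤ 1 + 2b. Multiply by π_j.
(To compute expectations: `ex_coord`, `ex_sum`, `ex_smul`, and for two or three factors `ex_prod` with suitable g, or sum over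
bits directly.)
-/

set_option autoImplicit false
set_option linter.unusedVariables false
set_option linter.unusedSectionVars false

namespace Pool.Agent.H2.HV

open Finset

variable {J : Type} [Fintype J]

theorem num_nonneg (π : Option J → ℝ) (hπ : ∀ t, 0 ≤ π t) (ξ : J → Bool) (t : Option J) :
    0 ≤ num π ξ t := by
  cases t with
  | none =>
    show 0 ≤ π none / 2
    have := hπ none
    positivity
  | some j =>
    show 0 ≤ ind (ξ j = true) * π (some j)
    exact mul_nonneg (ind_nonneg _) (hπ _)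

theorem num_le (π : Option J → ℝ) (hπ : ∀ t, 0 ≤ π t) (ξ : J → Bool) (t : Option J) :
    num π ξ t ≤ π t := by
  cases t with
  | none =>
    show π none / 2 ≤ π none
    have := hπ none
    linarith
  | some j =>
    show ind (ξ j = true) * π (some j) ≤ π (some j)
    exact mul_le_of_le_one_left (hπ _) (ind_le_one _)

theorem Xk_le_one (π : Option J → ℝ) (hπ : ∀ t, 0 ≤ π t) (hs : ∑ t, π t = 1) (ξ : J → Bool) :
    Xk π ξ ≤ 1 := by
  unfold Xk
  rw [← hs]
  exact Finset.sum_le_sum fun t _ => num_le π hπ ξ t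

theorem KER_X_nonneg (π : Option J → ℝ) (hπ : ∀ t, 0 ≤ π t) (ξ : J → Bool) : 0 ≤ Xk π ξ :=
  Finset.sum_nonneg fun t _ => num_nonneg π hπ ξ t

theorem KER_max (x : ℝ) : 0 < max x (1 / 4) := lt_max_of_lt_right (by norm_num)

theorem xk_nonneg (π : Option J → ℝ) (hπ : ∀ t, 0 ≤ π t) (ξ : J → Bool) (t : Option J) :
    0 ≤ xk π ξ t :=
  div_nonneg (num_nonneg π hπ ξ t) (KER_X_nonneg π hπ ξ)

theorem xh_nonneg (π : Option J → ℝ) (hπ : ∀ t, 0 ≤ π t) (ξ : J → Bool) (t : Option J) :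
    0 ≤ xh π ξ t :=
  div_nonneg (num_nonneg π hπ ξ t) (KER_max _).le

theorem xh_le (π : Option J → ℝ) (hπ : ∀ t, 0 ≤ π t) (ξ : J → Bool) (t : Option J) :
    xh π ξ t ≤ 4 * num π ξ t := by
  unfold xh
  rw [div_le_iff₀ (KER_max _)]
  have h1 := num_nonneg π hπ ξ t
  have h2 : (1 / 4 : ℝ) ≤ max (Xk π ξ) (1 / 4) := le_max_right _ _
  nlinarith

/-- the kernel is a probability vector -/
theorem xk_sum (π : Option J → ℝ) (ξ : J → Bool) (h : 0 < Xk π ξ) : ∑ t, xk π ξ t = 1 := by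
  unfold xk
  rw [← Finset.sum_div]
  exact div_self h.ne'

theorem xk_eq_xh (π : Option J → ℝ) (ξ : J → Bool) (h : 1 / 4 ≤ Xk π ξ) (t : Option J) :
    xk π ξ t = xh π ξ t := by
  unfold xk xh
  rw [max_eq_left h]

/-- lower bound: `x ≥ num` as `X ≤ 1` -/
theorem xk_ge (π : Option J → ℝ) (hπ : ∀ t, 0 ≤ π t) (hs : ∑ t, π t = 1) (ξ : J → Bool)
    (h : 0 < Xk π ξ) (t : Option J) : num π ξ t ≤ xk π ξ t := by
  unfold xk
  rw [le_div_iff₀ h]
  exact mul_le_of_le_one_right (num_nonneg π hπ ξ t) (Xk_le_one π hπ hs ξ)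

/-- centred bit -/
noncomputable def KER_e (ξ : J → Bool) (j : J) : ℝ := ind (ξ j = true) - 1 / 2

/-- the centred sum -/
noncomputable def KER_S (π : Option J → ℝ) (ξ : J → Bool) : ℝ := ∑ j, π (some j) * KER_e ξ j

theorem KER_X (π : Option J → ℝ) (hs : ∑ t, π t = 1) (ξ : J → Bool) : Xk π ξ = 1 / 2 + KER_S π ξ := by
  unfold Xk KER_S
  rw [Fintype.sum_option] at hs ⊢
  show π none / 2 + ∑ j, ind (ξ j = true) * π (some j) = _
  have h1 : ∑ j, ind (ξ j = true) * π (some j) = ∑ j, π (some j) * KER_e ξ j + (∑ j, π (some j)) / 2 := by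
    rw [Finset.sum_div, ← Finset.sum_add_distrib]
    refine Finset.sum_congr rfl fun j _ => ?_
    unfold KER_e
    ring
  rw [h1]
  linarith

theorem KER_sq (ξ : J → Bool) (j : J) : KER_e ξ j * KER_e ξ j = 1 / 4 := by
  unfold KER_e
  by_cases h : ξ j = true
  · rw [ind_pos h]; norm_num
  · rw [ind_neg h]; norm_num

theorem KER_flip (F : (J → Bool) → ℝ) (m : J → Bool) :
    Ex (half J) (fun ξ => F (fun j => xor (ξ j) (m j))) = Ex (half J) F := by
  classical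
  rw [ex_half, ex_half]
  congr 1
  let e : (J → Bool) ≃ (J → Bool) :=
    { toFun := fun ξ j => xor (ξ j) (m j)
      invFun := fun ξ j => xor (ξ j) (m j)
      left_inv := fun ξ => by
        funext j
        simp
      right_inv := fun ξ => by
        funext j
        simp }
  exact e.sum_comp F

theorem KER_e_flip (ξ m : J → Bool) (j : J) : KER_e (fun j => xor (ξ j) (m j)) j =
    if m j = true then -KER_e ξ j else KER_e ξ j := by
  unfold KER_e
  by_cases h : m j = true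
  · rw [if_pos h]
    simp only [h, Bool.xor_true]
    by_cases h2 : ξ j = true
    · rw [ind_pos h2, ind_neg (by simp [h2])]; norm_num
    · rw [ind_neg h2, ind_pos (by simpa using h2)]; norm_num
  · rw [if_neg h]
    have h3 : m j = false := by simpa using h
    simp only [h3, Bool.xor_false]

theorem KER_S_flip (π : Option J → ℝ) (ξ : J → Bool) :
    KER_S π (fun j => xor (ξ j) true) = -KER_S π ξ := by
  unfold KER_S
  rw [← Finset.sum_neg_distrib]
  refine Finset.sum_congr rfl fun j _ => ?_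
  have h := KER_e_flip ξ (fun _ => true) j
  simp only [if_true] at h
  rw [h]
  ring

/-- odd functions have expectation zero -/
theorem KER_odd (F : (J → Bool) → ℝ) (hF : ∀ ξ : J → Bool, F (fun j => xor (ξ j) true) = -F ξ) :
    Ex (half J) F = 0 := by
  have h1 := KER_flip F (fun _ => true)
  rw [ex_congr (fun ξ => hF ξ)] at h1
  have h2 := ex_smul (μ := half J) (-1) F
  have h3 : Ex (half J) (fun f => -1 * F f) = Ex (half J) (fun f => -F f) := ex_congr (fun f => by ring)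
  rw [h3, h1] at h2
  linarith

theorem KER_cov (a c : J) (h : a ≠ c) : Ex (half J) (fun ξ => KER_e ξ a * KER_e ξ c) = 0 := by
  classical
  have h1 := KER_flip (fun ξ => KER_e ξ a * KER_e ξ c) (fun j => decide (j = a))
  have h2 : ∀ ξ : J → Bool, KER_e (fun j => xor (ξ j) (decide (j = a))) a *
      KER_e (fun j => xor (ξ j) (decide (j = a))) c = -1 * (KER_e ξ a * KER_e ξ c) := by
    intro ξ
    have e1 := KER_e_flip ξ (fun j => decide (j = a)) a
    have e2 := KER_e_flip ξ (fun j => decide (j = a)) c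
    simp only [decide_true, if_true] at e1
    rw [if_neg (by simpa using h.symm)] at e2
    rw [e1, e2]
    ring
  rw [ex_congr h2, ex_smul] at h1
  linarith

theorem KER_eS (π : Option J → ℝ) (j : J) :
    Ex (half J) (fun ξ => KER_e ξ j * KER_S π ξ) = π (some j) / 4 := by
  classical
  have h1 : ∀ ξ : J → Bool, KER_e ξ j * KER_S π ξ = ∑ a, π (some a) * (KER_e ξ j * KER_e ξ a) := by
    intro ξ
    unfold KER_S
    rw [Finset.mul_sum]
    exact Finset.sum_congr rfl fun a _ => by ring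
  rw [ex_congr h1, ex_sum, Finset.sum_eq_single j]
  · rw [ex_smul, ex_congr (fun ξ => KER_sq ξ j), ex_const half_isW]
    ring
  · intro a _ ha
    rw [ex_smul, KER_cov j a ha.symm, mul_zero]
  · intro h
    exact absurd (Finset.mem_univ j) h

theorem KER_SS (π : Option J → ℝ) :
    Ex (half J) (fun ξ => KER_S π ξ ^ 2) = (∑ j, π (some j) ^ 2) / 4 := by
  have h1 : ∀ ξ : J → Bool, KER_S π ξ ^ 2 = ∑ a, π (some a) * (KER_e ξ a * KER_S π ξ) := by
    intro ξ
    have h2 : KER_S π ξ ^ 2 = (∑ a, π (some a) * KER_e ξ a) * KER_S π ξ := by rw [sq]; rfl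
    rw [h2, Finset.sum_mul]
    exact Finset.sum_congr rfl fun a _ => by ring
  rw [ex_congr h1, ex_sum, Finset.sum_div]
  refine Finset.sum_congr rfl fun a _ => ?_
  rw [ex_smul, KER_eS]
  ring

theorem KER_lo (x : ℝ) (hx : 0 ≤ 1 / 2 + x) : 2 - 4 * x ≤ 1 / max (1 / 2 + x) (1 / 4) := by
  rw [le_div_iff₀ (KER_max _)]
  rcases le_total (1 / 4) (1 / 2 + x) with h | h
  · rw [max_eq_left h]
    nlinarith [sq_nonneg x]
  · rw [max_eq_right h]
    linarith

theorem KER_hi (x : ℝ) (hx : 0 ≤ 1 / 2 + x) :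
    1 / max (1 / 2 + x) (1 / 4) ≤ 2 - 4 * x + 16 * x ^ 2 := by
  rw [div_le_iff₀ (KER_max _)]
  rcases le_total (1 / 4) (1 / 2 + x) with h | h
  · rw [max_eq_left h]
    have h1 : 0 ≤ x ^ 2 * (1 + 4 * x) := mul_nonneg (sq_nonneg x) (by linarith)
    nlinarith
  · rw [max_eq_right h]
    nlinarith [sq_nonneg (x + 1 / 4)]

theorem KER_Q (π : Option J → ℝ) (hπ : ∀ t, 0 ≤ π t) (hs : ∑ t, π t = 1) (b : ℝ) (hb : 0 < b)
    (hj : ∀ j, π (some j) ≤ b) : ∑ j, π (some j) ^ 2 ≤ b := by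
  rw [Fintype.sum_option] at hs
  have h1 : ∑ j, π (some j) ^ 2 ≤ ∑ j, b * π (some j) := by
    refine Finset.sum_le_sum fun j _ => ?_
    rw [sq]
    exact mul_le_mul_of_nonneg_right (hj j) (hπ _)
  rw [← Finset.mul_sum] at h1
  have h2 : ∑ j, π (some j) ≤ 1 := by linarith [hπ none]
  nlinarith

/-- expectation of the three polynomials against a weight -/
theorem KER_E (π : Option J → ℝ) :
    Ex (half J) (fun ξ => 2 - 4 * KER_S π ξ) = 2 ∧
    Ex (half J) (fun ξ => 2 - 4 * KER_S π ξ + 16 * KER_S π ξ ^ 2) = 2 + 4 * ∑ j, π (some j) ^ 2 := by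
  have h1 : Ex (half J) (fun ξ => KER_S π ξ) = 0 := KER_odd _ (fun ξ => KER_S_flip π ξ)
  have h2 : Ex (half J) (fun ξ => 2 - 4 * KER_S π ξ) = 2 := by
    rw [ex_sub (fun _ => (2 : ℝ)) (fun ξ => 4 * KER_S π ξ), ex_const half_isW, ex_smul, h1]
    ring
  refine ⟨h2, ?_⟩
  rw [ex_add (fun ξ => 2 - 4 * KER_S π ξ) (fun ξ => 16 * KER_S π ξ ^ 2), h2, ex_smul, KER_SS]
  ring

theorem KER_Ej (π : Option J → ℝ) (j : J) :
    Ex (half J) (fun ξ => (1 / 2 + KER_e ξ j) * (2 - 4 * KER_S π ξ)) = 1 - π (some j) ∧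
    Ex (half J) (fun ξ => (1 / 2 + KER_e ξ j) * (2 - 4 * KER_S π ξ + 16 * KER_S π ξ ^ 2)) =
      1 - π (some j) + 2 * ∑ j, π (some j) ^ 2 := by
  have hef : ∀ ξ : J → Bool, KER_e (fun j => xor (ξ j) true) j = -KER_e ξ j := by
    intro ξ
    have h := KER_e_flip ξ (fun _ => true) j
    simp only [if_true] at h
    exact h
  have h0 : Ex (half J) (fun ξ => KER_e ξ j) = 0 := KER_odd _ hef
  have h1 : Ex (half J) (fun ξ => KER_e ξ j * KER_S π ξ ^ 2) = 0 := by
    apply KER_odd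
    intro ξ
    show KER_e (fun j => xor (ξ j) true) j * KER_S π (fun j => xor (ξ j) true) ^ 2 = _
    rw [hef, KER_S_flip]
    ring
  obtain ⟨h2, h3⟩ := KER_E π
  have e1 : ∀ ξ : J → Bool, (1 / 2 + KER_e ξ j) * (2 - 4 * KER_S π ξ) =
      (1 / 2 * (2 - 4 * KER_S π ξ) + 2 * KER_e ξ j) + (-4) * (KER_e ξ j * KER_S π ξ) := fun ξ => by ring
  have h4 : Ex (half J) (fun ξ => (1 / 2 + KER_e ξ j) * (2 - 4 * KER_S π ξ)) = 1 - π (some j) := by
    rw [ex_congr e1, ex_add (fun ξ => 1 / 2 * (2 - 4 * KER_S π ξ) + 2 * KER_e ξ j)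
      (fun ξ => (-4) * (KER_e ξ j * KER_S π ξ)), ex_add (fun ξ => 1 / 2 * (2 - 4 * KER_S π ξ))
      (fun ξ => 2 * KER_e ξ j), ex_smul, ex_smul, ex_smul, h2, h0, KER_eS]
    ring
  refine ⟨h4, ?_⟩
  have e2 : ∀ ξ : J → Bool, (1 / 2 + KER_e ξ j) * (2 - 4 * KER_S π ξ + 16 * KER_S π ξ ^ 2) =
      ((1 / 2 + KER_e ξ j) * (2 - 4 * KER_S π ξ) + 8 * KER_S π ξ ^ 2) +
        16 * (KER_e ξ j * KER_S π ξ ^ 2) := fun ξ => by ring
  rw [ex_congr e2, ex_add (fun ξ => (1 / 2 + KER_e ξ j) * (2 - 4 * KER_S π ξ) + 8 * KER_S π ξ ^ 2)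
    (fun ξ => 16 * (KER_e ξ j * KER_S π ξ ^ 2)), ex_add (fun ξ => (1 / 2 + KER_e ξ j) * (2 - 4 * KER_S π ξ))
    (fun ξ => 8 * KER_S π ξ ^ 2), ex_smul, ex_smul, h4, h1, KER_SS]
  ring

/-- the expectation of the (truncated) kernel -/
theorem kex (π : Option J → ℝ) (hπ : ∀ t, 0 ≤ π t) (hs : ∑ t, π t = 1) (b : ℝ) (hb : 0 < b)
    (hb4 : b ≤ 1 / 4) (hj : ∀ j, π (some j) ≤ b) (t : Option J) :
    |Ex (half J) (fun ξ => xh π ξ t) - π t| ≤ 2 * b * π t := by
  have hQ := KER_Q π hπ hs b hb hj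
  have hX0 : ∀ ξ, 0 ≤ 1 / 2 + KER_S π ξ := fun ξ => by rw [← KER_X π hs]; exact KER_X_nonneg π hπ ξ
  have hxh : ∀ ξ, xh π ξ t = num π ξ t * (1 / max (1 / 2 + KER_S π ξ) (1 / 4)) := by
    intro ξ
    unfold xh
    rw [KER_X π hs, div_eq_mul_one_div]
  have hlo : ∀ ξ, num π ξ t * (2 - 4 * KER_S π ξ) ≤ xh π ξ t := by
    intro ξ
    rw [hxh]
    exact mul_le_mul_of_nonneg_left (KER_lo _ (hX0 ξ)) (num_nonneg π hπ ξ t)
  have hhi : ∀ ξ, xh π ξ t ≤ num π ξ t * (2 - 4 * KER_S π ξ + 16 * KER_S π ξ ^ 2) := by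
    intro ξ
    rw [hxh]
    exact mul_le_mul_of_nonneg_left (KER_hi _ (hX0 ξ)) (num_nonneg π hπ ξ t)
  have h1 := ex_mono (μ := half J) half_isW hlo
  have h2 := ex_mono (μ := half J) half_isW hhi
  have hn := hπ t
  cases t with
  | none =>
    obtain ⟨e1, e2⟩ := KER_E π
    have e3 : ∀ ξ : J → Bool, num π ξ none = π none / 2 := fun ξ => rfl
    simp only [e3] at h1 h2
    rw [ex_smul, e1] at h1
    rw [ex_smul, e2] at h2
    rw [abs_le]
    constructor
    · nlinarith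
    · nlinarith
  | some j =>
    obtain ⟨e1, e2⟩ := KER_Ej π j
    have e3 : ∀ ξ : J → Bool, num π ξ (some j) = π (some j) * (1 / 2 + KER_e ξ j) := by
      intro ξ
      show ind (ξ j = true) * π (some j) = _
      unfold KER_e
      ring
    simp only [e3, mul_assoc] at h1 h2
    rw [ex_smul, e1] at h1
    rw [ex_smul, e2] at h2
    have hbj := hj j
    rw [abs_le]
    constructor
    · nlinarith
    · nlinarith

end Pool.Agent.H2.HV
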