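import Mathlib
import Pool.Agent.H2.HV.NUM
import Pool.Agent.H2.HV.KER

/-!
XXB (about 250 lines). Elementary facts on xx, tau, Lam, cap.

om = W/n. num ≤ 3 om for every t (some j: pi ≤ 3 om; none: pi/2 ≤ 3 om), so xx ≤ num/(1/4) ≤ 12 om if XX ≥ 1/4.
xx_zero: if not cp: either elT fails for one of them (pi = 0 by `sup`) or t = some j with equal sides (xor = false, num = 0).
xx_low: cp and (tight, slack): pi ≥ om/3, the sides differ (xor = true), num ≥ pi/2 ≥ om/6, and xx ≥ num as 0 < XX ≤ 1 (`xk_ge`).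
tau: (z+1)/be ≤ 2W/(7W) = 2/7 (z + 1 ≤ 2W). zp needs one tight and one slack class, so tau = 1 for same kind.
Lam_le: slack: ≤ cap ≤ 2W; tight = cap ≤ 2W (S - 1 ≤ 2W); if ¬ elT then every pi is 0 and Lam = 0. Lam ≥ 0.
Lam_sum: for a tight class: Σ_t Lam = Σ_c' M c' tau (Σ_t pi = 1) = Σ M - M(unit) (z+1)/be = n - (z+1); zp (inl a) c' iff c' = inr (un a).
cap_sum: Σ_t ind(elT) cap = Σ_t Lam (tight; Lam = 0 if ¬ elT).
-/

set_option autoImplicit false
set_option linter.unusedVariables false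

namespace Pool.Agent.H2.HV

open Finset

variable {A B J V : Type} [Fintype A] [Fintype B] [Fintype J]
variable {D : MS A B J} {n W S z : ℕ} {c : ℝ}

theorem XXB_pi (hD : D.Ok n W S z c) (k k' : A ⊕ B) : D.pi k k' = D.pi k' k :=
  funext fun t => hD.symm k k' t

theorem XXB_xor (f g : J → Bool) : (fun j => xor (f j) (g j)) = fun j => xor (g j) (f j) :=
  funext fun j => Bool.xor_comm _ _

theorem xx_symm (hD : D.Ok n W S z c) (k k' : Ty A B J) (t : Option J) :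
    xx D k k' t = xx D k' k t := by
  unfold xx
  rw [XXB_pi hD, XXB_xor]

theorem XX_symm (hD : D.Ok n W S z c) (k k' : Ty A B J) : XX D k k' = XX D k' k := by
  unfold XX
  rw [XXB_pi hD, XXB_xor]

theorem xx_nonneg (hD : D.Ok n W S z c) (k k' : Ty A B J) (t : Option J) : 0 ≤ xx D k k' t :=
  xk_nonneg _ (hD.nonneg _ _) _ _

theorem xx_sum (hD : D.Ok n W S z c) (k k' : Ty A B J) (h : 1 / 4 ≤ XX D k k') :
    ∑ t, xx D k k' t = 1 :=
  xk_sum _ _ (lt_of_lt_of_le (by norm_num) h)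

theorem XXB_num (hD : D.Ok n W S z c) (k k' : A ⊕ B) (ξ : J → Bool) (t : Option J) :
    num (D.pi k k') ξ t ≤ 3 * ((W : ℝ) / n) := by
  cases t with
  | none =>
    show D.pi k k' none / 2 ≤ 3 * ((W : ℝ) / n)
    have := hD.pi_star_le k k'
    linarith
  | some j =>
    show ind (ξ j = true) * D.pi k k' (some j) ≤ 3 * ((W : ℝ) / n)
    exact le_trans (mul_le_of_le_one_left (hD.nonneg _ _ _) (ind_le_one _)) (hD.pi_le k k' j)

theorem xxh_nonneg (hD : D.Ok n W S z c) (k k' : Ty A B J) (t : Option J) :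
    0 ≤ xxh D k k' t :=
  xh_nonneg _ (hD.nonneg _ _) _ _

theorem xxh_le (hD : D.Ok n W S z c) (k k' : Ty A B J) (t : Option J) :
    xxh D k k' t ≤ 12 * ((W : ℝ) / n) := by
  have h1 := xh_le (D.pi k.1 k'.1) (hD.nonneg _ _) (fun j => xor (k.2 j) (k'.2 j)) t
  have h2 := XXB_num hD k.1 k'.1 (fun j => xor (k.2 j) (k'.2 j)) t
  unfold xxh
  linarith

theorem xx_eq_xxh (k k' : Ty A B J) (h : 1 / 4 ≤ XX D k k') (t : Option J) :
    xx D k k' t = xxh D k k' t :=
  xk_eq_xh _ _ h t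

theorem xx_le (hD : D.Ok n W S z c) (k k' : Ty A B J) (h : 1 / 4 ≤ XX D k k') (t : Option J) :
    xx D k k' t ≤ 12 * ((W : ℝ) / n) := by
  rw [xx_eq_xxh k k' h t]
  exact xxh_le hD k k' t

theorem xx_zero (hD : D.Ok n W S z c) (k k' : Ty A B J) (t : Option J) (h : ¬ cp D k k' t) :
    xx D k k' t = 0 := by
  have key : num (D.pi k.1 k'.1) (fun j => xor (k.2 j) (k'.2 j)) t = 0 := by
    by_cases h1 : D.elT k.1 t ∧ D.elT k'.1 t
    · have h2 : ¬ ∀ j, t = some j → k.2 j ≠ k'.2 j := fun h3 => h ⟨h1.1, h1.2, h3⟩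
      push Not at h2
      obtain ⟨j, rfl, hj⟩ := h2
      show ind (xor (k.2 j) (k'.2 j) = true) * D.pi k.1 k'.1 (some j) = 0
      rw [hj, Bool.xor_self, ind_neg (by simp), zero_mul]
    · have h2 := hD.sup k.1 k'.1 t h1
      cases t with
      | none =>
        show D.pi k.1 k'.1 none / 2 = 0
        rw [h2, zero_div]
      | some j =>
        show ind (xor (k.2 j) (k'.2 j) = true) * D.pi k.1 k'.1 (some j) = 0
        rw [h2, mul_zero]
  unfold xx xk
  rw [key, zero_div]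

theorem xx_low (hN : Num n W S z c) (hD : D.Ok n W S z c) (k k' : Ty A B J) (t : Option J)
    (hA : isA k.1) (hB : isB k'.1) (h : cp D k k' t) (hX : 1 / 4 ≤ XX D k k') :
    ((W : ℝ) / n) / 6 ≤ xx D k k' t := by
  obtain ⟨a, ha⟩ := hA
  obtain ⟨b, hb⟩ := hB
  obtain ⟨h1, h2, h3⟩ := h
  have hlow : ((W : ℝ) / n) / 3 ≤ D.pi k.1 k'.1 t := by
    rw [ha, hb]
    rw [ha] at h1
    rw [hb] at h2
    exact hD.low a b t h1 h2
  have hge := xk_ge (D.pi k.1 k'.1) (hD.nonneg _ _) (hD.sum_one _ _)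
    (fun j => xor (k.2 j) (k'.2 j)) (lt_of_lt_of_le (by norm_num) hX) t
  have hnum : D.pi k.1 k'.1 t / 2 ≤ num (D.pi k.1 k'.1) (fun j => xor (k.2 j) (k'.2 j)) t := by
    cases t with
    | none => exact le_refl _
    | some j =>
      show D.pi k.1 k'.1 (some j) / 2 ≤
        ind (xor (k.2 j) (k'.2 j) = true) * D.pi k.1 k'.1 (some j)
      have h4 := h3 j rfl
      have h5 : xor (k.2 j) (k'.2 j) = true := by
        revert h4
        cases k.2 j <;> cases k'.2 j <;> simp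
      rw [ind_pos h5, one_mul]
      have := hD.nonneg k.1 k'.1 (some j)
      linarith
  unfold xx
  linarith

theorem cp_symm (k k' : Ty A B J) (t : Option J) (h : cp D k k' t) : cp D k' k t :=
  ⟨h.2.1, h.1, fun j hj => (h.2.2 j hj).symm⟩

theorem tau_symm (k k' : A ⊕ B) : D.tau z k k' = D.tau z k' k := by
  unfold MS.tau
  have : D.zp k k' ↔ D.zp k' k := by
    unfold MS.zp
    exact exists_congr fun a => Or.comm
  rw [ind_congr this]

theorem XXB_q (hN : Num n W S z c) (hD : D.Ok n W S z c) :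
    0 ≤ ((z : ℝ) + 1) / D.be ∧ ((z : ℝ) + 1) / D.be ≤ 2 / 7 ∧ 0 < D.be := by
  obtain ⟨_, hW, _⟩ := num_c hN
  have hbe : 0 < D.be := lt_of_lt_of_le (by positivity) hD.be_lo
  have hz : ((z : ℝ) + 1) ≤ 2 * W := by
    have : z + 1 ≤ 2 * W := hN.z1
    exact_mod_cast this
  refine ⟨by positivity, ?_, hbe⟩
  rw [div_le_div_iff₀ hbe (by norm_num)]
  have := hD.be_lo
  linarith

theorem tau_ge (hN : Num n W S z c) (hD : D.Ok n W S z c) (k k' : A ⊕ B) :
    5 / 7 ≤ D.tau z k k' := by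
  obtain ⟨h1, h2, _⟩ := XXB_q hN hD
  have h3 : ind (D.zp k k') * (((z : ℝ) + 1) / D.be) ≤ ((z : ℝ) + 1) / D.be :=
    mul_le_of_le_one_left h1 (ind_le_one _)
  unfold MS.tau
  linarith

theorem tau_le (hN : Num n W S z c) (hD : D.Ok n W S z c) (k k' : A ⊕ B) :
    D.tau z k k' ≤ 1 := by
  obtain ⟨h1, h2, _⟩ := XXB_q hN hD
  have h3 : 0 ≤ ind (D.zp k k') * (((z : ℝ) + 1) / D.be) := mul_nonneg (ind_nonneg _) h1
  unfold MS.tau
  linarith

theorem tau_sm (k k' : Ty A B J) (h : sm k k') : D.tau z k.1 k'.1 = 1 := by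
  have hz : ¬ D.zp k.1 k'.1 := by
    rintro ⟨a, h1⟩
    rcases h with ⟨⟨a1, ha1⟩, ⟨a2, ha2⟩⟩ | ⟨⟨b1, hb1⟩, ⟨b2, hb2⟩⟩
    · rcases h1 with ⟨_, h2⟩ | ⟨_, h2⟩
      · rw [ha2] at h2
        exact absurd h2 (by simp)
      · rw [ha1] at h2
        exact absurd h2 (by simp)
    · rcases h1 with ⟨h2, _⟩ | ⟨h2, _⟩
      · rw [hb1] at h2
        exact absurd h2 (by simp)
      · rw [hb2] at h2
        exact absurd h2 (by simp)
  unfold MS.tau
  rw [ind_neg hz, zero_mul, sub_zero]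

theorem Lam_nonneg (hN : Num n W S z c) (hD : D.Ok n W S z c) (k : A ⊕ B) (t : Option J) :
    0 ≤ D.Lam z k t := by
  unfold MS.Lam
  refine Finset.sum_nonneg fun c' _ => ?_
  have h1 := tau_ge hN hD k c'
  have h2 : 0 ≤ D.tau z k c' := by linarith
  exact mul_nonneg (hD.M_pos c').le (mul_nonneg h2 (hD.nonneg _ _ _))

theorem XXB_Lam_zero (hD : D.Ok n W S z c) (k : A ⊕ B) (t : Option J) (h : ¬ D.elT k t) :
    D.Lam z k t = 0 := by
  unfold MS.Lam
  refine Finset.sum_eq_zero fun c' _ => ?_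
  rw [hD.sup k c' t (fun h2 => h h2.1), mul_zero, mul_zero]

theorem XXB_cap (hN : Num n W S z c) (t : Option J) : 0 ≤ cap W S t ∧ cap W S t ≤ 2 * W := by
  obtain ⟨_, hW, _, _, _, _, hW20, _⟩ := num_c hN
  have hS0 : (W : ℝ) ≤ S := by exact_mod_cast hN.S0
  have hS1 : (S : ℝ) < 2 * W := by exact_mod_cast hN.S1
  have hW1 : (1 : ℝ) ≤ W := le_trans (by norm_num) hW20
  cases t with
  | none =>
    show 0 ≤ (S : ℝ) - 1 ∧ (S : ℝ) - 1 ≤ 2 * W
    constructor <;> linarith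
  | some j =>
    show 0 ≤ (W : ℝ) ∧ (W : ℝ) ≤ 2 * W
    constructor <;> linarith

theorem Lam_le (hN : Num n W S z c) (hD : D.Ok n W S z c) (k : A ⊕ B) (t : Option J) :
    D.Lam z k t ≤ 2 * W := by
  obtain ⟨h1, h2⟩ := XXB_cap hN t
  by_cases h : D.elT k t
  · rcases k with a | b
    · rw [hD.tight a t h]
      exact h2
    · refine le_trans (hD.slack b t h) (le_trans ?_ h2)
      have hc := hN.c0
      refine mul_le_of_le_one_right h1 ?_
      linarith
  · rw [XXB_Lam_zero hD k t h]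
    have : (0 : ℝ) ≤ W := Nat.cast_nonneg _
    linarith

theorem cap_sum (hN : Num n W S z c) (hD : D.Ok n W S z c) (a : A) :
    ∑ t, ind (D.elT (Sum.inl a) t) * cap W S t = n - (z + 1) := by
  have h1 : ∀ t, ind (D.elT (Sum.inl a) t) * cap W S t = D.Lam z (Sum.inl a) t := by
    intro t
    by_cases h : D.elT (Sum.inl a) t
    · rw [ind_pos h, one_mul, hD.tight a t h]
    · rw [ind_neg h, zero_mul, XXB_Lam_zero hD _ t h]
  rw [Finset.sum_congr rfl (fun t _ => h1 t)]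
  unfold MS.Lam
  rw [Finset.sum_comm]
  have h2 : ∀ c' : A ⊕ B, ∑ t, D.M c' * (D.tau z (Sum.inl a) c' * D.pi (Sum.inl a) c' t) =
      D.M c' - D.M c' * (ind (D.zp (Sum.inl a) c') * (((z : ℝ) + 1) / D.be)) := by
    intro c'
    rw [← Finset.mul_sum, ← Finset.mul_sum, hD.sum_one, mul_one]
    unfold MS.tau
    ring
  rw [Finset.sum_congr rfl (fun c' _ => h2 c'), Finset.sum_sub_distrib, hD.M_sum]
  have h3 : ∑ c' : A ⊕ B, D.M c' * (ind (D.zp (Sum.inl a) c') * (((z : ℝ) + 1) / D.be)) =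
      (z : ℝ) + 1 := by
    rw [Fintype.sum_eq_single (Sum.inr (D.un a))]
    · have hz : D.zp (Sum.inl a) (Sum.inr (D.un a)) := ⟨a, Or.inl ⟨rfl, rfl⟩⟩
      rw [ind_pos hz, one_mul, hD.M_B]
      obtain ⟨_, _, hbe⟩ := XXB_q hN hD
      field_simp
    · intro c' hc'
      have hz : ¬ D.zp (Sum.inl a) c' := by
        rintro ⟨a', h4 | h4⟩
        · have h5 : a = a' := Sum.inl.inj h4.1
          exact hc' (by rw [h4.2, h5])
        · exact absurd h4.2 (by simp)
      rw [ind_neg hz, zero_mul, mul_zero]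
  rw [h3]

end Pool.Agent.H2.HV
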