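import Mathlib
import Pool.Agent.H2.HV.XXB

/-!
R2D: definitions for stages 2 and 3 (no sorry).
-/

set_option autoImplicit false
set_option linter.unusedVariables false

namespace Pool.Agent.H2.HV

open Finset

variable {A B J V : Type} [Fintype A] [Fintype B] [Fintype J] [Fintype V]

/-- The weights of stage 2: an edge between vertices of the same kind picks a block with law `xx`. -/
noncomputable def mu2 (G : SimpleGraph V) (D : MS A B J) (ty : V → Ty A B J) :
    Sym2 V → Option J → ℝ := fun e t =>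
  ind (G.Adj (Quot.out e).1 (Quot.out e).2 ∧ sm (ty (Quot.out e).1) (ty (Quot.out e).2)) *
      xx D (ty (Quot.out e).1) (ty (Quot.out e).2) t +
    ind (¬ (G.Adj (Quot.out e).1 (Quot.out e).2 ∧ sm (ty (Quot.out e).1) (ty (Quot.out e).2))) *
      ind (t = none)

/-- The transport coefficients at all tight vertices. -/
structure CoOk (G : SimpleGraph V) (D : MS A B J) (n : ℕ) (c : ℝ) (ty : V → Ty A B J)
    (co : V → V → Option J → Option J → ℝ) : Prop where
  zero : ∀ v w t k, ¬ (isA (ty v).1 ∧ G.Adj v w ∧ isB (ty w).1 ∧ cp D (ty v) (ty w) t) →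
    co v w t k = 0
  bd : ∀ v w t k, |co v w t k| ≤ 250 / (n * c)
  bd2 : ∀ v w t, ∑ k, |co v w t k| ≤ 300 / (n * c)
  tr : ∀ v, isA (ty v).1 → ∀ ρ : Option J → ℝ, ∑ k, ρ k = 0 →
    (∀ k, ¬ D.elT (ty v).1 k → ρ k = 0) →
    (∀ t, ∑ w, ∑ k, co v w t k * ρ k = ρ t) ∧ (∀ w, ∑ t, ∑ k, co v w t k * ρ k = 0)

/-- The outcome of stage 2. -/
structure Good2 (G : SimpleGraph V) (D : MS A B J) (n W z : ℕ) (c : ℝ) (ty : V → Ty A B J)
    (co : V → V → Option J → Option J → ℝ) (al : V → V → Option J) : Prop where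
  symm : ∀ u v, al u v = al v u
  cpp : ∀ u v, G.Adj u v → sm (ty u) (ty v) → cp D (ty u) (ty v) (al u v)
  cnt : ∀ v t, |(∑ u, ind (G.Adj v u ∧ sm (ty v) (ty u) ∧ al v u = t)) -
    ∑ u, ind (G.Adj v u ∧ sm (ty v) (ty u)) * xx D (ty v) (ty u) t| ≤ c * W / 10 ^ 5
  lin : ∀ w t, |∑ v, ind (G.Adj w v ∧ isA (ty v).1) * ∑ u, ind (G.Adj v u ∧ isA (ty u).1) *
    (co v w t (al v u) - ∑ k, xx D (ty v) (ty u) k * co v w t k)| ≤ c * W / 10 ^ 5

/-- Everything known after stage 2. -/
structure Ctx (G : SimpleGraph V) (D : MS A B J) (n W S z : ℕ) (c : ℝ) (ty : V → Ty A B J)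
    (co : V → V → Option J → Option J → ℝ) (al : V → V → Option J) : Prop where
  hN : Num n W S z c
  hD : D.Ok n W S z c
  hG : Reg G n
  g1 : Good1 G D n W z c ty
  hco : CoOk G D n c ty co
  g2 : Good2 G D n W z c ty co al

/-- number of neighbours in the unit (for a tight vertex) -/
noncomputable def cz (G : SimpleGraph V) (D : MS A B J) (ty : V → Ty A B J) (v : V) : ℝ :=
  ∑ u, ind (G.Adj v u ∧ D.zp (ty v).1 (ty u).1)

noncomputable def tv (G : SimpleGraph V) (D : MS A B J) (z : ℕ) (ty : V → Ty A B J) (v w : V) : ℝ :=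
  1 - ind (D.zp (ty v).1 (ty w).1) * ((z + 1) / cz G D ty v)

/-- number of tight neighbours joined by an edge with the value `t` -/
noncomputable def aa (G : SimpleGraph V) (ty : V → Ty A B J) (al : V → V → Option J) (v : V)
    (t : Option J) : ℝ := ∑ u, ind (G.Adj v u ∧ isA (ty u).1 ∧ al v u = t)

/-- the mean residual -/
noncomputable def rb (G : SimpleGraph V) (D : MS A B J) (W S z : ℕ) (ty : V → Ty A B J) (v : V)
    (t : Option J) : ℝ :=
  ind (D.elT (ty v).1 t) * (cap W S t - (∑ u, ind (G.Adj v u ∧ isA (ty u).1) * xx D (ty v) (ty u) t)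
    - ∑ w, ind (G.Adj v w ∧ isB (ty w).1) * (tv G D z ty v w * xx D (ty v) (ty w) t))

/-- the residual at a tight vertex -/
noncomputable def rr (G : SimpleGraph V) (D : MS A B J) (W S z : ℕ) (ty : V → Ty A B J)
    (al : V → V → Option J) (v : V) (t : Option J) : ℝ :=
  ind (D.elT (ty v).1 t) * (cap W S t - aa G ty al v t
    - ∑ w, ind (G.Adj v w ∧ isB (ty w).1) * (tv G D z ty v w * xx D (ty v) (ty w) t))

/-- the exact fractional assignment of the slack edges of a tight vertex -/
noncomputable def yy (G : SimpleGraph V) (D : MS A B J) (W S z : ℕ) (ty : V → Ty A B J)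
    (co : V → V → Option J → Option J → ℝ) (al : V → V → Option J) (v w : V) : Lab J → ℝ
  | none => 1 - tv G D z ty v w
  | some t => tv G D z ty v w * xx D (ty v) (ty w) t + ∑ k, co v w t k * rr G D W S z ty al v k

end Pool.Agent.H2.HV
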