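import Mathlib
import Pool.Agent.H2.HV.PRB

/-!
TRN (about 200 lines). The transport operator.

Let mc = Σ_t ind (mid t) > 0 and c(t,s) = Σ_w ind (A t w ∧ A s w) (≥ N0 > 0 if el t, mid s). Put
co w t k = ind (el t) * ind (t = k) * (1/mc) * Σ_s ind (mid s) * ind (A t w ∧ A s w) / c(t,s)
         - ind (mid t) * (1/mc) * ind (el k) * ind (A k w ∧ A t w) / c(k,t).
(1) zero unless el t and A t w (mid t → el t). (2) |co| ≤ (ind (t=k) + 1/mc)/N0. (3) for ρ supported on el with Σ ρ = 0:
Σ_w Σ_k co w t k ρ_k = ρ_t · (1/mc) Σ_{s mid} 1 - ind(mid t)(1/mc) Σ_k ρ_k = ρ_t (also for t not in el, both sides 0).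
(4) Σ_t Σ_k co w t k ρ_k = Σ_t ρ_t (1/mc) Σ_{s mid} ind(A t w ∧ A s w)/c(t,s) - Σ_{t mid}(1/mc) Σ_k ρ_k ind(A k w ∧ A t w)/c(k,t) = 0.
-/

set_option autoImplicit false
set_option linter.unusedVariables false

namespace Pool.Agent.H2.HV

open Finset

theorem trn {V T : Type} [Fintype V] [Fintype T] (A : T → V → Prop) (el mid : T → Prop)
    (N0 : ℝ) (hN0 : 0 < N0) (hmid : ∀ t, mid t → el t) (hmc : 0 < ∑ t, ind (mid t))
    (hA : ∀ t s, el t → mid s → N0 ≤ ∑ w, ind (A t w ∧ A s w)) :
    ∃ co : V → T → T → ℝ,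
      (∀ w t k, ¬ (el t ∧ A t w) → co w t k = 0) ∧
      (∀ w t k, |co w t k| ≤ (ind (t = k) + 1 / ∑ t, ind (mid t)) / N0) ∧
      (∀ ρ : T → ℝ, (∑ k, ρ k = 0) → (∀ k, ¬ el k → ρ k = 0) →
        (∀ t, ∑ w, ∑ k, co w t k * ρ k = ρ t) ∧ (∀ w, ∑ t, ∑ k, co w t k * ρ k = 0)) := by
  classical
  set mc : ℝ := ∑ t, ind (mid t) with hmcd
  set c : T → T → ℝ := fun t s => ∑ w, ind (A t w ∧ A s w) with hc
  set h : V → T → T → ℝ := fun w t s =>
    ind (el t) * (ind (mid s) * (ind (A t w ∧ A s w) / c t s)) with hh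
  have hmc0 : mc ≠ 0 := hmc.ne'
  have hc0 : ∀ t s, 0 ≤ c t s := fun t s => Finset.sum_nonneg fun w _ => ind_nonneg _
  have h0 : ∀ w t s, 0 ≤ h w t s := fun w t s =>
    mul_nonneg (ind_nonneg _) (mul_nonneg (ind_nonneg _) (div_nonneg (ind_nonneg _) (hc0 t s)))
  have hle : ∀ w t s, h w t s ≤ ind (mid s) / N0 := by
    intro w t s
    by_cases ht : el t
    · by_cases hs : mid s
      · have h1 : N0 ≤ c t s := hA t s ht hs
        simp only [hh, ind_pos ht, ind_pos hs, one_mul]
        exact div_le_div₀ zero_le_one (ind_le_one _) hN0 h1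
      · simp only [hh, ind_neg hs, zero_mul, mul_zero, zero_div, le_refl]
    · simp only [hh, ind_neg ht, zero_mul]
      exact div_nonneg (ind_nonneg _) hN0.le
  have hsumw : ∀ t s, ∑ w, h w t s = ind (el t) * ind (mid s) := by
    intro t s
    by_cases ht : el t
    · by_cases hs : mid s
      · have h1 : c t s ≠ 0 := (hN0.trans_le (hA t s ht hs)).ne'
        simp only [hh, ind_pos ht, ind_pos hs, one_mul]
        rw [← Finset.sum_div]
        exact div_self h1
      · simp only [hh, ind_neg hs, zero_mul, mul_zero, Finset.sum_const_zero]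
    · simp only [hh, ind_neg ht, zero_mul, Finset.sum_const_zero]
  have hsel : ∀ (t : T) (X : ℝ) (ρ : T → ℝ), ∑ k, ind (t = k) * X * ρ k = X * ρ t := by
    intro t X ρ
    rw [Finset.sum_eq_single t]
    · rw [ind_pos rfl, one_mul]
    · intro k _ hk
      rw [ind_neg (fun h => hk h.symm), zero_mul, zero_mul]
    · intro h
      exact absurd (Finset.mem_univ t) h
  refine ⟨fun w t k => (ind (t = k) * (∑ s, h w t s) - h w k t) / mc, ?_, ?_, ?_⟩
  · intro w t k hn
    have h1 : ∀ s, h w t s = 0 := by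
      intro s
      by_cases ht : el t
      · have h2 : ¬ A t w := fun h3 => hn ⟨ht, h3⟩
        simp only [hh]
        rw [ind_neg (fun h3 : A t w ∧ A s w => h2 h3.1), zero_div, mul_zero, mul_zero]
      · simp only [hh]
        rw [ind_neg ht, zero_mul]
    have h2 : h w k t = 0 := by
      by_cases ht : el t
      · have h2 : ¬ A t w := fun h3 => hn ⟨ht, h3⟩
        simp only [hh]
        rw [ind_neg (fun h3 : A k w ∧ A t w => h2 h3.2), zero_div, mul_zero, mul_zero]
      · simp only [hh]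
        rw [ind_neg (fun h3 => ht (hmid t h3)), zero_mul, mul_zero]
    simp only [h1, h2, Finset.sum_const_zero, mul_zero, sub_self, zero_div]
  · intro w t k
    have h1 : ∑ s, h w t s ≤ mc / N0 := by
      rw [hmcd, Finset.sum_div]
      exact Finset.sum_le_sum fun s _ => hle w t s
    have h1' : 0 ≤ ∑ s, h w t s := Finset.sum_nonneg fun s _ => h0 w t s
    have h2 : h w k t ≤ 1 / N0 :=
      (hle w k t).trans (div_le_div_of_nonneg_right (ind_le_one _) hN0.le)
    have h3 : (ind (t = k) + 1 / mc) / N0 = (ind (t = k) * (mc / N0) + 1 / N0) / mc := by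
      field_simp
    simp only
    rw [h3, abs_div, abs_of_pos hmc]
    refine div_le_div_of_nonneg_right ?_ hmc.le
    have h4 : ind (t = k) * ∑ s, h w t s ≤ ind (t = k) * (mc / N0) :=
      mul_le_mul_of_nonneg_left h1 (ind_nonneg _)
    have h5 : 0 ≤ ind (t = k) * ∑ s, h w t s := mul_nonneg (ind_nonneg _) h1'
    have h6 := h0 w k t
    rw [abs_le]
    constructor
    · have h7 : 0 ≤ ind (t = k) * (mc / N0) := h5.trans h4
      linarith
    · have h8 : 0 ≤ 1 / N0 := by positivity
      linarith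
  · intro ρ hρ hel
    have hin : ∀ w t, ∑ k, (ind (t = k) * (∑ s, h w t s) - h w k t) / mc * ρ k =
        ((∑ s, h w t s) * ρ t - ∑ k, h w k t * ρ k) / mc := by
      intro w t
      rw [← hsel t (∑ s, h w t s) ρ, ← Finset.sum_sub_distrib, Finset.sum_div]
      exact Finset.sum_congr rfl fun k _ => by ring
    simp only [hin]
    constructor
    · intro t
      rw [← Finset.sum_div, Finset.sum_sub_distrib]
      have e1 : ∑ w, (∑ s, h w t s) * ρ t = ind (el t) * mc * ρ t := by
        rw [← Finset.sum_mul, Finset.sum_comm, Finset.sum_congr rfl fun s _ => hsumw t s,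
          ← Finset.mul_sum]
      have e2 : ∑ w, ∑ k, h w k t * ρ k = 0 := by
        rw [Finset.sum_comm]
        have e3 : ∀ k, ∑ w, h w k t * ρ k = ind (mid t) * ρ k := by
          intro k
          rw [← Finset.sum_mul, hsumw]
          by_cases hk : el k
          · rw [ind_pos hk, one_mul]
          · rw [hel k hk, mul_zero, mul_zero]
        rw [Finset.sum_congr rfl fun k _ => e3 k, ← Finset.mul_sum, hρ, mul_zero]
      rw [e1, e2, sub_zero]
      by_cases ht : el t
      · rw [ind_pos ht, one_mul, mul_div_assoc, mul_comm, div_mul_cancel₀ _ hmc0]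
      · rw [hel t ht, mul_zero, zero_div]
    · intro w
      rw [← Finset.sum_div, Finset.sum_sub_distrib]
      have e1 : ∑ t, (∑ s, h w t s) * ρ t = ∑ t, ∑ k, h w k t * ρ k := by
        rw [Finset.sum_comm (f := fun t k => h w k t * ρ k)]
        exact Finset.sum_congr rfl fun t _ => Finset.sum_mul _ _ _
      rw [e1, sub_self, zero_div]

end Pool.Agent.H2.HV
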