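import Mathlib
import Pool.Agent.H2.HV.TRN
import Pool.Agent.H2.HV.R2D

/-!
CO (about 120 lines). The transport coefficients.

For every tight v ((ty v).1 = inl a) apply `trn` with T = Option J, A t w := G.Adj v w ∧ isB (ty w).1 ∧ cp D (ty v) (ty w) t, el := D.elT (inl a),
mid t := ∃ j, t = some j ∧ D.mid a j, N0 = n c/50. hmid: mid_el. Σ_t ind (mid t) = Σ_j ind (D.mid a j) ≥ 1/(2 om) > 0 (Fintype.sum_option), om = W/n.
hA: Good1.pair (A t w ∧ A (some j) w iff the conjunction there). For v not tight put co = 0. `choose` / classical definition by cases.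
bd: (1 + 2 om)·50/(n c) ≤ 250/(n c). bd2: Σ_k (ind(t=k) + 1/mc)/N0 = (1 + (card J + 1)/mc)·50/(n c) ≤ (1 + (2/om)(2 om))·50/(nc) = 250/(n c).
-/

set_option autoImplicit false
set_option linter.unusedVariables false

namespace Pool.Agent.H2.HV

open Finset

variable {A B J V : Type} [Fintype A] [Fintype B] [Fintype J] [Fintype V]
variable {D : MS A B J} {n W S z : ℕ} {c : ℝ} {G : SimpleGraph V} {ty : V → Ty A B J}

theorem CO_one (hN : Num n W S z c) (hD : D.Ok n W S z c) (g1 : Good1 G D n W z c ty) (v : V) :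
    ∃ co : V → Option J → Option J → ℝ,
      (∀ w t k, ¬ (isA (ty v).1 ∧ G.Adj v w ∧ isB (ty w).1 ∧ cp D (ty v) (ty w) t) →
        co w t k = 0) ∧
      (∀ w t k, |co w t k| ≤ 250 / (n * c)) ∧
      (∀ w t, ∑ k, |co w t k| ≤ 300 / (n * c)) ∧
      (isA (ty v).1 → ∀ ρ : Option J → ℝ, ∑ k, ρ k = 0 →
        (∀ k, ¬ D.elT (ty v).1 k → ρ k = 0) →
        (∀ t, ∑ w, ∑ k, co w t k * ρ k = ρ t) ∧ (∀ w, ∑ t, ∑ k, co w t k * ρ k = 0)) := by
  obtain ⟨hn0, hW0, hlog, -, hom1, -, -, hom⟩ := num_c hN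
  have hc0 := hN.c0
  have hc1 := hN.c1
  have hnc : 0 < (n : ℝ) * c := mul_pos hn0 hc0
  by_cases hv : isA (ty v).1
  swap
  · refine ⟨fun _ _ _ => 0, fun _ _ _ _ => rfl, fun w t k => ?_, fun w t => ?_,
      fun h => absurd h hv⟩
    · rw [abs_zero]; positivity
    · simp only [abs_zero, Finset.sum_const_zero]; positivity
  obtain ⟨a, ha⟩ := hv
  have hmsum : ∑ t : Option J, ind (∃ j, t = some j ∧ D.mid a j) = ∑ j, ind (D.mid a j) := by
    rw [Fintype.sum_option, ind_neg (by rintro ⟨j, hj, -⟩; cases hj), zero_add]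
    refine Finset.sum_congr rfl fun j _ => ind_congr ⟨?_, fun h => ⟨j, rfl, h⟩⟩
    rintro ⟨j', hj', h⟩
    cases hj'
    exact h
  have hmc1 : 1 / (2 * ((W : ℝ) / n)) ≤ ∑ t : Option J, ind (∃ j, t = some j ∧ D.mid a j) := by
    rw [hmsum]
    exact hD.mid_card a
  have hmc0 : 0 < ∑ t : Option J, ind (∃ j, t = some j ∧ D.mid a j) :=
    lt_of_lt_of_le (by positivity) hmc1
  have hinv : 1 / ∑ t : Option J, ind (∃ j, t = some j ∧ D.mid a j) ≤ 2 * ((W : ℝ) / n) := by
    rw [div_le_iff₀ hmc0]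
    rw [div_le_iff₀ (by positivity)] at hmc1
    linarith
  have hom3 : (W : ℝ) / n ≤ 1 := by
    have h1 : c ^ 2 ≤ 1 := by nlinarith
    linarith
  obtain ⟨co, h1, h2, h3⟩ := trn (V := V) (T := Option J)
    (fun t w => G.Adj v w ∧ isB (ty w).1 ∧ cp D (ty v) (ty w) t)
    (fun t => D.elT (Sum.inl a) t) (fun t => ∃ j, t = some j ∧ D.mid a j) (n * c / 50)
    (by positivity) (by
      rintro t ⟨j, rfl, hj⟩
      exact hD.mid_el a j hj) hmc0 (by
      rintro t s ht ⟨j, rfl, hj⟩
      refine (g1.pair v a ha t ht j hj).trans (le_of_eq ?_)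
      refine Finset.sum_congr rfl fun u _ => ind_congr ⟨?_, ?_⟩
      · rintro ⟨q1, q2, q3, q4⟩
        exact ⟨⟨q1, q2, q3⟩, q1, q2, q4⟩
      · rintro ⟨⟨q1, q2, q3⟩, -, -, q4⟩
        exact ⟨q1, q2, q3, q4⟩)
  refine ⟨co, ?_, ?_, ?_, ?_⟩
  · intro w t k h
    refine h1 w t k fun h4 => h ⟨⟨a, ha⟩, h4.2.1, h4.2.2.1, h4.2.2.2⟩
  · intro w t k
    refine (h2 w t k).trans ?_
    rw [div_le_div_iff₀ (by positivity) hnc]
    have h5 := ind_le_one (t = k)
    have h6 : ind (t = k) + 1 / ∑ t : Option J, ind (∃ j, t = some j ∧ D.mid a j) ≤ 5 := by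
      linarith
    nlinarith
  · intro w t
    calc ∑ k, |co w t k| ≤ ∑ k, (ind (t = k) +
          1 / ∑ t : Option J, ind (∃ j, t = some j ∧ D.mid a j)) / (n * c / 50) :=
          Finset.sum_le_sum fun k _ => h2 w t k
      _ = (1 + (Fintype.card (Option J) : ℝ) *
          (1 / ∑ t : Option J, ind (∃ j, t = some j ∧ D.mid a j))) / (n * c / 50) := by
          rw [← Finset.sum_div, Finset.sum_add_distrib, Finset.sum_const, Finset.card_univ,
            nsmul_eq_mul]
          congr 2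
          rw [Finset.sum_eq_single t]
          · exact ind_pos rfl
          · intro k _ hk
            exact ind_neg fun h => hk h.symm
          · intro h; exact absurd (Finset.mem_univ t) h
      _ ≤ 5 / (n * c / 50) := by
          refine div_le_div_of_nonneg_right ?_ (by positivity)
          have h4 : (Fintype.card (Option J) : ℝ) ≤ 2 / ((W : ℝ) / n) := by
            rw [Fintype.card_option]; push_cast
            exact hD.cardJ
          have h5 : (Fintype.card (Option J) : ℝ) *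
              (1 / ∑ t : Option J, ind (∃ j, t = some j ∧ D.mid a j)) ≤
              2 / ((W : ℝ) / n) * (2 * ((W : ℝ) / n)) :=
            mul_le_mul h4 hinv (by positivity) (by positivity)
          have h6 : 2 / ((W : ℝ) / n) * (2 * ((W : ℝ) / n)) = 4 := by
            field_simp
            norm_num
          linarith
      _ ≤ 300 / (n * c) := by
          rw [div_le_div_iff₀ (by positivity) hnc]
          nlinarith
  · intro _ ρ hρ hρ0
    refine h3 ρ hρ fun k hk => hρ0 k ?_
    rw [ha]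
    exact hk

theorem co_exists (hN : Num n W S z c) (hD : D.Ok n W S z c) (g1 : Good1 G D n W z c ty) :
    ∃ co : V → V → Option J → Option J → ℝ, CoOk G D n c ty co := by
  choose co h1 h2 h3 h4 using fun v => CO_one (ty := ty) (G := G) hN hD g1 v
  exact ⟨co, h1, h2, h3, h4⟩

end Pool.Agent.H2.HV
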