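import Mathlib
import Pool.Agent.H2.HV.R2D

/-!
LDB (about 150 lines). Load bounds after stage 1.

Good1.load and Lam_le give Σ_u ind(Adj v u) (tau xx) ≤ 2W + c²W/10^5 ≤ 3 W if elT (ty v).1 t; otherwise every xx is 0 (xx_zero).
ld_all: tau ≥ 5/7 so Σ ind(Adj) xx ≤ (7/5)(2W + c² W/10^5) ≤ 3 W. ld_sm: the terms with ¬ sm are ≥ 0.
cz_bounds: for a tight v, zp (inl a) c' iff c' = inr (un a), so cz v = the number of neighbours in that class = be ± c W/10^5 (Good1.cnt).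
tv_bounds: (z+1)/cz ≤ 2W/(6.9 W) ≤ 3/10.  tau_tv: |tau - tv| ≤ ind(zp) (both fractions in [0,1]).
-/

set_option autoImplicit false
set_option linter.unusedVariables false

namespace Pool.Agent.H2.HV

open Finset

variable {A B J V : Type} [Fintype A] [Fintype B] [Fintype J] [Fintype V]
variable {D : MS A B J} {n W S z : ℕ} {c : ℝ} {G : SimpleGraph V} {ty : V → Ty A B J}

theorem LDB_W (hN : Num n W S z c) : (0 : ℝ) < W := (num_c hN).2.1

theorem LDB_z1 (hN : Num n W S z c) : (z : ℝ) + 1 ≤ 2 * W := by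
  have h1 : z + 1 ≤ 2 * W := hN.z1
  exact_mod_cast h1

theorem ld_all (hN : Num n W S z c) (hD : D.Ok n W S z c) (g1 : Good1 G D n W z c ty) (v : V)
    (t : Option J) : ∑ u, ind (G.Adj v u) * xx D (ty v) (ty u) t ≤ 3 * W := by
  have hW := LDB_W hN
  by_cases h : D.elT (ty v).1 t
  · have h1 := g1.load v t h
    have h2 := Lam_le hN hD (ty v).1 t
    have h3 : ∑ u, ind (G.Adj v u) * xx D (ty v) (ty u) t ≤
        7 / 5 * ∑ u, ind (G.Adj v u) * (D.tau z (ty v).1 (ty u).1 * xx D (ty v) (ty u) t) := by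
      rw [Finset.mul_sum]
      refine Finset.sum_le_sum fun u _ => ?_
      have h4 := tau_ge hN hD (ty v).1 (ty u).1
      have h5 := xx_nonneg hD (ty v) (ty u) t
      have h6 : 0 ≤ ind (G.Adj v u) * xx D (ty v) (ty u) t := mul_nonneg (ind_nonneg _) h5
      have h7 : 7 / 5 * (ind (G.Adj v u) * (D.tau z (ty v).1 (ty u).1 * xx D (ty v) (ty u) t)) =
          7 / 5 * D.tau z (ty v).1 (ty u).1 * (ind (G.Adj v u) * xx D (ty v) (ty u) t) := by
        ring
      rw [h7]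
      have h8 : 1 ≤ 7 / 5 * D.tau z (ty v).1 (ty u).1 := by linarith
      exact le_mul_of_one_le_left h6 h8
    have h9 := (abs_le.1 h1).2
    have h10 : c ^ 2 * W ≤ 1 * W := by
      apply mul_le_mul_of_nonneg_right _ hW.le
      have hc1 : c ≤ 1 := le_trans hN.c1 (by norm_num)
      exact pow_le_one₀ hN.c0.le hc1
    have h11 : c ^ 2 * W / 10 ^ 5 ≤ 1 * W / 10 ^ 5 :=
      div_le_div_of_nonneg_right h10 (by norm_num)
    linarith
  · have h1 : ∑ u, ind (G.Adj v u) * xx D (ty v) (ty u) t = 0 := by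
      refine Finset.sum_eq_zero fun u _ => ?_
      rw [xx_zero hD _ _ _ (fun h2 => h h2.1), mul_zero]
    rw [h1]
    positivity

theorem ld_sm (hN : Num n W S z c) (hD : D.Ok n W S z c) (g1 : Good1 G D n W z c ty) (v : V)
    (t : Option J) : ∑ u, ind (G.Adj v u ∧ sm (ty v) (ty u)) * xx D (ty v) (ty u) t ≤ 3 * W := by
  refine le_trans (Finset.sum_le_sum fun u _ => ?_) (ld_all hN hD g1 v t)
  exact mul_le_mul_of_nonneg_right (ind_mono fun h => h.1) (xx_nonneg hD _ _ _)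

omit [Fintype A] [Fintype B] [Fintype J] in
theorem LDB_zp {a : A} {k : A ⊕ B} : D.zp (Sum.inl a) k ↔ k = Sum.inr (D.un a) := by
  constructor
  · rintro ⟨a', ⟨h1, h2⟩ | ⟨_, h2⟩⟩
    · rw [h2, Sum.inl.inj h1]
    · exact absurd h2 (by simp)
  · intro h
    exact ⟨a, Or.inl ⟨rfl, h⟩⟩

theorem cz_bounds (hN : Num n W S z c) (hD : D.Ok n W S z c) (g1 : Good1 G D n W z c ty) (v : V)
    (hv : isA (ty v).1) : 69 / 10 * (W : ℝ) ≤ cz G D ty v ∧ cz G D ty v ≤ 91 / 10 * W := by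
  obtain ⟨a, ha⟩ := hv
  have hW := LDB_W hN
  have h1 : cz G D ty v = ∑ u, ind (G.Adj v u ∧ (ty u).1 = Sum.inr (D.un a)) := by
    unfold cz
    refine Finset.sum_congr rfl fun u _ => ?_
    rw [ha]
    exact ind_congr (and_congr_right fun _ => LDB_zp)
  have h2 := g1.cnt v (Sum.inr (D.un a))
  rw [hD.M_B, ← h1] at h2
  obtain ⟨h3, h4⟩ := abs_le.1 h2
  have h5 := hD.be_lo
  have h6 := hD.be_hi
  have h10 : c * W ≤ 1 * W := by
    apply mul_le_mul_of_nonneg_right _ hW.le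
    exact le_trans hN.c1 (by norm_num)
  have h11 : c * W / 10 ^ 5 ≤ 1 * W / 10 ^ 5 := div_le_div_of_nonneg_right h10 (by norm_num)
  constructor <;> linarith

theorem LDB_q (hN : Num n W S z c) (hD : D.Ok n W S z c) (g1 : Good1 G D n W z c ty) (v : V)
    (hv : isA (ty v).1) : 0 < cz G D ty v ∧ 0 ≤ ((z : ℝ) + 1) / cz G D ty v ∧
      ((z : ℝ) + 1) / cz G D ty v ≤ 3 / 10 := by
  have hW := LDB_W hN
  obtain ⟨h1, _⟩ := cz_bounds hN hD g1 v hv
  have h2 := LDB_z1 hN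
  have h3 : 0 < cz G D ty v := by linarith
  refine ⟨h3, by positivity, ?_⟩
  rw [div_le_iff₀ h3]
  linarith

theorem tv_bounds (hN : Num n W S z c) (hD : D.Ok n W S z c) (g1 : Good1 G D n W z c ty)
    (v w : V) (hv : isA (ty v).1) : 7 / 10 ≤ tv G D z ty v w ∧ tv G D z ty v w ≤ 1 := by
  obtain ⟨_, h2, h3⟩ := LDB_q hN hD g1 v hv
  have h4 : 0 ≤ ind (D.zp (ty v).1 (ty w).1) * (((z : ℝ) + 1) / cz G D ty v) :=
    mul_nonneg (ind_nonneg _) h2
  have h5 : ind (D.zp (ty v).1 (ty w).1) * (((z : ℝ) + 1) / cz G D ty v) ≤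
      ((z : ℝ) + 1) / cz G D ty v := mul_le_of_le_one_left h2 (ind_le_one _)
  unfold tv
  constructor <;> linarith

theorem tau_tv (hN : Num n W S z c) (hD : D.Ok n W S z c) (g1 : Good1 G D n W z c ty)
    (v w : V) (hv : isA (ty v).1) :
    |D.tau z (ty v).1 (ty w).1 - tv G D z ty v w| ≤ ind (D.zp (ty v).1 (ty w).1) := by
  obtain ⟨_, h2, h3⟩ := LDB_q hN hD g1 v hv
  obtain ⟨h4, h5, _⟩ := XXB_q hN hD
  have h6 : D.tau z (ty v).1 (ty w).1 - tv G D z ty v w =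
      ind (D.zp (ty v).1 (ty w).1) * (((z : ℝ) + 1) / cz G D ty v - ((z : ℝ) + 1) / D.be) := by
    unfold tv MS.tau
    ring
  rw [h6, abs_mul, abs_of_nonneg (ind_nonneg _)]
  refine mul_le_of_le_one_right (ind_nonneg _) ?_
  rw [abs_le]
  constructor <;> linarith

/-- total number of edges of a tight vertex into the zone -/
theorem tv_sum (hN : Num n W S z c) (hD : D.Ok n W S z c) (g1 : Good1 G D n W z c ty)
    (v : V) (hv : isA (ty v).1) :
    ∑ w, ind (G.Adj v w ∧ isB (ty w).1) * (1 - tv G D z ty v w) = z + 1 := by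
  obtain ⟨h1, _, _⟩ := LDB_q hN hD g1 v hv
  have h2 : ∀ w, ind (G.Adj v w ∧ isB (ty w).1) * (1 - tv G D z ty v w) =
      ind (G.Adj v w ∧ D.zp (ty v).1 (ty w).1) * (((z : ℝ) + 1) / cz G D ty v) := by
    intro w
    unfold tv
    have h3 : ind (G.Adj v w ∧ isB (ty w).1) * ind (D.zp (ty v).1 (ty w).1) =
        ind (G.Adj v w ∧ D.zp (ty v).1 (ty w).1) := by
      rw [← ind_and]
      refine ind_congr ⟨fun h => ⟨h.1.1, h.2⟩, fun h => ⟨⟨h.1, ?_⟩, h.2⟩⟩
      obtain ⟨a, ha⟩ := hv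
      have h4 := h.2
      rw [ha, LDB_zp] at h4
      exact ⟨_, h4⟩
    rw [← h3]
    ring
  rw [Finset.sum_congr rfl fun w _ => h2 w, ← Finset.sum_mul]
  have h5 : ∑ w, ind (G.Adj v w ∧ D.zp (ty v).1 (ty w).1) = cz G D ty v := rfl
  rw [h5]
  field_simp

end Pool.Agent.H2.HV
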