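import Mathlib
import Pool.Agent.H2.HV.LDB
import Pool.Agent.H2.HV.XXB

/-!
R1 (about 200 lines). The residual sums to zero and is small.

Let (ty v).1 = inl a. rr_zero: Σ_t ind(elT) cap = n - (z+1) (`cap_sum`). Σ_t ind (elT) aa v t = Σ_t aa v t = number of tight neighbours (for ¬ elT: aa = 0 since
same kind adjacent implies cp (Good2.cpp)). Σ_t ind(elT) Σ_w ind(..) tv xx = Σ_w ind(..) tv Σ_t xx (xx = 0 if ¬ elT by xx_zero) = Σ_w ind(..) tv = (number of slack
neighbours) - (z+1) (`tv_sum`). tight + slack neighbours = n (Reg; every class is inl or inr).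
rb_small: for elT: cap = Lam (`tight`), Σ_u ind(Adj)(tau xx) = Σ_tight xx + Σ_slack tau xx (tau = 1 for two tight), so rb = (Lam - Σ tau xx) + Σ_slack (tau - tv) xx;
|first| ≤ c² W/10^5 (Good1.load), |second| ≤ Σ ind (Adj ∧ zp) 12 om = cz·12 om ≤ 110 W om ≤ 110 c² W/10^8 (tau_tv, xx_le, cz_bounds, num_c).
rr_rb: rr = rb - ind(elT)(aa - Σ_tight xx), and |aa - Σ_tight xx| ≤ c W/10^5 by Good2.cnt (v tight: sm (ty v) (ty u) iff u tight).
-/

set_option autoImplicit false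
set_option linter.unusedVariables false

namespace Pool.Agent.H2.HV

open Finset

variable {A B J V : Type} [Fintype A] [Fintype B] [Fintype J] [Fintype V]
variable {D : MS A B J} {n W S z : ℕ} {c : ℝ} {G : SimpleGraph V} {ty : V → Ty A B J}
variable {co : V → V → Option J → Option J → ℝ} {al : V → V → Option J}

omit [Fintype A] [Fintype B] in
theorem R1_isAB (k : A ⊕ B) : (isA k ∧ ¬ isB k) ∨ (¬ isA k ∧ isB k) := by
  rcases k with a | b
  · left
    refine ⟨⟨a, rfl⟩, ?_⟩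
    rintro ⟨b, hb⟩
    exact absurd hb (by simp)
  · right
    refine ⟨?_, ⟨b, rfl⟩⟩
    rintro ⟨a, ha⟩
    exact absurd ha (by simp)

omit [Fintype A] [Fintype B] in
theorem R1_split (P : Prop) (k : A ⊕ B) : ind P = ind (P ∧ isA k) + ind (P ∧ isB k) := by
  by_cases hP : P
  · rcases R1_isAB k with ⟨h1, h2⟩ | ⟨h1, h2⟩
    · rw [ind_pos hP, ind_pos ⟨hP, h1⟩, ind_neg (fun h => h2 h.2), add_zero]
    · rw [ind_pos hP, ind_neg (fun h => h1 h.2), ind_pos ⟨hP, h2⟩, zero_add]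
  · rw [ind_neg hP, ind_neg (fun h => hP h.1), ind_neg (fun h => hP h.1), add_zero]

theorem R1_TS (h : Ctx G D n W S z c ty co al) (v : V) :
    (∑ u, ind (G.Adj v u ∧ isA (ty u).1)) + ∑ u, ind (G.Adj v u ∧ isB (ty u).1) = n := by
  rw [← Finset.sum_add_distrib, ← h.hG v]
  exact Finset.sum_congr rfl fun u _ => (R1_split _ _).symm

theorem R1_elxx (h : Ctx G D n W S z c ty co al) (v u : V) (t : Option J) :
    ind (D.elT (ty v).1 t) * xx D (ty v) (ty u) t = xx D (ty v) (ty u) t := by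
  by_cases h1 : D.elT (ty v).1 t
  · rw [ind_pos h1, one_mul]
  · rw [xx_zero h.hD (ty v) (ty u) t (fun h2 => h1 h2.1), mul_zero]

theorem R1_xxsum (h : Ctx G D n W S z c ty co al) (v u : V) (hadj : G.Adj v u) :
    ∑ t, ind (D.elT (ty v).1 t) * xx D (ty v) (ty u) t = 1 := by
  rw [Finset.sum_congr rfl fun t _ => R1_elxx h v u t]
  exact xx_sum h.hD _ _ (h.g1.Xge v u hadj)

theorem R1_A (h : Ctx G D n W S z c ty co al) (v : V) :
    ∑ t, ind (D.elT (ty v).1 t) * (∑ u, ind (G.Adj v u ∧ isA (ty u).1) * xx D (ty v) (ty u) t) =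
      ∑ u, ind (G.Adj v u ∧ isA (ty u).1) := by
  simp only [Finset.mul_sum]
  rw [Finset.sum_comm]
  refine Finset.sum_congr rfl fun u _ => ?_
  have h1 : ∀ t, ind (D.elT (ty v).1 t) * (ind (G.Adj v u ∧ isA (ty u).1) * xx D (ty v) (ty u) t) =
      ind (G.Adj v u ∧ isA (ty u).1) * (ind (D.elT (ty v).1 t) * xx D (ty v) (ty u) t) := by
    intro t; ring
  rw [Finset.sum_congr rfl fun t _ => h1 t, ← Finset.mul_sum]
  by_cases h2 : G.Adj v u ∧ isA (ty u).1
  · rw [R1_xxsum h v u h2.1, mul_one]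
  · rw [ind_neg h2, zero_mul]

theorem R1_B (h : Ctx G D n W S z c ty co al) (v : V) :
    ∑ t, ind (D.elT (ty v).1 t) * (∑ w, ind (G.Adj v w ∧ isB (ty w).1) *
      (tv G D z ty v w * xx D (ty v) (ty w) t)) =
      ∑ w, ind (G.Adj v w ∧ isB (ty w).1) * tv G D z ty v w := by
  simp only [Finset.mul_sum]
  rw [Finset.sum_comm]
  refine Finset.sum_congr rfl fun u _ => ?_
  have h1 : ∀ t, ind (D.elT (ty v).1 t) * (ind (G.Adj v u ∧ isB (ty u).1) *
      (tv G D z ty v u * xx D (ty v) (ty u) t)) =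
      (ind (G.Adj v u ∧ isB (ty u).1) * tv G D z ty v u) *
        (ind (D.elT (ty v).1 t) * xx D (ty v) (ty u) t) := by
    intro t; ring
  rw [Finset.sum_congr rfl fun t _ => h1 t, ← Finset.mul_sum]
  by_cases h2 : G.Adj v u ∧ isB (ty u).1
  · rw [R1_xxsum h v u h2.1, mul_one]
  · rw [ind_neg h2, zero_mul, zero_mul]

theorem R1_rb_zero (h : Ctx G D n W S z c ty co al) (v : V) (hv : isA (ty v).1) :
    ∑ t, rb G D W S z ty v t = 0 := by
  obtain ⟨a, ha⟩ := hv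
  have h1 := R1_A h v
  have h2 := R1_B h v
  have h3 := R1_TS h v
  have h4 := tv_sum h.hN h.hD h.g1 v ⟨a, ha⟩
  have h5 : ∑ t, ind (D.elT (ty v).1 t) * cap W S t = n - (z + 1) := by
    rw [ha]
    exact cap_sum h.hN h.hD a
  have h6 : ∑ w, ind (G.Adj v w ∧ isB (ty w).1) * (1 - tv G D z ty v w) =
      ∑ w, ind (G.Adj v w ∧ isB (ty w).1) -
        ∑ w, ind (G.Adj v w ∧ isB (ty w).1) * tv G D z ty v w := by
    rw [← Finset.sum_sub_distrib]
    exact Finset.sum_congr rfl fun w _ => by ring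
  rw [h6] at h4
  unfold rb
  simp only [mul_sub]
  rw [Finset.sum_sub_distrib, Finset.sum_sub_distrib, h1, h2, h5]
  linarith

theorem R1_aa_zero (h : Ctx G D n W S z c ty co al) (v : V) (hv : isA (ty v).1) (t : Option J)
    (ht : ¬ D.elT (ty v).1 t) : aa G ty al v t = 0 := by
  unfold aa
  refine Finset.sum_eq_zero fun u _ => ind_neg ?_
  rintro ⟨h1, h2, h3⟩
  have h4 := h.g2.cpp v u h1 (Or.inl ⟨hv, h2⟩)
  rw [h3] at h4
  exact ht h4.1

theorem R1_aa_sum (v : V) : ∑ t, aa G ty al v t = ∑ u, ind (G.Adj v u ∧ isA (ty u).1) := by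
  unfold aa
  rw [Finset.sum_comm]
  refine Finset.sum_congr rfl fun u _ => ?_
  rw [Fintype.sum_eq_single (al v u)]
  · exact ind_congr ⟨fun h => ⟨h.1, h.2.1⟩, fun h => ⟨h.1, h.2, rfl⟩⟩
  · intro t ht
    exact ind_neg fun h => ht h.2.2.symm

theorem R1_xx_sum (h : Ctx G D n W S z c ty co al) (v : V) :
    ∑ t, ∑ u, ind (G.Adj v u ∧ isA (ty u).1) * xx D (ty v) (ty u) t =
      ∑ u, ind (G.Adj v u ∧ isA (ty u).1) := by
  rw [Finset.sum_comm]
  refine Finset.sum_congr rfl fun u _ => ?_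
  rw [← Finset.mul_sum]
  by_cases h2 : G.Adj v u ∧ isA (ty u).1
  · rw [xx_sum h.hD _ _ (h.g1.Xge v u h2.1), mul_one]
  · rw [ind_neg h2, zero_mul]

theorem R1_rr_rb (h : Ctx G D n W S z c ty co al) (v : V) (hv : isA (ty v).1) (t : Option J) :
    rr G D W S z ty al v t = rb G D W S z ty v t - (aa G ty al v t -
      ∑ u, ind (G.Adj v u ∧ isA (ty u).1) * xx D (ty v) (ty u) t) := by
  by_cases ht : D.elT (ty v).1 t
  · unfold rr rb
    rw [ind_pos ht]
    ring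
  · have h1 : ∑ u, ind (G.Adj v u ∧ isA (ty u).1) * xx D (ty v) (ty u) t = 0 := by
      refine Finset.sum_eq_zero fun u _ => ?_
      rw [xx_zero h.hD (ty v) (ty u) t (fun h2 => ht h2.1), mul_zero]
    rw [h1, R1_aa_zero h v hv t ht]
    unfold rr rb
    rw [ind_neg ht]
    ring

theorem rr_zero (h : Ctx G D n W S z c ty co al) (v : V) (hv : isA (ty v).1) :
    ∑ t, rr G D W S z ty al v t = 0 := by
  have h1 : ∑ t, rr G D W S z ty al v t = ∑ t, rb G D W S z ty v t - (∑ t, aa G ty al v t -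
      ∑ t, ∑ u, ind (G.Adj v u ∧ isA (ty u).1) * xx D (ty v) (ty u) t) := by
    rw [← Finset.sum_sub_distrib, ← Finset.sum_sub_distrib]
    exact Finset.sum_congr rfl fun t _ => R1_rr_rb h v hv t
  rw [h1, R1_rb_zero h v hv, R1_aa_sum, R1_xx_sum h v, sub_self, sub_zero]

theorem rb_zero (h : Ctx G D n W S z c ty co al) (v : V) (hv : isA (ty v).1) :
    ∑ t, rb G D W S z ty v t = 0 := by
  exact R1_rb_zero h v hv

theorem rb_small (h : Ctx G D n W S z c ty co al) (v : V) (hv : isA (ty v).1) (t : Option J) :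
    |rb G D W S z ty v t| ≤ 2 * (c ^ 2 * W / 10 ^ 5) := by
  obtain ⟨hn, hW, _, _, hom, _, _, hom0⟩ := num_c h.hN
  have hc0 := h.hN.c0
  have hpos : 0 ≤ c ^ 2 * W / 10 ^ 5 := by positivity
  by_cases ht : D.elT (ty v).1 t
  · have hcap : cap W S t = D.Lam z (ty v).1 t := by
      obtain ⟨a, ha⟩ := hv
      rw [ha] at ht ⊢
      exact (h.hD.tight a t ht).symm
    have h1 := h.g1.load v t ht
    have h2 : ∀ u, ind (G.Adj v u) * (D.tau z (ty v).1 (ty u).1 * xx D (ty v) (ty u) t) =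
        ind (G.Adj v u ∧ isA (ty u).1) * xx D (ty v) (ty u) t +
        ind (G.Adj v u ∧ isB (ty u).1) * (tv G D z ty v u * xx D (ty v) (ty u) t) +
        ind (G.Adj v u ∧ isB (ty u).1) * ((D.tau z (ty v).1 (ty u).1 - tv G D z ty v u) *
          xx D (ty v) (ty u) t) := by
      intro u
      rw [R1_split (G.Adj v u) (ty u).1]
      rcases R1_isAB (ty u).1 with ⟨h3, h4⟩ | ⟨h3, h4⟩
      · rw [tau_sm (ty v) (ty u) (Or.inl ⟨hv, h3⟩),
          ind_neg (p := G.Adj v u ∧ isB (ty u).1) (fun h5 => h4 h5.2)]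
        ring
      · rw [ind_neg (p := G.Adj v u ∧ isA (ty u).1) (fun h5 => h3 h5.2)]
        ring
    rw [Finset.sum_congr rfl fun u _ => h2 u, Finset.sum_add_distrib, Finset.sum_add_distrib] at h1
    have h3 : |∑ u, ind (G.Adj v u ∧ isB (ty u).1) * ((D.tau z (ty v).1 (ty u).1 -
        tv G D z ty v u) * xx D (ty v) (ty u) t)| ≤ c ^ 2 * W / 10 ^ 5 := by
      refine (Finset.abs_sum_le_sum_abs _ _).trans ?_
      have h4 : ∀ u, |ind (G.Adj v u ∧ isB (ty u).1) * ((D.tau z (ty v).1 (ty u).1 -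
          tv G D z ty v u) * xx D (ty v) (ty u) t)| ≤
          ind (G.Adj v u ∧ D.zp (ty v).1 (ty u).1) * (12 * ((W : ℝ) / n)) := by
        intro u
        by_cases hadj : G.Adj v u ∧ isB (ty u).1
        · have h5 := tau_tv h.hN h.hD h.g1 v u hv
          have h6 := xx_le h.hD (ty v) (ty u) (h.g1.Xge v u hadj.1) t
          have h7 := xx_nonneg h.hD (ty v) (ty u) t
          rw [ind_pos hadj, one_mul, abs_mul, abs_of_nonneg h7, ind_and, ind_pos hadj.1, one_mul]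
          exact mul_le_mul h5 h6 h7 (ind_nonneg _)
        · rw [ind_neg hadj, zero_mul, abs_zero]
          exact mul_nonneg (ind_nonneg _) (by positivity)
      refine (Finset.sum_le_sum fun u _ => h4 u).trans ?_
      rw [← Finset.sum_mul]
      have h5 : ∑ u, ind (G.Adj v u ∧ D.zp (ty v).1 (ty u).1) ≤ 91 / 10 * W :=
        (cz_bounds h.hN h.hD h.g1 v hv).2
      have h6 : 12 * ((W : ℝ) / n) ≤ 12 * (c ^ 2 / 10 ^ 8) := by linarith
      refine (mul_le_mul h5 h6 (by positivity) (by positivity)).trans ?_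
      have h7 : 0 ≤ c ^ 2 * W := by positivity
      have h8 : 91 / 10 * (W : ℝ) * (12 * (c ^ 2 / 10 ^ 8)) = 1092 / 10 ^ 9 * (c ^ 2 * W) := by ring
      rw [h8]
      have h9 : c ^ 2 * (W : ℝ) / 10 ^ 5 = 1 / 10 ^ 5 * (c ^ 2 * W) := by ring
      rw [h9]
      exact mul_le_mul_of_nonneg_right (by norm_num) h7
    unfold rb
    rw [ind_pos ht, one_mul, hcap]
    rw [abs_le] at h1 h3 ⊢
    obtain ⟨h4, h5⟩ := h1
    obtain ⟨h6, h7⟩ := h3
    constructor <;> linarith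
  · unfold rb
    rw [ind_neg ht, zero_mul, abs_zero]
    linarith

theorem rr_rb (h : Ctx G D n W S z c ty co al) (v : V) (hv : isA (ty v).1) (t : Option J) :
    rr G D W S z ty al v t = rb G D W S z ty v t - (aa G ty al v t -
      ∑ u, ind (G.Adj v u ∧ isA (ty u).1) * xx D (ty v) (ty u) t) := by
  exact R1_rr_rb h v hv t

theorem rr_small (h : Ctx G D n W S z c ty co al) (v : V) (hv : isA (ty v).1) (t : Option J) :
    |rr G D W S z ty al v t| ≤ 2 * (c * W / 10 ^ 5) := by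
  obtain ⟨hn, hW, _, _, hom, _, _, hom0⟩ := num_c h.hN
  have hc0 := h.hN.c0
  have hc1 := h.hN.c1
  rw [R1_rr_rb h v hv t]
  have h1 := rb_small h v hv t
  have h2 := h.g2.cnt v t
  have h3 : ∀ u, (G.Adj v u ∧ sm (ty v) (ty u)) ↔ (G.Adj v u ∧ isA (ty u).1) := by
    intro u
    refine and_congr_right fun _ => ⟨?_, fun h4 => Or.inl ⟨hv, h4⟩⟩
    rintro (h4 | h4)
    · exact h4.2
    · exfalso
      rcases R1_isAB (ty v).1 with ⟨_, h5⟩ | ⟨h5, _⟩
      · exact h5 h4.1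
      · exact h5 hv
  have h4 : ∑ u, ind (G.Adj v u ∧ sm (ty v) (ty u) ∧ al v u = t) = aa G ty al v t := by
    unfold aa
    refine Finset.sum_congr rfl fun u _ => ind_congr ?_
    constructor
    · rintro ⟨h5, h6, h7⟩
      exact ⟨h5, ((h3 u).1 ⟨h5, h6⟩).2, h7⟩
    · rintro ⟨h5, h6, h7⟩
      exact ⟨h5, ((h3 u).2 ⟨h5, h6⟩).2, h7⟩
  have h5 : ∑ u, ind (G.Adj v u ∧ sm (ty v) (ty u)) * xx D (ty v) (ty u) t =
      ∑ u, ind (G.Adj v u ∧ isA (ty u).1) * xx D (ty v) (ty u) t :=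
    Finset.sum_congr rfl fun u _ => by rw [ind_congr (h3 u)]
  rw [h4, h5] at h2
  have h6 : 2 * (c ^ 2 * W / 10 ^ 5) ≤ c * W / 10 ^ 5 := by
    have h7 : 2 * (c ^ 2 * W / 10 ^ 5) = (2 * c) * (c * W / 10 ^ 5) := by ring
    rw [h7]
    have h8 : 2 * c ≤ 1 := by linarith [hc1, show (1 : ℝ) / 10 ^ 5 ≤ 1 / 2 by norm_num]
    have h9 : 0 ≤ c * W / 10 ^ 5 := by positivity
    exact mul_le_of_le_one_left h9 h8
  rw [abs_le] at h1 h2 ⊢
  obtain ⟨h7, h8⟩ := h1
  obtain ⟨h9, h10⟩ := h2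
  constructor <;> linarith

end Pool.Agent.H2.HV
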