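import Mathlib
import Pool.Agent.H2.HV.R1

/-!
R2 (about 180 lines). The fractional assignment `yy`: support, positivity, row and column sums.

v tight, w an adjacent slack vertex.
yy_none: 0 ≤ 1 - tv (tv ≤ 1); it is 0 unless zp. yy_zero: if ¬ cp then xx = 0 (xx_zero) and co = 0 (CoOk.zero).
yy_nonneg: for cp: tv xx ≥ (7/10)(om/6) (tv_bounds, xx_low), |Σ_k co rr| ≤ 300/(n c) · 2 c W/10^5 = 6·10^-3 om (bd2, rr_small). So yy > 0.
yy_row: (1 - tv) + tv Σ_t xx + Σ_t Σ_k co rr_k = 1 (xx_sum with Good1.Xge; CoOk.tr with ρ = rr: Σ rr = 0 by rr_zero, rr k = 0 if ¬ elT by definition).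
yy_col_none: `tv_sum`. yy_col: Σ_w ind(Adj ∧ isB) yy v w (some t) = Σ_w ind tv xx + Σ_w Σ_k co rr_k (co = 0 for the other w) = Σ_w ind tv xx + rr v t
 = ind (elT) (cap - aa) (if ¬ elT both xx and rr vanish).
-/

set_option autoImplicit false
set_option linter.unusedVariables false

namespace Pool.Agent.H2.HV

open Finset

variable {A B J V : Type} [Fintype A] [Fintype B] [Fintype J] [Fintype V]
variable {D : MS A B J} {n W S z : ℕ} {c : ℝ} {G : SimpleGraph V} {ty : V → Ty A B J}
variable {co : V → V → Option J → Option J → ℝ} {al : V → V → Option J}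

theorem yy_none_zero (h : Ctx G D n W S z c ty co al) (v w : V)
    (hz : ¬ D.zp (ty v).1 (ty w).1) : yy G D W S z ty co al v w none = 0 := by
  show 1 - tv G D z ty v w = 0
  unfold tv
  rw [ind_neg hz]
  ring

theorem yy_zero (h : Ctx G D n W S z c ty co al) (v w : V) (t : Option J)
    (hc : ¬ cp D (ty v) (ty w) t) : yy G D W S z ty co al v w (some t) = 0 := by
  show tv G D z ty v w * xx D (ty v) (ty w) t + ∑ k, co v w t k * rr G D W S z ty al v k = 0
  rw [xx_zero h.hD _ _ _ hc, mul_zero, zero_add]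
  refine Finset.sum_eq_zero fun k _ => ?_
  rw [h.hco.zero v w t k (fun h1 => hc h1.2.2.2), zero_mul]

theorem yy_nonneg (h : Ctx G D n W S z c ty co al) (v w : V) (hv : isA (ty v).1)
    (hw : isB (ty w).1) (ha : G.Adj v w) (l : Lab J) : 0 ≤ yy G D W S z ty co al v w l := by
  obtain ⟨htv1, htv2⟩ := tv_bounds h.hN h.hD h.g1 v w hv
  cases l with
  | none =>
    show 0 ≤ 1 - tv G D z ty v w
    linarith
  | some t =>
    by_cases hc : cp D (ty v) (ty w) t
    · show 0 ≤ tv G D z ty v w * xx D (ty v) (ty w) t + ∑ k, co v w t k * rr G D W S z ty al v k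
      obtain ⟨hn0, hW0, _, _, _, _, _, hom⟩ := num_c h.hN
      have hc0 := h.hN.c0
      have h1 := xx_low h.hN h.hD (ty v) (ty w) t hv hw hc (h.g1.Xge v w ha)
      have h2 : 7 / 10 * (((W : ℝ) / n) / 6) ≤ tv G D z ty v w * xx D (ty v) (ty w) t :=
        mul_le_mul htv1 h1 (by positivity) (by linarith)
      have h3 : |∑ k, co v w t k * rr G D W S z ty al v k| ≤
          300 / (n * c) * (2 * (c * W / 10 ^ 5)) := by
        calc |∑ k, co v w t k * rr G D W S z ty al v k|
            ≤ ∑ k, |co v w t k * rr G D W S z ty al v k| := Finset.abs_sum_le_sum_abs _ _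
          _ ≤ ∑ k, |co v w t k| * (2 * (c * W / 10 ^ 5)) := by
              refine Finset.sum_le_sum fun k _ => ?_
              rw [abs_mul]
              exact mul_le_mul_of_nonneg_left (rr_small h v hv k) (abs_nonneg _)
          _ = (∑ k, |co v w t k|) * (2 * (c * W / 10 ^ 5)) := by rw [Finset.sum_mul]
          _ ≤ 300 / (n * c) * (2 * (c * W / 10 ^ 5)) :=
              mul_le_mul_of_nonneg_right (h.hco.bd2 v w t) (by positivity)
      have h4 : 300 / (n * c) * (2 * (c * W / 10 ^ 5)) = 6 / 1000 * ((W : ℝ) / n) := by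
        field_simp
        norm_num
      rw [h4] at h3
      have h5 := (abs_le.1 h3).1
      nlinarith
    · rw [yy_zero h v w t hc]

private theorem R2_tr (h : Ctx G D n W S z c ty co al) (v : V) (hv : isA (ty v).1) :
    (∀ t, ∑ w, ∑ k, co v w t k * rr G D W S z ty al v k = rr G D W S z ty al v t) ∧
      (∀ w, ∑ t, ∑ k, co v w t k * rr G D W S z ty al v k = 0) := by
  refine h.hco.tr v hv (rr G D W S z ty al v) (rr_zero h v hv) ?_
  intro k hk
  unfold rr
  rw [ind_neg hk, zero_mul]

theorem yy_row (h : Ctx G D n W S z c ty co al) (v w : V) (hv : isA (ty v).1)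
    (hw : isB (ty w).1) (ha : G.Adj v w) : ∑ l, yy G D W S z ty co al v w l = 1 := by
  rw [Fintype.sum_option]
  show (1 - tv G D z ty v w) + ∑ t, (tv G D z ty v w * xx D (ty v) (ty w) t +
    ∑ k, co v w t k * rr G D W S z ty al v k) = 1
  rw [Finset.sum_add_distrib, ← Finset.mul_sum, xx_sum h.hD _ _ (h.g1.Xge v w ha),
    (R2_tr h v hv).2 w]
  ring

theorem yy_col_none (h : Ctx G D n W S z c ty co al) (v : V) (hv : isA (ty v).1) :
    ∑ w, ind (G.Adj v w ∧ isB (ty w).1) * yy G D W S z ty co al v w none = z + 1 :=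
  tv_sum h.hN h.hD h.g1 v hv

theorem yy_col (h : Ctx G D n W S z c ty co al) (v : V) (hv : isA (ty v).1) (t : Option J) :
    ∑ w, ind (G.Adj v w ∧ isB (ty w).1) * yy G D W S z ty co al v w (some t) =
      ind (D.elT (ty v).1 t) * (cap W S t - aa G ty al v t) := by
  have h1 : ∀ w, ind (G.Adj v w ∧ isB (ty w).1) * yy G D W S z ty co al v w (some t) =
      ind (G.Adj v w ∧ isB (ty w).1) * (tv G D z ty v w * xx D (ty v) (ty w) t) +
        ∑ k, co v w t k * rr G D W S z ty al v k := by
    intro w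
    show ind (G.Adj v w ∧ isB (ty w).1) * (tv G D z ty v w * xx D (ty v) (ty w) t +
      ∑ k, co v w t k * rr G D W S z ty al v k) = _
    by_cases hP : G.Adj v w ∧ isB (ty w).1
    · rw [ind_pos hP]
      ring
    · have h2 : ∑ k, co v w t k * rr G D W S z ty al v k = 0 := by
        refine Finset.sum_eq_zero fun k _ => ?_
        rw [h.hco.zero v w t k (fun h3 => hP ⟨h3.2.1, h3.2.2.1⟩), zero_mul]
      rw [h2, ind_neg hP]
      ring
  rw [Finset.sum_congr rfl fun w _ => h1 w, Finset.sum_add_distrib, (R2_tr h v hv).1 t]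
  unfold rr
  by_cases hE : D.elT (ty v).1 t
  · rw [ind_pos hE]
    ring
  · have h3 : ∑ w, ind (G.Adj v w ∧ isB (ty w).1) *
        (tv G D z ty v w * xx D (ty v) (ty w) t) = 0 := by
      refine Finset.sum_eq_zero fun w _ => ?_
      rw [xx_zero h.hD _ _ _ (fun h4 => hE h4.1), mul_zero, mul_zero]
    rw [h3, ind_neg hE]
    ring

/-- the demand is nonnegative -/
theorem demand_nonneg (h : Ctx G D n W S z c ty co al) (v : V) (hv : isA (ty v).1)
    (t : Option J) : 0 ≤ ind (D.elT (ty v).1 t) * (cap W S t - aa G ty al v t) := by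
  rw [← yy_col h v hv t]
  refine Finset.sum_nonneg fun w _ => ?_
  by_cases hP : G.Adj v w ∧ isB (ty w).1
  · exact mul_nonneg (ind_nonneg _) (yy_nonneg h v w hv hP.2 hP.1 (some t))
  · rw [ind_neg hP, zero_mul]

end Pool.Agent.H2.HV
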