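import Mathlib
import Pool.Agent.H2.HV.R1

/-!
R3 (about 220 lines). The mean loads of the slack vertices.

w slack, (ty w).1 = inr b, elT (inr b) t.
Σ_v ind(Adj w v ∧ isA v) yy v w (some t) = Σ_v ind tv xx + Σ_v ind Σ_k co v w t k rb v k - Σ_v ind Σ_k co v w t k (aa v k - Σ_u ind(Adj v u ∧ isA u) xx k)   (rr_rb).
(1) third sum = the statistic of Good2.lin: Σ_k co v w t k aa v k = Σ_u ind (Adj v u ∧ isA u) co v w t (al v u) (swap sums). |.| ≤ c W/10^5.
(2) |second| ≤ n · 300/(n c) · 2 c² W/10^5 = 6·10^-3 c W (bd2, rb_small, Reg).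
(3) Σ_v ind(Adj w v ∧ isA v)|tau - tv| xx with |tau - tv| = ind(zp)(z+1)|1/be - 1/cz v| ≤ ind (zp) · c/10^4
 (cz v = be ± c W/10^5 by Good1.cnt for the class of the unit, be ≥ 7 W, z + 1 ≤ 2W), so the sum is ≤ (c/10^4) Σ ind xx ≤ 3 c W/10^4 (ld_all); xx is symmetric (xx_symm).
 (One slack class can be the unit of many tight classes.)
(4) Σ_v ind(isA) tau xx + Σ_u ind(sm) xx = Σ_u ind(Adj) tau xx ≤ Lam + c² W/10^5 ≤ cap (1 - c/10) + c² W/10^5.
Total ≤ cap (1-c/10) + c W/50.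
zone: for v tight in the class a with un a = b: yy none = (z+1)/cz v ≤ (z+1)/(6.9 W), and at most W neighbours of w are in the class a (Good1.cnt, M_A).
-/

set_option autoImplicit false
set_option linter.unusedVariables false

namespace Pool.Agent.H2.HV

open Finset

variable {A B J V : Type} [Fintype A] [Fintype B] [Fintype J] [Fintype V]
variable {D : MS A B J} {n W S z : ℕ} {c : ℝ} {G : SimpleGraph V} {ty : V → Ty A B J}
variable {co : V → V → Option J → Option J → ℝ} {al : V → V → Option J}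

/-- the tau and tv values differ by little -/
theorem R3_tau (hN : Num n W S z c) (hD : D.Ok n W S z c) (g1 : Good1 G D n W z c ty)
    (v w : V) (hv : isA (ty v).1) :
    tv G D z ty v w ≤ D.tau z (ty v).1 (ty w).1 + c / 10 ^ 4 := by
  have hW := LDB_W hN
  obtain ⟨hcz, h2, h3⟩ := LDB_q hN hD g1 v hv
  obtain ⟨h4, h5, hbe⟩ := XXB_q hN hD
  have hz := LDB_z1 hN
  obtain ⟨a, ha⟩ := hv
  have h1 : cz G D ty v = ∑ u, ind (G.Adj v u ∧ (ty u).1 = Sum.inr (D.un a)) := by
    unfold cz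
    refine Finset.sum_congr rfl fun u _ => ?_
    rw [ha]
    exact ind_congr (and_congr_right fun _ => LDB_zp)
  have h6 := g1.cnt v (Sum.inr (D.un a))
  rw [hD.M_B, ← h1] at h6
  obtain ⟨h7, h8⟩ := abs_le.1 h6
  have hc0 := hN.c0
  have hbl := hD.be_lo
  have hczl : 69 / 10 * (W : ℝ) ≤ cz G D ty v := (cz_bounds hN hD g1 v ⟨a, ha⟩).1
  -- (z+1)/be - (z+1)/cz ≤ c / 10^4
  have hkey : ((z : ℝ) + 1) / D.be - ((z : ℝ) + 1) / cz G D ty v ≤ c / 10 ^ 4 := by
    rw [div_sub_div _ _ hbe.ne' hcz.ne', div_le_iff₀ (mul_pos hbe hcz)]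
    have e1 : ((z : ℝ) + 1) * cz G D ty v - D.be * ((z : ℝ) + 1) =
        ((z : ℝ) + 1) * (cz G D ty v - D.be) := by ring
    rw [e1]
    have hzpos : (0 : ℝ) ≤ (z : ℝ) + 1 := by positivity
    have e2 : ((z : ℝ) + 1) * (cz G D ty v - D.be) ≤ 2 * W * (c * W / 10 ^ 5) := by
      have hcW : 0 ≤ c * W / 10 ^ 5 := by positivity
      calc ((z : ℝ) + 1) * (cz G D ty v - D.be) ≤ ((z : ℝ) + 1) * (c * W / 10 ^ 5) :=
            mul_le_mul_of_nonneg_left h8 hzpos
        _ ≤ 2 * W * (c * W / 10 ^ 5) := mul_le_mul_of_nonneg_right hz hcW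
    have e3 : (7 * (W : ℝ)) * (69 / 10 * W) ≤ D.be * cz G D ty v :=
      mul_le_mul hbl hczl (by positivity) hbe.le
    have e4 : c / 10 ^ 4 * ((7 * (W : ℝ)) * (69 / 10 * W)) ≤ c / 10 ^ 4 * (D.be * cz G D ty v) :=
      mul_le_mul_of_nonneg_left e3 (by positivity)
    have e5 : 2 * W * (c * W / 10 ^ 5) ≤ c / 10 ^ 4 * ((7 * (W : ℝ)) * (69 / 10 * W)) := by
      have : 0 ≤ c * (W : ℝ) ^ 2 := by positivity
      nlinarith
    linarith
  unfold tv MS.tau
  have hi0 := ind_nonneg (D.zp (ty v).1 (ty w).1)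
  have hi1 := ind_le_one (D.zp (ty v).1 (ty w).1)
  have hcc : 0 ≤ c / 10 ^ 4 := by positivity
  have h9 : ind (D.zp (ty v).1 (ty w).1) *
      (((z : ℝ) + 1) / D.be - ((z : ℝ) + 1) / cz G D ty v) ≤ c / 10 ^ 4 := by
    calc ind (D.zp (ty v).1 (ty w).1) *
      (((z : ℝ) + 1) / D.be - ((z : ℝ) + 1) / cz G D ty v) ≤
        ind (D.zp (ty v).1 (ty w).1) * (c / 10 ^ 4) := mul_le_mul_of_nonneg_left hkey hi0
      _ ≤ c / 10 ^ 4 := mul_le_of_le_one_left hcc hi1
  rw [mul_sub] at h9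
  linarith

omit [Fintype A] [Fintype B] in
/-- the transported statistic -/
theorem R3_stat (v w : V) (t : Option J) :
    ∑ k, co v w t k * (aa G ty al v k -
      ∑ u, ind (G.Adj v u ∧ isA (ty u).1) * xx D (ty v) (ty u) k) =
    ∑ u, ind (G.Adj v u ∧ isA (ty u).1) *
      (co v w t (al v u) - ∑ k, xx D (ty v) (ty u) k * co v w t k) := by
  classical
  have h1 : ∀ k, aa G ty al v k =
      ∑ u, ind (G.Adj v u ∧ isA (ty u).1) * ind (al v u = k) := by
    intro k
    unfold aa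
    refine Finset.sum_congr rfl fun u _ => ?_
    rw [← ind_and]
    exact ind_congr (by tauto)
  have h2 : ∀ k, co v w t k * (aa G ty al v k -
      ∑ u, ind (G.Adj v u ∧ isA (ty u).1) * xx D (ty v) (ty u) k) =
      ∑ u, ind (G.Adj v u ∧ isA (ty u).1) *
        (ind (al v u = k) * co v w t k - xx D (ty v) (ty u) k * co v w t k) := by
    intro k
    rw [h1 k, ← Finset.sum_sub_distrib, Finset.mul_sum]
    refine Finset.sum_congr rfl fun u _ => ?_
    ring
  rw [Finset.sum_congr rfl fun k _ => h2 k, Finset.sum_comm]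
  refine Finset.sum_congr rfl fun u _ => ?_
  rw [← Finset.mul_sum, Finset.sum_sub_distrib]
  congr 2
  rw [Finset.sum_eq_single (al v u)]
  · rw [ind_pos rfl, one_mul]
  · intro k _ hk
    rw [ind_neg (fun h => hk h.symm), zero_mul]
  · intro h
    exact absurd (Finset.mem_univ _) h

theorem R3_rb (h : Ctx G D n W S z c ty co al) (w : V) (t : Option J) :
    ∑ v, ind (G.Adj w v ∧ isA (ty v).1) * ∑ k, co v w t k * rb G D W S z ty v k ≤
      6 / 1000 * (c * W) := by
  have hW := LDB_W h.hN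
  have hn := (num_c h.hN).1
  have hc0 := h.hN.c0
  have h1 : ∀ v, ind (G.Adj w v ∧ isA (ty v).1) * ∑ k, co v w t k * rb G D W S z ty v k ≤
      ind (G.Adj w v) * (300 / (n * c) * (2 * (c ^ 2 * W / 10 ^ 5))) := by
    intro v
    have hb : 0 ≤ 2 * (c ^ 2 * W / 10 ^ 5) := by positivity
    have hb2 : 0 ≤ 300 / (n * c) * (2 * (c ^ 2 * W / 10 ^ 5)) := by positivity
    by_cases hv : isA (ty v).1
    · have h2 : ∑ k, co v w t k * rb G D W S z ty v k ≤
          300 / (n * c) * (2 * (c ^ 2 * W / 10 ^ 5)) := by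
        calc ∑ k, co v w t k * rb G D W S z ty v k ≤
              ∑ k, |co v w t k| * (2 * (c ^ 2 * W / 10 ^ 5)) := by
              refine Finset.sum_le_sum fun k _ => ?_
              calc co v w t k * rb G D W S z ty v k ≤ |co v w t k * rb G D W S z ty v k| :=
                    le_abs_self _
                _ = |co v w t k| * |rb G D W S z ty v k| := abs_mul _ _
                _ ≤ |co v w t k| * (2 * (c ^ 2 * W / 10 ^ 5)) :=
                    mul_le_mul_of_nonneg_left (rb_small h v hv k) (abs_nonneg _)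
          _ = (∑ k, |co v w t k|) * (2 * (c ^ 2 * W / 10 ^ 5)) := by rw [Finset.sum_mul]
          _ ≤ 300 / (n * c) * (2 * (c ^ 2 * W / 10 ^ 5)) :=
              mul_le_mul_of_nonneg_right (h.hco.bd2 v w t) hb
      calc ind (G.Adj w v ∧ isA (ty v).1) * ∑ k, co v w t k * rb G D W S z ty v k ≤
            ind (G.Adj w v ∧ isA (ty v).1) * (300 / (n * c) * (2 * (c ^ 2 * W / 10 ^ 5))) :=
            mul_le_mul_of_nonneg_left h2 (ind_nonneg _)
        _ ≤ ind (G.Adj w v) * (300 / (n * c) * (2 * (c ^ 2 * W / 10 ^ 5))) :=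
            mul_le_mul_of_nonneg_right (ind_mono fun h => h.1) hb2
    · rw [ind_neg (fun h => hv h.2), zero_mul]
      exact mul_nonneg (ind_nonneg _) hb2
  refine le_trans (Finset.sum_le_sum fun v _ => h1 v) ?_
  rw [← Finset.sum_mul, h.hG w]
  have e : (n : ℝ) * (300 / (n * c) * (2 * (c ^ 2 * W / 10 ^ 5))) = 6 / 1000 * (c * W) := by
    field_simp
    ring
  rw [e]

theorem slack_load (h : Ctx G D n W S z c ty co al) (w : V) (hw : isB (ty w).1) (t : Option J)
    (ht : D.elT (ty w).1 t) :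
    (∑ v, ind (G.Adj w v ∧ isA (ty v).1) * yy G D W S z ty co al v w (some t)) +
      (∑ u, ind (G.Adj w u ∧ sm (ty w) (ty u)) * xx D (ty w) (ty u) t) ≤
      cap W S t * (1 - c / 10) + c * W / 50 := by
  have hW := LDB_W h.hN
  have hn := (num_c h.hN).1
  have hc0 := h.hN.c0
  have hc1 := h.hN.c1
  -- split
  have h1 : (∑ v, ind (G.Adj w v ∧ isA (ty v).1) * yy G D W S z ty co al v w (some t)) =
      (∑ v, ind (G.Adj w v ∧ isA (ty v).1) * (tv G D z ty v w * xx D (ty v) (ty w) t)) +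
      (∑ v, ind (G.Adj w v ∧ isA (ty v).1) * ∑ k, co v w t k * rb G D W S z ty v k) -
      (∑ v, ind (G.Adj w v ∧ isA (ty v).1) * ∑ u, ind (G.Adj v u ∧ isA (ty u).1) *
        (co v w t (al v u) - ∑ k, xx D (ty v) (ty u) k * co v w t k)) := by
    rw [← Finset.sum_add_distrib, ← Finset.sum_sub_distrib]
    refine Finset.sum_congr rfl fun v _ => ?_
    by_cases hv : isA (ty v).1
    · have e1 : yy G D W S z ty co al v w (some t) = tv G D z ty v w * xx D (ty v) (ty w) t +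
          ∑ k, co v w t k * rr G D W S z ty al v k := rfl
      have e2 : ∑ k, co v w t k * rr G D W S z ty al v k =
          (∑ k, co v w t k * rb G D W S z ty v k) -
          ∑ k, co v w t k * (aa G ty al v k -
            ∑ u, ind (G.Adj v u ∧ isA (ty u).1) * xx D (ty v) (ty u) k) := by
        rw [← Finset.sum_sub_distrib]
        refine Finset.sum_congr rfl fun k _ => ?_
        rw [rr_rb h v hv k]
        ring
      rw [e1, e2, R3_stat]
      ring
    · rw [ind_neg (fun h => hv h.2)]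
      ring
  -- the statistic
  have h2 := h.g2.lin w t
  have h2' := (abs_le.1 h2).1
  -- the rb term
  have h3 := R3_rb h w t
  -- tv to tau
  have h4 : (∑ v, ind (G.Adj w v ∧ isA (ty v).1) * (tv G D z ty v w * xx D (ty v) (ty w) t)) ≤
      (∑ v, ind (G.Adj w v ∧ isA (ty v).1) *
        (D.tau z (ty w).1 (ty v).1 * xx D (ty w) (ty v) t)) +
      c / 10 ^ 4 * ∑ v, ind (G.Adj w v) * xx D (ty w) (ty v) t := by
    rw [Finset.mul_sum, ← Finset.sum_add_distrib]
    refine Finset.sum_le_sum fun v _ => ?_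
    have hx := xx_nonneg h.hD (ty w) (ty v) t
    rw [xx_symm h.hD (ty v) (ty w) t]
    by_cases hv : isA (ty v).1
    · have e1 := R3_tau h.hN h.hD h.g1 v w hv
      rw [tau_symm (ty v).1 (ty w).1] at e1
      have e2 : tv G D z ty v w * xx D (ty w) (ty v) t ≤
          (D.tau z (ty w).1 (ty v).1 + c / 10 ^ 4) * xx D (ty w) (ty v) t :=
        mul_le_mul_of_nonneg_right e1 hx
      have e3 : ind (G.Adj w v ∧ isA (ty v).1) = ind (G.Adj w v) :=
        ind_congr ⟨fun h => h.1, fun h => ⟨h, hv⟩⟩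
      rw [e3]
      have e4 := mul_le_mul_of_nonneg_left e2 (ind_nonneg (G.Adj w v))
      calc ind (G.Adj w v) * (tv G D z ty v w * xx D (ty w) (ty v) t) ≤
            ind (G.Adj w v) * ((D.tau z (ty w).1 (ty v).1 + c / 10 ^ 4) *
              xx D (ty w) (ty v) t) := e4
        _ = _ := by ring
    · rw [ind_neg (fun h => hv h.2), zero_mul, zero_mul, zero_add]
      have : 0 ≤ ind (G.Adj w v) * xx D (ty w) (ty v) t := mul_nonneg (ind_nonneg _) hx
      positivity
  have h5 := ld_all h.hN h.hD h.g1 w t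
  have h5' : c / 10 ^ 4 * ∑ v, ind (G.Adj w v) * xx D (ty w) (ty v) t ≤ c / 10 ^ 4 * (3 * W) :=
    mul_le_mul_of_nonneg_left h5 (by positivity)
  -- combine
  have h6 : (∑ v, ind (G.Adj w v ∧ isA (ty v).1) *
        (D.tau z (ty w).1 (ty v).1 * xx D (ty w) (ty v) t)) +
      (∑ u, ind (G.Adj w u ∧ sm (ty w) (ty u)) * xx D (ty w) (ty u) t) =
      ∑ u, ind (G.Adj w u) * (D.tau z (ty w).1 (ty u).1 * xx D (ty w) (ty u) t) := by
    rw [← Finset.sum_add_distrib]
    refine Finset.sum_congr rfl fun v _ => ?_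
    rcases hc : (ty v).1 with a | b
    · have hv : isA (ty v).1 := ⟨a, hc⟩
      have hns : ¬ sm (ty w) (ty v) := by
        rintro (⟨⟨a', h7⟩, _⟩ | ⟨_, ⟨b', h8⟩⟩)
        · obtain ⟨b', h9⟩ := hw
          rw [h9] at h7
          exact absurd h7 (by simp)
        · rw [hc] at h8
          exact absurd h8 (by simp)
      rw [ind_neg (p := G.Adj w v ∧ sm (ty w) (ty v)) (fun h => hns h.2)]
      have e3 : ind (G.Adj w v ∧ isA (Sum.inl a : A ⊕ B)) = ind (G.Adj w v) :=
        ind_congr ⟨fun h => h.1, fun h => ⟨h, ⟨a, rfl⟩⟩⟩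
      rw [e3]
      ring
    · have hv : isB (ty v).1 := ⟨b, hc⟩
      have hs : sm (ty w) (ty v) := Or.inr ⟨hw, hv⟩
      have hna : ¬ isA (Sum.inr b : A ⊕ B) := by
        rintro ⟨a', h7⟩
        exact absurd h7 (by simp)
      have e4 : D.tau z (ty w).1 (ty v).1 = 1 := tau_sm (ty w) (ty v) hs
      rw [hc] at e4
      rw [ind_neg (p := G.Adj w v ∧ isA (Sum.inr b : A ⊕ B)) (fun h => hna h.2), e4]
      have e5 : ind (G.Adj w v ∧ sm (ty w) (ty v)) = ind (G.Adj w v) :=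
        ind_congr ⟨fun h => h.1, fun h => ⟨h, hs⟩⟩
      rw [e5]
      ring
  have h7 := (abs_le.1 (h.g1.load w t ht)).2
  have h8 : D.Lam z (ty w).1 t ≤ cap W S t * (1 - c / 10) := by
    obtain ⟨b, hb⟩ := hw
    rw [hb] at ht ⊢
    exact h.hD.slack b t ht
  have hcW : 0 < c * (W : ℝ) := by positivity
  have h9 : c ^ 2 * (W : ℝ) / 10 ^ 5 ≤ c * W / 10 ^ 5 := by
    have : c ^ 2 * (W : ℝ) ≤ c * W := by
      have h10 : c ^ 2 ≤ c := by nlinarith
      exact mul_le_mul_of_nonneg_right h10 hW.le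
    exact div_le_div_of_nonneg_right this (by norm_num)
  rw [h1]
  have h10 : c / 10 ^ 4 * (3 * (W : ℝ)) = 3 / 10 ^ 4 * (c * W) := by ring
  rw [h10] at h5'
  have h11 : c * (W : ℝ) / 10 ^ 5 = 1 / 10 ^ 5 * (c * W) := by ring
  have h12 : c * (W : ℝ) / 50 = 1 / 50 * (c * W) := by ring
  rw [h11] at h2' h9
  rw [h12]
  linarith

theorem zone_load (h : Ctx G D n W S z c ty co al) (w : V) (a : A)
    (hw : (ty w).1 = Sum.inr (D.un a)) :
    ∑ v, ind (G.Adj w v ∧ (ty v).1 = Sum.inl a) * yy G D W S z ty co al v w none ≤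
      ((z : ℝ) + 1) / 6 := by
  have hW := LDB_W h.hN
  have hc0 := h.hN.c0
  have hc1 := h.hN.c1
  have h1 : ∀ v, ind (G.Adj w v ∧ (ty v).1 = Sum.inl a) * yy G D W S z ty co al v w none ≤
      ind (G.Adj w v ∧ (ty v).1 = Sum.inl a) * (((z : ℝ) + 1) / (69 / 10 * W)) := by
    intro v
    by_cases hv : (ty v).1 = Sum.inl a
    · refine mul_le_mul_of_nonneg_left ?_ (ind_nonneg _)
      obtain ⟨e1, e2, _⟩ := LDB_q h.hN h.hD h.g1 v ⟨a, hv⟩
      have e3 := (cz_bounds h.hN h.hD h.g1 v ⟨a, hv⟩).1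
      show 1 - tv G D z ty v w ≤ _
      unfold tv
      have e4 : ind (D.zp (ty v).1 (ty w).1) * (((z : ℝ) + 1) / cz G D ty v) ≤
          ((z : ℝ) + 1) / cz G D ty v := mul_le_of_le_one_left e2 (ind_le_one _)
      have e5 : ((z : ℝ) + 1) / cz G D ty v ≤ ((z : ℝ) + 1) / (69 / 10 * W) :=
        div_le_div_of_nonneg_left (by positivity) (by positivity) e3
      linarith
    · rw [ind_neg (fun h => hv h.2), zero_mul, zero_mul]
  refine le_trans (Finset.sum_le_sum fun v _ => h1 v) ?_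
  rw [← Finset.sum_mul]
  have h2 := (abs_le.1 (h.g1.cnt w (Sum.inl a))).2
  have h3 := h.hD.M_A a
  have h4 : (∑ v, ind (G.Adj w v ∧ (ty v).1 = Sum.inl a)) ≤ W := by
    have hcW : 0 < c * (W : ℝ) := by positivity
    have e1 : (W : ℝ) * (1 - c / 5) = W - 1 / 5 * (c * W) := by ring
    have e2 : c * (W : ℝ) / 10 ^ 5 = 1 / 10 ^ 5 * (c * W) := by ring
    rw [e1] at h3
    rw [e2] at h2
    linarith
  have hz : (0 : ℝ) ≤ (z : ℝ) + 1 := by positivity
  calc (∑ v, ind (G.Adj w v ∧ (ty v).1 = Sum.inl a)) * (((z : ℝ) + 1) / (69 / 10 * W)) ≤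
        W * (((z : ℝ) + 1) / (69 / 10 * W)) := mul_le_mul_of_nonneg_right h4 (by positivity)
    _ = ((z : ℝ) + 1) * (10 / 69) := by field_simp
    _ ≤ ((z : ℝ) + 1) / 6 := by linarith

end Pool.Agent.H2.HV
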