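import Mathlib
import Pool.Agent.H2.HV.PRB

/-!
LLW (about 250 lines). The symmetric local lemma for product weights.

Adapt `Pool/Agent/H28/LLL.lean` (tools/sync.sh Pool/Agent/H28/LLL.lean): there the uniform distribution and cardinalities of
Finsets of functions; here `Pr μ`. Steps:
1. Independence (`card_inter_mul` there): if A depends only on the coordinates in X and B only on those outside X then
   Pr (A ∧ B) = Pr A * Pr B. (Write Pr A * Pr B as a double sum over (f, g), use the involution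
   (f,g) ↦ (X.piecewise f g, X.piecewise g f), which preserves the product of the two weights ∏ μ(f i) ∏ μ(g i).)
2. Key induction (`local_lemma_key`): with q' = the bound and I S = no A i (i ∈ S) happens:
   for i ∉ S, Pr (A i ∧ I S) ≤ 2 q Pr (I S). Hypothesis 4 q (d+1) ≤ 1.
3. Pr (I S) > 0 for all S (induction on S, Pr (I ∅) = 1 by `ex_const`), so Pr (I univ) > 0, hence some f has positive weight
   ∏ μ i (f i) > 0 and satisfies no A i; a positive product of nonnegative factors has all factors positive.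
q ≥ 0 follows from `pr_nonneg` if ι is nonempty; the empty case is Pr (I univ) = 1.
-/

set_option autoImplicit false
set_option linter.unusedVariables false

namespace Pool.Agent.H2.HV

open Finset

theorem LLW_indep {I κ : Type} [Fintype I] [Fintype κ] {μ : I → κ → ℝ} (hμ : IsW μ)
    (A B : (I → κ) → Prop) (X : Set I)
    (hA : ∀ f g, (∀ x ∈ X, f x = g x) → A f → A g)
    (hB : ∀ f g, (∀ x, x ∉ X → f x = g x) → B f → B g) :
    Pr μ (fun f => A f ∧ B f) = Pr μ A * Pr μ B := by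
  classical
  have h1 : Ex μ (fun _ : I → κ => (1 : ℝ)) = 1 := ex_const hμ 1
  have h2 : Pr μ (fun f => A f ∧ B f) = Pr μ (fun f => A f ∧ B f) * Ex μ (fun _ : I → κ => (1 : ℝ)) := by
    rw [h1, mul_one]
  rw [h2]
  unfold Pr Ex
  rw [Finset.sum_mul_sum, Finset.sum_mul_sum, ← Finset.sum_product', ← Finset.sum_product',
    Finset.univ_product_univ]
  have hX : ∀ (f g : I → κ) (x : I), x ∈ X → X.piecewise f g x = f x := fun f g x hx =>
    Set.piecewise_eq_of_mem X f g hx
  have hX' : ∀ (f g : I → κ) (x : I), x ∉ X → X.piecewise f g x = g x := fun f g x hx =>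
    Set.piecewise_eq_of_notMem X f g hx
  have hinv : ∀ f g : I → κ, X.piecewise (X.piecewise f g) (X.piecewise g f) = f := by
    intro f g
    funext x
    by_cases hx : x ∈ X
    · rw [hX _ _ x hx, hX _ _ x hx]
    · rw [hX' _ _ x hx, hX' _ _ x hx]
  refine Finset.sum_nbij' (fun q : (I → κ) × (I → κ) => (X.piecewise q.1 q.2, X.piecewise q.2 q.1))
    (fun q => (X.piecewise q.1 q.2, X.piecewise q.2 q.1)) (fun q _ => Finset.mem_univ _)
    (fun q _ => Finset.mem_univ _) ?_ ?_ ?_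
  · rintro ⟨f, g⟩ _
    simp only [hinv]
  · rintro ⟨f, g⟩ _
    simp only [hinv]
  · rintro ⟨f, g⟩ _
    simp only
    have hw : (∏ i, μ i (X.piecewise f g i)) * (∏ i, μ i (X.piecewise g f i)) =
        (∏ i, μ i (f i)) * (∏ i, μ i (g i)) := by
      rw [← Finset.prod_mul_distrib, ← Finset.prod_mul_distrib]
      refine Finset.prod_congr rfl fun i _ => ?_
      by_cases hi : i ∈ X
      · rw [hX _ _ i hi, hX _ _ i hi]
      · rw [hX' _ _ i hi, hX' _ _ i hi, mul_comm]
    have hAi : ind (A (X.piecewise f g)) = ind (A f) := ind_congr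
      ⟨hA _ _ fun x hx => hX _ _ x hx, hA _ _ fun x hx => (hX _ _ x hx).symm⟩
    have hBi : ind (B (X.piecewise g f)) = ind (B f) := ind_congr
      ⟨hB _ _ fun x hx => hX' _ _ x hx, hB _ _ fun x hx => (hX' _ _ x hx).symm⟩
    rw [hAi, hBi, ind_and, mul_one]
    calc (∏ i, μ i (f i)) * (ind (A f) * ind (B f)) * ∏ i, μ i (g i)
        = ((∏ i, μ i (f i)) * (∏ i, μ i (g i))) * (ind (A f) * ind (B f)) := by ring
      _ = ((∏ i, μ i (X.piecewise f g i)) * (∏ i, μ i (X.piecewise g f i))) *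
          (ind (A f) * ind (B f)) := by rw [hw]
      _ = _ := by ring

theorem LLW_key {I κ ι : Type} [Fintype I] [Fintype κ] [Fintype ι] [DecidableEq ι]
    (μ : I → κ → ℝ) (hμ : IsW μ)
    (A : ι → (I → κ) → Prop) (N : ι → Set I)
    (hdep : ∀ i f g, (∀ x ∈ N i, f x = g x) → A i f → A i g) (d : ℕ) (q : ℝ)
    (hd : ∀ i, {j | j ≠ i ∧ ¬ Disjoint (N i) (N j)}.ncard ≤ d)
    (hA : ∀ i, Pr μ (A i) ≤ q) (h4 : 4 * q * (d + 1) ≤ 1) :
    ∀ (n : ℕ) (S : Finset ι), S.card ≤ n → ∀ i, i ∉ S →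
      Pr μ (fun f => A i f ∧ ∀ j ∈ S, ¬ A j f) ≤ 2 * q * Pr μ (fun f => ∀ j ∈ S, ¬ A j f) := by
  classical
  intro n
  induction n using Nat.strong_induction_on with
  | _ n ih =>
  intro S hS i hi
  have hq0 : 0 ≤ q := (pr_nonneg hμ (A i)).trans (hA i)
  have hd0 : (0 : ℝ) ≤ d := Nat.cast_nonneg d
  have h4q : 4 * q ≤ 1 := by nlinarith [mul_nonneg hq0 hd0]
  have h4d : 4 * q * d ≤ 1 := by nlinarith
  obtain ⟨S1, hS1⟩ : ∃ S1, S1 = S.filter (fun j => ¬ Disjoint (N i) (N j)) := ⟨_, rfl⟩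
  obtain ⟨S2, hS2⟩ : ∃ S2, S2 = S.filter (fun j => Disjoint (N i) (N j)) := ⟨_, rfl⟩
  have hm1 : ∀ j, j ∈ S1 ↔ j ∈ S ∧ ¬ Disjoint (N i) (N j) := by
    intro j
    rw [hS1, Finset.mem_filter]
  have hm2 : ∀ j, j ∈ S2 ↔ j ∈ S ∧ Disjoint (N i) (N j) := by
    intro j
    rw [hS2, Finset.mem_filter]
  have hS12 : S2 ⊆ S := fun j hj => ((hm2 j).1 hj).1
  have hS1d : S1.card ≤ d := by
    refine le_trans ?_ (hd i)
    rw [← Set.ncard_coe_finset]
    refine Set.ncard_le_ncard ?_ (Set.toFinite _)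
    intro j hj
    have hj' := (hm1 j).1 (Finset.mem_coe.1 hj)
    exact ⟨fun h => hi (h ▸ hj'.1), hj'.2⟩
  have hind : Pr μ (fun f => A i f ∧ ∀ j ∈ S2, ¬ A j f) ≤ q * Pr μ (fun f => ∀ j ∈ S2, ¬ A j f) := by
    rw [LLW_indep hμ (A i) (fun f => ∀ j ∈ S2, ¬ A j f) (N i) (hdep i) ?_]
    · exact mul_le_mul_of_nonneg_right (hA i) (pr_nonneg hμ _)
    · intro f g hfg hf j hj hgA
      refine hf j hj (hdep j g f (fun v hv => (hfg v ?_).symm) hgA)
      exact fun h => (Set.disjoint_left.1 ((hm2 j).1 hj).2) h hv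
  have hle1 : Pr μ (fun f => A i f ∧ ∀ j ∈ S, ¬ A j f) ≤
      Pr μ (fun f => A i f ∧ ∀ j ∈ S2, ¬ A j f) :=
    pr_mono hμ fun f hf => ⟨hf.1, fun j hj => hf.2 j (hS12 hj)⟩
  have hlow : Pr μ (fun f => ∀ j ∈ S2, ¬ A j f) ≤ 2 * Pr μ (fun f => ∀ j ∈ S, ¬ A j f) := by
    rcases S1.eq_empty_or_nonempty with hemp | hnonemp
    · have h1 : S2 = S := by
        apply Finset.Subset.antisymm hS12
        intro j hj
        refine (hm2 j).2 ⟨hj, ?_⟩
        by_contra hcon
        have h2 : j ∈ S1 := (hm1 j).2 ⟨hj, hcon⟩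
        rw [hemp] at h2
        exact absurd h2 (Finset.notMem_empty _)
      rw [h1]
      have h2 := pr_nonneg hμ (fun f => ∀ j ∈ S, ¬ A j f)
      linarith
    · have hlt : S2.card < S.card := by
        apply Finset.card_lt_card
        refine ⟨hS12, fun h => ?_⟩
        obtain ⟨j, hj⟩ := hnonemp
        have h1 := (hm1 j).1 hj
        exact h1.2 ((hm2 j).1 (h h1.1)).2
      have hun : Pr μ (fun f => ∀ j ∈ S2, ¬ A j f) ≤ Pr μ (fun f => ∀ j ∈ S, ¬ A j f) +
          ∑ j ∈ S1, Pr μ (fun f => A j f ∧ ∀ j ∈ S2, ¬ A j f) := by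
        unfold Pr
        rw [← ex_sum, ← ex_add]
        refine ex_mono hμ fun f => ?_
        have hsn : 0 ≤ ∑ j ∈ S1, ind (A j f ∧ ∀ j ∈ S2, ¬ A j f) :=
          Finset.sum_nonneg fun j _ => ind_nonneg _
        by_cases h2 : ∀ j ∈ S2, ¬ A j f
        · by_cases h3 : ∀ j ∈ S, ¬ A j f
          · rw [ind_pos h2, ind_pos h3]
            linarith
          · push Not at h3
            obtain ⟨j, hj, hjA⟩ := h3
            have hj1 : j ∈ S1 := by
              refine (hm1 j).2 ⟨hj, fun hdis => ?_⟩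
              exact h2 j ((hm2 j).2 ⟨hj, hdis⟩) hjA
            have h5 := Finset.single_le_sum
              (f := fun j => ind (A j f ∧ ∀ j ∈ S2, ¬ A j f)) (fun x _ => ind_nonneg _) hj1
            have h6 : ind (A j f ∧ ∀ j ∈ S2, ¬ A j f) = 1 := ind_pos ⟨hjA, h2⟩
            rw [ind_pos h2]
            have h7 := ind_nonneg (∀ j ∈ S, ¬ A j f)
            simp only [h6] at h5
            linarith
        · rw [ind_neg h2]
          have h7 := ind_nonneg (∀ j ∈ S, ¬ A j f)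
          linarith
      have h4' : ∑ j ∈ S1, Pr μ (fun f => A j f ∧ ∀ j ∈ S2, ¬ A j f) ≤
          ∑ j ∈ S1, 2 * q * Pr μ (fun f => ∀ j ∈ S2, ¬ A j f) := by
        refine Finset.sum_le_sum fun j hj => ?_
        refine ih S2.card (lt_of_lt_of_le hlt hS) S2 le_rfl j ?_
        intro hj2
        exact ((hm1 j).1 hj).2 ((hm2 j).1 hj2).2
      rw [Finset.sum_const, nsmul_eq_mul] at h4'
      have hx0 := pr_nonneg hμ (fun f => ∀ j ∈ S2, ¬ A j f)
      have hs1 : (S1.card : ℝ) ≤ d := by exact_mod_cast hS1d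
      generalize Pr μ (fun f => ∀ j ∈ S2, ¬ A j f) = x at hun h4' hx0 ⊢
      generalize (S1.card : ℝ) = y at h4' hs1
      have h6 : y * (2 * q) ≤ 1 / 2 := by
        have := mul_le_mul_of_nonneg_right hs1 (by positivity : (0:ℝ) ≤ 2 * q)
        linarith
      have h7 := mul_le_mul_of_nonneg_right h6 hx0
      have h8 : y * (2 * q * x) = y * (2 * q) * x := by ring
      linarith
  have hfin : q * Pr μ (fun f => ∀ j ∈ S2, ¬ A j f) ≤ q * (2 * Pr μ (fun f => ∀ j ∈ S, ¬ A j f)) :=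
    mul_le_mul_of_nonneg_left hlow hq0
  linarith

theorem lll {I κ ι : Type} [Fintype I] [Fintype κ] [Fintype ι] (μ : I → κ → ℝ) (hμ : IsW μ)
    (A : ι → (I → κ) → Prop) (N : ι → Set I)
    (hdep : ∀ i f g, (∀ x ∈ N i, f x = g x) → A i f → A i g) (d : ℕ) (q : ℝ)
    (hd : ∀ i, {j | j ≠ i ∧ ¬ Disjoint (N i) (N j)}.ncard ≤ d)
    (hA : ∀ i, Pr μ (A i) ≤ q) (h4 : 4 * q * (d + 1) ≤ 1) :
    ∃ f : I → κ, (∀ i, 0 < μ i (f i)) ∧ ∀ i, ¬ A i f := by
  classical
  have key := LLW_key μ hμ A N hdep d q hd hA h4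
  have hpos : ∀ S : Finset ι, 0 < Pr μ (fun f => ∀ j ∈ S, ¬ A j f) := by
    intro S
    induction S using Finset.induction_on with
    | empty =>
      have h1 : Pr μ (fun f => ∀ j ∈ (∅ : Finset ι), ¬ A j f) = 1 := by
        have h2 := ex_const hμ 1
        rw [← h2]
        exact ex_congr fun f => ind_pos fun j hj => absurd hj (Finset.notMem_empty j)
      rw [h1]
      exact one_pos
    | insert i S hi ih =>
      have hk := key S.card S le_rfl i hi
      have hq0 : 0 ≤ q := (pr_nonneg hμ (A i)).trans (hA i)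
      have hd0 : (0 : ℝ) ≤ d := Nat.cast_nonneg d
      have h4q : 4 * q ≤ 1 := by nlinarith [mul_nonneg hq0 hd0]
      have h2 : Pr μ (fun f => ∀ j ∈ S, ¬ A j f) ≤ Pr μ (fun f => ∀ j ∈ insert i S, ¬ A j f) +
          Pr μ (fun f => A i f ∧ ∀ j ∈ S, ¬ A j f) := by
        unfold Pr
        rw [← ex_add]
        refine ex_mono hμ fun f => ?_
        by_cases hfi : A i f
        · have h3 : ind (A i f ∧ ∀ j ∈ S, ¬ A j f) = ind (∀ j ∈ S, ¬ A j f) :=
            ind_congr ⟨fun h => h.2, fun h => ⟨hfi, h⟩⟩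
          have h4 := ind_nonneg (∀ j ∈ insert i S, ¬ A j f)
          simp only [h3]
          linarith
        · have h3 : ind (∀ j ∈ insert i S, ¬ A j f) = ind (∀ j ∈ S, ¬ A j f) := by
            refine ind_congr ⟨fun h j hj => h j (Finset.mem_insert_of_mem hj), fun h j hj => ?_⟩
            rcases Finset.mem_insert.1 hj with h5 | h5
            · rw [h5]
              exact hfi
            · exact h j h5
          have h4 := ind_nonneg (A i f ∧ ∀ j ∈ S, ¬ A j f)
          simp only [h3]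
          linarith
      have h3 : 2 * q * Pr μ (fun f => ∀ j ∈ S, ¬ A j f) ≤ 1 / 2 * Pr μ (fun f => ∀ j ∈ S, ¬ A j f) :=
        mul_le_mul_of_nonneg_right (by linarith) ih.le
      linarith
  have h1 := (hpos Finset.univ).ne'
  unfold Pr Ex at h1
  obtain ⟨f, -, hf⟩ := Finset.exists_ne_zero_of_sum_ne_zero h1
  have hf1 := left_ne_zero_of_mul hf
  have hf2 := right_ne_zero_of_mul hf
  refine ⟨f, fun i => ?_, fun i hi => ?_⟩
  · exact lt_of_le_of_ne (hμ.nonneg i _) (Ne.symm (Finset.prod_ne_zero_iff.1 hf1 i (Finset.mem_univ i)))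
  · exact hf2 (ind_neg fun h => h i (Finset.mem_univ i) hi)

end Pool.Agent.H2.HV
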