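import Mathlib
import Pool.Agent.H2.HV.PRB

/-!
BRN (about 130 lines). Bernstein's inequality for product weights.

`bern`: s := t / (2 v), so 0 ≤ s and s b ≤ 1. ind (t ≤ Σ g) ≤ exp (-(s t)) * ∏ i, exp (s * g i (f i)). By `ex_prod`
the expectation of the product is ∏ i, Σ k, μ i k * exp (s * g i k), and exp x ≤ 1 + x + x² for |x| ≤ 1
(Real.abs_exp_sub_one_sub_id_le) gives Σ k, μ i k exp (s g) ≤ 1 + 0 + s² Σ k μ g² ≤ exp (s² Σ k μ g²). Product: ≤ exp (s² v).
So Pr ≤ exp (-(s t) + s² v) = exp (-(t²/(4v))).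
`bern_abs`: apply `bern` to g and to -g, `pr_or`, `pr_mono`.
`bern2`: apply `bern_abs` to g i k = h i k - Σ k', μ i k' h i k', with the same b (|g| ≤ b since both are in [0,b]),
v = b M (Σ k μ g² ≤ Σ k μ h² ≤ b Σ k μ h), t b ≤ 2 b M. If I want ≤ in the event use `pr_mono`.
-/

set_option autoImplicit false
set_option linter.unusedVariables false

namespace Pool.Agent.H2.HV

open Finset

variable {I κ : Type} [Fintype I] [Fintype κ] {μ : I → κ → ℝ}

omit [Fintype I] in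
theorem BRN_fac (hμ : IsW μ) (g : I → κ → ℝ) (s b : ℝ) (hs0 : 0 ≤ s) (hsb : s * b ≤ 1)
    (hg : ∀ i k, |g i k| ≤ b) (hz : ∀ i, ∑ k, μ i k * g i k = 0) (i : I) :
    ∑ k, μ i k * Real.exp (s * g i k) ≤ Real.exp (s ^ 2 * ∑ k, μ i k * (g i k) ^ 2) := by
  have h1 : ∀ k, μ i k * Real.exp (s * g i k) ≤
      μ i k + s * (μ i k * g i k) + s ^ 2 * (μ i k * (g i k) ^ 2) := by
    intro k
    have hx : |s * g i k| ≤ 1 := by
      rw [abs_mul, abs_of_nonneg hs0]
      exact (mul_le_mul_of_nonneg_left (hg i k) hs0).trans hsb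
    have h2 := (abs_le.1 (Real.abs_exp_sub_one_sub_id_le hx)).2
    have h3 : Real.exp (s * g i k) ≤ 1 + s * g i k + (s * g i k) ^ 2 := by linarith
    calc _ ≤ μ i k * (1 + s * g i k + (s * g i k) ^ 2) :=
          mul_le_mul_of_nonneg_left h3 (hμ.nonneg i k)
      _ = _ := by ring
  calc ∑ k, μ i k * Real.exp (s * g i k)
      ≤ ∑ k, (μ i k + s * (μ i k * g i k) + s ^ 2 * (μ i k * (g i k) ^ 2)) :=
        Finset.sum_le_sum fun k _ => h1 k
    _ = s ^ 2 * ∑ k, μ i k * (g i k) ^ 2 + 1 := by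
        rw [Finset.sum_add_distrib, Finset.sum_add_distrib, ← Finset.mul_sum, ← Finset.mul_sum,
          hμ.sum i, hz i]
        ring
    _ ≤ _ := Real.add_one_le_exp _

theorem bern (hμ : IsW μ) (g : I → κ → ℝ) (b v t : ℝ) (hb : 0 < b) (hv : 0 < v) (ht : 0 ≤ t)
    (htb : t * b ≤ 2 * v) (hg : ∀ i k, |g i k| ≤ b) (hz : ∀ i, ∑ k, μ i k * g i k = 0)
    (hs : ∑ i, ∑ k, μ i k * (g i k) ^ 2 ≤ v) :
    Pr μ (fun f => t ≤ ∑ i, g i (f i)) ≤ Real.exp (-(t ^ 2 / (4 * v))) := by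
  obtain ⟨s, hs_def⟩ : ∃ s : ℝ, s = t / (2 * v) := ⟨_, rfl⟩
  have hs0 : 0 ≤ s := by rw [hs_def]; positivity
  have hsb : s * b ≤ 1 := by
    rw [hs_def, div_mul_eq_mul_div, div_le_one (by positivity)]
    exact htb
  have h1 : Pr μ (fun f => t ≤ ∑ i, g i (f i)) ≤
      Ex μ (fun f => Real.exp (-(s * t)) * ∏ i, Real.exp (s * g i (f i))) := by
    refine pr_le_ex hμ _ _ fun f => ?_
    rw [← Real.exp_sum, ← Real.exp_add, ← Finset.mul_sum]
    by_cases h : t ≤ ∑ i, g i (f i)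
    · rw [ind_pos h]
      refine Real.one_le_exp ?_
      have := mul_le_mul_of_nonneg_left h hs0
      linarith
    · rw [ind_neg h]
      exact (Real.exp_pos _).le
  rw [ex_smul, ex_prod (fun i k => Real.exp (s * g i k))] at h1
  have h2 : ∏ i, ∑ k, μ i k * Real.exp (s * g i k) ≤ Real.exp (s ^ 2 * v) := by
    calc ∏ i, ∑ k, μ i k * Real.exp (s * g i k)
        ≤ ∏ i, Real.exp (s ^ 2 * ∑ k, μ i k * (g i k) ^ 2) := by
          refine Finset.prod_le_prod (fun i _ => ?_) (fun i _ => BRN_fac hμ g s b hs0 hsb hg hz i)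
          exact Finset.sum_nonneg fun k _ => mul_nonneg (hμ.nonneg i k) (Real.exp_pos _).le
      _ = Real.exp (s ^ 2 * ∑ i, ∑ k, μ i k * (g i k) ^ 2) := by
          rw [← Real.exp_sum, Finset.mul_sum]
      _ ≤ _ := Real.exp_le_exp.2 (mul_le_mul_of_nonneg_left hs (sq_nonneg s))
  calc _ ≤ Real.exp (-(s * t)) * Real.exp (s ^ 2 * v) :=
        h1.trans (mul_le_mul_of_nonneg_left h2 (Real.exp_pos _).le)
    _ = Real.exp (-(t ^ 2 / (4 * v))) := by
        rw [← Real.exp_add]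
        congr 1
        rw [hs_def]
        field_simp
        ring

theorem bern_abs (hμ : IsW μ) (g : I → κ → ℝ) (b v t : ℝ) (hb : 0 < b) (hv : 0 < v) (ht : 0 ≤ t)
    (htb : t * b ≤ 2 * v) (hg : ∀ i k, |g i k| ≤ b) (hz : ∀ i, ∑ k, μ i k * g i k = 0)
    (hs : ∑ i, ∑ k, μ i k * (g i k) ^ 2 ≤ v) :
    Pr μ (fun f => ¬ |∑ i, g i (f i)| ≤ t) ≤ 2 * Real.exp (-(t ^ 2 / (4 * v))) := by
  have h1 := bern hμ g b v t hb hv ht htb hg hz hs
  have h2 := bern hμ (fun i k => -g i k) b v t hb hv ht htb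
    (fun i k => by rw [abs_neg]; exact hg i k)
    (fun i => by simp only [mul_neg, Finset.sum_neg_distrib, hz i, neg_zero])
    (by simp only [neg_sq]; exact hs)
  have h3 : Pr μ (fun f => ¬ |∑ i, g i (f i)| ≤ t) ≤
      Pr μ (fun f => (t ≤ ∑ i, g i (f i)) ∨ (t ≤ ∑ i, -g i (f i))) := by
    refine pr_mono hμ fun f hf => ?_
    rw [Finset.sum_neg_distrib]
    push Not at hf
    rcases lt_abs.1 hf with h | h
    · exact Or.inl h.le
    · exact Or.inr h.le
  have h4 := pr_or hμ (fun f => t ≤ ∑ i, g i (f i)) (fun f => t ≤ ∑ i, -g i (f i))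
  linarith

theorem bern2 (hμ : IsW μ) (h : I → κ → ℝ) (b M t : ℝ) (hb : 0 < b) (hM : 0 < M) (ht : 0 ≤ t)
    (htM : t ≤ 2 * M) (h0 : ∀ i k, 0 ≤ h i k) (h1 : ∀ i k, h i k ≤ b)
    (hm : ∑ i, ∑ k, μ i k * h i k ≤ M) :
    Pr μ (fun f => ¬ |(∑ i, h i (f i)) - ∑ i, ∑ k, μ i k * h i k| ≤ t) ≤
      2 * Real.exp (-(t ^ 2 / (4 * b * M))) := by
  have hm0 : ∀ i, 0 ≤ ∑ k, μ i k * h i k := fun i =>
    Finset.sum_nonneg fun k _ => mul_nonneg (hμ.nonneg i k) (h0 i k)
  have hmb : ∀ i, ∑ k, μ i k * h i k ≤ b := by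
    intro i
    calc ∑ k, μ i k * h i k ≤ ∑ k, μ i k * b :=
          Finset.sum_le_sum fun k _ => mul_le_mul_of_nonneg_left (h1 i k) (hμ.nonneg i k)
      _ = b := by rw [← Finset.sum_mul, hμ.sum i, one_mul]
  have hz : ∀ i, ∑ k, μ i k * (h i k - ∑ k', μ i k' * h i k') = 0 := by
    intro i
    simp only [mul_sub]
    rw [Finset.sum_sub_distrib, ← Finset.sum_mul, hμ.sum i, one_mul, sub_self]
  have hs : ∑ i, ∑ k, μ i k * (h i k - ∑ k', μ i k' * h i k') ^ 2 ≤ b * M := by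
    calc ∑ i, ∑ k, μ i k * (h i k - ∑ k', μ i k' * h i k') ^ 2
        ≤ ∑ i, b * ∑ k, μ i k * h i k := by
          refine Finset.sum_le_sum fun i _ => ?_
          have e : ∑ k, μ i k * (h i k - ∑ k', μ i k' * h i k') ^ 2 =
              ∑ k, μ i k * (h i k) ^ 2 - (∑ k', μ i k' * h i k') ^ 2 := by
            have e1 : ∀ k, μ i k * (h i k - ∑ k', μ i k' * h i k') ^ 2 =
                μ i k * (h i k) ^ 2 - 2 * (∑ k', μ i k' * h i k') * (μ i k * h i k) +
                  (∑ k', μ i k' * h i k') ^ 2 * μ i k := fun k => by ring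
            rw [Finset.sum_congr rfl fun k _ => e1 k, Finset.sum_add_distrib,
              Finset.sum_sub_distrib, ← Finset.mul_sum, ← Finset.mul_sum, hμ.sum i]
            ring
          have e2 : ∑ k, μ i k * (h i k) ^ 2 ≤ b * ∑ k, μ i k * h i k := by
            rw [Finset.mul_sum]
            refine Finset.sum_le_sum fun k _ => ?_
            have e3 : h i k * h i k ≤ b * h i k := mul_le_mul_of_nonneg_right (h1 i k) (h0 i k)
            have e4 := mul_le_mul_of_nonneg_left e3 (hμ.nonneg i k)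
            calc _ = μ i k * (h i k * h i k) := by ring
              _ ≤ _ := e4
              _ = _ := by ring
          rw [e]
          have := sq_nonneg (∑ k', μ i k' * h i k')
          linarith
      _ = b * ∑ i, ∑ k, μ i k * h i k := by rw [Finset.mul_sum]
      _ ≤ b * M := mul_le_mul_of_nonneg_left hm hb.le
  have h2 := bern_abs hμ (fun i k => h i k - ∑ k', μ i k' * h i k') b (b * M) t hb
    (mul_pos hb hM) ht (by nlinarith) (fun i k => by
      rw [abs_le]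
      constructor
      · linarith [h0 i k, hmb i]
      · linarith [h1 i k, hm0 i]) hz hs
  simp only [Finset.sum_sub_distrib] at h2
  rw [show 4 * b * M = 4 * (b * M) by ring]
  exact h2

end Pool.Agent.H2.HV
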