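import Mathlib
import Pool.Agent.H2.HV.NUM

/-!
S1M (about 100 lines). The weights of stage 1.

mu1_isW: D.M ≥ 0, Σ_c M c / n = 1, Σ over σ : J → Bool of 1/2^|J| = 1 (Fintype.sum_prod_type, Fintype.card_fun).
mu1_sum: Fintype.sum_prod_type; for fixed class the map k2 ↦ (fun j => xor (σ j) (k2 j)) is a bijection of J → Bool
(an involution; Fintype.sum_equiv or Function.Involutive.toPerm); then `ex_half`.
-/

set_option autoImplicit false
set_option linter.unusedVariables false

namespace Pool.Agent.H2.HV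

open Finset

variable {A B J V : Type} [Fintype A] [Fintype B] [Fintype J] [DecidableEq J]

private theorem S1M_key (D : MS A B J) (n : ℕ) (v : V) (σ : J → Bool)
    (F : A ⊕ B → (J → Bool) → ℝ) :
    ∑ k : Ty A B J, (mu1 D n : V → Ty A B J → ℝ) v k * F k.1 (fun j => xor (σ j) (k.2 j)) =
      ∑ c, D.M c / n * Ex (half J) (F c) := by
  rw [Fintype.sum_prod_type]
  refine Finset.sum_congr rfl fun c _ => ?_
  have hinv : Function.Involutive (fun (k : J → Bool) => fun j => xor (σ j) (k j)) := by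
    intro k
    funext j
    show xor (σ j) (xor (σ j) (k j)) = k j
    cases σ j <;> cases k j <;> rfl
  have h1 : ∑ k : J → Bool, F c (fun j => xor (σ j) (k j)) = ∑ k : J → Bool, F c k :=
    Fintype.sum_equiv hinv.toPerm _ _ (fun k => rfl)
  rw [ex_half, ← h1]
  unfold mu1
  show ∑ k : J → Bool, D.M c / n / 2 ^ (Fintype.card J) * F c (fun j => xor (σ j) (k j)) = _
  rw [← Finset.mul_sum]
  ring

theorem mu1_isW {D : MS A B J} {n W S z : ℕ} {c : ℝ} (hN : Num n W S z c) (hD : D.Ok n W S z c) :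
    IsW (mu1 D n : V → Ty A B J → ℝ) := by
  refine ⟨fun v k => ?_, fun v => ?_⟩
  · unfold mu1
    have := (hD.M_pos k.1).le
    positivity
  · have h := S1M_key D n v (fun _ => false) (fun _ _ => 1)
    simp only [mul_one] at h
    rw [h]
    have h2 : ∀ c, D.M c / n * Ex (half J) (fun _ => (1 : ℝ)) = D.M c / n := fun c => by
      rw [ex_const half_isW, mul_one]
    rw [Finset.sum_congr rfl (fun c _ => h2 c), ← Finset.sum_div, hD.M_sum]
    have h3 : (0 : ℝ) < n := (num_c hN).1
    exact div_self h3.ne'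

theorem mu1_sum (D : MS A B J) (n : ℕ) (v : V) (σ : J → Bool) (F : A ⊕ B → (J → Bool) → ℝ) :
    ∑ k : Ty A B J, (mu1 D n : V → Ty A B J → ℝ) v k * F k.1 (fun j => xor (σ j) (k.2 j)) =
      ∑ c, D.M c / n * Ex (half J) (F c) := S1M_key D n v σ F

end Pool.Agent.H2.HV
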