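import Mathlib
import Pool.Agent.H2.HV.BRN
import Pool.Agent.H2.HV.S1M

/-!
S1A (about 80 lines). Class counts in stage 1.

`bern2` with μ = mu1, h u κ = ind (G.Adj v u ∧ κ.1 = k), b = 1, M = 9 W, t = c W/10^5 ≤ 18 W.
Mean: Σ_u ind(Adj v u) Σ_κ mu1 κ ind (κ.1 = k) = n · D.M k / n = D.M k (use `mu1_sum` with F c' _ = ind (c' = k), any σ, `ex_const`; `Reg`).
D.M k ≤ 9 W by M_A (W (1-c/5) ≤ W) or M_B, be_hi. exp(-t²/(36 W)) ≤ tiny n: t²/(36W) = c² W/(36·10^10) ≥ 10 log n by W1.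
-/

set_option autoImplicit false
set_option linter.unusedVariables false

namespace Pool.Agent.H2.HV

open Finset

variable {A B J V : Type} [Fintype A] [Fintype B] [Fintype J] [DecidableEq J] [Fintype V]
variable {D : MS A B J} {n W S z : ℕ} {c : ℝ}

theorem S1A_mean (hN : Num n W S z c) (hD : D.Ok n W S z c) (G : SimpleGraph V) (hG : Reg G n)
    (v : V) (k : A ⊕ B) :
    ∑ u, ∑ κ : Ty A B J, (mu1 D n : V → Ty A B J → ℝ) u κ * ind (G.Adj v u ∧ κ.1 = k) =
      D.M k := by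
  classical
  obtain ⟨hn0, -⟩ := num_c hN
  have h1 : ∀ u, ∑ κ : Ty A B J, (mu1 D n : V → Ty A B J → ℝ) u κ * ind (G.Adj v u ∧ κ.1 = k) =
      ind (G.Adj v u) * (D.M k / n) := by
    intro u
    have h2 := mu1_sum D n u (fun _ => false) (fun c' _ => ind (c' = k))
    have h3 : ∑ c', D.M c' / n * Ex (half J) (fun _ => ind (c' = k)) = D.M k / n := by
      rw [Finset.sum_eq_single k]
      · rw [ex_const half_isW, ind_pos rfl, mul_one]
      · intro c' _ hc'
        rw [ex_const half_isW, ind_neg hc', mul_zero]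
      · intro h; exact absurd (Finset.mem_univ k) h
    rw [h3] at h2
    rw [← h2, Finset.mul_sum]
    refine Finset.sum_congr rfl fun κ _ => ?_
    rw [ind_and]
    ring
  rw [Finset.sum_congr rfl fun u _ => h1 u, ← Finset.sum_mul]
  have hG' : ∑ u, ind (G.Adj v u) = (n : ℝ) := hG v
  rw [hG', mul_div_cancel₀ _ hn0.ne']

theorem s1a (hN : Num n W S z c) (hD : D.Ok n W S z c) (G : SimpleGraph V) (hG : Reg G n)
    (v : V) (k : A ⊕ B) :
    Pr (mu1 D n) (fun f : V → Ty A B J =>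
      ¬ |(∑ u, ind (G.Adj v u ∧ (f u).1 = k)) - D.M k| ≤ c * W / 10 ^ 5) ≤ 2 * tiny n := by
  have hμ : IsW (mu1 D n : V → Ty A B J → ℝ) := mu1_isW hN hD
  obtain ⟨hn0, hW0, hlog, -⟩ := num_c hN
  have hc0 := hN.c0
  have hc1 := hN.c1
  have hmean := S1A_mean hN hD G hG v k
  have hM : D.M k ≤ 9 * W := by
    rcases k with a | b
    · refine (hD.M_A a).trans ?_
      nlinarith
    · rw [hD.M_B b]
      exact hD.be_hi
  have hb := bern2 hμ (fun u κ => ind (G.Adj v u ∧ κ.1 = k)) 1 (9 * W) (c * W / 10 ^ 5)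
    one_pos (by positivity) (by positivity) (by
      rw [div_le_iff₀ (by norm_num)]
      nlinarith) (fun _ _ => ind_nonneg _) (fun _ _ => ind_le_one _) (by rw [hmean]; exact hM)
  simp only [hmean] at hb
  refine hb.trans (mul_le_mul_of_nonneg_left ?_ (by norm_num))
  unfold tiny
  rw [Real.exp_le_exp, neg_le_neg_iff]
  have h1 : (c * W / 10 ^ 5) ^ 2 / (4 * 1 * (9 * W)) = c ^ 2 * W / (36 * 10 ^ 10) := by
    field_simp
    ring
  rw [h1, le_div_iff₀ (by norm_num)]
  have h2 := hN.W1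
  linarith

end Pool.Agent.H2.HV
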