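import Mathlib
import Pool.Agent.H2.HV.BRN
import Pool.Agent.H2.HV.S1M

/-!
S1B (about 180 lines). Compatible slack neighbours in stage 1.

`pr_cond` with i = v (the sum over u with Adj v u does not involve f v, as Adj is irreflexive): fix f v = κ0; if κ0.1 ≠ inl a the event is
empty (`pr_false`). Let κ0 = (inl a, σ). h u κ = ind (G.Adj v u ∧ isB κ.1 ∧ cp D κ0 κ t ∧ cp D κ0 κ (some j)).
Mean = n Σ_κ mu1 κ (..) = Σ_b be · ind (elT (inr b) t ∧ el (inr b) j) · (probability that the sides are right), by `mu1_sum` with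
F c' ξ = ind (isB c' ∧ elT c' t ∧ el c' j ∧ (∀ i, t = some i → ξ i = true) ∧ ξ j = true) (xor (σ i) (σ' i) = true iff σ i ≠ σ' i). The probability under half is
1/4 if t = some i, i ≠ j, and 1/2 if t = none or t = some j (`ex_prod`), so ≥ 1/4. By `hub` the mean is ≥ (n c/10)/4 = n c/40, and ≤ n.
`bern2` with b = 1, M = n, deviation n c/200 (≤ 2n): exponent (n c/200)²/(4n) = n c²/160000 ≥ 10 log n (num_c: c^4 n ≥ 10^21 log n, c ≤ 1).
n c/40 - n c/200 = n c/50.
-/

set_option autoImplicit false
set_option linter.unusedVariables false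

namespace Pool.Agent.H2.HV

open Finset

variable {A B J V : Type} [Fintype A] [Fintype B] [Fintype J] [DecidableEq J] [Fintype V]
variable {D : MS A B J} {n W S z : ℕ} {c : ℝ}

theorem S1B_ind_prod (T : Finset J) (P : J → Prop) :
    ∏ i, (if i ∈ T then ind (P i) else 1) = ind (∀ i ∈ T, P i) := by
  rw [Finset.prod_ite_mem, Finset.univ_inter]
  by_cases h : ∀ i ∈ T, P i
  · rw [ind_pos h]
    exact Finset.prod_eq_one (fun i hi => ind_pos (h i hi))
  · rw [ind_neg h]
    push Not at h
    obtain ⟨i, hi, hP⟩ := h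
    exact Finset.prod_eq_zero hi (ind_neg hP)

theorem S1B_ex (T : Finset J) (hT : T.card ≤ 2) :
    1 / 4 ≤ Ex (half J) (fun ξ => ind (∀ i ∈ T, ξ i = true)) := by
  have h := ex_prod (μ := half J) (fun i k => if i ∈ T then ind (k = true) else 1)
  have h1 : ∀ ξ : J → Bool, ∏ i, (if i ∈ T then ind (ξ i = true) else 1) =
      ind (∀ i ∈ T, ξ i = true) := fun ξ => S1B_ind_prod T _
  rw [ex_congr h1] at h
  have h2 : ∀ i, ∑ k, half J i k * (if i ∈ T then ind (k = true) else 1) =
      if i ∈ T then (1 / 2 : ℝ) else 1 := by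
    intro i
    rw [Fintype.sum_bool]
    have e1 : ind True = 1 := ind_pos trivial
    have e2 : ind (false = true) = 0 := ind_neg (by simp)
    by_cases hi : i ∈ T
    · simp only [if_pos hi, half]
      rw [e1, e2]
      norm_num
    · simp only [if_neg hi, half]
      norm_num
  rw [h, Finset.prod_congr rfl (fun i _ => h2 i), Finset.prod_ite_mem, Finset.univ_inter,
    Finset.prod_const]
  calc (1 / 4 : ℝ) = (1 / 2) ^ 2 := by norm_num
    _ ≤ (1 / 2) ^ T.card := pow_le_pow_of_le_one (by norm_num) (by norm_num) hT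

theorem S1B_prob (t : Option J) (j : J) :
    1 / 4 ≤ Ex (half J) (fun ξ => ind ((∀ i, t = some i → ξ i = true) ∧ ξ j = true)) := by
  cases t with
  | none =>
    refine (S1B_ex {j} (by simp)).trans (le_of_eq (ex_congr fun ξ => ind_congr ?_))
    simp
  | some i =>
    refine (S1B_ex {i, j} (Finset.card_le_two)).trans
      (le_of_eq (ex_congr fun ξ => ind_congr ?_))
    simp

theorem s1b (hN : Num n W S z c) (hD : D.Ok n W S z c) (G : SimpleGraph V) (hG : Reg G n)
    (v : V) (a : A) (t : Option J) (j : J) (ht : D.elT (Sum.inl a) t) (hj : D.mid a j) :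
    Pr (mu1 D n) (fun f : V → Ty A B J => (f v).1 = Sum.inl a ∧
      ¬ (n * c / 50 ≤ ∑ u, ind (G.Adj v u ∧ isB (f u).1 ∧ cp D (f v) (f u) t ∧
        cp D (f v) (f u) (some j)))) ≤ 2 * tiny n := by
  classical
  obtain ⟨hn0, hW0, hlog, hcn, -, -, -, -⟩ := num_c hN
  have hμ : IsW (mu1 D n : V → Ty A B J → ℝ) := mu1_isW hN hD
  have htiny : 0 < tiny n := Real.exp_pos _
  have hc0 := hN.c0
  have hc1 := hN.c1
  refine pr_cond hμ v (fun κ f => κ.1 = Sum.inl a ∧
      ¬ (n * c / 50 ≤ ∑ u, ind (G.Adj v u ∧ isB (f u).1 ∧ cp D κ (f u) t ∧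
        cp D κ (f u) (some j)))) ?_ (2 * tiny n) ?_
  · rintro κ f g hfg ⟨h1, h2⟩
    refine ⟨h1, fun h3 => h2 (h3.trans (le_of_eq ?_))⟩
    refine Finset.sum_congr rfl fun u _ => ind_congr ?_
    by_cases hu : u = v
    · subst hu
      simp
    · rw [hfg u hu]
  · intro κ
    by_cases hκ : κ.1 = Sum.inl a
    swap
    · rw [pr_false _ (fun f h => hκ h.1)]
      positivity
    -- the summands
    set h : V → Ty A B J → ℝ := fun u κ' => ind (G.Adj v u ∧ isB κ'.1 ∧ cp D κ κ' t ∧
      cp D κ κ' (some j)) with hh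
    have h0 : ∀ u κ', 0 ≤ h u κ' := fun u κ' => ind_nonneg _
    have h1 : ∀ u κ', h u κ' ≤ 1 := fun u κ' => ind_le_one _
    have h1' : ∀ u κ', h u κ' ≤ ind (G.Adj v u) := fun u κ' => ind_mono fun h => h.1
    -- the mean
    set F : A ⊕ B → (J → Bool) → ℝ := fun c' ξ => ind (isB c' ∧ (D.elT c' t ∧
      D.elT c' (some j)) ∧ ((∀ i, t = some i → ξ i = true) ∧ ξ j = true)) with hF
    have hmean : ∑ u, ∑ κ', (mu1 D n : V → Ty A B J → ℝ) u κ' * h u κ' =
        n * ∑ c', D.M c' / n * Ex (half J) (F c') := by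
      have e1 : ∀ u, ∑ κ', (mu1 D n : V → Ty A B J → ℝ) u κ' * h u κ' =
          ind (G.Adj v u) * ∑ c', D.M c' / n * Ex (half J) (F c') := by
        intro u
        rw [← mu1_sum D n u κ.2 F, Finset.mul_sum]
        refine Finset.sum_congr rfl fun κ' _ => ?_
        have e2 : h u κ' = ind (G.Adj v u) * F κ'.1 (fun i => xor (κ.2 i) (κ'.2 i)) := by
          rw [hh, hF]
          simp only
          rw [← ind_and]
          apply ind_congr
          have hx : ∀ i, (xor (κ.2 i) (κ'.2 i) = true ↔ κ.2 i ≠ κ'.2 i) := by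
            intro i
            cases κ.2 i <;> cases κ'.2 i <;> simp
          simp only [hx]
          unfold cp
          rw [hκ]
          have hjel : D.elT (Sum.inl a) (some j) := hD.mid_el a j hj
          constructor
          · rintro ⟨a1, a2, ⟨-, a3, a4⟩, ⟨-, a5, a6⟩⟩
            exact ⟨a1, a2, ⟨a3, a5⟩, a4, a6 j rfl⟩
          · rintro ⟨a1, a2, ⟨a3, a5⟩, a4, a6⟩
            refine ⟨a1, a2, ⟨ht, a3, a4⟩, ⟨hjel, a5, ?_⟩⟩
            intro i hi
            have : j = i := by simpa using hi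
            subst this
            exact a6
        rw [e2]
        ring
      rw [Finset.sum_congr rfl fun u _ => e1 u, ← Finset.sum_mul, hG v]
    have hmean_ge : (n : ℝ) * c / 40 ≤
        ∑ u, ∑ κ', (mu1 D n : V → Ty A B J → ℝ) u κ' * h u κ' := by
      rw [hmean]
      have e1 : ∑ b, D.be / n * (ind (D.elT (Sum.inr b) t ∧ D.el (Sum.inr b) j) * (1 / 4)) ≤
          ∑ c', D.M c' / n * Ex (half J) (F c') := by
        rw [Fintype.sum_sum_type]
        have e2 : 0 ≤ ∑ a', D.M (Sum.inl a') / n * Ex (half J) (F (Sum.inl a')) :=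
          Finset.sum_nonneg fun a' _ => mul_nonneg
            (div_nonneg (hD.M_pos _).le hn0.le) (ex_nonneg half_isW fun ξ => ind_nonneg _)
        have e3 : ∑ b, D.be / n * (ind (D.elT (Sum.inr b) t ∧ D.el (Sum.inr b) j) * (1 / 4)) ≤
            ∑ b, D.M (Sum.inr b) / n * Ex (half J) (F (Sum.inr b)) := by
          refine Finset.sum_le_sum fun b _ => ?_
          rw [hD.M_B b]
          have hbe : 0 ≤ D.be := by
            rw [← hD.M_B b]
            exact (hD.M_pos _).le
          refine mul_le_mul_of_nonneg_left ?_ (div_nonneg hbe hn0.le)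
          by_cases hb : D.elT (Sum.inr b) t ∧ D.el (Sum.inr b) j
          · rw [ind_pos hb, one_mul]
            refine (S1B_prob t j).trans (le_of_eq (ex_congr fun ξ => ind_congr ?_))
            constructor
            · intro h5
              exact ⟨⟨b, rfl⟩, ⟨hb.1, hb.2⟩, h5⟩
            · intro h5
              exact h5.2.2
          · rw [ind_neg hb, zero_mul]
            exact ex_nonneg half_isW fun ξ => ind_nonneg _
        linarith
      have e4 : ∑ b, D.be / n * (ind (D.elT (Sum.inr b) t ∧ D.el (Sum.inr b) j) * (1 / 4)) =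
          (∑ b, ind (D.elT (Sum.inr b) t ∧ D.el (Sum.inr b) j) * D.be) / (4 * n) := by
        rw [Finset.sum_div]
        refine Finset.sum_congr rfl fun b _ => ?_
        field_simp
      have e5 := hD.hub a t j ht hj
      rw [e4] at e1
      have e6 : (n : ℝ) * c / 40 = n * (n * c / 10 / (4 * n)) := by
        field_simp
        norm_num
      rw [e6]
      refine mul_le_mul_of_nonneg_left (le_trans ?_ e1) hn0.le
      exact div_le_div_of_nonneg_right e5 (by positivity)
    have hmean_le : ∑ u, ∑ κ', (mu1 D n : V → Ty A B J → ℝ) u κ' * h u κ' ≤ n := by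
      rw [← hG v]
      refine Finset.sum_le_sum fun u _ => ?_
      calc ∑ κ', (mu1 D n : V → Ty A B J → ℝ) u κ' * h u κ' ≤
            ∑ κ', (mu1 D n : V → Ty A B J → ℝ) u κ' * ind (G.Adj v u) :=
            Finset.sum_le_sum fun κ' _ => mul_le_mul_of_nonneg_left (h1' u κ') (hμ.nonneg u κ')
        _ = ind (G.Adj v u) := by rw [← Finset.sum_mul, hμ.sum u, one_mul]
    have hb := bern2 hμ h 1 n (n * c / 200) one_pos hn0 (by positivity)
      (by nlinarith) h0 h1 hmean_le
    refine (pr_mono hμ (fun f hf hcon => ?_)).trans (hb.trans ?_)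
    · apply hf.2
      have h6 := (abs_le.1 hcon).1
      have h7 : ∑ u, h u (f u) = ∑ u, ind (G.Adj v u ∧ isB (f u).1 ∧ cp D κ (f u) t ∧
        cp D κ (f u) (some j)) := rfl
      rw [← h7]
      have h8 : (n : ℝ) * c / 40 - n * c / 200 = n * c / 50 := by ring
      linarith
    · refine mul_le_mul_of_nonneg_left ?_ (by norm_num)
      unfold tiny
      apply Real.exp_le_exp.2
      apply neg_le_neg
      have h9 : (n * c / 200) ^ 2 / (4 * 1 * n) = n * c ^ 2 / 160000 := by
        field_simp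
        norm_num
      rw [h9]
      have h10 : c ^ 4 * n ≤ n * c ^ 2 := by
        have h11 : c ^ 2 ≤ 1 := by nlinarith
        nlinarith [mul_nonneg hn0.le (sq_nonneg c)]
      nlinarith

end Pool.Agent.H2.HV
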