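import Mathlib
import Pool.Agent.H2.HV.BRN
import Pool.Agent.H2.HV.KER

/-!
KTL (about 80 lines). The normaliser is rarely small.

X < 1/4 means Σ_j g_j(ξ_j) > 1/4 with g_j(x) = (1/2 - ind x) π_j (X = 1/2 - Σ g_j as Σ π = 1). |g_j| ≤ b/2 ≤ b, mean 0,
Σ_j E g_j² = Σ π_j²/4 ≤ b/4 =: v. `bern` with this v, t = 1/4, bound b/2 (or b): t·b = b/4 ≤ 2 v = b/2. exp(-(1/16)/(4·b/4)) = exp(-1/(16 b)).
-/

set_option autoImplicit false
set_option linter.unusedVariables false

namespace Pool.Agent.H2.HV

open Finset

theorem ktl {J : Type} [Fintype J] (π : Option J → ℝ) (hπ : ∀ t, 0 ≤ π t) (hs : ∑ t, π t = 1)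
    (b : ℝ) (hb : 0 < b) (hj : ∀ j, π (some j) ≤ b) :
    Pr (half J) (fun ξ => ¬ 1 / 4 ≤ Xk π ξ) ≤ Real.exp (-(1 / (16 * b))) := by
  set g : J → Bool → ℝ := fun j x => (1 / 2 - ind (x = true)) * π (some j) with hg
  have hbool : ∀ F : Bool → ℝ, ∑ k, F k = F true + F false := fun F => Fintype.sum_bool F
  have ht : ind True = 1 := ind_pos trivial
  have hf : ind (false = true) = 0 := ind_neg (by simp)
  have hs' : π none + ∑ j, π (some j) = 1 := by rw [← hs, Fintype.sum_option]
  have hsum : ∑ j, π (some j) ≤ 1 := by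
    have := hπ none
    linarith
  have h1 := bern (half_isW (J := J)) g b (b / 4) (1 / 4) hb (by linarith) (by norm_num)
    (by linarith) (fun i k => by
      rw [hg]
      simp only
      rw [abs_mul, abs_of_nonneg (hπ _)]
      have h2 : |1 / 2 - ind (k = true)| ≤ 1 := by
        have h3 := ind_nonneg (k = true)
        have h4 := ind_le_one (k = true)
        rw [abs_le]
        constructor <;> linarith
      calc |1 / 2 - ind (k = true)| * π (some i) ≤ 1 * π (some i) :=
            mul_le_mul_of_nonneg_right h2 (hπ _)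
        _ ≤ b := by rw [one_mul]; exact hj i) (fun i => by
      rw [hbool]
      simp only [hg, half, ht, hf]
      ring) (by
      calc ∑ i, ∑ k, half J i k * g i k ^ 2 = ∑ i, π (some i) ^ 2 / 4 := by
            refine Finset.sum_congr rfl fun i _ => ?_
            rw [hbool]
            simp only [hg, half, ht, hf]
            ring
        _ ≤ ∑ i, b / 4 * π (some i) := by
            refine Finset.sum_le_sum fun i _ => ?_
            have h5 := hj i
            have h6 := hπ (some i)
            nlinarith
        _ = b / 4 * ∑ i, π (some i) := by rw [Finset.mul_sum]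
        _ ≤ b / 4 * 1 := mul_le_mul_of_nonneg_left hsum (by linarith)
        _ = b / 4 := mul_one _)
  refine (pr_mono half_isW (fun ξ hξ => ?_)).trans (h1.trans (le_of_eq ?_))
  · push Not at hξ
    have h2 : Xk π ξ = π none / 2 + ∑ j, ind (ξ j = true) * π (some j) := by
      unfold Xk
      rw [Fintype.sum_option]
      rfl
    have h3 : ∑ j, g j (ξ j) = (∑ j, π (some j)) / 2 - ∑ j, ind (ξ j = true) * π (some j) := by
      rw [Finset.sum_div, ← Finset.sum_sub_distrib]
      refine Finset.sum_congr rfl fun j _ => ?_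
      simp only [hg]
      ring
    rw [h3]
    rw [h2] at hξ
    linarith
  · congr 1
    field_simp
    norm_num

end Pool.Agent.H2.HV
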