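import Mathlib
import Pool.Agent.H2.HV.KTL
import Pool.Agent.H2.HV.S1M

/-!
S1C (about 90 lines). The normaliser in stage 1.

`pr_cond` with i = u: fix f u = κ0 = (k0, σ). The event depends on f v only (u ≠ v): `pr_coord`; by `mu1_sum` with
F c' ξ = ind (¬ 1/4 ≤ Xk (D.pi k0 c') ξ) it is Σ_c' M c'/n · Pr (half J) (..) ≤ exp(-(1/(16·3 om))) (`ktl` with b = 3 om, om = W/n), and
1/(48 om) = n/(48 W) ≥ 10 log n by num_c (n/W ≥ 1000 log n).
-/

set_option autoImplicit false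
set_option linter.unusedVariables false

namespace Pool.Agent.H2.HV

open Finset

variable {A B J V : Type} [Fintype A] [Fintype B] [Fintype J] [DecidableEq J] [Fintype V]
variable {D : MS A B J} {n W S z : ℕ} {c : ℝ}

theorem s1c (hN : Num n W S z c) (hD : D.Ok n W S z c) (G : SimpleGraph V) (u v : V)
    (h : G.Adj u v) :
    Pr (mu1 D n) (fun f : V → Ty A B J => ¬ 1 / 4 ≤ XX D (f u) (f v)) ≤ tiny n := by
  have hμ : IsW (mu1 D n : V → Ty A B J → ℝ) := mu1_isW hN hD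
  obtain ⟨hn0, hW0, hlog, -, -, hnW, -, hom⟩ := num_c hN
  have hne : v ≠ u := fun h1 => G.loopless.irrefl u (h1 ▸ h)
  refine pr_cond hμ u (fun κ0 f => ¬ 1 / 4 ≤ XX D κ0 (f v)) ?_ (tiny n) ?_
  · intro κ0 f g hfg hf
    rw [← hfg v hne]
    exact hf
  · intro κ0
    rw [pr_coord hμ v (fun κ => ¬ 1 / 4 ≤ XX D κ0 κ)]
    have h1 := mu1_sum D n v κ0.2 (fun c' ξ => ind (¬ 1 / 4 ≤ Xk (D.pi κ0.1 c') ξ))
    have h2 : ∑ κ : Ty A B J, (mu1 D n : V → Ty A B J → ℝ) v κ * ind (¬ 1 / 4 ≤ XX D κ0 κ) =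
        ∑ c', D.M c' / n * Ex (half J) (fun ξ => ind (¬ 1 / 4 ≤ Xk (D.pi κ0.1 c') ξ)) := h1
    rw [h2]
    have h3 : ∀ c', Ex (half J) (fun ξ => ind (¬ 1 / 4 ≤ Xk (D.pi κ0.1 c') ξ)) ≤ tiny n := by
      intro c'
      have h4 := ktl (D.pi κ0.1 c') (fun t => hD.nonneg _ _ t) (hD.sum_one _ _)
        (3 * ((W : ℝ) / n)) (by positivity) (fun j => hD.pi_le _ _ j)
      refine le_trans h4 ?_
      unfold tiny
      rw [Real.exp_le_exp, neg_le_neg_iff]
      have h5 : 1 / (16 * (3 * ((W : ℝ) / n))) = (n / W) / 48 := by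
        field_simp
        ring
      rw [h5]
      linarith
    calc ∑ c', D.M c' / n * Ex (half J) (fun ξ => ind (¬ 1 / 4 ≤ Xk (D.pi κ0.1 c') ξ))
        ≤ ∑ c', D.M c' / n * tiny n := by
          refine Finset.sum_le_sum fun c' _ => mul_le_mul_of_nonneg_left (h3 c') ?_
          exact div_nonneg (hD.M_pos c').le hn0.le
      _ = tiny n := by
          rw [← Finset.sum_mul, ← Finset.sum_div, hD.M_sum, div_self hn0.ne', one_mul]

end Pool.Agent.H2.HV
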