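import Mathlib
import Pool.Agent.H2.HV.BRN
import Pool.Agent.H2.HV.XXB
import Pool.Agent.H2.HV.S1M

/-!
S1D (about 180 lines). The loads in stage 1 (truncated kernel xxh).

`pr_cond` with i = v: fix f v = κ0 = (k0, σ). If ¬ elT k0 t the event is empty. h u κ = ind (G.Adj v u) * (tau z k0 κ.1 * xxh D κ0 κ t) ∈ [0, 12 om] (tau ≤ 1, xxh_le),
om = W/n. Mean m = n Σ_κ mu1 κ tau xxh = Σ_c' M c' tau(k0,c') Ex (half J) (xh (D.pi k0 c') · t) (`mu1_sum` with F c' ξ = tau z k0 c' * xh (D.pi k0 c') ξ t);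
`kex` with b = 3 om gives |m - Lam z k0 t| ≤ 6 om Lam ≤ 12 om W ≤ c² W/(2·10^5) (om ≤ c²/10^8), and m ≤ 3 W.
`bern2` with b = 12 om, M = 3 W, deviation t0 = c² W/(2·10^5) ≤ 6W: exponent t0²/(4·12 om·3 W) = c^4 W²/(4·10^10·144 om W) = c^4 n/(576·10^10) ≥ 10 log n.
-/

set_option autoImplicit false
set_option linter.unusedVariables false
set_option linter.unusedSectionVars false

namespace Pool.Agent.H2.HV

open Finset

variable {A B J V : Type} [Fintype A] [Fintype B] [Fintype J] [DecidableEq J] [Fintype V]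
variable {D : MS A B J} {n W S z : ℕ} {c : ℝ}

/-- the expectation of one summand -/
theorem S1D_sum (k : Ty A B J) (t : Option J) (v : V) :
    ∑ κ : Ty A B J, (mu1 D n : V → Ty A B J → ℝ) v κ * (D.tau z k.1 κ.1 * xxh D k κ t) =
      ∑ c', D.M c' / n * (D.tau z k.1 c' * Ex (half J) (fun ξ => xh (D.pi k.1 c') ξ t)) := by
  have h := mu1_sum (V := V) D n v k.2 (fun c' ξ => D.tau z k.1 c' * xh (D.pi k.1 c') ξ t)
  refine Eq.trans ?_ (h.trans ?_)
  · rfl
  · refine Finset.sum_congr rfl fun c' _ => ?_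
    rw [ex_smul]

theorem S1D_mean (hN : Num n W S z c) (hD : D.Ok n W S z c) (G : SimpleGraph V) (hG : Reg G n)
    (v : V) (k : Ty A B J) (t : Option J) :
    ∑ u, ∑ κ : Ty A B J, (mu1 D n : V → Ty A B J → ℝ) u κ *
      (ind (G.Adj v u) * (D.tau z k.1 κ.1 * xxh D k κ t)) =
    ∑ c', D.M c' * (D.tau z k.1 c' * Ex (half J) (fun ξ => xh (D.pi k.1 c') ξ t)) := by
  have hn : (0:ℝ) < n := (num_c hN).1
  have h1 : ∀ u, ∑ κ : Ty A B J, (mu1 D n : V → Ty A B J → ℝ) u κ *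
      (ind (G.Adj v u) * (D.tau z k.1 κ.1 * xxh D k κ t)) =
      ind (G.Adj v u) * ∑ c', D.M c' / n *
        (D.tau z k.1 c' * Ex (half J) (fun ξ => xh (D.pi k.1 c') ξ t)) := by
    intro u
    rw [← S1D_sum (n := n) k t u, Finset.mul_sum]
    exact Finset.sum_congr rfl fun κ _ => by ring
  rw [Finset.sum_congr rfl fun u _ => h1 u, ← Finset.sum_mul, hG v, Finset.mul_sum]
  refine Finset.sum_congr rfl fun c' _ => ?_
  field_simp

theorem S1D_dev (hN : Num n W S z c) (hD : D.Ok n W S z c) (k : Ty A B J) (t : Option J) :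
    |(∑ c', D.M c' * (D.tau z k.1 c' * Ex (half J) (fun ξ => xh (D.pi k.1 c') ξ t)))
      - D.Lam z k.1 t| ≤ 6 * ((W : ℝ) / n) * D.Lam z k.1 t := by
  obtain ⟨hn, hW, hlog, hc4, hom, hnW, hW20, hom0⟩ := num_c hN
  have hc0 := hN.c0
  have hc1 := hN.c1
  have hsmall : 3 * ((W : ℝ) / n) ≤ 1 / 4 := by
    have h1 : c ^ 2 ≤ 1 := by nlinarith
    have h2 : c ^ 2 / 10 ^ 8 ≤ 1 / 10 ^ 8 := by gcongr
    have h3 : (1:ℝ) / 10 ^ 8 ≤ 1 / 12 := by norm_num
    linarith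
  unfold MS.Lam
  rw [← Finset.sum_sub_distrib, Finset.mul_sum]
  refine (Finset.abs_sum_le_sum_abs _ _).trans (Finset.sum_le_sum fun c' _ => ?_)
  have hk := kex (D.pi k.1 c') (hD.nonneg k.1 c') (hD.sum_one k.1 c') (3 * ((W : ℝ) / n))
    (by positivity) hsmall (hD.pi_le k.1 c') t
  have hM := (hD.M_pos c').le
  have htau : 0 ≤ D.tau z k.1 c' := le_trans (by norm_num) (tau_ge hN hD k.1 c')
  have e1 : D.M c' * (D.tau z k.1 c' * Ex (half J) (fun ξ => xh (D.pi k.1 c') ξ t)) -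
      D.M c' * (D.tau z k.1 c' * D.pi k.1 c' t) =
      (D.M c' * D.tau z k.1 c') * (Ex (half J) (fun ξ => xh (D.pi k.1 c') ξ t) - D.pi k.1 c' t) := by
    ring
  rw [e1, abs_mul, abs_of_nonneg (mul_nonneg hM htau)]
  calc (D.M c' * D.tau z k.1 c') * |Ex (half J) (fun ξ => xh (D.pi k.1 c') ξ t) - D.pi k.1 c' t|
      ≤ (D.M c' * D.tau z k.1 c') * (2 * (3 * ((W : ℝ) / n)) * D.pi k.1 c' t) :=
        mul_le_mul_of_nonneg_left hk (mul_nonneg hM htau)
    _ = 6 * ((W : ℝ) / n) * (D.M c' * (D.tau z k.1 c' * D.pi k.1 c' t)) := by ring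

theorem S1D_fix (hN : Num n W S z c) (hD : D.Ok n W S z c) (G : SimpleGraph V) (hG : Reg G n)
    (v : V) (t : Option J) (k : Ty A B J) :
    Pr (mu1 D n) (fun f : V → Ty A B J =>
      ¬ |(∑ u, ind (G.Adj v u) * (D.tau z k.1 (f u).1 * xxh D k (f u) t))
        - D.Lam z k.1 t| ≤ c ^ 2 * W / 10 ^ 5) ≤ 2 * tiny n := by
  obtain ⟨hn, hW, hlog, hc4, hom, hnW, hW20, hom0⟩ := num_c hN
  have hc0 := hN.c0
  have hc1 := hN.c1
  have hc2 : c ^ 2 ≤ 1 := by nlinarith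
  have hL0 := Lam_nonneg hN hD k.1 t
  have hL := Lam_le hN hD k.1 t
  have hdev := S1D_dev hN hD k t
  have hmean := S1D_mean hN hD G hG v k t
  obtain ⟨m, hm⟩ : ∃ m : ℝ, m = ∑ c', D.M c' *
    (D.tau z k.1 c' * Ex (half J) (fun ξ => xh (D.pi k.1 c') ξ t)) := ⟨_, rfl⟩
  rw [← hm] at hdev hmean
  have homW : 6 * ((W : ℝ) / n) * D.Lam z k.1 t ≤ c ^ 2 * W / (2 * 10 ^ 5) := by
    calc 6 * ((W : ℝ) / n) * D.Lam z k.1 t ≤ 6 * (c ^ 2 / 10 ^ 8) * (2 * W) := by gcongr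
      _ ≤ c ^ 2 * W / (2 * 10 ^ 5) := by
        have : 0 ≤ c ^ 2 * W := by positivity
        nlinarith
  have hm3 : m ≤ 3 * W := by
    have h1 := (abs_le.1 hdev).2
    have h2 : c ^ 2 * W / (2 * 10 ^ 5) ≤ W := by
      have : c ^ 2 * W ≤ 1 * W := by gcongr
      have h0 : (0:ℝ) ≤ W := hW.le
      rw [div_le_iff₀ (by norm_num)]
      nlinarith
    linarith
  have hB := bern2 (mu1_isW hN hD : IsW (mu1 D n : V → Ty A B J → ℝ))
    (fun u κ => ind (G.Adj v u) * (D.tau z k.1 κ.1 * xxh D k κ t))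
    (12 * ((W : ℝ) / n)) (3 * W) (c ^ 2 * W / (2 * 10 ^ 5)) (by positivity) (by positivity)
    (by positivity) (by
      have : c ^ 2 * W ≤ 1 * W := by gcongr
      rw [div_le_iff₀ (by norm_num)]
      nlinarith) (by
      intro u κ
      have h1 := tau_ge hN hD k.1 κ.1
      have h2 := xxh_nonneg hD k κ t
      exact mul_nonneg (ind_nonneg _) (mul_nonneg (by linarith) h2)) (by
      intro u κ
      have h1 := tau_ge hN hD k.1 κ.1
      have h1' := tau_le hN hD k.1 κ.1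
      have h2 := xxh_nonneg hD k κ t
      have h3 := xxh_le hD k κ t
      have h4 := ind_le_one (G.Adj v u)
      have h5 := ind_nonneg (G.Adj v u)
      have h6 : D.tau z k.1 κ.1 * xxh D k κ t ≤ 1 * (12 * ((W : ℝ) / n)) := by
        apply mul_le_mul h1' h3 h2 (by norm_num)
      have h7 : 0 ≤ D.tau z k.1 κ.1 * xxh D k κ t := mul_nonneg (by linarith) h2
      calc ind (G.Adj v u) * (D.tau z k.1 κ.1 * xxh D k κ t)
          ≤ 1 * (D.tau z k.1 κ.1 * xxh D k κ t) := mul_le_mul_of_nonneg_right h4 h7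
        _ ≤ 12 * ((W : ℝ) / n) := by linarith) (by
      rw [hmean]
      exact hm3)
  refine (pr_mono (mu1_isW hN hD) ?_).trans (hB.trans ?_)
  · intro f hf hcon
    apply hf
    rw [hmean] at hcon
    have h1 : (∑ u, ind (G.Adj v u) * (D.tau z k.1 (f u).1 * xxh D k (f u) t)) - D.Lam z k.1 t =
        ((∑ u, ind (G.Adj v u) * (D.tau z k.1 (f u).1 * xxh D k (f u) t)) - m) +
          (m - D.Lam z k.1 t) := by ring
    rw [h1]
    refine (abs_add_le _ _).trans ?_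
    have h2 : c ^ 2 * W / 10 ^ 5 = c ^ 2 * W / (2 * 10 ^ 5) + c ^ 2 * W / (2 * 10 ^ 5) := by ring
    rw [h2]
    exact add_le_add hcon (hdev.trans homW)
  · refine mul_le_mul_of_nonneg_left ?_ (by norm_num)
    unfold tiny
    apply Real.exp_le_exp.2
    apply neg_le_neg
    have e1 : (c ^ 2 * W / (2 * 10 ^ 5)) ^ 2 / (4 * (12 * ((W : ℝ) / n)) * (3 * W)) =
        c ^ 4 * n / (576 * 10 ^ 10) := by
      field_simp
      ring
    rw [e1, le_div_iff₀ (by norm_num)]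
    nlinarith

theorem s1d (hN : Num n W S z c) (hD : D.Ok n W S z c) (G : SimpleGraph V) (hG : Reg G n)
    (v : V) (t : Option J) :
    Pr (mu1 D n) (fun f : V → Ty A B J => D.elT (f v).1 t ∧
      ¬ |(∑ u, ind (G.Adj v u) * (D.tau z (f v).1 (f u).1 * xxh D (f v) (f u) t))
        - D.Lam z (f v).1 t| ≤ c ^ 2 * W / 10 ^ 5) ≤ 2 * tiny n := by
  have hW := (mu1_isW hN hD : IsW (mu1 D n : V → Ty A B J → ℝ))
  refine pr_cond hW v (fun k f => D.elT k.1 t ∧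
      ¬ |(∑ u, ind (G.Adj v u) * (D.tau z k.1 (f u).1 * xxh D k (f u) t))
        - D.Lam z k.1 t| ≤ c ^ 2 * W / 10 ^ 5) ?_ (2 * tiny n) ?_
  · rintro k f g hfg ⟨h1, h2⟩
    refine ⟨h1, ?_⟩
    have e : (∑ u, ind (G.Adj v u) * (D.tau z k.1 (f u).1 * xxh D k (f u) t)) =
        ∑ u, ind (G.Adj v u) * (D.tau z k.1 (g u).1 * xxh D k (g u) t) := by
      refine Finset.sum_congr rfl fun u _ => ?_
      by_cases hu : u = v
      · rw [hu, ind_neg (G.irrefl (v := v)), zero_mul, zero_mul]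
      · rw [hfg u hu]
    rw [← e]
    exact h2
  · intro k
    exact (pr_mono hW (fun f h => h.2)).trans (S1D_fix hN hD G hG v t k)

end Pool.Agent.H2.HV
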