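import Mathlib
import Pool.Agent.H2.HV.LLW
import Pool.Agent.H2.HV.S1A
import Pool.Agent.H2.HV.S1B
import Pool.Agent.H2.HV.S1C
import Pool.Agent.H2.HV.S1D

/-!
ST1 (about 200 lines). Stage 1: the types.

`lll` with μ = mu1, ι = I = V, N v = {x | x = v ∨ G.Adj v x}, A v f = (∃ k, bad count) ∨ (∃ a t j, elT, mid, (f v).1 = inl a ∧ ¬ pair) ∨
(∃ u, G.Adj v u ∧ ¬ 1/4 ≤ XX (f v) (f u)) ∨ (∃ t, elT (f v).1 t ∧ ¬ load with xxh). d = (n+1)^2 (`ball1`; also d := (n+1)^3 is fine: q below with tiny_poly),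
q = 10 n^3 tiny n. Probabilities: |A⊕B| 2 tiny ≤ 2 n tiny (card_le); pairs: `pr_exists_le` over A × Option J × J (card ≤ n·n·n, since
card J + 1 ≤ 2/om = 2n/W ≤ n) with 2 tiny (events with ¬ elT or ¬ mid are empty); XX: `pr_exists` over u, each Pr ≤ ind (Adj v u) tiny, sum n tiny; loads: (card J+1) 2 tiny ≤ 2 n tiny.
4 q (d+1) ≤ 1 by tiny_poly ((n+1)^2 ≤ (n+1)^3). From ¬ A v f for all v: Good1 (XXsymm: XX_symm; load: xx = xxh since XX ≥ 1/4 for adjacent pairs, `xx_eq_xxh`,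
terms with ¬ Adj vanish).
-/

set_option autoImplicit false
set_option linter.unusedVariables false

namespace Pool.Agent.H2.HV

open Finset

variable {A B J V : Type} [Fintype A] [Fintype B] [Fintype J] [DecidableEq J] [Fintype V]
variable {D : MS A B J} {n W S z : ℕ} {c : ℝ}

/-- the bad event at a vertex -/
def ST1_bad (G : SimpleGraph V) (D : MS A B J) (n W z : ℕ) (c : ℝ) (v : V)
    (f : V → Ty A B J) : Prop :=
  ((∃ k, ¬ |(∑ u, ind (G.Adj v u ∧ (f u).1 = k)) - D.M k| ≤ c * W / 10 ^ 5) ∨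
    (∃ x : A × (Option J × J), D.elT (Sum.inl x.1) x.2.1 ∧ D.mid x.1 x.2.2 ∧
      (f v).1 = Sum.inl x.1 ∧
      ¬ (n * c / 50 ≤ ∑ u, ind (G.Adj v u ∧ isB (f u).1 ∧ cp D (f v) (f u) x.2.1 ∧
        cp D (f v) (f u) (some x.2.2))))) ∨
  ((∃ u, G.Adj v u ∧ ¬ 1 / 4 ≤ XX D (f v) (f u)) ∨
    (∃ t, D.elT (f v).1 t ∧
      ¬ |(∑ u, ind (G.Adj v u) * (D.tau z (f v).1 (f u).1 * xxh D (f v) (f u) t))
        - D.Lam z (f v).1 t| ≤ c ^ 2 * W / 10 ^ 5))

omit [Fintype V] [DecidableEq J] [Fintype J] [Fintype A] [Fintype B] in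
theorem ST1_ind (G : SimpleGraph V) (v : V) {f g : V → Ty A B J}
    (h : ∀ x, (x = v ∨ G.Adj v x) → f x = g x) (P : Ty A B J → Prop) (u : V) :
    ind (G.Adj v u ∧ P (f u)) = ind (G.Adj v u ∧ P (g u)) := by
  refine ind_congr ⟨fun h1 => ⟨h1.1, ?_⟩, fun h1 => ⟨h1.1, ?_⟩⟩
  · rw [← h u (Or.inr h1.1)]; exact h1.2
  · rw [h u (Or.inr h1.1)]; exact h1.2

omit [Fintype V] [DecidableEq J] [Fintype J] [Fintype A] [Fintype B] in
theorem ST1_mul (G : SimpleGraph V) (v : V) {f g : V → Ty A B J}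
    (h : ∀ x, (x = v ∨ G.Adj v x) → f x = g x) (F : Ty A B J → ℝ) (u : V) :
    ind (G.Adj v u) * F (f u) = ind (G.Adj v u) * F (g u) := by
  by_cases h1 : G.Adj v u
  · rw [h u (Or.inr h1)]
  · rw [ind_neg h1, zero_mul, zero_mul]

omit [DecidableEq J] in
theorem ST1_dep (G : SimpleGraph V) (D : MS A B J) (n W z : ℕ) (c : ℝ) (v : V)
    (f g : V → Ty A B J) (h : ∀ x ∈ {x | x = v ∨ G.Adj v x}, f x = g x)
    (hf : ST1_bad G D n W z c v f) : ST1_bad G D n W z c v g := by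
  have h' : ∀ x, (x = v ∨ G.Adj v x) → f x = g x := fun x hx => h x hx
  have hv : f v = g v := h' v (Or.inl rfl)
  unfold ST1_bad at hf ⊢
  rcases hf with (⟨k, hk⟩ | ⟨x, h1, h2, h3, h4⟩) | (⟨u, h1, h2⟩ | ⟨t, h1, h2⟩)
  · refine Or.inl (Or.inl ⟨k, ?_⟩)
    rw [Finset.sum_congr rfl fun u _ => ST1_ind G v h' (fun κ => κ.1 = k) u] at hk
    exact hk
  · refine Or.inl (Or.inr ⟨x, h1, h2, ?_, ?_⟩)
    · rw [← hv]; exact h3
    · rw [Finset.sum_congr rfl fun u _ => ST1_ind G v h' (fun κ => isB κ.1 ∧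
        cp D (f v) κ x.2.1 ∧ cp D (f v) κ (some x.2.2)) u, hv] at h4
      exact h4
  · refine Or.inr (Or.inl ⟨u, h1, ?_⟩)
    rw [← hv, ← h' u (Or.inr h1)]
    exact h2
  · refine Or.inr (Or.inr ⟨t, ?_, ?_⟩)
    · rw [← hv]; exact h1
    · rw [Finset.sum_congr rfl fun u _ => ST1_mul G v h' (fun κ =>
        D.tau z (f v).1 κ.1 * xxh D (f v) κ t) u, hv] at h2
      exact h2

omit [DecidableEq J] in
theorem ST1_card (hN : Num n W S z c) (hD : D.Ok n W S z c) :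
    (Fintype.card (A ⊕ B) : ℝ) ≤ n ∧ (Fintype.card A : ℝ) ≤ n ∧
      (Fintype.card (Option J) : ℝ) ≤ n ∧ (Fintype.card J : ℝ) ≤ n := by
  obtain ⟨hn0, hW0, -, -, -, -, hW, hom⟩ := num_c hN
  have h1 : Fintype.card A + Fintype.card B ≤ n := hD.card_le
  have h2 : (Fintype.card J : ℝ) + 1 ≤ n := by
    refine hD.cardJ.trans ?_
    rw [div_le_iff₀ hom, mul_div_assoc', le_div_iff₀ hn0]
    have : (2 : ℝ) ≤ W := by linarith [show (2 : ℝ) ≤ 10 ^ 20 by norm_num]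
    nlinarith
  refine ⟨?_, ?_, ?_, ?_⟩
  · rw [Fintype.card_sum]; exact_mod_cast h1
  · exact_mod_cast (Nat.le_add_right _ _).trans h1
  · rw [Fintype.card_option]; push_cast; exact h2
  · linarith

theorem ST1_pr (hN : Num n W S z c) (hD : D.Ok n W S z c) (G : SimpleGraph V) (hG : Reg G n)
    (v : V) : Pr (mu1 D n) (ST1_bad G D n W z c v) ≤ 10 * (n : ℝ) ^ 3 * tiny n := by
  have hμ : IsW (mu1 D n : V → Ty A B J → ℝ) := mu1_isW hN hD
  have ht0 := (tiny_pos n).le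
  obtain ⟨hcAB, hcA, hcO, hcJ⟩ := ST1_card hN hD
  have hn1 : (1 : ℝ) ≤ n := by
    have := hN.hn
    have h2 : (100 : ℝ) ≤ n := by exact_mod_cast this
    linarith
  have b1 : Pr (mu1 D n) (fun f : V → Ty A B J => ∃ k,
      ¬ |(∑ u, ind (G.Adj v u ∧ (f u).1 = k)) - D.M k| ≤ c * W / 10 ^ 5) ≤ n * (2 * tiny n) :=
    (pr_exists_le hμ _ _ fun k => s1a hN hD G hG v k).trans
      (mul_le_mul_of_nonneg_right hcAB (by positivity))
  have b2 : Pr (mu1 D n) (fun f : V → Ty A B J => ∃ x : A × (Option J × J),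
      D.elT (Sum.inl x.1) x.2.1 ∧ D.mid x.1 x.2.2 ∧ (f v).1 = Sum.inl x.1 ∧
      ¬ (n * c / 50 ≤ ∑ u, ind (G.Adj v u ∧ isB (f u).1 ∧ cp D (f v) (f u) x.2.1 ∧
        cp D (f v) (f u) (some x.2.2)))) ≤ (n * (n * n)) * (2 * tiny n) := by
    refine (pr_exists_le hμ _ (2 * tiny n) fun x => ?_).trans
      (mul_le_mul_of_nonneg_right ?_ (by positivity))
    · by_cases h1 : D.elT (Sum.inl x.1) x.2.1
      · by_cases h2 : D.mid x.1 x.2.2
        · exact (pr_mono hμ fun f hf => hf.2.2).trans (s1b hN hD G hG v x.1 x.2.1 x.2.2 h1 h2)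
        · rw [pr_false _ fun f hf => h2 hf.2.1]
          positivity
      · rw [pr_false _ fun f hf => h1 hf.1]
        positivity
    · rw [Fintype.card_prod, Fintype.card_prod]
      push_cast
      refine mul_le_mul hcA (mul_le_mul hcO hcJ (by positivity) (by positivity)) (by positivity)
        (by positivity)
  have b3 : Pr (mu1 D n) (fun f : V → Ty A B J => ∃ u, G.Adj v u ∧
      ¬ 1 / 4 ≤ XX D (f v) (f u)) ≤ n * tiny n := by
    refine (pr_exists hμ _).trans ?_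
    have hG' : ∑ u, ind (G.Adj v u) = (n : ℝ) := hG v
    rw [← hG', Finset.sum_mul]
    refine Finset.sum_le_sum fun u _ => ?_
    by_cases h1 : G.Adj v u
    · rw [ind_pos h1, one_mul]
      exact (pr_mono hμ fun f hf => hf.2).trans (s1c hN hD G v u h1)
    · rw [ind_neg h1, zero_mul, pr_false _ fun f hf => h1 hf.1]
  have b4 : Pr (mu1 D n) (fun f : V → Ty A B J => ∃ t, D.elT (f v).1 t ∧
      ¬ |(∑ u, ind (G.Adj v u) * (D.tau z (f v).1 (f u).1 * xxh D (f v) (f u) t))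
        - D.Lam z (f v).1 t| ≤ c ^ 2 * W / 10 ^ 5) ≤ n * (2 * tiny n) :=
    (pr_exists_le hμ _ _ fun t => s1d hN hD G hG v t).trans
      (mul_le_mul_of_nonneg_right hcO (by positivity))
  have h12 := pr_or hμ (fun f : V → Ty A B J => ∃ k,
      ¬ |(∑ u, ind (G.Adj v u ∧ (f u).1 = k)) - D.M k| ≤ c * W / 10 ^ 5)
    (fun f : V → Ty A B J => ∃ x : A × (Option J × J),
      D.elT (Sum.inl x.1) x.2.1 ∧ D.mid x.1 x.2.2 ∧ (f v).1 = Sum.inl x.1 ∧
      ¬ (n * c / 50 ≤ ∑ u, ind (G.Adj v u ∧ isB (f u).1 ∧ cp D (f v) (f u) x.2.1 ∧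
        cp D (f v) (f u) (some x.2.2))))
  have h34 := pr_or hμ (fun f : V → Ty A B J => ∃ u, G.Adj v u ∧
      ¬ 1 / 4 ≤ XX D (f v) (f u))
    (fun f : V → Ty A B J => ∃ t, D.elT (f v).1 t ∧
      ¬ |(∑ u, ind (G.Adj v u) * (D.tau z (f v).1 (f u).1 * xxh D (f v) (f u) t))
        - D.Lam z (f v).1 t| ≤ c ^ 2 * W / 10 ^ 5)
  have h := pr_or hμ
    (fun f : V → Ty A B J => (∃ k,
      ¬ |(∑ u, ind (G.Adj v u ∧ (f u).1 = k)) - D.M k| ≤ c * W / 10 ^ 5) ∨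
      (∃ x : A × (Option J × J),
      D.elT (Sum.inl x.1) x.2.1 ∧ D.mid x.1 x.2.2 ∧ (f v).1 = Sum.inl x.1 ∧
      ¬ (n * c / 50 ≤ ∑ u, ind (G.Adj v u ∧ isB (f u).1 ∧ cp D (f v) (f u) x.2.1 ∧
        cp D (f v) (f u) (some x.2.2)))))
    (fun f : V → Ty A B J => (∃ u, G.Adj v u ∧ ¬ 1 / 4 ≤ XX D (f v) (f u)) ∨
      (∃ t, D.elT (f v).1 t ∧
      ¬ |(∑ u, ind (G.Adj v u) * (D.tau z (f v).1 (f u).1 * xxh D (f v) (f u) t))
        - D.Lam z (f v).1 t| ≤ c ^ 2 * W / 10 ^ 5))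
  have hfin : n * (2 * tiny n) + (n * (n * n)) * (2 * tiny n) + (n * tiny n + n * (2 * tiny n)) ≤
      10 * (n : ℝ) ^ 3 * tiny n := by
    have h5 : (n : ℝ) ≤ (n : ℝ) ^ 3 := le_self_pow₀ hn1 (by norm_num)
    have h6 := mul_le_mul_of_nonneg_right h5 ht0
    nlinarith
  change Pr (mu1 D n) (fun f => ST1_bad G D n W z c v f) ≤ _
  unfold ST1_bad
  linarith

theorem st1 (hN : Num n W S z c) (hD : D.Ok n W S z c) (G : SimpleGraph V) (hG : Reg G n) :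
    ∃ ty : V → Ty A B J, Good1 G D n W z c ty := by
  have hμ : IsW (mu1 D n : V → Ty A B J → ℝ) := mu1_isW hN hD
  obtain ⟨f, -, hf⟩ := lll (mu1 D n) hμ (ST1_bad G D n W z c) (fun v => {x | x = v ∨ G.Adj v x})
    (fun v f g h => ST1_dep G D n W z c v f g h) ((n + 1) ^ 3) (10 * (n : ℝ) ^ 3 * tiny n)
    (fun v => by
      refine le_trans (Set.ncard_le_ncard ?_ (Set.toFinite _)) ((ball1 G n hG v).trans ?_)
      · rintro w ⟨-, hw⟩
        rw [Set.not_disjoint_iff] at hw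
        obtain ⟨x, hx1, hx2⟩ := hw
        refine ⟨x, hx1, ?_⟩
        rcases hx2 with h | h
        · exact Or.inl h
        · exact Or.inr h
      · exact Nat.pow_le_pow_right (Nat.succ_pos n) (by norm_num))
    (ST1_pr hN hD G hG) (tiny_poly n hN.hn)
  have hX : ∀ u v, G.Adj u v → 1 / 4 ≤ XX D (f u) (f v) := by
    intro u v huv
    by_contra hcon
    exact hf u (Or.inr (Or.inl ⟨v, huv, hcon⟩))
  refine ⟨f, ?_, ?_, hX, ?_⟩
  · intro v k
    by_contra hcon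
    exact hf v (Or.inl (Or.inl ⟨k, hcon⟩))
  · intro v a ha t ht j hj
    by_contra hcon
    exact hf v (Or.inl (Or.inr ⟨(a, (t, j)), ht, hj, ha, hcon⟩))
  · intro v t ht
    have h1 : ∀ u, ind (G.Adj v u) * (D.tau z (f v).1 (f u).1 * xx D (f v) (f u) t) =
        ind (G.Adj v u) * (D.tau z (f v).1 (f u).1 * xxh D (f v) (f u) t) := by
      intro u
      by_cases h2 : G.Adj v u
      · rw [xx_eq_xxh _ _ (hX v u h2) t]
      · rw [ind_neg h2, zero_mul, zero_mul]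
    rw [Finset.sum_congr rfl fun u _ => h1 u]
    by_contra hcon
    exact hf v (Or.inr (Or.inr ⟨t, ht, hcon⟩))

end Pool.Agent.H2.HV
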