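import Mathlib
import Pool.Agent.H2.HV.R2D

/-!
S2M (about 120 lines). The weights of stage 2.

For u, v adjacent of the same kind: Quot.out s(u,v) is (u,v) or (v,u) (Quot.out_eq, Sym2.eq_iff / Sym2.mk_eq_mk_iff), use xx_symm, Adj symmetric,
sm symmetric. mu2_isW: cases on the ind; xx_nonneg, xx_sum (Good1.Xge). mu2_pos: mu2 s(u,v) t > 0 and same kind adjacent gives xx ≠ 0, so cp by `xx_zero`.
-/

set_option autoImplicit false
set_option linter.unusedVariables false

namespace Pool.Agent.H2.HV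

open Finset

variable {A B J V : Type} [Fintype A] [Fintype B] [Fintype J] [Fintype V]
variable {D : MS A B J} {n W S z : ℕ} {c : ℝ} {G : SimpleGraph V} {ty : V → Ty A B J}

theorem sm_symm {k k' : Ty A B J} (h : sm k k') : sm k' k := by
  rcases h with h | h
  · exact Or.inl ⟨h.2, h.1⟩
  · exact Or.inr ⟨h.2, h.1⟩

theorem mu2_isW (hN : Num n W S z c) (hD : D.Ok n W S z c) (g1 : Good1 G D n W z c ty) :
    IsW (mu2 G D ty) := by
  constructor
  · intro e t
    unfold mu2
    exact add_nonneg (mul_nonneg (ind_nonneg _) (xx_nonneg hD _ _ _))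
      (mul_nonneg (ind_nonneg _) (ind_nonneg _))
  · intro e
    unfold mu2
    by_cases hP : G.Adj (Quot.out e).1 (Quot.out e).2 ∧
        sm (ty (Quot.out e).1) (ty (Quot.out e).2)
    · have h1 : ∀ t, ind (G.Adj (Quot.out e).1 (Quot.out e).2 ∧
          sm (ty (Quot.out e).1) (ty (Quot.out e).2)) *
          xx D (ty (Quot.out e).1) (ty (Quot.out e).2) t +
          ind (¬ (G.Adj (Quot.out e).1 (Quot.out e).2 ∧
            sm (ty (Quot.out e).1) (ty (Quot.out e).2))) * ind (t = none) =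
          xx D (ty (Quot.out e).1) (ty (Quot.out e).2) t := by
        intro t
        rw [ind_pos hP, ind_neg (not_not.2 hP), one_mul, zero_mul, add_zero]
      rw [Finset.sum_congr rfl fun t _ => h1 t]
      exact xx_sum hD _ _ (g1.Xge _ _ hP.1)
    · have h1 : ∀ t : Option J, ind (G.Adj (Quot.out e).1 (Quot.out e).2 ∧
          sm (ty (Quot.out e).1) (ty (Quot.out e).2)) *
          xx D (ty (Quot.out e).1) (ty (Quot.out e).2) t +
          ind (¬ (G.Adj (Quot.out e).1 (Quot.out e).2 ∧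
            sm (ty (Quot.out e).1) (ty (Quot.out e).2))) * ind (t = none) = ind (t = none) := by
        intro t
        rw [ind_neg hP, ind_pos hP, zero_mul, one_mul, zero_add]
      rw [Finset.sum_congr rfl fun t _ => h1 t, Fintype.sum_option, ind_pos rfl]
      have h2 : ∀ j : J, ind ((some j : Option J) = none) = 0 := fun j => ind_neg (by simp)
      rw [Finset.sum_congr rfl fun j _ => h2 j, Finset.sum_const_zero, add_zero]

private theorem S2M_out (u v : V) : ((Quot.out s(u, v)).1 = u ∧ (Quot.out s(u, v)).2 = v) ∨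
    ((Quot.out s(u, v)).1 = v ∧ (Quot.out s(u, v)).2 = u) := by
  have h1 : s((Quot.out s(u, v)).1, (Quot.out s(u, v)).2) = s(u, v) := Quot.out_eq _
  exact Sym2.eq_iff.1 h1

theorem mu2_mk (hD : D.Ok n W S z c) {u v : V} (h : G.Adj u v) (hs : sm (ty u) (ty v))
    (t : Option J) : mu2 G D ty s(u, v) t = xx D (ty u) (ty v) t := by
  unfold mu2
  rcases S2M_out u v with ⟨h1, h2⟩ | ⟨h1, h2⟩
  · rw [h1, h2, ind_pos ⟨h, hs⟩, ind_neg (not_not.2 ⟨h, hs⟩), one_mul, zero_mul, add_zero]
  · rw [h1, h2, ind_pos ⟨h.symm, sm_symm hs⟩, ind_neg (not_not.2 ⟨h.symm, sm_symm hs⟩), one_mul,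
      zero_mul, add_zero]
    exact xx_symm hD _ _ _

theorem mu2_pos (hD : D.Ok n W S z c) {u v : V} (h : G.Adj u v) (hs : sm (ty u) (ty v))
    (t : Option J) (hp : 0 < mu2 G D ty s(u, v) t) : cp D (ty u) (ty v) t := by
  by_contra hc
  rw [mu2_mk hD h hs t, xx_zero hD _ _ _ hc] at hp
  exact lt_irrefl _ hp

end Pool.Agent.H2.HV
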