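import Mathlib
import Pool.Agent.H2.HV.BRN
import Pool.Agent.H2.HV.S2M
import Pool.Agent.H2.HV.LDB

/-!
S2A (about 130 lines). Counts in stage 2.

I = Sym2 V, h e κ = Σ_u ind (G.Adj v u ∧ sm (ty v) (ty u) ∧ e = s(v,u)) * ind (κ = t). For fixed e at most one u has e = s(v,u), so 0 ≤ h ≤ 1.
Σ_e h e (f e) = Σ_u ind (Adj ∧ sm) ind (f s(v,u) = t) (swap sums; Σ_e ind (e = s(v,u)) g e = g s(v,u)). Mean: Σ_u ind(Adj ∧ sm) mu2 s(v,u) t = Σ_u ind(..) xx (mu2_mk) ≤ 3 W (ld_sm).
`bern2` with b = 1, M = 3W, deviation c W/10^5 ≤ 6 W: exponent c² W/(12·10^10) ≥ 10 log n.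
-/

set_option autoImplicit false
set_option linter.unusedVariables false

namespace Pool.Agent.H2.HV

open Finset

variable {A B J V : Type} [Fintype A] [Fintype B] [Fintype J] [Fintype V]
variable {D : MS A B J} {n W S z : ℕ} {c : ℝ} {G : SimpleGraph V} {ty : V → Ty A B J}

/-- the number of `u` with `P u` and `e = s(v, u)` -/
noncomputable def S2A_m (P : V → Prop) (v : V) (e : Sym2 V) : ℝ := ∑ u, ind (P u ∧ e = s(v, u))


theorem S2A_nonneg (P : V → Prop) (v : V) (e : Sym2 V) : 0 ≤ S2A_m P v e :=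
  Finset.sum_nonneg fun u _ => ind_nonneg _


theorem S2A_le (P : V → Prop) (v : V) (e : Sym2 V) : S2A_m P v e ≤ 1 := by
  classical
  unfold S2A_m
  by_cases h : ∃ u, P u ∧ e = s(v, u)
  · obtain ⟨u, hu, rfl⟩ := h
    rw [Finset.sum_eq_single u]
    · exact ind_le_one _
    · intro u' _ hne
      apply ind_neg
      rintro ⟨_, h2⟩
      exact hne (Sym2.congr_right.1 h2).symm
    · intro h
      exact absurd (Finset.mem_univ u) h
  · rw [Finset.sum_eq_zero]
    · exact zero_le_one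
    · intro u _
      apply ind_neg
      intro h2
      exact h ⟨u, h2⟩


theorem S2A_sum [DecidableEq V] (P : V → Prop) (v : V) (g : Sym2 V → ℝ) :
    ∑ e, S2A_m P v e * g e = ∑ u, ind (P u) * g s(v, u) := by
  unfold S2A_m
  simp_rw [Finset.sum_mul]
  rw [Finset.sum_comm]
  refine Finset.sum_congr rfl fun u _ => ?_
  rw [Finset.sum_eq_single s(v, u)]
  · congr 1
    apply ind_congr
    exact ⟨fun h => h.1, fun h => ⟨h, rfl⟩⟩
  · intro e _ hne
    rw [ind_neg (fun h => hne h.2), zero_mul]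
  · intro h
    exact absurd (Finset.mem_univ _) h

theorem s2a [DecidableEq V] (hN : Num n W S z c) (hD : D.Ok n W S z c) (g1 : Good1 G D n W z c ty)
    (v : V) (t : Option J) :
    Pr (mu2 G D ty) (fun f => ¬ |(∑ u, ind (G.Adj v u ∧ sm (ty v) (ty u) ∧ f s(v, u) = t)) -
      ∑ u, ind (G.Adj v u ∧ sm (ty v) (ty u)) * xx D (ty v) (ty u) t| ≤ c * W / 10 ^ 5) ≤
      2 * tiny n := by
  obtain ⟨hn0, hW0, hlog, _⟩ := num_c hN
  have hμ := mu2_isW hN hD g1
  obtain ⟨P, hP⟩ : ∃ P : V → Prop, P = fun u => G.Adj v u ∧ sm (ty v) (ty u) := ⟨_, rfl⟩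
  have hmean : ∑ e, ∑ κ, mu2 G D ty e κ * (S2A_m P v e * ind (κ = t)) =
      ∑ u, ind (G.Adj v u ∧ sm (ty v) (ty u)) * xx D (ty v) (ty u) t := by
    have h1 : ∀ e, ∑ κ, mu2 G D ty e κ * (S2A_m P v e * ind (κ = t)) =
        S2A_m P v e * mu2 G D ty e t := by
      intro e
      classical
      rw [Finset.sum_eq_single t]
      · rw [ind_pos rfl]
        ring
      · intro κ _ hne
        rw [ind_neg hne]
        ring
      · intro h
        exact absurd (Finset.mem_univ t) h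
    simp_rw [h1]
    rw [S2A_sum]
    refine Finset.sum_congr rfl fun u _ => ?_
    rw [hP]
    by_cases h : G.Adj v u ∧ sm (ty v) (ty u)
    · rw [mu2_mk hD h.1 h.2]
    · rw [ind_neg h, zero_mul, zero_mul]
  have hval : ∀ f : Sym2 V → Option J, ∑ e, S2A_m P v e * ind (f e = t) =
      ∑ u, ind (G.Adj v u ∧ sm (ty v) (ty u) ∧ f s(v, u) = t) := by
    intro f
    rw [S2A_sum P v (fun e => ind (f e = t))]
    refine Finset.sum_congr rfl fun u _ => ?_
    rw [hP, ← ind_and]
    apply ind_congr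
    exact and_assoc
  have hb := bern2 hμ (fun e κ => S2A_m P v e * ind (κ = t)) 1 (3 * W) (c * W / 10 ^ 5)
    one_pos (by positivity) (by have := hN.c0; positivity)
    (by
      have h1 : c ≤ 1 := hN.c1.trans (by norm_num)
      have h2 : c * W ≤ 1 * W := mul_le_mul_of_nonneg_right h1 hW0.le
      linarith)
    (fun e κ => mul_nonneg (S2A_nonneg P v e) (ind_nonneg _))
    (fun e κ => mul_le_one₀ (S2A_le P v e) (ind_nonneg _) (ind_le_one _))
    (by
      rw [hmean]
      exact ld_sm hN hD g1 v t)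
  rw [hmean] at hb
  simp_rw [hval] at hb
  refine hb.trans ?_
  have hexp : Real.exp (-((c * W / 10 ^ 5) ^ 2 / (4 * 1 * (3 * W)))) ≤ tiny n := by
    unfold tiny
    apply Real.exp_le_exp.2
    have h1 : (c * W / 10 ^ 5) ^ 2 / (4 * 1 * (3 * W)) = c ^ 2 * W / (12 * 10 ^ 10) := by
      field_simp
      ring
    rw [h1]
    have h2 := hN.W1
    have h3 : 10 * Real.log n ≤ c ^ 2 * W / (12 * 10 ^ 10) := by
      rw [le_div_iff₀ (by norm_num)]
      nlinarith
    linarith
  linarith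

end Pool.Agent.H2.HV
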