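import Mathlib
import Pool.Agent.H2.HV.BRN
import Pool.Agent.H2.HV.S2M

/-!
S2T (about 220 lines). The linear statistic of stage 2.

Write P v u := G.Adj w v ∧ isA (ty v).1 ∧ G.Adj v u ∧ isA (ty u).1, m v u := Σ_k xx D (ty v) (ty u) k * co v w t k and
g e κ := Σ_v Σ_u ind (P v u) * ind (e = s(v,u)) * (co v w t κ - m v u). Then Σ_e g e (f e) = the statistic (ind products by ind_and, Σ_e ind (e = s(v,u)) F e = F s(v,u)).
Bound: for fixed e at most two ordered pairs (v,u) have e = s(v,u); |co| ≤ 250/(nc), |m| ≤ 250/(nc) (Σ xx = 1 for adjacent pairs by xx_sum, Good1.Xge): |g| ≤ 1000/(n c) =: b.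
Centred: if P v u then both are tight, so sm, and mu2 s(v,u) k = xx (mu2_mk), Σ_k mu2 (co - m) = m - m = 0.
Variance: Σ_e Σ_k mu2 g² ≤ Σ_e b² ind (∃ v u, P v u ∧ e = s(v,u)) ≤ b² Σ_v Σ_u ind (P v u) ≤ b² n² = 10^6/c² =: v0 (Reg).
`bern_abs` with t0 = c W/10^5: t0 b = 1000 W/(10^5 n) ≤ 2 v0 (W ≤ n); exponent t0²/(4 v0) = c^4 W²/(4·10^16) = (c² W)²/(4·10^16) ≥ (10^13 log n)²/(4·10^16) ≥ 10 log n.
(The Sym2 of a type with DecidableEq has Fintype and DecidableEq; `classical` inside.)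
-/

set_option autoImplicit false
set_option linter.unusedVariables false

namespace Pool.Agent.H2.HV

open Finset

variable {A B J V : Type} [Fintype A] [Fintype B] [Fintype J] [Fintype V]
variable {D : MS A B J} {n W S z : ℕ} {c : ℝ} {G : SimpleGraph V} {ty : V → Ty A B J}

/-- the pairs that count -/
def S2T_P (G : SimpleGraph V) (ty : V → Ty A B J) (w v u : V) : Prop :=
  (G.Adj w v ∧ isA (ty v).1) ∧ (G.Adj v u ∧ isA (ty u).1)

/-- the mean -/
noncomputable def S2T_m (D : MS A B J) (ty : V → Ty A B J)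
    (co : V → V → Option J → Option J → ℝ) (w : V) (t : Option J) (v u : V) : ℝ :=
  ∑ k, xx D (ty v) (ty u) k * co v w t k

/-- the summand -/
noncomputable def S2T_g (G : SimpleGraph V) (D : MS A B J) (ty : V → Ty A B J)
    (co : V → V → Option J → Option J → ℝ) (w : V) (t : Option J) (e : Sym2 V) (κ : Option J) : ℝ :=
  ∑ v, ∑ u, ind (S2T_P G ty w v u) * (ind (e = s(v, u)) * (co v w t κ - S2T_m D ty co w t v u))

/-- the number of pairs over an edge -/
noncomputable def S2T_c (G : SimpleGraph V) (ty : V → Ty A B J) (w : V) (e : Sym2 V) : ℝ :=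
  ∑ v, ∑ u, ind (S2T_P G ty w v u) * ind (e = s(v, u))

theorem S2T_sum_e [DecidableEq V] (F : Sym2 V → ℝ) (v u : V) :
    ∑ e : Sym2 V, ind (e = s(v, u)) * F e = F s(v, u) := by
  rw [Finset.sum_eq_single s(v, u)]
  · rw [ind_pos rfl, one_mul]
  · intro e _ he
    rw [ind_neg he, zero_mul]
  · intro h
    exact absurd (Finset.mem_univ _) h

theorem S2T_stat [DecidableEq V] (G : SimpleGraph V) (D : MS A B J) (ty : V → Ty A B J)
    (co : V → V → Option J → Option J → ℝ) (w : V) (t : Option J) (f : Sym2 V → Option J) :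
    ∑ v, ind (G.Adj w v ∧ isA (ty v).1) *
      ∑ u, ind (G.Adj v u ∧ isA (ty u).1) *
        (co v w t (f s(v, u)) - ∑ k, xx D (ty v) (ty u) k * co v w t k) =
      ∑ e, S2T_g G D ty co w t e (f e) := by
  unfold S2T_g
  rw [Finset.sum_comm]
  refine Finset.sum_congr rfl fun v _ => ?_
  rw [Finset.mul_sum, Finset.sum_comm]
  refine Finset.sum_congr rfl fun u _ => ?_
  rw [← Finset.mul_sum, S2T_sum_e (fun e => co v w t (f e) - S2T_m D ty co w t v u) v u]
  unfold S2T_P
  rw [ind_and (G.Adj w v ∧ isA (ty v).1), mul_assoc]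
  rfl

theorem S2T_two (e : Sym2 V) : ∑ v, ∑ u, ind (e = s(v, u)) ≤ (2 : ℝ) := by
  induction e using Sym2.ind with
  | _ a b =>
    have h1 : ∀ v u, ind (s(a, b) = s(v, u)) ≤ ind (v = a) * ind (u = b) + ind (v = b) * ind (u = a) := by
      intro v u
      by_cases h : s(a, b) = s(v, u)
      · rw [ind_pos h]
        rcases Sym2.eq_iff.1 h with ⟨h2, h3⟩ | ⟨h2, h3⟩
        · rw [ind_pos h2.symm, ind_pos h3.symm]
          have := mul_nonneg (ind_nonneg (v = b)) (ind_nonneg (u = a))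
          linarith
        · rw [ind_pos h3.symm, ind_pos h2.symm]
          have := mul_nonneg (ind_nonneg (v = a)) (ind_nonneg (u = b))
          linarith
      · rw [ind_neg h]
        have h2 := mul_nonneg (ind_nonneg (v = a)) (ind_nonneg (u = b))
        have h3 := mul_nonneg (ind_nonneg (v = b)) (ind_nonneg (u = a))
        linarith
    have h2 : ∀ x : V, ∑ v, ind (v = x) = 1 := by
      intro x
      rw [Finset.sum_eq_single x]
      · exact ind_pos rfl
      · intro y _ hy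
        exact ind_neg hy
      · intro h
        exact absurd (Finset.mem_univ _) h
    calc ∑ v, ∑ u, ind (s(a, b) = s(v, u))
        ≤ ∑ v, ∑ u, (ind (v = a) * ind (u = b) + ind (v = b) * ind (u = a)) :=
          Finset.sum_le_sum fun v _ => Finset.sum_le_sum fun u _ => h1 v u
      _ = ∑ v, (ind (v = a) + ind (v = b)) := by
          refine Finset.sum_congr rfl fun v _ => ?_
          rw [Finset.sum_add_distrib, ← Finset.mul_sum, ← Finset.mul_sum, h2, h2, mul_one, mul_one]
      _ = 2 := by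
          rw [Finset.sum_add_distrib, h2, h2]
          norm_num

theorem S2T_dif (hD : D.Ok n W S z c) (g1 : Good1 G D n W z c ty)
    (co : V → V → Option J → Option J → ℝ)
    (hco : ∀ v w t k, |co v w t k| ≤ 250 / (n * c)) (w : V) (t : Option J) (v u : V)
    (h : G.Adj v u) (κ : Option J) :
    |co v w t κ - S2T_m D ty co w t v u| ≤ 500 / (n * c) := by
  have h1 : |S2T_m D ty co w t v u| ≤ 250 / (n * c) := by
    unfold S2T_m
    refine (Finset.abs_sum_le_sum_abs _ _).trans ?_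
    have h2 : ∀ k, |xx D (ty v) (ty u) k * co v w t k| ≤ xx D (ty v) (ty u) k * (250 / (n * c)) := by
      intro k
      rw [abs_mul, abs_of_nonneg (xx_nonneg hD _ _ k)]
      exact mul_le_mul_of_nonneg_left (hco v w t k) (xx_nonneg hD _ _ k)
    refine (Finset.sum_le_sum fun k _ => h2 k).trans ?_
    rw [← Finset.sum_mul, xx_sum hD _ _ (g1.Xge v u h), one_mul]
  have h3 := abs_sub (co v w t κ) (S2T_m D ty co w t v u)
  have h4 := hco v w t κ
  have h5 : (500 : ℝ) / (n * c) = 250 / (n * c) + 250 / (n * c) := by ring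
  linarith

theorem S2T_bd (hn : 0 ≤ (n : ℝ) * c) (hD : D.Ok n W S z c) (g1 : Good1 G D n W z c ty)
    (co : V → V → Option J → Option J → ℝ)
    (hco : ∀ v w t k, |co v w t k| ≤ 250 / (n * c)) (w : V) (t : Option J) (e : Sym2 V)
    (κ : Option J) : |S2T_g G D ty co w t e κ| ≤ 1000 / (n * c) := by
  have h0 : 0 ≤ 500 / ((n : ℝ) * c) := div_nonneg (by norm_num) hn
  have h1 : |S2T_g G D ty co w t e κ| ≤ ∑ v, ∑ u, ind (e = s(v, u)) * (500 / (n * c)) := by
    unfold S2T_g
    refine (Finset.abs_sum_le_sum_abs _ _).trans (Finset.sum_le_sum fun v _ => ?_)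
    refine (Finset.abs_sum_le_sum_abs _ _).trans (Finset.sum_le_sum fun u _ => ?_)
    by_cases hP : S2T_P G ty w v u
    · rw [ind_pos hP, one_mul, abs_mul, abs_of_nonneg (ind_nonneg _)]
      exact mul_le_mul_of_nonneg_left (S2T_dif hD g1 co hco w t v u hP.2.1 κ) (ind_nonneg _)
    · rw [ind_neg hP, zero_mul, abs_zero]
      exact mul_nonneg (ind_nonneg _) h0
  have h2 : ∑ v, ∑ u, ind (e = s(v, u)) * (500 / (n * c)) =
      (∑ v, ∑ u, ind (e = s(v, u))) * (500 / (n * c)) := by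
    rw [Finset.sum_mul]
    refine Finset.sum_congr rfl fun v _ => ?_
    rw [Finset.sum_mul]
  rw [h2] at h1
  have h3 := mul_le_mul_of_nonneg_right (S2T_two e) h0
  have h4 : (1000 : ℝ) / (n * c) = 2 * (500 / (n * c)) := by ring
  rw [h4]
  exact h1.trans h3

theorem S2T_sq (hn : 0 ≤ (n : ℝ) * c) (hD : D.Ok n W S z c) (g1 : Good1 G D n W z c ty)
    (co : V → V → Option J → Option J → ℝ)
    (hco : ∀ v w t k, |co v w t k| ≤ 250 / (n * c)) (w : V) (t : Option J) (e : Sym2 V)
    (κ : Option J) :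
    (S2T_g G D ty co w t e κ) ^ 2 ≤ (1000 / (n * c)) ^ 2 * S2T_c G ty w e := by
  have hterm : ∀ v u, 0 ≤ ind (S2T_P G ty w v u) * ind (e = s(v, u)) := fun v u =>
    mul_nonneg (ind_nonneg _) (ind_nonneg _)
  by_cases h : ∃ v u, S2T_P G ty w v u ∧ e = s(v, u)
  · obtain ⟨v, u, hP, he⟩ := h
    have h1 : 1 ≤ S2T_c G ty w e := by
      unfold S2T_c
      have h2 := Finset.single_le_sum (f := fun v => ∑ u, ind (S2T_P G ty w v u) * ind (e = s(v, u)))
        (fun v _ => Finset.sum_nonneg fun u _ => hterm v u) (Finset.mem_univ v)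
      have h3 := Finset.single_le_sum (f := fun u => ind (S2T_P G ty w v u) * ind (e = s(v, u)))
        (fun u _ => hterm v u) (Finset.mem_univ u)
      have h4 : ind (S2T_P G ty w v u) * ind (e = s(v, u)) = 1 := by
        rw [ind_pos hP, ind_pos he, one_mul]
      have h3' : ind (S2T_P G ty w v u) * ind (e = s(v, u)) ≤
          ∑ u, ind (S2T_P G ty w v u) * ind (e = s(v, u)) := h3
      have h2' : ∑ u, ind (S2T_P G ty w v u) * ind (e = s(v, u)) ≤
          ∑ v, ∑ u, ind (S2T_P G ty w v u) * ind (e = s(v, u)) := h2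
      linarith
    have h5 := S2T_bd hn hD g1 co hco w t e κ
    have h6 : (S2T_g G D ty co w t e κ) ^ 2 ≤ (1000 / (n * c)) ^ 2 := by
      rw [← sq_abs]
      exact pow_le_pow_left₀ (abs_nonneg _) h5 2
    have h7 : (1000 / ((n : ℝ) * c)) ^ 2 * 1 ≤ (1000 / (n * c)) ^ 2 * S2T_c G ty w e :=
      mul_le_mul_of_nonneg_left h1 (sq_nonneg _)
    linarith
  · have h1 : S2T_g G D ty co w t e κ = 0 := by
      unfold S2T_g
      refine Finset.sum_eq_zero fun v _ => Finset.sum_eq_zero fun u _ => ?_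
      by_cases hP : S2T_P G ty w v u
      · rw [ind_neg (fun he => h ⟨v, u, hP, he⟩), zero_mul, mul_zero]
      · rw [ind_neg hP, zero_mul]
    rw [h1]
    have h2 : 0 ≤ S2T_c G ty w e :=
      Finset.sum_nonneg fun v _ => Finset.sum_nonneg fun u _ => hterm v u
    have h3 := mul_nonneg (sq_nonneg (1000 / ((n : ℝ) * c))) h2
    simpa using h3

theorem S2T_cent (hD : D.Ok n W S z c) (g1 : Good1 G D n W z c ty)
    (co : V → V → Option J → Option J → ℝ) (w : V) (t : Option J) (e : Sym2 V) :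
    ∑ k, mu2 G D ty e k * S2T_g G D ty co w t e k = 0 := by
  unfold S2T_g
  have h1 : ∀ k, mu2 G D ty e k * ∑ v, ∑ u, ind (S2T_P G ty w v u) *
      (ind (e = s(v, u)) * (co v w t k - S2T_m D ty co w t v u)) =
      ∑ v, ∑ u, ind (S2T_P G ty w v u) * (ind (e = s(v, u)) *
        (mu2 G D ty e k * (co v w t k - S2T_m D ty co w t v u))) := by
    intro k
    rw [Finset.mul_sum]
    refine Finset.sum_congr rfl fun v _ => ?_
    rw [Finset.mul_sum]
    refine Finset.sum_congr rfl fun u _ => ?_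
    ring
  rw [Finset.sum_congr rfl fun k _ => h1 k, Finset.sum_comm]
  refine Finset.sum_eq_zero fun v _ => ?_
  rw [Finset.sum_comm]
  refine Finset.sum_eq_zero fun u _ => ?_
  rw [← Finset.mul_sum, ← Finset.mul_sum]
  by_cases hP : S2T_P G ty w v u
  · by_cases he : e = s(v, u)
    · subst he
      have hsm : sm (ty v) (ty u) := Or.inl ⟨hP.1.2, hP.2.2⟩
      have h2 : ∀ k, mu2 G D ty s(v, u) k * (co v w t k - S2T_m D ty co w t v u) =
          xx D (ty v) (ty u) k * co v w t k -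
            xx D (ty v) (ty u) k * S2T_m D ty co w t v u := by
        intro k
        rw [mu2_mk hD hP.2.1 hsm k, mul_sub]
      rw [Finset.sum_congr rfl fun k _ => h2 k, Finset.sum_sub_distrib, ← Finset.sum_mul,
        xx_sum hD _ _ (g1.Xge v u hP.2.1), one_mul]
      unfold S2T_m
      rw [sub_self, mul_zero, mul_zero]
    · rw [ind_neg he, zero_mul, mul_zero]
  · rw [ind_neg hP, zero_mul]

theorem S2T_cnt [DecidableEq V] (hG : Reg G n) (w : V) :
    ∑ e : Sym2 V, S2T_c G ty w e ≤ (n : ℝ) ^ 2 := by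
  unfold S2T_c
  rw [Finset.sum_comm]
  have h1 : ∀ v, ∑ e : Sym2 V, ∑ u, ind (S2T_P G ty w v u) * ind (e = s(v, u)) ≤
      ind (G.Adj w v) * n := by
    intro v
    rw [Finset.sum_comm]
    have h2 : ∀ u, ∑ e : Sym2 V, ind (S2T_P G ty w v u) * ind (e = s(v, u)) ≤
        ind (G.Adj w v) * ind (G.Adj v u) := by
      intro u
      have h3 := S2T_sum_e (fun _ => ind (S2T_P G ty w v u)) v u
      have h4 : ∑ e : Sym2 V, ind (S2T_P G ty w v u) * ind (e = s(v, u)) =
          ind (S2T_P G ty w v u) := by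
        refine (Finset.sum_congr rfl fun e _ => ?_).trans h3
        exact mul_comm _ _
      rw [h4, ← ind_and]
      exact ind_mono fun h => ⟨h.1.1, h.2.1⟩
    refine (Finset.sum_le_sum fun u _ => h2 u).trans (le_of_eq ?_)
    rw [← Finset.mul_sum, hG v]
  refine (Finset.sum_le_sum fun v _ => h1 v).trans (le_of_eq ?_)
  rw [← Finset.sum_mul, hG w, sq]

theorem s2t [DecidableEq V] (hN : Num n W S z c) (hD : D.Ok n W S z c) (hG : Reg G n)
    (g1 : Good1 G D n W z c ty) (co : V → V → Option J → Option J → ℝ)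
    (hco : ∀ v w t k, |co v w t k| ≤ 250 / (n * c)) (w : V) (t : Option J) :
    Pr (mu2 G D ty) (fun f => ¬ |∑ v, ind (G.Adj w v ∧ isA (ty v).1) *
      ∑ u, ind (G.Adj v u ∧ isA (ty u).1) *
        (co v w t (f s(v, u)) - ∑ k, xx D (ty v) (ty u) k * co v w t k)| ≤ c * W / 10 ^ 5) ≤
      2 * tiny n := by
  have hc := hN.c0
  have hn1 : (100 : ℝ) ≤ n := by exact_mod_cast hN.hn
  have hn0 : (0 : ℝ) < n := by linarith
  have hnc : 0 < (n : ℝ) * c := mul_pos hn0 hc
  have hμ := mu2_isW hN hD g1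
  have hW0 : (0 : ℝ) ≤ W := Nat.cast_nonneg W
  have hlog : 1 ≤ Real.log n := by
    rw [Real.le_log_iff_exp_le hn0]
    have := Real.exp_one_lt_d9
    linarith
  have hc1 : c ≤ 1 := by
    have := hN.c1
    linarith
  have hWn : (W : ℝ) ≤ n := by
    have h1 := hN.om
    have h2 : c ^ 2 / 10 ^ 8 * (n : ℝ) ≤ 1 * n := by
      apply mul_le_mul_of_nonneg_right _ hn0.le
      rw [div_le_one (by norm_num)]
      nlinarith
    linarith
  have key := bern_abs hμ (S2T_g G D ty co w t) (1000 / (n * c)) (10 ^ 6 / c ^ 2)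
    (c * W / 10 ^ 5) (div_pos (by norm_num) hnc) (by positivity) (by positivity) ?_
    (fun e κ => S2T_bd hnc.le hD g1 co hco w t e κ) (fun e => S2T_cent hD g1 co w t e) ?_
  · have h1 : Pr (mu2 G D ty) (fun f => ¬ |∑ v, ind (G.Adj w v ∧ isA (ty v).1) *
        ∑ u, ind (G.Adj v u ∧ isA (ty u).1) *
          (co v w t (f s(v, u)) - ∑ k, xx D (ty v) (ty u) k * co v w t k)| ≤ c * W / 10 ^ 5) ≤
        Pr (mu2 G D ty) (fun f => ¬ |∑ e, S2T_g G D ty co w t e (f e)| ≤ c * W / 10 ^ 5) := by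
      refine pr_mono hμ fun f hf => ?_
      rw [S2T_stat] at hf
      exact hf
    refine (h1.trans key).trans ?_
    apply mul_le_mul_of_nonneg_left _ (by norm_num)
    unfold tiny
    apply Real.exp_le_exp.2
    rw [neg_le_neg_iff]
    have h2 : (c * W / 10 ^ 5) ^ 2 / (4 * (10 ^ 6 / c ^ 2)) = (c ^ 2 * W) ^ 2 / (4 * 10 ^ 16) := by
      field_simp
    rw [h2]
    have h3 := hN.W1
    have h4 : (10 ^ 13 * Real.log n) ^ 2 ≤ (c ^ 2 * W) ^ 2 :=
      pow_le_pow_left₀ (by positivity) h3 2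
    rw [le_div_iff₀ (by norm_num)]
    nlinarith
  · have h1 : c * W / 10 ^ 5 * (1000 / (n * c)) = W / n / 100 := by
      field_simp
      ring
    rw [h1]
    have h2 : (W : ℝ) / n ≤ 1 := by
      rw [div_le_one hn0]
      exact hWn
    have h3 : (1 : ℝ) ≤ 1 / c ^ 2 := by
      rw [le_div_iff₀ (by positivity)]
      nlinarith
    have h4 : 2 * (10 ^ 6 / c ^ 2) = 2 * 10 ^ 6 * (1 / c ^ 2) := by ring
    rw [h4]
    nlinarith
  · have h1 : ∀ e : Sym2 V, ∑ k, mu2 G D ty e k * (S2T_g G D ty co w t e k) ^ 2 ≤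
        (1000 / (n * c)) ^ 2 * S2T_c G ty w e := by
      intro e
      calc ∑ k, mu2 G D ty e k * (S2T_g G D ty co w t e k) ^ 2
          ≤ ∑ k, mu2 G D ty e k * ((1000 / (n * c)) ^ 2 * S2T_c G ty w e) :=
            Finset.sum_le_sum fun k _ => mul_le_mul_of_nonneg_left
              (S2T_sq hnc.le hD g1 co hco w t e k) (hμ.nonneg e k)
        _ = (1000 / (n * c)) ^ 2 * S2T_c G ty w e := by
            rw [← Finset.sum_mul, hμ.sum e, one_mul]
    refine (Finset.sum_le_sum fun e _ => h1 e).trans ?_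
    rw [← Finset.mul_sum]
    refine (mul_le_mul_of_nonneg_left (S2T_cnt hG w) (sq_nonneg _)).trans (le_of_eq ?_)
    field_simp
    norm_num

end Pool.Agent.H2.HV
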