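import Mathlib
import Pool.Agent.H2.HV.LLW
import Pool.Agent.H2.HV.S2A
import Pool.Agent.H2.HV.S2T

/-!
ST2 (about 150 lines). Stage 2 by the local lemma.

`lll` with I = Sym2 V, κ = Option J, μ = mu2, ι = V, N w = {e | ∃ x ∈ e, x = w ∨ G.Adj w x}, A w f = (∃ t, bad count at w) ∨ (∃ t, bad linear statistic at w).
N w ∩ N w' ≠ ∅ implies an edge (or loop) {x,y} with x near w and y near w' or x = y: careful: an element e = s(x,y) of Sym2 V need not be an edge of G. To keep the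
dependency small take instead N w = {e | ∃ x y, e = s(x,y) ∧ G.Adj x y ∧ (x = w ∨ G.Adj w x)}: both events at w depend only on f at such e. If e = s(x,y) is in N w and N w'
then x near w (or y near w) and x or y near w', x ~ y: w' is in the set of `ball2` at w: d = (n+1)^3. q = 10 n^3 tiny n ≥ 2 (card J + 1) 2 tiny (card J + 1 ≤ 2/om = 2n/W ≤ n).
al u v := f s(u,v); symm by Sym2.eq_swap; cpp by mu2_pos.
-/

set_option autoImplicit false
set_option linter.unusedVariables false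

namespace Pool.Agent.H2.HV

open Finset

variable {A B J V : Type} [Fintype A] [Fintype B] [Fintype J] [Fintype V]
variable {D : MS A B J} {n W S z : ℕ} {c : ℝ} {G : SimpleGraph V} {ty : V → Ty A B J}

/-- the bad event at a vertex -/
private def ST2_bad (G : SimpleGraph V) (D : MS A B J) (n W : ℕ) (c : ℝ) (ty : V → Ty A B J)
    (co : V → V → Option J → Option J → ℝ) (w : V) (f : Sym2 V → Option J) : Prop :=
  (∃ t, ¬ |(∑ u, ind (G.Adj w u ∧ sm (ty w) (ty u) ∧ f s(w, u) = t)) -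
      ∑ u, ind (G.Adj w u ∧ sm (ty w) (ty u)) * xx D (ty w) (ty u) t| ≤ c * W / 10 ^ 5) ∨
  (∃ t, ¬ |∑ v, ind (G.Adj w v ∧ isA (ty v).1) *
      ∑ u, ind (G.Adj v u ∧ isA (ty u).1) *
        (co v w t (f s(v, u)) - ∑ k, xx D (ty v) (ty u) k * co v w t k)| ≤ c * W / 10 ^ 5)

/-- the pairs on which the event at `w` depends -/
private def ST2_N (G : SimpleGraph V) (w : V) : Set (Sym2 V) :=
  {e | ∃ x y, e = s(x, y) ∧ G.Adj x y ∧ (x = w ∨ G.Adj w x)}

omit [Fintype A] [Fintype B] in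
private theorem ST2_dep (G : SimpleGraph V) (D : MS A B J) (n W : ℕ) (c : ℝ) (ty : V → Ty A B J)
    (co : V → V → Option J → Option J → ℝ) (w : V) (f g : Sym2 V → Option J)
    (h : ∀ e ∈ ST2_N G w, f e = g e) (hf : ST2_bad G D n W c ty co w f) :
    ST2_bad G D n W c ty co w g := by
  unfold ST2_bad at hf ⊢
  have e1 : ∀ t, ∑ u, ind (G.Adj w u ∧ sm (ty w) (ty u) ∧ f s(w, u) = t) =
      ∑ u, ind (G.Adj w u ∧ sm (ty w) (ty u) ∧ g s(w, u) = t) := by
    intro t
    refine Finset.sum_congr rfl fun u _ => ?_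
    by_cases hu : G.Adj w u
    · rw [h s(w, u) ⟨w, u, rfl, hu, Or.inl rfl⟩]
    · rw [ind_neg (fun h1 => hu h1.1), ind_neg (fun h1 => hu h1.1)]
  have e2 : ∀ t, ∑ v, ind (G.Adj w v ∧ isA (ty v).1) *
      ∑ u, ind (G.Adj v u ∧ isA (ty u).1) *
        (co v w t (f s(v, u)) - ∑ k, xx D (ty v) (ty u) k * co v w t k) =
      ∑ v, ind (G.Adj w v ∧ isA (ty v).1) *
      ∑ u, ind (G.Adj v u ∧ isA (ty u).1) *
        (co v w t (g s(v, u)) - ∑ k, xx D (ty v) (ty u) k * co v w t k) := by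
    intro t
    refine Finset.sum_congr rfl fun v _ => ?_
    by_cases hv : G.Adj w v
    · congr 1
      refine Finset.sum_congr rfl fun u _ => ?_
      by_cases hu : G.Adj v u
      · rw [h s(v, u) ⟨v, u, rfl, hu, Or.inr hv⟩]
      · rw [ind_neg (fun h1 => hu h1.1), zero_mul, zero_mul]
    · rw [ind_neg (fun h1 => hv h1.1), zero_mul, zero_mul]
  rcases hf with ⟨t, ht⟩ | ⟨t, ht⟩
  · refine Or.inl ⟨t, ?_⟩
    rw [← e1]
    exact ht
  · refine Or.inr ⟨t, ?_⟩
    rw [← e2]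
    exact ht

private theorem ST2_card (hN : Num n W S z c) (hD : D.Ok n W S z c) :
    (Fintype.card (Option J) : ℝ) ≤ n := by
  obtain ⟨hn0, hW0, -, -, -, -, hW, hom⟩ := num_c hN
  rw [Fintype.card_option]
  push_cast
  refine hD.cardJ.trans ?_
  rw [div_le_iff₀ hom, mul_div_assoc', le_div_iff₀ hn0]
  have : (2 : ℝ) ≤ W := by linarith [show (2 : ℝ) ≤ 10 ^ 20 by norm_num]
  nlinarith

private theorem ST2_pr [DecidableEq V] (hN : Num n W S z c) (hD : D.Ok n W S z c) (hG : Reg G n)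
    (g1 : Good1 G D n W z c ty) (co : V → V → Option J → Option J → ℝ)
    (hco : ∀ v w t k, |co v w t k| ≤ 250 / (n * c)) (w : V) :
    Pr (mu2 G D ty) (ST2_bad G D n W c ty co w) ≤ 10 * (n : ℝ) ^ 3 * tiny n := by
  have hμ : IsW (mu2 G D ty) := mu2_isW hN hD g1
  have ht0 := (tiny_pos n).le
  have hcO := ST2_card hN hD
  have hn1 : (1 : ℝ) ≤ n := by
    have := hN.hn
    have h2 : (100 : ℝ) ≤ n := by exact_mod_cast this
    linarith
  have b1 := (pr_exists_le hμ _ _ fun t => s2a hN hD g1 w t).trans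
      (mul_le_mul_of_nonneg_right hcO (by positivity : (0 : ℝ) ≤ 2 * tiny n))
  have b2 := (pr_exists_le hμ _ _ fun t => s2t hN hD hG g1 co hco w t).trans
      (mul_le_mul_of_nonneg_right hcO (by positivity : (0 : ℝ) ≤ 2 * tiny n))
  have h12 := pr_or hμ (fun f : Sym2 V → Option J =>
      ∃ t, ¬ |(∑ u, ind (G.Adj w u ∧ sm (ty w) (ty u) ∧ f s(w, u) = t)) -
      ∑ u, ind (G.Adj w u ∧ sm (ty w) (ty u)) * xx D (ty w) (ty u) t| ≤ c * W / 10 ^ 5)
    (fun f : Sym2 V → Option J => ∃ t, ¬ |∑ v, ind (G.Adj w v ∧ isA (ty v).1) *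
      ∑ u, ind (G.Adj v u ∧ isA (ty u).1) *
        (co v w t (f s(v, u)) - ∑ k, xx D (ty v) (ty u) k * co v w t k)| ≤ c * W / 10 ^ 5)
  have hfin : n * (2 * tiny n) + n * (2 * tiny n) ≤ 10 * (n : ℝ) ^ 3 * tiny n := by
    have h5 : (n : ℝ) ≤ (n : ℝ) ^ 3 := le_self_pow₀ hn1 (by norm_num)
    have h6 := mul_le_mul_of_nonneg_right h5 ht0
    have h7 : 0 ≤ (n : ℝ) ^ 3 * tiny n := by positivity
    linarith
  change Pr (mu2 G D ty) (fun f => ST2_bad G D n W c ty co w f) ≤ _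
  unfold ST2_bad
  linarith

theorem st2 (hN : Num n W S z c) (hD : D.Ok n W S z c) (hG : Reg G n)
    (g1 : Good1 G D n W z c ty) (co : V → V → Option J → Option J → ℝ)
    (hco : ∀ v w t k, |co v w t k| ≤ 250 / (n * c)) :
    ∃ al : V → V → Option J, Good2 G D n W z c ty co al := by
  classical
  have hμ : IsW (mu2 G D ty) := mu2_isW hN hD g1
  obtain ⟨f, hpos, hf⟩ := lll (mu2 G D ty) hμ (ST2_bad G D n W c ty co) (ST2_N G)
    (fun w f g h => ST2_dep G D n W c ty co w f g h) ((n + 1) ^ 3) (10 * (n : ℝ) ^ 3 * tiny n)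
    (fun w => by
      refine le_trans (Set.ncard_le_ncard ?_ (Set.toFinite _)) (ball2 G n hG w)
      rintro w' ⟨-, hw⟩
      rw [Set.not_disjoint_iff] at hw
      obtain ⟨e, ⟨x, y, he, hxy, hx⟩, ⟨x', y', he', hxy', hx'⟩⟩ := hw
      refine ⟨x, x', hx, ?_, hx'⟩
      rw [he, Sym2.eq_iff] at he'
      rcases he' with ⟨h1, h2⟩ | ⟨h1, h2⟩
      · exact Or.inl h1
      · right
        rw [← h2]
        exact hxy)
    (ST2_pr hN hD hG g1 co hco) (tiny_poly n hN.hn)
  refine ⟨fun u v => f s(u, v), ?_, ?_, ?_, ?_⟩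
  · intro u v
    show f s(u, v) = f s(v, u)
    rw [Sym2.eq_swap]
  · intro u v huv hs
    exact mu2_pos hD huv hs _ (hpos _)
  · intro v t
    by_contra hcon
    exact hf v (Or.inl ⟨t, hcon⟩)
  · intro w t
    by_contra hcon
    exact hf w (Or.inr ⟨t, hcon⟩)

end Pool.Agent.H2.HV
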