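import Mathlib
import Pool.Agent.H2.HV.PRB

/-!
BIR (about 200 lines). Birkhoff rounding of one transportation matrix.

Rw = the rows, y w t ≥ 0 with row sums 1 and integer column sums d t, so |Rw| = Σ_t d t. Slots: Σ t, Fin (d t), same cardinality as {w // w ∈ Rw}.
If d t = 0 then y w t = 0 for all w ∈ Rw. Matrix Mat w (t,i) = y w t / d t is doubly stochastic (row sums Σ_t d t · y/d t = 1, column sums d t/d t = 1);
after choosing an equivalence e : {w // w ∈ Rw} ≃ Slots reindex it to a square matrix; Mathlib: `doublyStochastic_eq_convexHull_permMatrix`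
(or `exists_eq_sum_perm_of_mem_doublyStochastic`): Mat = Σ_σ λ_σ permMatrix σ, λ_σ ≥ 0, Σ λ = 1. For a permutation σ let f_σ w = the t of the slot of w
(t0 := any value outside Rw; if T is empty then Rw is empty by row sums and V → T... use a default only if V is nonempty: handle the case Rw empty
separately if needed). nu f = Σ_σ λ_σ [f_σ = f]. Marginals: Σ_f [f w = t] nu f = Σ_σ λ_σ [f_σ w = t] = Σ_i Mat w (t,i) = y w t.
Support: nu f > 0 gives σ with λ_σ > 0 and f_σ = f: exact column counts, and y w (f w) ≥ (number) > 0 because Mat w (slot) ≥ λ_σ > 0.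
-/

set_option autoImplicit false
set_option linter.unusedVariables false

namespace Pool.Agent.H2.HV

open Finset

theorem BIR_slots {T : Type} [Fintype T] (d : T → ℕ) (g : T → ℝ) :
    ∑ s : (Σ t : T, Fin (d t)), g s.1 = ∑ t, (d t : ℝ) * g t := by
  rw [Fintype.sum_sigma]
  refine Finset.sum_congr rfl fun t _ => ?_
  simp

theorem BIR_sub {V : Type} [Fintype V] (Rw : V → Prop) [Fintype {w // Rw w}] (g : V → ℝ) :
    ∑ w : {w // Rw w}, g w.1 = ∑ w, ind (Rw w) * g w := by
  classical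
  have h1 : ∀ w, ind (Rw w) * g w = if Rw w then g w else 0 := by
    intro w
    by_cases h : Rw w
    · rw [ind_pos h, if_pos h, one_mul]
    · rw [ind_neg h, if_neg h, zero_mul]
  rw [Finset.sum_congr rfl fun w _ => h1 w, ← Finset.sum_filter]
  rw [← Finset.sum_subtype_eq_sum_filter]
  refine Finset.sum_congr ?_ fun w _ => rfl
  ext w
  simp

theorem BIR_perm {n : Type} [Fintype n] [DecidableEq n] (σ : Equiv.Perm n) (i j : n) :
    σ.permMatrix ℝ i j = if σ i = j then 1 else 0 := by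
  simp [Equiv.Perm.permMatrix, PEquiv.toMatrix_apply, Equiv.toPEquiv_apply, eq_comm]

theorem bir {V T : Type} [Fintype V] [DecidableEq V] [Fintype T] [DecidableEq T] [Nonempty T]
    (Rw : V → Prop) (y : V → T → ℝ) (d : T → ℕ)
    (h0 : ∀ w, Rw w → ∀ t, 0 ≤ y w t) (hr : ∀ w, Rw w → ∑ t, y w t = 1)
    (hc : ∀ t, ∑ w, ind (Rw w) * y w t = d t) :
    ∃ nu : (V → T) → ℝ, (∀ f, 0 ≤ nu f) ∧ (∑ f, nu f = 1) ∧
      (∀ f, 0 < nu f → (∀ t, ∑ w, ind (Rw w ∧ f w = t) = d t) ∧ ∀ w, Rw w → 0 < y w (f w)) ∧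
      (∀ w, Rw w → ∀ t, ∑ f, nu f * ind (f w = t) = y w t) := by
  classical
  obtain ⟨t0⟩ := ‹Nonempty T›
  -- a zero column
  have hz : ∀ t, d t = 0 → ∀ w, Rw w → y w t = 0 := by
    intro t ht w hw
    have h1 := hc t
    rw [ht, Nat.cast_zero] at h1
    have h2 : ∀ w ∈ (Finset.univ : Finset V), 0 ≤ ind (Rw w) * y w t := by
      intro w _
      by_cases h : Rw w
      · exact mul_nonneg (ind_nonneg _) (h0 w h t)
      · rw [ind_neg h, zero_mul]
    have h3 := (Finset.sum_eq_zero_iff_of_nonneg h2).mp h1 w (Finset.mem_univ w)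
    rw [ind_pos hw, one_mul] at h3
    exact h3
  have hdiv : ∀ t w, Rw w → (d t : ℝ) * (y w t / d t) = y w t := by
    intro t w hw
    by_cases h : d t = 0
    · rw [hz t h w hw, zero_div, mul_zero]
    · have h' : (d t : ℝ) ≠ 0 := by exact_mod_cast h
      field_simp
  -- the slots
  have hcard : Fintype.card {w // Rw w} = Fintype.card (Σ t : T, Fin (d t)) := by
    have h1 : ((Fintype.card {w // Rw w} : ℕ) : ℝ) = ∑ t, (d t : ℝ) := by
      have h2 := BIR_sub Rw fun _ => (1 : ℝ)
      rw [Finset.sum_const, Finset.card_univ, nsmul_eq_mul, mul_one] at h2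
      rw [h2]
      have h3 : ∀ w, ind (Rw w) * (1 : ℝ) = ∑ t, ind (Rw w) * y w t := by
        intro w
        rw [← Finset.mul_sum]
        by_cases h : Rw w
        · rw [hr w h]
        · rw [ind_neg h, zero_mul, zero_mul]
      rw [Finset.sum_congr rfl fun w _ => h3 w, Finset.sum_comm]
      exact Finset.sum_congr rfl fun t _ => hc t
    have h4 : ((Fintype.card (Σ t : T, Fin (d t)) : ℕ) : ℝ) = ∑ t, (d t : ℝ) := by
      rw [Fintype.card_sigma]
      push_cast
      exact Finset.sum_congr rfl fun t _ => by rw [Fintype.card_fin]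
    exact_mod_cast h1.trans h4.symm
  let e : {w // Rw w} ≃ (Σ t : T, Fin (d t)) := Fintype.equivOfCardEq hcard
  have hpos : ∀ w' : {w // Rw w}, (0 : ℝ) < d (e w').1 := by
    intro w'
    have h1 := (e w').2.2
    have h2 : 0 < d (e w').1 := lt_of_le_of_lt (Nat.zero_le _) h1
    exact_mod_cast h2
  let M : Matrix {w // Rw w} {w // Rw w} ℝ := fun w w' => y w.1 (e w').1 / d (e w').1
  have hM : M ∈ doublyStochastic ℝ {w // Rw w} := by
    rw [mem_doublyStochastic_iff_sum]
    refine ⟨fun w w' => div_nonneg (h0 _ w.2 _) (hpos w').le, fun w => ?_, fun w' => ?_⟩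
    · have h1 : ∑ w', M w w' = ∑ s : (Σ t : T, Fin (d t)), y w.1 s.1 / d s.1 :=
        Equiv.sum_comp e fun s => y w.1 s.1 / (d s.1 : ℝ)
      rw [h1, BIR_slots d fun t => y w.1 t / d t, ← hr w.1 w.2]
      exact Finset.sum_congr rfl fun t _ => hdiv t w.1 w.2
    · have h1 : ∑ w, M w w' = (∑ w : {w // Rw w}, y w.1 (e w').1) / d (e w').1 := by
        rw [Finset.sum_div]
      rw [h1, BIR_sub Rw fun w => y w (e w').1, hc, div_self (hpos w').ne']
  obtain ⟨lam, hl0, hl1, hlM⟩ := exists_eq_sum_perm_of_mem_doublyStochastic hM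
  have hMe : ∀ w w', M w w' = ∑ σ, lam σ * if σ w = w' then 1 else 0 := by
    intro w w'
    rw [← hlM, Matrix.sum_apply]
    refine Finset.sum_congr rfl fun σ _ => ?_
    rw [Matrix.smul_apply, BIR_perm, smul_eq_mul]
  let F : Equiv.Perm {w // Rw w} → V → T := fun σ w => if h : Rw w then (e (σ ⟨w, h⟩)).1 else t0
  have hF : ∀ σ w (h : Rw w), F σ w = (e (σ ⟨w, h⟩)).1 := by
    intro σ w h
    show (if h : Rw w then (e (σ ⟨w, h⟩)).1 else t0) = _
    rw [dif_pos h]
  have hF' : ∀ σ (w : {w // Rw w}), F σ w.1 = (e (σ w)).1 := fun σ w => hF σ w.1 w.2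
  -- the counting identity
  have hcount : ∀ σ t, ∑ w, ind (Rw w ∧ F σ w = t) = d t := by
    intro σ t
    have h1 : ∀ w, ind (Rw w ∧ F σ w = t) = ind (Rw w) * ind (F σ w = t) := fun w =>
      ind_and _ _
    rw [Finset.sum_congr rfl fun w _ => h1 w, ← BIR_sub Rw fun w => ind (F σ w = t)]
    have h2 : ∀ w : {w // Rw w}, ind (F σ w.1 = t) = ind ((e (σ w)).1 = t) := fun w => by
      rw [hF']
    rw [Finset.sum_congr rfl fun w _ => h2 w,
      Equiv.sum_comp σ fun w => ind ((e w).1 = t),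
      Equiv.sum_comp e fun s => ind (s.1 = t), BIR_slots d fun t' => ind (t' = t)]
    rw [Finset.sum_eq_single t]
    · rw [ind_pos rfl, mul_one]
    · intro t' _ ht'
      rw [ind_neg ht', mul_zero]
    · intro h
      exact absurd (Finset.mem_univ t) h
  refine ⟨fun f => ∑ σ, lam σ * ind (F σ = f), fun f => ?_, ?_, fun f hf => ?_, fun w hw t => ?_⟩
  · exact Finset.sum_nonneg fun σ _ => mul_nonneg (hl0 σ) (ind_nonneg _)
  · rw [Finset.sum_comm, ← hl1]
    refine Finset.sum_congr rfl fun σ _ => ?_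
    rw [← Finset.mul_sum, Finset.sum_eq_single (F σ)]
    · rw [ind_pos rfl, mul_one]
    · intro f _ hf
      rw [ind_neg (Ne.symm hf)]
    · intro h
      exact absurd (Finset.mem_univ _) h
  · obtain ⟨σ, hσ⟩ : ∃ σ, 0 < lam σ * ind (F σ = f) := by
      by_contra hcon
      push Not at hcon
      exact absurd (Finset.sum_nonpos fun σ _ => hcon σ) (not_le.mpr hf)
    have hFf : F σ = f := by
      by_contra h
      rw [ind_neg h, mul_zero] at hσ
      exact lt_irrefl _ hσ
    rw [ind_pos hFf, mul_one] at hσ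
    subst hFf
    refine ⟨hcount σ, fun w hw => ?_⟩
    have h1 : lam σ ≤ M ⟨w, hw⟩ (σ ⟨w, hw⟩) := by
      rw [hMe]
      have h2 := Finset.single_le_sum
        (f := fun τ : Equiv.Perm {w // Rw w} =>
          lam τ * if τ ⟨w, hw⟩ = σ ⟨w, hw⟩ then (1 : ℝ) else 0)
        (fun τ _ => mul_nonneg (hl0 τ) (by split_ifs <;> norm_num)) (Finset.mem_univ σ)
      simp only [if_true, mul_one] at h2
      exact h2
    have h3 : 0 < M ⟨w, hw⟩ (σ ⟨w, hw⟩) := lt_of_lt_of_le hσ h1
    have h4 : M ⟨w, hw⟩ (σ ⟨w, hw⟩) = y w (F σ w) / d (F σ w) := by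
      rw [hF σ w hw]
    rw [h4] at h3
    by_contra hneg
    have h5 : y w (F σ w) / d (F σ w) ≤ 0 :=
      div_nonpos_of_nonpos_of_nonneg (not_lt.mp hneg) (Nat.cast_nonneg _)
    linarith
  · have h1 : ∀ f : V → T, (∑ σ, lam σ * ind (F σ = f)) * ind (f w = t) =
        ∑ σ, lam σ * (ind (F σ = f) * ind (f w = t)) := by
      intro f
      rw [Finset.sum_mul]
      exact Finset.sum_congr rfl fun σ _ => mul_assoc _ _ _
    rw [Finset.sum_congr rfl fun f _ => h1 f, Finset.sum_comm]
    have h2 : ∀ σ, ∑ f, lam σ * (ind (F σ = f) * ind (f w = t)) =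
        lam σ * ind ((e (σ ⟨w, hw⟩)).1 = t) := by
      intro σ
      rw [← Finset.mul_sum, Finset.sum_eq_single (F σ)]
      · rw [ind_pos rfl, one_mul, hF σ w hw]
      · intro f _ hf
        rw [ind_neg (Ne.symm hf), zero_mul]
      · intro h
        exact absurd (Finset.mem_univ _) h
    rw [Finset.sum_congr rfl fun σ _ => h2 σ]
    have h3 : ∀ σ, lam σ * ind ((e (σ ⟨w, hw⟩)).1 = t) =
        ∑ w', ind ((e w').1 = t) * (lam σ * if σ ⟨w, hw⟩ = w' then 1 else 0) := by
      intro σ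
      rw [Finset.sum_eq_single (σ ⟨w, hw⟩)]
      · rw [if_pos rfl]
        ring
      · intro w' _ hw'
        rw [if_neg (Ne.symm hw'), mul_zero, mul_zero]
      · intro h
        exact absurd (Finset.mem_univ _) h
    rw [Finset.sum_congr rfl fun σ _ => h3 σ, Finset.sum_comm]
    have h4 : ∀ w', ∑ σ, ind ((e w').1 = t) * (lam σ * if σ ⟨w, hw⟩ = w' then 1 else 0) =
        ind ((e w').1 = t) * (y w (e w').1 / d (e w').1) := by
      intro w'
      rw [← Finset.mul_sum, ← hMe]
    rw [Finset.sum_congr rfl fun w' _ => h4 w',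
      Equiv.sum_comp e fun s => ind (s.1 = t) * (y w s.1 / (d s.1 : ℝ)),
      BIR_slots d fun t' => ind (t' = t) * (y w t' / (d t' : ℝ))]
    rw [Finset.sum_eq_single t]
    · rw [ind_pos rfl, one_mul, hdiv t w hw]
    · intro t' _ ht'
      rw [ind_neg ht', zero_mul, mul_zero]
    · intro h
      exact absurd (Finset.mem_univ t) h

end Pool.Agent.H2.HV
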