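import Mathlib
import Pool.Agent.H2.HV.LLW
import Pool.Agent.H2.HV.BRN
import Pool.Agent.H2.HV.NUM
import Pool.Agent.H2.HV.BIR

/-!
ST3 (about 250 lines). Stage 3: Birkhoff at every tight vertex, then the local lemma.

For every tight v (Tt v) apply `bir` with Rw w := G.Adj v w ∧ ¬ Tt w, y v, d v: a probability vector nu_v on V → T with exact column counts on its support and
marginals y v w t. For v not tight take the point mass at any function. I = V, κ = V → T, μ v = nu_v.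
`lll` with ι = V, N w = {v | v = w ∨ G.Adj w v}, d = (n+1)^3 ≥ (n+1)^2 (`ball1`), A w f = ¬ Tt w ∧ ((∃ ℓ q, mean ≤ 3W and the count restricted to cl v = q deviates) ∨
(∃ ℓ, mean ≤ 3W and the full count deviates)). (The conclusions are only claimed when the mean is ≤ 3W.)
Each event: `bern2` with h v κ = ind ((G.Adj w v ∧ Tt v) ∧ cl v = q) * ind (κ w = ℓ), b = 1, mean = Σ_v ind(..) y v w ℓ ≤ 3 W (marginals of nu_v), M = 3 W,
deviation c W/10^5: probability ≤ 2 exp(-c² W/(12·10^10)) ≤ 2 tiny n. Number of events per w: card T (card Q + 1) ≤ 2 n^3. q := 10 n^3 tiny n, `tiny_poly`.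
Z v w := f v w. (f v is in the support: 0 < nu_v (f v).)
-/

set_option autoImplicit false
set_option linter.unusedVariables false

namespace Pool.Agent.H2.HV

open Finset

theorem ST3_one {V T : Type} [Fintype V] [DecidableEq V] [Fintype T] {n W S z : ℕ} {c : ℝ}
    (hN : Num n W S z c) (μ : V → (V → T) → ℝ) (hμ : IsW μ) (P : V → Prop) (yy : V → ℝ) (w : V)
    (t : T) (hm : ∀ v, P v → ∑ f, μ v f * ind (f w = t) = yy v)
    (hle : ∑ v, ind (P v) * yy v ≤ 3 * W) :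
    Pr μ (fun f => ¬ |(∑ v, ind (P v ∧ f v w = t)) - ∑ v, ind (P v) * yy v| ≤ c * W / 10 ^ 5) ≤
      2 * tiny n := by
  obtain ⟨hn0, hW0, hlog, -, -, -, hW, -⟩ := num_c hN
  have hc := hN.c0
  have hc1 : c ≤ 1 := le_trans hN.c1 (by norm_num)
  have hmean : ∑ v, ∑ κ, μ v κ * ind (P v ∧ κ w = t) = ∑ v, ind (P v) * yy v := by
    refine Finset.sum_congr rfl fun v _ => ?_
    by_cases hP : P v
    · rw [ind_pos hP, one_mul, ← hm v hP]
      refine Finset.sum_congr rfl fun κ _ => ?_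
      rw [ind_and, ind_pos hP, one_mul]
    · rw [ind_neg hP, zero_mul]
      refine Finset.sum_eq_zero fun κ _ => ?_
      rw [ind_and, ind_neg hP, zero_mul, mul_zero]
  have hcW : c * W ≤ 1 * W := mul_le_mul_of_nonneg_right hc1 hW0.le
  have h1 := bern2 hμ (fun v κ => ind (P v ∧ κ w = t)) 1 (3 * W) (c * W / 10 ^ 5) one_pos
    (by positivity) (by positivity)
    (by
      have h2 : c * W / 10 ^ 5 ≤ 1 * W / 10 ^ 5 := div_le_div_of_nonneg_right hcW (by norm_num)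
      linarith)
    (fun _ _ => ind_nonneg _) (fun _ _ => ind_le_one _) (by rw [hmean]; exact hle)
  rw [hmean] at h1
  refine h1.trans ?_
  refine mul_le_mul_of_nonneg_left ?_ (by norm_num)
  unfold tiny
  rw [Real.exp_le_exp, neg_le_neg_iff, le_div_iff₀ (by positivity)]
  have h3 := mul_le_mul_of_nonneg_right hN.W1 hW0.le
  have h4 : (c * W / 10 ^ 5) ^ 2 = c ^ 2 * W * W / 10 ^ 10 := by ring
  rw [h4, le_div_iff₀ (by norm_num)]
  nlinarith [mul_nonneg (by linarith : (0 : ℝ) ≤ Real.log n) hW0.le]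

/-- the bad event at a vertex -/
def ST3_bad {V T Q : Type} [Fintype V] (W : ℕ) (c : ℝ) (G : SimpleGraph V)
    (Tt : V → Prop) (cl : V → Q) (y : V → V → T → ℝ) (w : V) (f : V → (V → T)) : Prop :=
  ¬ Tt w ∧
    ((∃ x : T × Q, (∑ v, ind ((G.Adj w v ∧ Tt v) ∧ cl v = x.2) * y v w x.1) ≤ 3 * W ∧
      ¬ |(∑ v, ind (((G.Adj w v ∧ Tt v) ∧ cl v = x.2) ∧ f v w = x.1)) -
        ∑ v, ind ((G.Adj w v ∧ Tt v) ∧ cl v = x.2) * y v w x.1| ≤ c * W / 10 ^ 5) ∨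
    (∃ t, (∑ v, ind (G.Adj w v ∧ Tt v) * y v w t) ≤ 3 * W ∧
      ¬ |(∑ v, ind ((G.Adj w v ∧ Tt v) ∧ f v w = t)) -
        ∑ v, ind (G.Adj w v ∧ Tt v) * y v w t| ≤ c * W / 10 ^ 5))

theorem ST3_sum {V T : Type} [Fintype V] (G : SimpleGraph V) (w : V) (P : V → Prop)
    (hP : ∀ v, P v → G.Adj w v) (f g : V → (V → T)) (t : T)
    (h : ∀ x ∈ {v | v = w ∨ G.Adj w v}, f x = g x) :
    ∑ v, ind (P v ∧ f v w = t) = ∑ v, ind (P v ∧ g v w = t) := by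
  refine Finset.sum_congr rfl fun v _ => ?_
  refine ind_congr (and_congr_right fun h1 => ?_)
  rw [h v (Or.inr (hP v h1))]

theorem ST3_dep {V T Q : Type} [Fintype V] (W : ℕ) (c : ℝ) (G : SimpleGraph V)
    (Tt : V → Prop) (cl : V → Q) (y : V → V → T → ℝ) (w : V) (f g : V → (V → T))
    (h : ∀ x ∈ {v | v = w ∨ G.Adj w v}, f x = g x) (hf : ST3_bad W c G Tt cl y w f) :
    ST3_bad W c G Tt cl y w g := by
  obtain ⟨h0, ⟨x, h1, h2⟩ | ⟨t, h1, h2⟩⟩ := hf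
  · refine ⟨h0, Or.inl ⟨x, h1, ?_⟩⟩
    rw [ST3_sum G w (fun v => (G.Adj w v ∧ Tt v) ∧ cl v = x.2) (fun v hv => hv.1.1) f g x.1 h]
      at h2
    exact h2
  · refine ⟨h0, Or.inr ⟨t, h1, ?_⟩⟩
    rw [ST3_sum G w (fun v => G.Adj w v ∧ Tt v) (fun v hv => hv.1) f g t h] at h2
    exact h2

theorem ST3_pr {V T Q : Type} [Fintype V] [DecidableEq V] [Fintype T] [Fintype Q]
    {n W S z : ℕ} {c : ℝ} (hN : Num n W S z c) (G : SimpleGraph V)
    (hT : (Fintype.card T : ℝ) ≤ n) (hQ : (Fintype.card Q : ℝ) ≤ n)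
    (Tt : V → Prop) (cl : V → Q) (y : V → V → T → ℝ)
    (μ : V → (V → T) → ℝ) (hμ : IsW μ)
    (hm : ∀ v, Tt v → ∀ w, G.Adj v w ∧ ¬ Tt w → ∀ t, ∑ f, μ v f * ind (f w = t) = y v w t)
    (w : V) : Pr μ (ST3_bad W c G Tt cl y w) ≤ 10 * (n : ℝ) ^ 3 * tiny n := by
  have ht0 := (tiny_pos n).le
  have hn1 : (1 : ℝ) ≤ n := by
    have := hN.hn
    have h2 : (100 : ℝ) ≤ n := by exact_mod_cast this
    linarith
  by_cases hw : Tt w
  · have h1 : Pr μ (ST3_bad W c G Tt cl y w) = 0 := pr_false _ fun f hf => hf.1 hw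
    rw [h1]
    positivity
  have b1 : Pr μ (fun f => ∃ x : T × Q,
      (∑ v, ind ((G.Adj w v ∧ Tt v) ∧ cl v = x.2) * y v w x.1) ≤ 3 * W ∧
      ¬ |(∑ v, ind (((G.Adj w v ∧ Tt v) ∧ cl v = x.2) ∧ f v w = x.1)) -
        ∑ v, ind ((G.Adj w v ∧ Tt v) ∧ cl v = x.2) * y v w x.1| ≤ c * W / 10 ^ 5) ≤
      (n * n) * (2 * tiny n) := by
    refine (pr_exists_le hμ _ (2 * tiny n) fun x => ?_).trans
      (mul_le_mul_of_nonneg_right ?_ (by positivity))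
    · by_cases h1 : (∑ v, ind ((G.Adj w v ∧ Tt v) ∧ cl v = x.2) * y v w x.1) ≤ 3 * W
      · refine (pr_mono hμ fun f hf => hf.2).trans ?_
        exact ST3_one hN μ hμ (fun v => (G.Adj w v ∧ Tt v) ∧ cl v = x.2) (fun v => y v w x.1) w x.1
          (fun v hv => hm v hv.1.2 w ⟨hv.1.1.symm, hw⟩ x.1) h1
      · rw [pr_false _ fun f hf => h1 hf.1]
        positivity
    · rw [Fintype.card_prod]
      push_cast
      exact mul_le_mul hT hQ (by positivity) (by positivity)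
  have b2 : Pr μ (fun f => ∃ t, (∑ v, ind (G.Adj w v ∧ Tt v) * y v w t) ≤ 3 * W ∧
      ¬ |(∑ v, ind ((G.Adj w v ∧ Tt v) ∧ f v w = t)) -
        ∑ v, ind (G.Adj w v ∧ Tt v) * y v w t| ≤ c * W / 10 ^ 5) ≤ n * (2 * tiny n) := by
    refine (pr_exists_le hμ _ (2 * tiny n) fun t => ?_).trans
      (mul_le_mul_of_nonneg_right hT (by positivity))
    by_cases h1 : (∑ v, ind (G.Adj w v ∧ Tt v) * y v w t) ≤ 3 * W
    · refine (pr_mono hμ fun f hf => hf.2).trans ?_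
      exact ST3_one hN μ hμ (fun v => G.Adj w v ∧ Tt v) (fun v => y v w t) w t
        (fun v hv => hm v hv.2 w ⟨hv.1.symm, hw⟩ t) h1
    · rw [pr_false _ fun f hf => h1 hf.1]
      positivity
  have h3 := pr_or hμ (fun f => ∃ x : T × Q,
      (∑ v, ind ((G.Adj w v ∧ Tt v) ∧ cl v = x.2) * y v w x.1) ≤ 3 * W ∧
      ¬ |(∑ v, ind (((G.Adj w v ∧ Tt v) ∧ cl v = x.2) ∧ f v w = x.1)) -
        ∑ v, ind ((G.Adj w v ∧ Tt v) ∧ cl v = x.2) * y v w x.1| ≤ c * W / 10 ^ 5)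
    (fun f => ∃ t, (∑ v, ind (G.Adj w v ∧ Tt v) * y v w t) ≤ 3 * W ∧
      ¬ |(∑ v, ind ((G.Adj w v ∧ Tt v) ∧ f v w = t)) -
        ∑ v, ind (G.Adj w v ∧ Tt v) * y v w t| ≤ c * W / 10 ^ 5)
  have h4 : Pr μ (ST3_bad W c G Tt cl y w) ≤ (n * n) * (2 * tiny n) + n * (2 * tiny n) :=
    (pr_mono hμ fun f hf => hf.2).trans (h3.trans (add_le_add b1 b2))
  refine h4.trans ?_
  have h5 : (n : ℝ) ≤ (n : ℝ) ^ 3 := le_self_pow₀ hn1 (by norm_num)
  have h6 : (n : ℝ) * n ≤ (n : ℝ) ^ 3 := by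
    have : (n : ℝ) ^ 2 ≤ (n : ℝ) ^ 3 := pow_le_pow_right₀ hn1 (by norm_num)
    nlinarith
  have h7 := mul_le_mul_of_nonneg_right h5 ht0
  have h8 := mul_le_mul_of_nonneg_right h6 ht0
  have h9 : 0 ≤ (n : ℝ) ^ 3 * tiny n := by positivity
  linarith

theorem st3 {V T Q : Type} [Fintype V] [DecidableEq V] [Fintype T] [DecidableEq T] [Nonempty T]
    [Fintype Q] {n W S z : ℕ} {c : ℝ} (hN : Num n W S z c) (G : SimpleGraph V) (hG : Reg G n)
    (hT : (Fintype.card T : ℝ) ≤ n) (hQ : (Fintype.card Q : ℝ) ≤ n)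
    (Tt : V → Prop) (cl : V → Q) (y : V → V → T → ℝ) (d : V → T → ℕ)
    (h0 : ∀ v, Tt v → ∀ w, G.Adj v w → ¬ Tt w → ∀ t, 0 ≤ y v w t)
    (hr : ∀ v, Tt v → ∀ w, G.Adj v w → ¬ Tt w → ∑ t, y v w t = 1)
    (hc : ∀ v, Tt v → ∀ t, ∑ w, ind (G.Adj v w ∧ ¬ Tt w) * y v w t = d v t) :
    ∃ Z : V → V → T,
      (∀ v, Tt v → ∀ t, ∑ w, ind ((G.Adj v w ∧ ¬ Tt w) ∧ Z v w = t) = d v t) ∧
      (∀ v w, Tt v → G.Adj v w → ¬ Tt w → 0 < y v w (Z v w)) ∧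
      (∀ w, ¬ Tt w → ∀ t q, (∑ v, ind ((G.Adj w v ∧ Tt v) ∧ cl v = q) * y v w t) ≤ 3 * W →
        ∑ v, ind ((G.Adj w v ∧ Tt v) ∧ cl v = q ∧ Z v w = t) ≤
        (∑ v, ind ((G.Adj w v ∧ Tt v) ∧ cl v = q) * y v w t) + c * W / 10 ^ 5) ∧
      (∀ w, ¬ Tt w → ∀ t, (∑ v, ind (G.Adj w v ∧ Tt v) * y v w t) ≤ 3 * W →
        ∑ v, ind ((G.Adj w v ∧ Tt v) ∧ Z v w = t) ≤
        (∑ v, ind (G.Adj w v ∧ Tt v) * y v w t) + c * W / 10 ^ 5) := by
  have hex : ∀ v, ∃ nu : (V → T) → ℝ, (∀ f, 0 ≤ nu f) ∧ (∑ f, nu f = 1) ∧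
      (Tt v → (∀ f, 0 < nu f → (∀ t, ∑ w, ind ((G.Adj v w ∧ ¬ Tt w) ∧ f w = t) = d v t) ∧
        ∀ w, (G.Adj v w ∧ ¬ Tt w) → 0 < y v w (f w)) ∧
      (∀ w, (G.Adj v w ∧ ¬ Tt w) → ∀ t, ∑ f, nu f * ind (f w = t) = y v w t)) := by
    intro v
    by_cases hv : Tt v
    · obtain ⟨nu, h1, h2, h3, h4⟩ := bir (fun w => G.Adj v w ∧ ¬ Tt w) (y v) (d v)
        (fun w hw t => h0 v hv w hw.1 hw.2 t) (fun w hw => hr v hv w hw.1 hw.2) (hc v hv)
      exact ⟨nu, h1, h2, fun _ => ⟨h3, h4⟩⟩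
    · obtain ⟨t0⟩ := ‹Nonempty T›
      refine ⟨fun f => ind (f = fun _ => t0), fun f => ind_nonneg _, ?_, fun h => absurd h hv⟩
      rw [Finset.sum_eq_single (fun _ => t0)]
      · exact ind_pos rfl
      · intro f _ hf
        exact ind_neg hf
      · intro h
        exact absurd (Finset.mem_univ _) h
  choose μ hμ0 hμ1 hμT using hex
  have hμ : IsW μ := ⟨hμ0, hμ1⟩
  obtain ⟨f, hf0, hf⟩ := lll μ hμ (ST3_bad W c G Tt cl y) (fun v => {x | x = v ∨ G.Adj v x})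
    (fun v f g h => ST3_dep W c G Tt cl y v f g h) ((n + 1) ^ 3) (10 * (n : ℝ) ^ 3 * tiny n)
    (fun v => by
      refine le_trans (Set.ncard_le_ncard ?_ (Set.toFinite _)) ((ball1 G n hG v).trans ?_)
      · rintro w ⟨-, hw⟩
        rw [Set.not_disjoint_iff] at hw
        obtain ⟨x, hx1, hx2⟩ := hw
        refine ⟨x, hx1, ?_⟩
        rcases hx2 with h | h
        · exact Or.inl h
        · exact Or.inr h
      · exact Nat.pow_le_pow_right (Nat.succ_pos n) (by norm_num))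
    (ST3_pr hN G hT hQ Tt cl y μ hμ (fun v hv => (hμT v hv).2)) (tiny_poly n hN.hn)
  refine ⟨f, fun v hv => ((hμT v hv).1 (f v) (hf0 v)).1,
    fun v w hv hvw hw => ((hμT v hv).1 (f v) (hf0 v)).2 w ⟨hvw, hw⟩, ?_, ?_⟩
  · intro w hw t q hle
    have h1 : |(∑ v, ind (((G.Adj w v ∧ Tt v) ∧ cl v = q) ∧ f v w = t)) -
        ∑ v, ind ((G.Adj w v ∧ Tt v) ∧ cl v = q) * y v w t| ≤ c * W / 10 ^ 5 := by
      by_contra hcon
      exact hf w ⟨hw, Or.inl ⟨(t, q), hle, hcon⟩⟩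
    have h2 : ∑ v, ind ((G.Adj w v ∧ Tt v) ∧ cl v = q ∧ f v w = t) =
        ∑ v, ind (((G.Adj w v ∧ Tt v) ∧ cl v = q) ∧ f v w = t) :=
      Finset.sum_congr rfl fun v _ => ind_congr and_assoc.symm
    rw [h2]
    have h3 := (abs_le.1 h1).2
    linarith
  · intro w hw t hle
    have h1 : |(∑ v, ind ((G.Adj w v ∧ Tt v) ∧ f v w = t)) -
        ∑ v, ind (G.Adj w v ∧ Tt v) * y v w t| ≤ c * W / 10 ^ 5 := by
      by_contra hcon
      exact hf w ⟨hw, Or.inr ⟨t, hle, hcon⟩⟩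
    have h3 := (abs_le.1 h1).2
    linarith

end Pool.Agent.H2.HV
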