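import Mathlib
import Pool.Agent.H2.HV.ST1
import Pool.Agent.H2.HV.ST2
import Pool.Agent.H2.HV.ST3
import Pool.Agent.H2.HV.CO
import Pool.Agent.H2.HV.R2
import Pool.Agent.H2.HV.R3

/-!
R4 (about 300 lines). The rounding theorem.

st1 gives ty, co_exists gives co, st2 (with hco.bd) gives al2; Ctx. Then st3 with T = Lab J, Q = A ⊕ B, Tt v := isA (ty v).1, cl v := (ty v).1, y := yy, and d v l with
d v none = z + 1, (d v (some t) : ℝ) = ind (elT) (cap - aa) (an integer: cap is W or S - 1 with S ≥ 1, aa is a cardinality by sum_ind_eq_ncard; ≥ 0 by demand_nonneg).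
¬ Tt w iff isB (ty w).1. card T ≤ n: card J + 2 ≤ 2n/W + 1 ≤ n; card Q ≤ n by card_le (use DecidableEq V, DecidableEq (Lab J) by `classical`).
al u v := if (sm (ty u) (ty v)) then some (al2 u v) else if (isA (ty u).1) then Z u v else Z v u. (For not sm exactly one of u, v is tight.)
inA: Good1.cnt: ≤ M + c W/10^5 ≤ W (1 - c/5) + c W/10^5 < W. inB: sum of Good1.cnt over the classes in Q.
blk: sm: Good2.cpp; else yy v w (some t) > 0 so cp by yy_zero (use cp_symm). zn: sm impossible (some ≠ none); else yy none ≠ 0 so zp by yy_none_zero (zp symmetric).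
cap, v tight: Σ_u ind (Adj ∧ al v u = some t) = aa v t + d v (some t) ≤ cap (if ¬ elT: aa = 0 by cpp, d = 0; cap ≥ 0).
cap, w slack: if ¬ elT (ty w).1 t the count is 0 by blk; else ≤ [Σ yy + c W/10^5] + [Σ_sm xx + c W/10^5] ≤ cap (1-c/10) + c W/50 + 2 c W/10^5 ≤ cap (cap ≥ W - 1 ≥ W/2)
 (for the use of st3: the mean is ≤ 3 W by slack_load, all terms nonneg; cap ≤ 2 W).
capz: = z+1 from st3 column counts. capz': st3 restricted to cl v = inl a: mean ≤ (z+1)/6 (zone_load) ≤ 3 W, so the count is ≤ (z+1)/6 + c W/10^5 ≤ z + 1 (z ≥ W).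
-/

set_option autoImplicit false
set_option linter.unusedVariables false

namespace Pool.Agent.H2.HV

open Finset

variable {A B J V : Type} [Fintype A] [Fintype B] [Fintype J] [DecidableEq J] [Fintype V]
variable {D : MS A B J} {n W S z : ℕ} {c : ℝ}

omit [Fintype A] [Fintype B] in
private theorem R4_AB (k : A ⊕ B) : isA k ∨ isB k := by
  rcases k with a | b
  · exact Or.inl ⟨a, rfl⟩
  · exact Or.inr ⟨b, rfl⟩

omit [Fintype A] [Fintype B] in
private theorem R4_nAB {k : A ⊕ B} (h1 : isA k) (h2 : isB k) : False := by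
  obtain ⟨a, ha⟩ := h1
  obtain ⟨b, hb⟩ := h2
  rw [ha] at hb
  exact absurd hb (by simp)

omit [Fintype A] [Fintype B] in
private theorem R4_not {k : A ⊕ B} : ¬ isA k ↔ isB k :=
  ⟨fun h => (R4_AB k).resolve_left h, fun h h' => R4_nAB h' h⟩

omit [Fintype A] [Fintype B] [Fintype J] [DecidableEq J] in
private theorem R4_tri (k k' : Ty A B J) :
    sm k k' ∨ (isA k.1 ∧ isB k'.1) ∨ (isB k.1 ∧ isA k'.1) := by
  rcases R4_AB k.1 with h | h <;> rcases R4_AB k'.1 with h' | h'
  · exact Or.inl (Or.inl ⟨h, h'⟩)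
  · exact Or.inr (Or.inl ⟨h, h'⟩)
  · exact Or.inr (Or.inr ⟨h, h'⟩)
  · exact Or.inl (Or.inr ⟨h, h'⟩)

omit [Fintype A] [Fintype B] [Fintype J] [DecidableEq J] in
private theorem R4_zp {k k' : A ⊕ B} (h : D.zp k k') : D.zp k' k := by
  obtain ⟨a, h⟩ := h
  exact ⟨a, h.symm⟩

omit [DecidableEq J] in
private theorem R4_capnat (hN : Num n W S z c) (t : Option J) : ∃ m : ℕ, cap W S t = (m : ℝ) := by
  cases t with
  | none =>
    have hW := (num_c hN).2.1
    have hW1 : 1 ≤ W := by
      have : (0 : ℝ) < W := hW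
      exact_mod_cast this
    have hS : 1 ≤ S := hW1.trans hN.S0
    refine ⟨S - 1, ?_⟩
    show (S : ℝ) - 1 = _
    rw [Nat.cast_sub hS]
    simp
  | some j => exact ⟨W, rfl⟩

/-- sum of the indicators over the classes -/
private theorem R4_inB (G : SimpleGraph V) (ty : V → Ty A B J) (L : ℝ)
    (hL : ∀ v b, ∑ u, ind (G.Adj v u ∧ (ty u).1 = Sum.inr b) ≤ L) (v : V) (Q : B → Prop) :
    ∑ u, ind (G.Adj v u ∧ ∃ b, Q b ∧ (ty u).1 = Sum.inr b) ≤ L * Set.ncard {b | Q b} := by
  have h1 : ∀ u, ind (G.Adj v u ∧ ∃ b, Q b ∧ (ty u).1 = Sum.inr b) ≤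
      ∑ b, ind (Q b) * ind (G.Adj v u ∧ (ty u).1 = Sum.inr b) := by
    intro u
    by_cases h : G.Adj v u ∧ ∃ b, Q b ∧ (ty u).1 = Sum.inr b
    · rw [ind_pos h]
      obtain ⟨ha, b, hb, hb2⟩ := h
      have h2 := Finset.single_le_sum (f := fun b => ind (Q b) *
        ind (G.Adj v u ∧ (ty u).1 = Sum.inr b))
        (fun b _ => mul_nonneg (ind_nonneg _) (ind_nonneg _)) (Finset.mem_univ b)
      have h3 : ind (Q b) * ind (G.Adj v u ∧ (ty u).1 = Sum.inr b) = 1 := by
        rw [ind_pos hb, ind_pos ⟨ha, hb2⟩, one_mul]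
      rw [← h3]
      exact h2
    · rw [ind_neg h]
      exact Finset.sum_nonneg fun b _ => mul_nonneg (ind_nonneg _) (ind_nonneg _)
  calc ∑ u, ind (G.Adj v u ∧ ∃ b, Q b ∧ (ty u).1 = Sum.inr b)
      ≤ ∑ u, ∑ b, ind (Q b) * ind (G.Adj v u ∧ (ty u).1 = Sum.inr b) :=
        Finset.sum_le_sum fun u _ => h1 u
    _ = ∑ b, ind (Q b) * ∑ u, ind (G.Adj v u ∧ (ty u).1 = Sum.inr b) := by
        rw [Finset.sum_comm]
        exact Finset.sum_congr rfl fun b _ => by rw [Finset.mul_sum]
    _ ≤ ∑ b, ind (Q b) * L :=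
        Finset.sum_le_sum fun b _ => mul_le_mul_of_nonneg_left (hL v b) (ind_nonneg _)
    _ = L * Set.ncard {b | Q b} := by
        rw [← Finset.sum_mul, sum_ind_eq_ncard, mul_comm]

theorem realise (hN : Num n W S z c) (hD : D.Ok n W S z c) (G : SimpleGraph V) (hG : Reg G n) :
    ∃ (ty : V → Ty A B J) (al : V → V → Lab J), Rl G D W S z (D.be + c * W / 10 ^ 5) ty al := by
  classical
  obtain ⟨ty, g1⟩ := st1 hN hD G hG
  obtain ⟨co, hco⟩ := co_exists hN hD g1
  obtain ⟨al2, g2⟩ := st2 hN hD hG g1 co hco.bd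
  have h : Ctx G D n W S z c ty co al2 := ⟨hN, hD, hG, g1, hco, g2⟩
  obtain ⟨hn0, hW0, -, -, -, -, hW20, hom⟩ := num_c hN
  have hc0 := hN.c0
  have hc1 := hN.c1
  have hcW : 0 < c * W := mul_pos hc0 hW0
  have hcW1 : c * W ≤ 1 / 10 ^ 5 * W := mul_le_mul_of_nonneg_right hc1 hW0.le
  have hzW : (W : ℝ) ≤ z := by exact_mod_cast hN.z0
  have hz2 := LDB_z1 hN
  -- the demands
  have hdex : ∀ v, ∃ dv : Lab J → ℕ, isA (ty v).1 → (dv none : ℝ) = (z : ℝ) + 1 ∧
      ∀ t, (dv (some t) : ℝ) = ind (D.elT (ty v).1 t) * (cap W S t - aa G ty al2 v t) := by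
    intro v
    by_cases hv : isA (ty v).1
    · have hm : ∀ t : Option J, ∃ m : ℕ, (m : ℝ) =
          ind (D.elT (ty v).1 t) * (cap W S t - aa G ty al2 v t) := by
        intro t
        have hnn := demand_nonneg h v hv t
        by_cases he : D.elT (ty v).1 t
        · rw [ind_pos he, one_mul] at hnn ⊢
          obtain ⟨m1, hm1⟩ := R4_capnat (J := J) hN t
          obtain ⟨m2, hm2⟩ : ∃ m2 : ℕ, aa G ty al2 v t = (m2 : ℝ) := by
            unfold aa
            rw [sum_ind_eq_ncard]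
            exact ⟨_, rfl⟩
          rw [hm1, hm2] at hnn ⊢
          have hle : m2 ≤ m1 := by
            have : (m2 : ℝ) ≤ m1 := by linarith
            exact_mod_cast this
          exact ⟨m1 - m2, by rw [Nat.cast_sub hle]⟩
        · exact ⟨0, by rw [ind_neg he, zero_mul, Nat.cast_zero]⟩
      choose m hm using hm
      refine ⟨fun l => match l with
        | none => z + 1
        | some t => m t, fun _ => ⟨?_, fun t => hm t⟩⟩
      show ((z + 1 : ℕ) : ℝ) = (z : ℝ) + 1
      push_cast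
      rfl
    · exact ⟨fun _ => 0, fun h' => absurd h' hv⟩
  choose d hd using hdex
  have hindB : ∀ v w, ind (G.Adj v w ∧ ¬ isA (ty w).1) = ind (G.Adj v w ∧ isB (ty w).1) :=
    fun v w => ind_congr (and_congr_right fun _ => R4_not)
  have hcard := ST1_card hN hD
  have hT : (Fintype.card (Lab J) : ℝ) ≤ n := by
    have h1 : (Fintype.card (Lab J) : ℝ) = (Fintype.card J : ℝ) + 1 + 1 := by
      rw [Fintype.card_option, Fintype.card_option]
      push_cast
      ring
    rw [h1]
    have h2 := hD.cardJ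
    have h3 : 2 / ((W : ℝ) / n) ≤ n / 2 := by
      rw [div_le_iff₀ hom]
      have h4 : (n : ℝ) / 2 * ((W : ℝ) / n) = W / 2 := by field_simp
      rw [h4]
      linarith [show (4 : ℝ) ≤ 10 ^ 20 by norm_num]
    have h5 : (100 : ℝ) ≤ n := by exact_mod_cast hN.hn
    linarith
  obtain ⟨Z, z1, z2, z3, z4⟩ := st3 (T := Lab J) (Q := A ⊕ B) hN G hG hT hcard.1
    (fun v => isA (ty v).1) (fun v => (ty v).1) (yy G D W S z ty co al2) d
    (fun v hv w ha hw t => yy_nonneg h v w hv (R4_not.1 hw) ha t)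
    (fun v hv w ha hw => yy_row h v w hv (R4_not.1 hw) ha)
    (fun v hv t => by
      rw [Finset.sum_congr rfl fun w _ => by rw [hindB v w]]
      cases t with
      | none => rw [yy_col_none h v hv, (hd v hv).1]
      | some t => rw [yy_col h v hv t, (hd v hv).2 t])
  obtain ⟨al, hal⟩ : ∃ al : V → V → Lab J, al = fun u v =>
      if sm (ty u) (ty v) then some (al2 u v) else if isA (ty u).1 then Z u v else Z v u :=
    ⟨_, rfl⟩
  have al_sm : ∀ u v, sm (ty u) (ty v) → al u v = some (al2 u v) := by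
    intro u v hs
    rw [hal]
    exact if_pos hs
  have al_AB : ∀ u v, isA (ty u).1 → isB (ty v).1 → al u v = Z u v := by
    intro u v hu hv
    have hns : ¬ sm (ty u) (ty v) := by
      rintro (⟨_, h2⟩ | ⟨h1, _⟩)
      · exact R4_nAB h2 hv
      · exact R4_nAB hu h1
    rw [hal]
    show (if sm (ty u) (ty v) then some (al2 u v) else if isA (ty u).1 then Z u v else Z v u) = _
    rw [if_neg hns, if_pos hu]
  have al_BA : ∀ u v, isB (ty u).1 → isA (ty v).1 → al u v = Z v u := by
    intro u v hu hv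
    have hns : ¬ sm (ty u) (ty v) := by
      rintro (⟨h1, _⟩ | ⟨_, h2⟩)
      · exact R4_nAB h1 hu
      · exact R4_nAB hv h2
    rw [hal]
    show (if sm (ty u) (ty v) then some (al2 u v) else if isA (ty u).1 then Z u v else Z v u) = _
    rw [if_neg hns, if_neg (R4_not.2 hu)]
  have hblk : ∀ u v t, G.Adj u v → al u v = some t → cp D (ty u) (ty v) t := by
    intro u v t ha he
    rcases R4_tri (ty u) (ty v) with hs | ⟨hu, hv⟩ | ⟨hu, hv⟩
    · rw [al_sm u v hs, Option.some_inj] at he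
      rw [← he]
      exact g2.cpp u v ha hs
    · rw [al_AB u v hu hv] at he
      have h1 := z2 u v hu ha (R4_not.2 hv)
      rw [he] at h1
      by_contra hcp
      rw [yy_zero h u v t hcp] at h1
      exact lt_irrefl _ h1
    · rw [al_BA u v hu hv] at he
      have h1 := z2 v u hv ha.symm (R4_not.2 hu)
      rw [he] at h1
      apply cp_symm
      by_contra hcp
      rw [yy_zero h v u t hcp] at h1
      exact lt_irrefl _ h1
  refine ⟨ty, al, ?_, ?_, ?_, hblk, ?_, ?_, ?_, ?_⟩
  · -- symm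
    intro u v
    rcases R4_tri (ty u) (ty v) with hs | ⟨hu, hv⟩ | ⟨hu, hv⟩
    · rw [al_sm u v hs, al_sm v u (sm_symm hs), g2.symm]
    · rw [al_AB u v hu hv, al_BA v u hv hu]
    · rw [al_BA u v hu hv, al_AB v u hv hu]
  · -- inA
    intro v a
    have h1 := (abs_le.1 (g1.cnt v (Sum.inl a))).2
    have h2 := hD.M_A a
    have h3 : (W : ℝ) * (1 - c / 5) = W - c * W / 5 := by ring
    rw [h3] at h2
    linarith
  · -- inB
    intro v Q
    refine R4_inB G ty _ (fun v b => ?_) v Q
    have h1 := (abs_le.1 (g1.cnt v (Sum.inr b))).2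
    rw [hD.M_B b] at h1
    linarith
  · -- zn
    intro u v ha he
    rcases R4_tri (ty u) (ty v) with hs | ⟨hu, hv⟩ | ⟨hu, hv⟩
    · rw [al_sm u v hs] at he
      exact absurd he (by simp)
    · rw [al_AB u v hu hv] at he
      have h1 := z2 u v hu ha (R4_not.2 hv)
      rw [he] at h1
      by_contra hz
      rw [yy_none_zero h u v hz] at h1
      exact lt_irrefl _ h1
    · rw [al_BA u v hu hv] at he
      have h1 := z2 v u hv ha.symm (R4_not.2 hu)
      rw [he] at h1
      apply R4_zp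
      by_contra hz
      rw [yy_none_zero h v u hz] at h1
      exact lt_irrefl _ h1
  · -- cap
    intro v t
    obtain ⟨hcap0, hcap2⟩ := XXB_cap (J := J) hN t
    rcases R4_AB (ty v).1 with hv | hv
    · -- tight
      have h1 : ∀ u, ind (G.Adj v u ∧ al v u = some t) =
          ind (G.Adj v u ∧ isA (ty u).1 ∧ al2 v u = t) +
            ind ((G.Adj v u ∧ ¬ isA (ty u).1) ∧ Z v u = some t) := by
        intro u
        rcases R4_AB (ty u).1 with hu | hu
        · rw [al_sm v u (Or.inl ⟨hv, hu⟩)]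
          have e1 : ind ((G.Adj v u ∧ ¬ isA (ty u).1) ∧ Z v u = some t) = 0 :=
            ind_neg fun h2 => h2.1.2 hu
          rw [e1, add_zero]
          refine ind_congr ⟨fun h2 => ⟨h2.1, hu, Option.some_inj.1 h2.2⟩,
            fun h2 => ⟨h2.1, by rw [h2.2.2]⟩⟩
        · rw [al_AB v u hv hu]
          have e1 : ind (G.Adj v u ∧ isA (ty u).1 ∧ al2 v u = t) = 0 :=
            ind_neg fun h2 => R4_nAB h2.2.1 hu
          rw [e1, zero_add]
          exact ind_congr ⟨fun h2 => ⟨⟨h2.1, R4_not.2 hu⟩, h2.2⟩, fun h2 => ⟨h2.1.1, h2.2⟩⟩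
      rw [Finset.sum_congr rfl fun u _ => h1 u, Finset.sum_add_distrib, z1 v hv (some t),
        (hd v hv).2 t]
      show aa G ty al2 v t + ind (D.elT (ty v).1 t) * (cap W S t - aa G ty al2 v t) ≤ cap W S t
      by_cases he : D.elT (ty v).1 t
      · rw [ind_pos he]
        linarith
      · have h2 : aa G ty al2 v t = 0 := by
          unfold aa
          refine Finset.sum_eq_zero fun u _ => ind_neg ?_
          rintro ⟨q1, q2, q3⟩
          have q4 := g2.cpp v u q1 (Or.inl ⟨hv, q2⟩)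
          rw [q3] at q4
          exact he q4.1
        rw [h2, ind_neg he]
        linarith
    · -- slack
      by_cases he : D.elT (ty v).1 t
      · have h1 : ∀ u, ind (G.Adj v u ∧ al v u = some t) =
            ind (G.Adj v u ∧ sm (ty v) (ty u) ∧ al2 v u = t) +
              ind ((G.Adj v u ∧ isA (ty u).1) ∧ Z u v = some t) := by
          intro u
          rcases R4_AB (ty u).1 with hu | hu
          · rw [al_BA v u hv hu]
            have e1 : ind (G.Adj v u ∧ sm (ty v) (ty u) ∧ al2 v u = t) = 0 := by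
              refine ind_neg fun h2 => ?_
              rcases h2.2.1 with h3 | h3
              · exact R4_nAB h3.1 hv
              · exact R4_nAB hu h3.2
            rw [e1, zero_add]
            exact ind_congr ⟨fun h2 => ⟨⟨h2.1, hu⟩, h2.2⟩, fun h2 => ⟨h2.1.1, h2.2⟩⟩
          · rw [al_sm v u (Or.inr ⟨hv, hu⟩)]
            have e1 : ind ((G.Adj v u ∧ isA (ty u).1) ∧ Z u v = some t) = 0 :=
              ind_neg fun h2 => R4_nAB h2.1.2 hu
            rw [e1, add_zero]
            refine ind_congr ⟨fun h2 => ⟨h2.1, Or.inr ⟨hv, hu⟩, Option.some_inj.1 h2.2⟩,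
              fun h2 => ⟨h2.1, by rw [h2.2.2]⟩⟩
        rw [Finset.sum_congr rfl fun u _ => h1 u, Finset.sum_add_distrib]
        have hsl := slack_load h v hv t he
        have hxx0 : 0 ≤ ∑ u, ind (G.Adj v u ∧ sm (ty v) (ty u)) * xx D (ty v) (ty u) t :=
          Finset.sum_nonneg fun u _ => mul_nonneg (ind_nonneg _) (xx_nonneg hD _ _ _)
        have hcapc : 0 ≤ cap W S t * (c / 10) := mul_nonneg hcap0 (by positivity)
        have hcap1 : cap W S t * (1 - c / 10) = cap W S t - cap W S t * (c / 10) := by ring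
        rw [hcap1] at hsl
        have hm3 : (∑ x, ind (G.Adj v x ∧ isA (ty x).1) * yy G D W S z ty co al2 x v (some t)) ≤
            3 * W := by
          have : c * W / 50 ≤ W := by linarith
          linarith
        have h2 := z4 v (R4_not.2 hv) (some t) hm3
        have h3 := (abs_le.1 (g2.cnt v t)).2
        have hcapW : (W : ℝ) / 2 ≤ cap W S t := by
          have hS0 : (W : ℝ) ≤ S := by exact_mod_cast hN.S0
          cases t with
          | none =>
            show (W : ℝ) / 2 ≤ (S : ℝ) - 1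
            linarith [show (2 : ℝ) ≤ 10 ^ 20 by norm_num]
          | some j =>
            show (W : ℝ) / 2 ≤ (W : ℝ)
            linarith
        have h4 : (W : ℝ) / 2 * (c / 10) ≤ cap W S t * (c / 10) :=
          mul_le_mul_of_nonneg_right hcapW (by positivity)
        have h5 : (W : ℝ) / 2 * (c / 10) = c * W / 20 := by ring
        rw [h5] at h4
        linarith
      · have h1 : ∑ u, ind (G.Adj v u ∧ al v u = some t) = 0 := by
          refine Finset.sum_eq_zero fun u _ => ind_neg ?_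
          rintro ⟨q1, q2⟩
          exact he (hblk v u t q1 q2).1
        rw [h1]
        exact hcap0
  · -- capz
    intro v a hva
    have hv : isA (ty v).1 := ⟨a, hva⟩
    have h1 : ∀ u, ind (G.Adj v u ∧ al v u = none) =
        ind ((G.Adj v u ∧ ¬ isA (ty u).1) ∧ Z v u = none) := by
      intro u
      rcases R4_AB (ty u).1 with hu | hu
      · rw [al_sm v u (Or.inl ⟨hv, hu⟩), ind_neg (fun h2 => by exact absurd h2.2 (by simp)),
          ind_neg (fun h2 => h2.1.2 hu)]
      · rw [al_AB v u hv hu]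
        exact ind_congr ⟨fun h2 => ⟨⟨h2.1, R4_not.2 hu⟩, h2.2⟩, fun h2 => ⟨h2.1.1, h2.2⟩⟩
    rw [Finset.sum_congr rfl fun u _ => h1 u, z1 v hv none, (hd v hv).1]
  · -- capz'
    intro v a hva
    have hv : isB (ty v).1 := ⟨_, hva⟩
    have h1 : ∀ u, ind (G.Adj v u ∧ (ty u).1 = Sum.inl a ∧ al v u = none) =
        ind ((G.Adj v u ∧ isA (ty u).1) ∧ (ty u).1 = Sum.inl a ∧ Z u v = none) := by
      intro u
      rcases R4_AB (ty u).1 with hu | hu
      · rw [al_BA v u hv hu]
        exact ind_congr ⟨fun h2 => ⟨⟨h2.1, hu⟩, h2.2⟩, fun h2 => ⟨h2.1.1, h2.2⟩⟩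
      · rw [ind_neg (fun h2 => R4_nAB ⟨a, h2.2.1⟩ hu), ind_neg (fun h2 => R4_nAB h2.1.2 hu)]
    rw [Finset.sum_congr rfl fun u _ => h1 u]
    have h2 : ∀ u, ind ((G.Adj v u ∧ isA (ty u).1) ∧ (ty u).1 = Sum.inl a) =
        ind (G.Adj v u ∧ (ty u).1 = Sum.inl a) := fun u =>
      ind_congr ⟨fun h3 => ⟨h3.1.1, h3.2⟩, fun h3 => ⟨⟨h3.1, a, h3.2⟩, h3.2⟩⟩
    have h3 := zone_load h v a hva
    have h4 : (∑ x, ind ((G.Adj v x ∧ isA (ty x).1) ∧ (ty x).1 = Sum.inl a) *
        yy G D W S z ty co al2 x v none) ≤ ((z : ℝ) + 1) / 6 := by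
      rw [Finset.sum_congr rfl fun u _ => by rw [h2 u]]
      exact h3
    have h5 := z3 v (R4_not.2 hv) none (Sum.inl a) (by linarith)
    linarith

end Pool.Agent.H2.HV
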