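import Mathlib
import Pool.Agent.H2.HV.R4
import Pool.Agent.H2.HV.COL
import Pool.Agent.H2.HV.ASP
import Pool.Agent.H2.HV.MKO
import Pool.Agent.H2.HV.GEO
import Pool.Agent.H2.HV.PRM
import Pool.Agent.H28.Embed
import Pool.Agent.H28.HZ.ALL

/-!
FIN: the exact Havet-Yu bound for all `p ≥ C Δ^(3/4) (log Δ)^(1/4)`.
-/

set_option autoImplicit false
set_option linter.unusedVariables false

namespace Pool.Agent.H2.HV

open Finset

/-- The regular case. -/
theorem reg_main (n p : ℕ) (hn : 10 ^ 100 ≤ n)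
    (h1 : (10:ℝ) ^ 24 * Real.log n * (n : ℝ) ^ 3 ≤ (p : ℝ) ^ 4) (h2 : (p : ℝ) ≤ n / 10 ^ 5)
    (V : Type) [Fintype V] [DecidableEq V] (G : SimpleGraph V) (hG : Reg G n) : HYL G n p := by
  obtain ⟨q, hq, rfl, rfl⟩ := PQ.params n p hn h1 h2
  have hR : 0 < q.R := by
    have := (PQ.f_nat hq).2.2.2.2.1
    omega
  have hD := PQ.mk_ok hq hR
  obtain ⟨ty, al, hRl⟩ := realise hq.num hD G hG
  have hgeo := PQ.geo hq hR
  have hb1 := PQ.nL_lt hq hR true
  have hb2 := PQ.nL_lt hq hR false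
  have hset : {b : Bool × Fin q.R | ¬ b.1 = true} = {b : Bool × Fin q.R | b.1 = false} := by
    ext b
    simp
  obtain ⟨col, cv, hC⟩ := col_exists G (q.D hR) q.W q.S q.z q.len hgeo.W0
    (le_trans hgeo.W0 hgeo.S0) _ ty al hRl (fun b => b.1 = true) hb1 (by rw [hset]; exact hb2)
  exact asm hgeo hRl hC

/-- Pull back along an embedding into a regular graph. -/
theorem pull {V : Type} [Fintype V] (G : SimpleGraph V) (n p : ℕ) {W : Type} (H : SimpleGraph W)
    (φ : V → W) (hφ : Function.Injective φ) (ha : ∀ u v, G.Adj u v → H.Adj (φ u) (φ v))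
    (h : HYL H n p) : H70.HY.HYLab G n p := by
  obtain ⟨fV, fE, h1, h2, h3, h4, h5, h6⟩ := h
  refine ⟨fun v => fV (φ v), Sym2.lift ⟨fun u v => fE (φ u) (φ v), fun u v => h1 _ _⟩,
    fun v => h2 _, ?_, fun u v huv => h4 _ _ (ha u v huv), ?_, ?_⟩
  · intro e
    induction e with
    | _ u v =>
      intro he
      exact h3 _ _ (ha u v he)
  · intro u v huv
    have := h5 _ _ (ha u v huv)
    simp only [Sym2.lift_mk]
    rw [le_abs]
    rcases this with h | h
    · right; omega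
    · left; omega
  · intro u v w huv huw hne
    simp only [Sym2.lift_mk]
    exact h6 _ _ _ (ha u v huv) (ha u w huw) (fun h => hne (hφ h))

theorem ncard_nb {V : Type} [Fintype V] (G : SimpleGraph V) [DecidableRel G.Adj] (v : V) :
    (G.neighborSet v).ncard ≤ G.maxDegree := by
  classical
  have h1 : (G.neighborSet v).ncard = G.degree v := by
    rw [← SimpleGraph.card_neighborFinset_eq_degree, ← Set.ncard_coe_finset]
    congr 1
    ext u
    simp
  rw [h1]
  exact G.degree_le_maxDegree v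

theorem main1 (V : Type) [Fintype V] (G : SimpleGraph V) [DecidableRel G.Adj] (p : ℕ)
    (hn : 10 ^ 100 ≤ G.maxDegree)
    (h1 : (10:ℝ) ^ 24 * Real.log G.maxDegree * (G.maxDegree : ℝ) ^ 3 ≤ (p : ℝ) ^ 4)
    (h2 : (p : ℝ) ≤ G.maxDegree / 10 ^ 5) : H70.HY.HYLab G G.maxDegree p := by
  classical
  obtain ⟨W, _, _, H, φ, hφ, ha, hreg⟩ :=
    H28.regular_embed V G G.maxDegree (fun v => ncard_nb G v)
  refine pull G _ p H φ hφ ha (reg_main _ p hn h1 h2 W H ?_)
  intro v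
  rw [sum_ind_eq_ncard]
  have := hreg v
  unfold SimpleGraph.neighborSet at this
  rw [this]

/-- The simple case `p ≥ Δ + 1`: greedy vertex colouring below, Vizing above. -/
theorem easy (V : Type) [Fintype V] (G : SimpleGraph V) [DecidableRel G.Adj] (p : ℕ)
    (hp : G.maxDegree + 1 ≤ p) : H70.HY.HYLab G G.maxDegree p := by
  classical
  obtain ⟨c, hc, hc'⟩ := H28.greedy (fun u v => G.Adj u v) (fun a b h => h.symm)
    (G.maxDegree + 1) (fun a => by
      have := ncard_nb G a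
      unfold SimpleGraph.neighborSet at this
      omega)
  obtain ⟨ec, he1, he2⟩ := H28.vizing (G := G) (d := G.maxDegree) (fun v => ncard_nb G v)
  refine ⟨c, fun e => G.maxDegree + p + ec e, ?_, ?_, ?_, ?_, ?_⟩
  · intro v; have := hc v; omega
  · intro e
    induction e with
    | _ u v =>
      intro he
      have := he1 u v he
      show G.maxDegree + p + ec s(u, v) ≤ _
      omega
  · intro u v huv; exact hc' u v huv.ne huv
  · intro u v huv
    have := hc u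
    rw [le_abs]
    right
    show (p : ℤ) ≤ -((c u : ℤ) - ((G.maxDegree + p + ec s(u, v) : ℕ) : ℤ))
    push_cast
    omega
  · intro u v w huv huw hne h
    have := he2 u v w huv huw hne
    simp only at h
    omega

/-- The final theorem. -/
theorem main_hv : ∃ C : ℝ, 0 < C ∧
    ∀ (V : Type) [Fintype V] (G : SimpleGraph V) [DecidableRel G.Adj] (p : ℕ),
      2 ≤ G.maxDegree →
      C * (G.maxDegree : ℝ) ^ (3 / 4 : ℝ) * (Real.log G.maxDegree) ^ (1 / 4 : ℝ) ≤ (p : ℝ) →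
      H70.HY.HYLab G G.maxDegree p := by
  obtain ⟨N0, hN0⟩ := H28.HZ.all (1 / 10 ^ 5) (by norm_num)
  obtain ⟨N1, hN1⟩ : ∃ N1 : ℕ, N1 = max (10 ^ 100) N0 := ⟨_, rfl⟩
  have hN1a : 10 ^ 100 ≤ N1 := by rw [hN1]; exact le_max_left _ _
  have hN1b : N0 ≤ N1 := by rw [hN1]; exact le_max_right _ _
  clear hN1
  refine ⟨2 * N1 + 10 ^ 6, by positivity, ?_⟩
  intro V _ G _ p h2 hp
  obtain ⟨n, hn⟩ : ∃ n, n = G.maxDegree := ⟨_, rfl⟩
  have hn2 : (2:ℝ) ≤ G.maxDegree := by exact_mod_cast h2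
  have hnpos : (0:ℝ) < G.maxDegree := by linarith
  by_cases hbig : N1 ≤ G.maxDegree
  · by_cases hpe : (1 / 10 ^ 5 : ℝ) * G.maxDegree ≤ p
    · exact hN0 V G p (hN1b.trans hbig) hpe
    · push Not at hpe
      refine main1 V G p (hN1a.trans hbig) ?_ (by linarith)
      have hlog : 0 ≤ Real.log (G.maxDegree : ℝ) := Real.log_nonneg (by linarith)
      have hC : (10:ℝ) ^ 6 ≤ 2 * N1 + 10 ^ 6 := by
        have : (0:ℝ) ≤ N1 := Nat.cast_nonneg _
        linarith
      have hx : 0 ≤ (G.maxDegree : ℝ) ^ (3 / 4 : ℝ) * (Real.log G.maxDegree) ^ (1 / 4 : ℝ) :=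
        mul_nonneg (Real.rpow_nonneg hnpos.le _) (Real.rpow_nonneg hlog _)
      have hp' : (10:ℝ) ^ 6 * ((G.maxDegree : ℝ) ^ (3 / 4 : ℝ) *
          (Real.log G.maxDegree) ^ (1 / 4 : ℝ)) ≤ p := by
        refine le_trans (mul_le_mul_of_nonneg_right hC hx) ?_
        rw [← mul_assoc]
        exact hp
      have h4 := pow_le_pow_left₀ (by positivity) hp' 4
      have e1 : ((10:ℝ) ^ 6 * ((G.maxDegree : ℝ) ^ (3 / 4 : ℝ) *
          (Real.log G.maxDegree) ^ (1 / 4 : ℝ))) ^ 4 =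
          (10:ℝ) ^ 24 * Real.log G.maxDegree * (G.maxDegree : ℝ) ^ 3 := by
        rw [mul_pow, mul_pow, ← Real.rpow_natCast ((G.maxDegree : ℝ) ^ (3 / 4 : ℝ)) 4,
          ← Real.rpow_natCast ((Real.log G.maxDegree) ^ (1 / 4 : ℝ)) 4,
          ← Real.rpow_mul hnpos.le, ← Real.rpow_mul hlog]
        have e2 : (3 / 4 : ℝ) * ((4 : ℕ) : ℝ) = ((3 : ℕ) : ℝ) := by norm_num
        have e3 : (1 / 4 : ℝ) * ((4 : ℕ) : ℝ) = ((1 : ℕ) : ℝ) := by norm_num
        rw [e2, e3, Real.rpow_natCast, Real.rpow_natCast]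
        ring
      rw [e1] at h4
      exact h4
  · push Not at hbig
    refine easy V G p ?_
    -- C * n^(3/4) * (log n)^(1/4) ≥ N1 + 1 ≥ n + 1
    have ha : (1:ℝ) ≤ (G.maxDegree : ℝ) ^ (3 / 4 : ℝ) :=
      Real.one_le_rpow (by linarith) (by norm_num)
    have hlog2 : (1 / 2 : ℝ) ≤ Real.log (G.maxDegree : ℝ) := by
      have h := Real.log_le_log (by norm_num : (0:ℝ) < 2) hn2
      have := Real.log_two_gt_d9
      linarith
    have hb : (1 / 2 : ℝ) ≤ (Real.log (G.maxDegree : ℝ)) ^ (1 / 4 : ℝ) := by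
      have h := Real.rpow_le_rpow (by norm_num : (0:ℝ) ≤ 1 / 2) hlog2
        (by norm_num : (0:ℝ) ≤ 1 / 4)
      refine le_trans ?_ h
      have h' := Real.rpow_le_rpow_of_exponent_ge (by norm_num : (0:ℝ) < 1 / 2)
        (by norm_num : (1 / 2 : ℝ) ≤ 1) (by norm_num : (1 / 4 : ℝ) ≤ 1)
      rw [Real.rpow_one] at h'
      exact h'
    have hN : (0:ℝ) ≤ N1 := Nat.cast_nonneg _
    have h3 : ((G.maxDegree : ℝ) + 1) ≤ p := by
      refine le_trans ?_ hp
      have hm : (G.maxDegree : ℝ) + 1 ≤ N1 := by exact_mod_cast hbig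
      have hab : (1 / 2 : ℝ) ≤ (G.maxDegree : ℝ) ^ (3 / 4 : ℝ) *
          (Real.log (G.maxDegree : ℝ)) ^ (1 / 4 : ℝ) := by nlinarith
      rw [mul_assoc]
      nlinarith
    exact_mod_cast h3

end Pool.Agent.H2.HV
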